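import Mathlib

set_option autoImplicit false

/-!
TEAM Q2 (helper304, helper385): twists of the L-function of `E : y^2 = x^3 - x`.
Definitions shared by all modules of the analytic part.
-/

namespace Pool.Agent.H304R2.EC

/-- primary Gaussian integers `a + b i` of norm `n`, as pairs: `b` even, `a + b ≡ 1 (mod 4)` -/
noncomputable def PS (n : ℕ) : Finset (ℤ × ℤ) :=
  ((Finset.Icc (-(n : ℤ)) n) ×ˢ (Finset.Icc (-(n : ℤ)) n)).filter
    (fun p => p.2 % 2 = 0 ∧ (p.1 + p.2) % 4 = 1 ∧ p.1 ^ 2 + p.2 ^ 2 = n)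

/-- sum of a function over the primary Gaussian integers of norm `n` -/
noncomputable def Sh (h : GaussianInt → ℂ) (n : ℕ) : ℂ := ∑ p ∈ PS n, h ⟨p.1, p.2⟩

/-- the coefficients of `L(E, s)` : sum of the real parts of the primary elements of norm `n` -/
noncomputable def an (n : ℕ) : ℤ := ∑ p ∈ PS n, p.1

/-- the coefficients of the weight three form: sum of the real parts of `α ^ 2` -/
noncomputable def gn (n : ℕ) : ℤ := ∑ p ∈ PS n, (p.1 ^ 2 - p.2 ^ 2)

/-- power sums `α_p ^ k + β_p ^ k`, where `α_p + β_p = an p` and `α_p β_p = p` -/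
noncomputable def tt (p : ℕ) : ℕ → ℤ
  | 0 => 2
  | 1 => an p
  | (k + 2) => an p * tt p (k + 1) - p * tt p k

/-- normalised power sums: `c(p^k) = (α_p^k + β_p^k) / p^(k/2)` for odd `p`, `0` otherwise -/
noncomputable def cc (n : ℕ) : ℝ :=
  if IsPrimePow n ∧ n.minFac ≠ 2 then
    (tt n.minFac (n.factorization n.minFac) : ℝ) / Real.sqrt n
  else 0

/-- the twisted theta series `∑ χ(n) a(n) e^{-π n y}` -/
noncomputable def TH (q : ℕ) (χ : DirichletCharacter ℂ q) (y : ℝ) : ℂ :=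
  ∑' n : ℕ, χ (n : ZMod q) * (an n : ℂ) * (Real.exp (-Real.pi * n * y) : ℂ)

/-- the twisted L-function of `E`, analytic normalisation: `FF q χ s = L(E ⊗ χ, s + 1/2)` -/
noncomputable def FF (q : ℕ) (χ : DirichletCharacter ℂ q) (s : ℂ) : ℂ :=
  (Real.pi : ℂ) ^ (s + 1 / 2) * (Complex.Gamma (s + 1 / 2))⁻¹ * mellin (TH q χ) (s + 1 / 2)

/-- `p` minus the number of affine points of `y^2 = x^3 - x` over `ZMod p` -/
noncomputable def aE (p : ℕ) : ℤ :=
  (p : ℤ) - (((Finset.range p ×ˢ Finset.range p).filter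
    (fun xy : ℕ × ℕ => (p : ℤ) ∣ (xy.2 : ℤ) ^ 2 - ((xy.1 : ℤ) ^ 3 - (xy.1 : ℤ)))).card : ℤ)

end Pool.Agent.H304R2.EC
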