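import Mathlib
import Pool.Agent.H304R2.EC.Defs

set_option autoImplicit false

/-!
TEAM Q2, task A1 (helper831): sums over primary Gaussian integers.
-/

open Finset

namespace Pool.Agent.H304R2.EC

namespace A1

/-- the congruence condition `z ≡ 1 (mod 2 + 2 i)` read modulo `4` -/
def Q (a b : ZMod 4) : Prop := (a = 1 ∧ b = 0) ∨ (a = 3 ∧ b = 2)

instance (a b : ZMod 4) : Decidable (Q a b) := by unfold Q; infer_instance

/-- primary Gaussian integers -/
def prim (z : GaussianInt) : Prop := z.im % 2 = 0 ∧ (z.re + z.im) % 4 = 1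

theorem prim_iff (z : GaussianInt) : prim z ↔ Q (z.re : ZMod 4) (z.im : ZMod 4) := by
  have h4 : ∀ (a : ℤ) (r : ℤ), ((a : ZMod 4) = (r : ZMod 4)) ↔ a % 4 = r % 4 := by
    intro a r
    have := ZMod.intCast_eq_intCast_iff' a r 4
    simpa using this
  have e1 := h4 z.re 1
  have e3 := h4 z.re 3
  have e0 := h4 z.im 0
  have e2 := h4 z.im 2
  unfold prim Q
  push_cast at e1 e3 e0 e2
  rw [e1, e3, e0, e2]
  omega

theorem Q_mul : ∀ a b c d : ZMod 4, Q a b → Q c d → Q (a * c - b * d) (a * d + b * c) := by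
  decide

theorem Q_cancel : ∀ a b c d : ZMod 4, Q a b → Q (a * c - b * d) (a * d + b * c) → Q c d := by
  decide

theorem re_mul' (x y : GaussianInt) : (x * y).re = x.re * y.re - x.im * y.im := by
  rw [Zsqrtd.re_mul]; ring

theorem im_mul' (x y : GaussianInt) : (x * y).im = x.re * y.im + x.im * y.re := by
  rw [Zsqrtd.im_mul]

theorem prim_mul {x y : GaussianInt} (hx : prim x) (hy : prim y) : prim (x * y) := by
  rw [prim_iff] at *
  rw [re_mul', im_mul']
  push_cast
  exact Q_mul _ _ _ _ hx hy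

theorem prim_cancel {x y : GaussianInt} (hx : prim x) (hy : prim (x * y)) : prim y := by
  rw [prim_iff] at *
  rw [re_mul', im_mul'] at hy
  push_cast at hy
  exact Q_cancel _ _ _ _ hx hy

theorem norm_def' (z : GaussianInt) : z.norm = z.re ^ 2 + z.im ^ 2 := by
  rw [Zsqrtd.norm_def]; ring

theorem prim_norm_odd {z : GaussianInt} (hz : prim z) : z.norm % 2 = 1 := by
  rw [norm_def']
  obtain ⟨h1, h2⟩ := hz
  have h3 : z.re % 2 = 1 := by omega
  obtain ⟨k, hk⟩ : ∃ k, z.re = 2 * k + 1 := ⟨z.re / 2, by omega⟩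
  obtain ⟨l, hl⟩ : ∃ l, z.im = 2 * l := ⟨z.im / 2, by omega⟩
  rw [hk, hl]
  ring_nf
  omega

theorem prim_ne_zero {z : GaussianInt} (hz : prim z) : z ≠ 0 := by
  rintro rfl
  simp [prim] at hz

theorem prim_one : prim 1 := by simp [prim]

theorem prim_star {z : GaussianInt} (hz : prim z) : prim (star z) := by
  unfold prim at *
  simp only [Zsqrtd.re_star, Zsqrtd.im_star]
  omega

/-- a primary unit is `1` -/
theorem eq_one_of_prim {z : GaussianInt} (hz : prim z) (hn : z.norm = 1) : z = 1 := by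
  rw [norm_def'] at hn
  obtain ⟨h1, h2⟩ := hz
  obtain ⟨l, hl⟩ : ∃ l, z.im = 2 * l := ⟨z.im / 2, by omega⟩
  rw [hl] at hn
  have hl0 : l = 0 := by
    by_contra h
    have : 1 ≤ l ^ 2 := by
      have := sq_nonneg l
      rcases lt_or_gt_of_ne h with h | h <;> nlinarith
    nlinarith [sq_nonneg z.re]
  subst hl0
  have : z.re = 1 ∨ z.re = -1 := by
    have : z.re ^ 2 = 1 := by linarith
    exact sq_eq_one_iff.1 this
  ext
  · rcases this with h | h
    · simpa using h
    · omega
  · simpa using hl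

/-- a primary element which is a multiple of a primary element of the same norm -/
theorem eq_of_dvd {x y : GaussianInt} (hx : prim x) (hy : prim y) (hn : x.norm = y.norm)
    (h : x ∣ y) : x = y := by
  obtain ⟨u, rfl⟩ := h
  have hu : prim u := prim_cancel hx hy
  rw [Zsqrtd.norm_mul] at hn
  have hx0 : x.norm ≠ 0 := by
    have := prim_norm_odd hx
    omega
  have : u.norm = 1 := by
    have h1 : x.norm * 1 = x.norm * u.norm := by linarith
    exact (mul_left_cancel₀ hx0 h1).symm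
  rw [eq_one_of_prim hu this, mul_one]

theorem exists_unit_Q : ∀ a b : ZMod 4, (a ^ 2 + b ^ 2 = 1 ∨ a ^ 2 + b ^ 2 = 3) →
    Q a b ∨ Q (-a) (-b) ∨ Q (-b) a ∨ Q b (-a) := by
  decide

/-- every element of odd norm has a primary associate -/
theorem exists_prim (z : GaussianInt) (hz : z.norm % 2 = 1) :
    ∃ u v : GaussianInt, u * v = 1 ∧ prim (u * z) := by
  have hQ : Q (z.re : ZMod 4) (z.im : ZMod 4) ∨ Q (-(z.re : ZMod 4)) (-(z.im : ZMod 4)) ∨
      Q (-(z.im : ZMod 4)) (z.re : ZMod 4) ∨ Q (z.im : ZMod 4) (-(z.re : ZMod 4)) := by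
    apply exists_unit_Q
    rw [norm_def'] at hz
    have h1 : ((z.re ^ 2 + z.im ^ 2 : ℤ) : ZMod 4) = 1 ∨
        ((z.re ^ 2 + z.im ^ 2 : ℤ) : ZMod 4) = 3 := by
      have h4 : ∀ (r : ℤ), (((z.re ^ 2 + z.im ^ 2 : ℤ) : ZMod 4) = (r : ZMod 4)) ↔
          (z.re ^ 2 + z.im ^ 2) % 4 = r % 4 := by
        intro r
        have := ZMod.intCast_eq_intCast_iff' (z.re ^ 2 + z.im ^ 2) r 4
        simpa using this
      have e1 := h4 1
      have e3 := h4 3
      rw [Int.cast_one] at e1
      have e3' : (((z.re ^ 2 + z.im ^ 2 : ℤ) : ZMod 4) = 3) ↔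
          (z.re ^ 2 + z.im ^ 2) % 4 = 3 % 4 := by
        have : ((3 : ℤ) : ZMod 4) = 3 := by norm_cast
        rw [← this]; exact e3
      rw [e1, e3']
      omega
    push_cast at h1
    exact h1
  rcases hQ with h | h | h | h
  · refine ⟨1, 1, by simp, ?_⟩
    rw [one_mul, prim_iff]; exact h
  · refine ⟨-1, -1, by ring, ?_⟩
    rw [prim_iff, re_mul', im_mul']
    simpa using h
  · refine ⟨⟨0, 1⟩, ⟨0, -1⟩, by ext <;> simp, ?_⟩
    rw [prim_iff, re_mul', im_mul']
    simpa using h
  · refine ⟨⟨0, -1⟩, ⟨0, 1⟩, by ext <;> simp, ?_⟩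
    rw [prim_iff, re_mul', im_mul']
    simpa using h

/-- primary elements of norm `n` as a finset of Gaussian integers -/
noncomputable def S (n : ℕ) : Finset GaussianInt :=
  (PS n).map ⟨fun p => (⟨p.1, p.2⟩ : GaussianInt), by
    rintro ⟨a, b⟩ ⟨c, d⟩ h
    simpa [Zsqrtd.ext_iff] using h⟩

theorem mem_PS {n : ℕ} {a b : ℤ} :
    (a, b) ∈ PS n ↔ b % 2 = 0 ∧ (a + b) % 4 = 1 ∧ a ^ 2 + b ^ 2 = n := by
  unfold PS
  simp only [Finset.mem_filter, Finset.mem_product, Finset.mem_Icc]
  constructor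
  · rintro ⟨_, h⟩
    exact h
  · rintro ⟨h1, h2, h3⟩
    refine ⟨⟨⟨?_, ?_⟩, ⟨?_, ?_⟩⟩, h1, h2, h3⟩ <;> nlinarith [sq_nonneg a, sq_nonneg b,
      Int.le_self_sq a, Int.le_self_sq b, Int.le_self_sq (-a), Int.le_self_sq (-b)]

theorem mem_S {n : ℕ} {z : GaussianInt} : z ∈ S n ↔ prim z ∧ z.norm = n := by
  unfold S
  simp only [Finset.mem_map]
  constructor
  · rintro ⟨⟨a, b⟩, h, rfl⟩
    rw [mem_PS] at h
    rw [norm_def']
    exact ⟨⟨h.1, h.2.1⟩, h.2.2⟩
  · rintro ⟨⟨h1, h2⟩, h3⟩
    rw [norm_def'] at h3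
    exact ⟨(z.re, z.im), mem_PS.2 ⟨h1, h2, h3⟩, by ext <;> rfl⟩

theorem Sh_eq (h : GaussianInt → ℂ) (n : ℕ) : Sh h n = ∑ z ∈ S n, h z := by
  unfold Sh S
  rw [Finset.sum_map]
  rfl

/-- coprimality from coprime norms -/
theorem isCoprime_of_norm {x y : GaussianInt} (h : IsCoprime x.norm y.norm) : IsCoprime x y := by
  have h1 : IsCoprime ((x.norm : ℤ) : GaussianInt) ((y.norm : ℤ) : GaussianInt) :=
    h.map (Int.castRingHom GaussianInt)
  rw [Zsqrtd.norm_eq_mul_conj, Zsqrtd.norm_eq_mul_conj] at h1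
  exact h1.of_mul_left_left.of_mul_right_left

end A1

open A1

theorem Sh_one (h : GaussianInt →* ℂ) : Sh h 1 = 1 := by
  rw [Sh_eq]
  have : S 1 = {1} := by
    ext z
    rw [mem_S, Finset.mem_singleton]
    constructor
    · rintro ⟨h1, h2⟩
      exact eq_one_of_prim h1 (by simpa using h2)
    · rintro rfl
      exact ⟨prim_one, by simp⟩
  rw [this, Finset.sum_singleton, map_one]

theorem Sh_even (h : GaussianInt → ℂ) (n : ℕ) (hn : 2 ∣ n) : Sh h n = 0 := by
  rw [Sh_eq]
  have : S n = ∅ := by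
    rw [Finset.eq_empty_iff_forall_notMem]
    intro z hz
    rw [mem_S] at hz
    have := prim_norm_odd hz.1
    rw [hz.2] at this
    omega
  rw [this, Finset.sum_empty]

theorem Sh_mul (h : GaussianInt →* ℂ) (m n : ℕ) (hmn : Nat.Coprime m n) :
    Sh h (m * n) = Sh h m * Sh h n := by
  rw [Sh_eq, Sh_eq, Sh_eq, Finset.sum_mul_sum, ← Finset.sum_product']
  symm
  refine Finset.sum_bij (fun (p : GaussianInt × GaussianInt) _ => p.1 * p.2) ?_ ?_ ?_ ?_
  · rintro ⟨x, y⟩ hxy
    rw [Finset.mem_product, mem_S, mem_S] at hxy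
    rw [mem_S]
    refine ⟨prim_mul hxy.1.1 hxy.2.1, ?_⟩
    rw [Zsqrtd.norm_mul, hxy.1.2, hxy.2.2]
    push_cast
    rfl
  · rintro ⟨x, y⟩ hxy ⟨x', y'⟩ hxy' heq
    rw [Finset.mem_product, mem_S, mem_S] at hxy hxy'
    simp only at hxy hxy' heq
    obtain ⟨⟨hx, hxn⟩, ⟨hy, hyn⟩⟩ := hxy
    obtain ⟨⟨hx', hxn'⟩, ⟨hy', hyn'⟩⟩ := hxy'
    have hc : IsCoprime x y' := by
      apply isCoprime_of_norm
      rw [hxn, hyn']
      exact Nat.isCoprime_iff_coprime.2 hmn
    have hd : x ∣ x' := by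
      apply hc.dvd_of_dvd_mul_right
      rw [← heq]
      exact dvd_mul_right _ _
    have e1 : x = x' := eq_of_dvd hx hx' (by rw [hxn, hxn']) hd
    subst e1
    have e2 : y = y' := mul_left_cancel₀ (prim_ne_zero hx) heq
    rw [e2]
  · intro z hz
    rw [mem_S] at hz
    obtain ⟨hz, hzn⟩ := hz
    have hzn' : z.norm = (m : ℤ) * n := by rw [hzn]; push_cast; rfl
    have hmn0 : (m : ℤ) * n ≠ 0 := by
      rw [← hzn']
      have := prim_norm_odd hz
      omega
    have hd : z ∣ (m : GaussianInt) * (n : GaussianInt) := by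
      have e : ((m : GaussianInt) * (n : GaussianInt)) = ((z.norm : ℤ) : GaussianInt) := by
        rw [hzn']; push_cast; rfl
      rw [e, Zsqrtd.norm_eq_mul_conj]
      exact dvd_mul_right _ _
    obtain ⟨x, y, hx, hy, rfl⟩ := exists_dvd_and_dvd_of_dvd_mul hd
    have hnm : ∀ k : ℕ, (k : GaussianInt).norm = (k : ℤ) ^ 2 := by
      intro k
      rw [norm_def']
      simp
    have hxm : x.norm ∣ (m : ℤ) ^ 2 := by
      obtain ⟨c, hc⟩ := hx
      rw [← hnm, hc, Zsqrtd.norm_mul]
      exact dvd_mul_right _ _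
    have hyn : y.norm ∣ (n : ℤ) ^ 2 := by
      obtain ⟨c, hc⟩ := hy
      rw [← hnm, hc, Zsqrtd.norm_mul]
      exact dvd_mul_right _ _
    have hxy : x.norm * y.norm = m * n := by rw [← Zsqrtd.norm_mul, hzn']
    have hcop : IsCoprime (m : ℤ) (n : ℤ) := Nat.isCoprime_iff_coprime.2 hmn
    have h1 : x.norm ∣ m := by
      have hc : IsCoprime x.norm (n : ℤ) :=
        IsCoprime.of_isCoprime_of_dvd_left (hcop.pow_left (m := 2)) hxm
      apply hc.dvd_of_dvd_mul_right
      rw [← hxy]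
      exact dvd_mul_right _ _
    have h2 : y.norm ∣ n := by
      have hc : IsCoprime y.norm (m : ℤ) :=
        IsCoprime.of_isCoprime_of_dvd_left (hcop.symm.pow_left (m := 2)) hyn
      apply hc.dvd_of_dvd_mul_left
      rw [← hxy]
      exact dvd_mul_left _ _
    have hx0 : 0 ≤ x.norm := by rw [norm_def']; positivity
    have hy0 : 0 ≤ y.norm := by rw [norm_def']; positivity
    have hm0 : (m : ℤ) ≠ 0 := left_ne_zero_of_mul hmn0
    have hn0 : (n : ℤ) ≠ 0 := right_ne_zero_of_mul hmn0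
    have hmpos : 0 < (m : ℤ) := lt_of_le_of_ne (by positivity) (Ne.symm hm0)
    have hnpos : 0 < (n : ℤ) := lt_of_le_of_ne (by positivity) (Ne.symm hn0)
    have l1 := Int.le_of_dvd hmpos h1
    have l2 := Int.le_of_dvd hnpos h2
    have ex : x.norm = m := by
      by_contra hne
      have : x.norm < m := lt_of_le_of_ne l1 hne
      nlinarith
    have ey : y.norm = n := by
      rw [ex] at hxy
      exact mul_left_cancel₀ hm0 hxy
    have hxodd : x.norm % 2 = 1 := by
      have := prim_norm_odd hz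
      rw [Zsqrtd.norm_mul, Int.mul_emod] at this
      rcases Int.emod_two_eq_zero_or_one x.norm with h0 | h0
      · rw [h0] at this; simp at this
      · exact h0
    obtain ⟨u, v, huv, hu⟩ := exists_prim x hxodd
    have hprod : (u * x) * (v * y) = x * y := by
      calc (u * x) * (v * y) = (u * v) * (x * y) := by ring
        _ = x * y := by rw [huv, one_mul]
    have hv : prim (v * y) := by
      apply prim_cancel hu
      rw [hprod]
      exact hz
    have hnu : u.norm = 1 ∧ v.norm = 1 := by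
      have h1 : u.norm * v.norm = 1 := by
        rw [← Zsqrtd.norm_mul, huv]; simp
      have hu0 : 0 ≤ u.norm := by rw [norm_def']; positivity
      have hv0 : 0 ≤ v.norm := by rw [norm_def']; positivity
      have := Int.eq_one_or_neg_one_of_mul_eq_one h1
      rcases this with h | h
      · refine ⟨h, ?_⟩
        rw [h, one_mul] at h1
        exact h1
      · omega
    refine ⟨(u * x, v * y), ?_, hprod⟩
    rw [Finset.mem_product, mem_S, mem_S]
    refine ⟨⟨hu, ?_⟩, ⟨hv, ?_⟩⟩
    · show (u * x).norm = m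
      rw [Zsqrtd.norm_mul, hnu.1, ex, one_mul]
    · show (v * y).norm = n
      rw [Zsqrtd.norm_mul, hnu.2, ey, one_mul]
  · rintro ⟨x, y⟩ _
    simp only
    rw [map_mul]

namespace A1

theorem norm_nat (k : ℕ) : (k : GaussianInt).norm = (k : ℤ) ^ 2 := by
  rw [norm_def']
  simp

theorem star_dvd_star {x y : GaussianInt} (h : x ∣ y) : star x ∣ star y := by
  obtain ⟨c, rfl⟩ := h
  rw [star_mul]
  exact dvd_mul_left _ _

theorem star_nat (k : ℕ) : star (k : GaussianInt) = k := by
  ext <;> simp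

theorem gnorm_star (z : GaussianInt) : (star z).norm = z.norm := by
  rw [norm_def', norm_def']
  simp

/-- multiplication by a primary element `x` is injective and maps `S n` to the multiples
of `x` in `S (N x * n)`. -/
theorem mem_image_mul {x z : GaussianInt} (hx : prim x) {m n : ℕ} (hm : x.norm = m)
    (hm0 : m ≠ 0) : z ∈ (S n).image (fun y => x * y) ↔ z ∈ S (m * n) ∧ x ∣ z := by
  rw [Finset.mem_image]
  constructor
  · rintro ⟨y, hy, rfl⟩
    rw [mem_S] at hy
    refine ⟨mem_S.2 ⟨prim_mul hx hy.1, ?_⟩, dvd_mul_right _ _⟩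
    rw [Zsqrtd.norm_mul, hm, hy.2]
    push_cast
    rfl
  · rintro ⟨hz, ⟨y, rfl⟩⟩
    rw [mem_S] at hz
    refine ⟨y, mem_S.2 ⟨prim_cancel hx hz.1, ?_⟩, rfl⟩
    have h1 := hz.2
    rw [Zsqrtd.norm_mul, hm] at h1
    push_cast at h1
    exact mul_left_cancel₀ (by exact_mod_cast hm0) h1

theorem sum_image_mul (h : GaussianInt →* ℂ) {x : GaussianInt} (hx : prim x) (n : ℕ) :
    ∑ z ∈ (S n).image (fun y => x * y), h z = h x * ∑ y ∈ S n, h y := by
  rw [Finset.sum_image, Finset.mul_sum]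
  · refine Finset.sum_congr rfl fun y _ => ?_
    rw [map_mul]
  · intro a _ b _ hab
    exact mul_left_cancel₀ (prim_ne_zero hx) hab

end A1

theorem Sh_inert (h : GaussianInt →* ℂ) (p : ℕ) (hp : p.Prime) (h3 : p % 4 = 3) (k : ℕ) :
    Sh h p = 0 ∧ Sh h (p ^ (k + 2)) = h (-(p : GaussianInt)) * Sh h (p ^ k) := by
  have : Fact p.Prime := ⟨hp⟩
  constructor
  · rw [Sh_eq]
    have : S p = ∅ := by
      rw [Finset.eq_empty_iff_forall_notMem]
      intro z hz
      rw [mem_S] at hz
      obtain ⟨⟨h1, h2⟩, hn⟩ := hz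
      rw [norm_def'] at hn
      obtain ⟨a, ha⟩ : ∃ a, z.re = 2 * a + 1 := ⟨z.re / 2, by omega⟩
      obtain ⟨b, hb⟩ : ∃ b, z.im = 2 * b := ⟨z.im / 2, by omega⟩
      rw [ha, hb] at hn
      have : (p : ℤ) = 4 * (a ^ 2 + a + b ^ 2) + 1 := by rw [← hn]; ring
      omega
    rw [this, Finset.sum_empty]
  · have hpr : Prime (p : GaussianInt) := GaussianInt.prime_of_nat_prime_of_mod_four_eq_three p h3
    have hx : prim (-(p : GaussianInt)) := by
      unfold prim
      simp
      omega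
    have hxn : (-(p : GaussianInt)).norm = ((p ^ 2 : ℕ) : ℤ) := by
      rw [norm_def']
      simp
    have hS : S (p ^ (k + 2)) = (S (p ^ k)).image (fun y => -(p : GaussianInt) * y) := by
      ext z
      rw [mem_image_mul hx hxn (pow_ne_zero _ hp.ne_zero), ← pow_add, add_comm 2 k]
      constructor
      · intro hz
        refine ⟨hz, ?_⟩
        rw [mem_S] at hz
        rw [neg_dvd]
        have h1 : (p : GaussianInt) ∣ z * star z := by
          rw [← Zsqrtd.norm_eq_mul_conj, hz.2]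
          push_cast
          exact dvd_pow_self _ (by omega)
        rcases hpr.dvd_or_dvd h1 with h2 | h2
        · exact h2
        · have := star_dvd_star h2
          rwa [star_star, star_nat] at this
      · exact fun h => h.1
    rw [Sh_eq, Sh_eq, hS, sum_image_mul h hx]

theorem PS_split (p : ℕ) (hp : p.Prime) (h1 : p % 4 = 1) :
    ∃ a b : ℤ, b ≠ 0 ∧ b % 2 = 0 ∧ (a + b) % 4 = 1 ∧ a ^ 2 + b ^ 2 = p ∧
      PS p = {(a, b), (a, -b)} := by
  have : Fact p.Prime := ⟨hp⟩
  obtain ⟨c, d, hcd⟩ := Nat.Prime.sq_add_sq (p := p) (by omega)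
  have hn0 : (⟨c, d⟩ : GaussianInt).norm = p := by
    rw [norm_def', ← hcd]; push_cast; rfl
  obtain ⟨u, v, huv, hu⟩ := exists_prim ⟨c, d⟩ (by rw [hn0]; omega)
  set x : GaussianInt := u * ⟨c, d⟩ with hx
  have hnu : u.norm = 1 := by
    have h1 : u.norm * v.norm = 1 := by
      rw [← Zsqrtd.norm_mul, huv]; simp
    have hu0 : 0 ≤ u.norm := by rw [norm_def']; positivity
    rcases Int.eq_one_or_neg_one_of_mul_eq_one h1 with h | h
    · exact h
    · omega
  have hxn : x.norm = p := by rw [hx, Zsqrtd.norm_mul, hnu, hn0, one_mul]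
  have hxn2 := hxn
  rw [norm_def'] at hxn2
  have hpr : Prime x := by
    rw [← irreducible_iff_prime]
    constructor
    · intro hun
      rw [← Zsqrtd.norm_eq_one_iff, hxn] at hun
      simp at hun
      exact hp.one_lt.ne' hun
    · intro a b hab
      have : a.norm.natAbs * b.norm.natAbs = p := by
        rw [← Int.natAbs_mul, ← Zsqrtd.norm_mul, ← hab, hxn]
        simp
      rw [← Zsqrtd.norm_eq_one_iff, ← Zsqrtd.norm_eq_one_iff]
      have hdvd : a.norm.natAbs ∣ p := ⟨_, this.symm⟩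
      rcases (Nat.dvd_prime hp).1 hdvd with h | h
      · left; exact h
      · right
        rw [h] at this
        exact Nat.eq_of_mul_eq_mul_left hp.pos (by rw [this, mul_one])
  refine ⟨x.re, x.im, ?_, hu.1, hu.2, hxn2, ?_⟩
  · intro h0
    rw [h0] at hxn2
    have : x.re ^ 2 = p := by linarith [hxn2]
    have h2 : x.re.natAbs ^ 2 = p := by
      zify
      rw [sq_abs, this]
    rw [← h2] at hp
    exact Nat.Prime.not_prime_pow le_rfl hp
  · ext ⟨a, b⟩
    rw [mem_PS, Finset.mem_insert, Finset.mem_singleton, Prod.mk.injEq, Prod.mk.injEq]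
    constructor
    · rintro ⟨h1, h2, h3⟩
      have hz : prim ⟨a, b⟩ := ⟨h1, h2⟩
      have hzn : (⟨a, b⟩ : GaussianInt).norm = p := by rw [norm_def']; exact h3
      have hd : x ∣ (⟨a, b⟩ : GaussianInt) * star ⟨a, b⟩ := by
        rw [← Zsqrtd.norm_eq_mul_conj, hzn, ← hxn, Zsqrtd.norm_eq_mul_conj]
        exact dvd_mul_right _ _
      rcases hpr.dvd_or_dvd hd with h | h
      · left
        have := eq_of_dvd hu hz (by rw [hxn, hzn]) h
        rw [this]
        exact ⟨rfl, rfl⟩
      · right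
        have := eq_of_dvd hu (prim_star hz) (by rw [gnorm_star, hxn, hzn]) h
        rw [this]
        simp
    · rintro (⟨rfl, rfl⟩ | ⟨rfl, rfl⟩)
      · exact ⟨hu.1, hu.2, hxn2⟩
      · obtain ⟨e1, e2⟩ := hu
        refine ⟨by omega, by omega, ?_⟩
        rw [neg_sq]; exact hxn2

theorem Sh_split (h : GaussianInt →* ℂ) (p : ℕ) (hp : p.Prime) (h1 : p % 4 = 1) (k : ℕ) :
    Sh h (p ^ (k + 2)) = Sh h p * Sh h (p ^ (k + 1)) - h (p : GaussianInt) * Sh h (p ^ k) := by
  obtain ⟨a, b, hb0, hb, hab, hn, hPS⟩ := PS_split p hp h1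
  set x : GaussianInt := ⟨a, b⟩ with hx
  have hxp : prim x := ⟨hb, hab⟩
  have hxn : x.norm = p := by rw [norm_def']; exact hn
  have hyp : prim (star x) := prim_star hxp
  have hyn : (star x).norm = p := by rw [gnorm_star, hxn]
  have hxy : x * star x = p := by
    rw [← Zsqrtd.norm_eq_mul_conj, hxn]; push_cast; rfl
  have hxyp : prim (p : GaussianInt) := by rw [← hxy]; exact prim_mul hxp hyp
  have hirr : ∀ w : GaussianInt, w.norm = p → Prime w := by
    intro w hw
    rw [← irreducible_iff_prime]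
    constructor
    · intro hun
      rw [← Zsqrtd.norm_eq_one_iff, hw] at hun
      simp at hun
      exact hp.one_lt.ne' hun
    · intro a b hab
      have : a.norm.natAbs * b.norm.natAbs = p := by
        rw [← Int.natAbs_mul, ← Zsqrtd.norm_mul, ← hab, hw]
        simp
      rw [← Zsqrtd.norm_eq_one_iff, ← Zsqrtd.norm_eq_one_iff]
      have hdvd : a.norm.natAbs ∣ p := ⟨_, this.symm⟩
      rcases (Nat.dvd_prime hp).1 hdvd with h | h
      · left; exact h
      · right
        rw [h] at this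
        exact Nat.eq_of_mul_eq_mul_left hp.pos (by rw [this, mul_one])
  have hprx := hirr x hxn
  have hpry := hirr (star x) hyn
  have hne : x ≠ star x := by
    intro heq
    have := congrArg Zsqrtd.im heq
    simp [hx] at this
    omega
  have hndvd : ¬ x ∣ star x := fun hd => hne (eq_of_dvd hxp hyp (by rw [hxn, hyn]) hd)
  -- decomposition of `S (p ^ (k+2))`
  have hS : S (p ^ (k + 2)) = (S (p ^ (k + 1))).image (fun y => x * y) ∪
      (S (p ^ (k + 1))).image (fun y => star x * y) := by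
    ext z
    rw [Finset.mem_union, mem_image_mul hxp hxn hp.ne_zero, mem_image_mul hyp hyn hp.ne_zero,
      ← pow_succ', show k + 1 + 1 = k + 2 from rfl]
    constructor
    · intro hz
      have hz' := mem_S.1 hz
      have hd : x ∣ z * star z := by
        rw [← Zsqrtd.norm_eq_mul_conj, hz'.2]
        push_cast
        rw [← hxy]
        exact (dvd_mul_right _ _).trans (dvd_pow_self _ (by omega))
      rcases hprx.dvd_or_dvd hd with h | h
      · exact Or.inl ⟨hz, h⟩
      · refine Or.inr ⟨hz, ?_⟩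
        have := star_dvd_star h
        rwa [star_star] at this
    · rintro (h | h)
      · exact h.1
      · exact h.1
  have hI : (S (p ^ (k + 1))).image (fun y => x * y) ∩
      (S (p ^ (k + 1))).image (fun y => star x * y) =
      (S (p ^ k)).image (fun y => (p : GaussianInt) * y) := by
    ext z
    rw [Finset.mem_inter, mem_image_mul hxp hxn hp.ne_zero, mem_image_mul hyp hyn hp.ne_zero,
      mem_image_mul hxyp (m := p ^ 2) (by rw [norm_nat]; push_cast; rfl)
        (pow_ne_zero _ hp.ne_zero), ← pow_succ', ← pow_add, add_comm 2 k,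
      show k + 1 + 1 = k + 2 from rfl]
    constructor
    · rintro ⟨⟨hz, hd⟩, ⟨_, hd'⟩⟩
      refine ⟨hz, ?_⟩
      obtain ⟨w, rfl⟩ := hd'
      rcases hprx.dvd_or_dvd hd with h | h
      · exact absurd h hndvd
      · obtain ⟨w', rfl⟩ := h
        rw [← hxy]
        exact ⟨w', by ring⟩
    · rintro ⟨hz, hd⟩
      rw [← hxy] at hd
      exact ⟨⟨hz, (dvd_mul_right _ _).trans hd⟩, ⟨hz, (dvd_mul_left _ _).trans hd⟩⟩
  have hSp : Sh h p = h x + h (star x) := by
    unfold Sh
    rw [hPS, Finset.sum_pair]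
    · congr 1
    · intro heq
      rw [Prod.mk.injEq] at heq
      omega
  have key := Finset.sum_union_inter (s₁ := (S (p ^ (k + 1))).image (fun y => x * y))
    (s₂ := (S (p ^ (k + 1))).image (fun y => star x * y)) (f := fun z => h z)
  rw [hI, ← hS, sum_image_mul h hxp, sum_image_mul h hyp, sum_image_mul h hxyp] at key
  rw [hSp, Sh_eq, Sh_eq, Sh_eq]
  linear_combination key

end Pool.Agent.H304R2.EC
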