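import Mathlib
import Pool.Agent.H304R2.EC.Defs
import Pool.Agent.H304R2.EC.Mult

set_option autoImplicit false

/-! # Task A2: the coefficients `an`, `gn`, `cc` (helper658) -/

open Finset Filter Topology

namespace Pool.Agent.H304R2.EC

namespace CoefLib

/-! ### abstract recurrences -/

/-- power sums -/
def pw (s e : ℝ) : ℕ → ℝ
  | 0 => 2
  | 1 => s
  | (k + 2) => s * pw s e (k + 1) - e * pw s e k

theorem pw_eq (s e : ℝ) (u v : ℂ) (h1 : (s : ℂ) = u + v) (h2 : (e : ℂ) = u * v) :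
    ∀ k, (pw s e k : ℂ) = u ^ k + v ^ k
  | 0 => by simp [pw]; norm_num
  | 1 => by simp [pw, h1]
  | (k + 2) => by
    have ih1 := pw_eq s e u v h1 h2 (k + 1)
    have ih0 := pw_eq s e u v h1 h2 k
    rw [pw]
    push_cast
    rw [ih1, ih0, h1, h2]
    ring

theorem pw_bound (s e r : ℝ) (u v : ℂ) (h1 : (s : ℂ) = u + v) (h2 : (e : ℂ) = u * v)
    (hu : ‖u‖ ≤ r) (hv : ‖v‖ ≤ r) (k : ℕ) : |pw s e k| ≤ 2 * r ^ k := by
  have h := pw_eq s e u v h1 h2 k
  have h3 : |pw s e k| = ‖(pw s e k : ℂ)‖ := by rw [Complex.norm_real, Real.norm_eq_abs]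
  rw [h3, h]
  refine (norm_add_le _ _).trans ?_
  rw [norm_pow, norm_pow]
  have := pow_le_pow_left₀ (norm_nonneg u) hu k
  have := pow_le_pow_left₀ (norm_nonneg v) hv k
  linarith

/-- complete homogeneous sums bound -/
theorem hs_bound (s e r : ℝ) (u v : ℂ) (h1 : (s : ℂ) = u + v) (h2 : (e : ℂ) = u * v)
    (hu : ‖u‖ ≤ r) (hv : ‖v‖ ≤ r) (F : ℕ → ℝ) (hF0 : F 0 = 1) (hF1 : F 1 = s)
    (hF : ∀ k, F (k + 2) = s * F (k + 1) - e * F k) (k : ℕ) : |F k| ≤ (k + 1) * r ^ k := by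
  have hr : 0 ≤ r := (norm_nonneg u).trans hu
  have hG : ∀ k, (F k : ℂ) = ∑ j ∈ range (k + 1), u ^ j * v ^ (k - j) ∧
      (F (k + 1) : ℂ) = v * F k + u ^ (k + 1) := by
    intro k
    induction k with
    | zero =>
      refine ⟨by simp [hF0], ?_⟩
      rw [hF1, h1, hF0]
      push_cast
      ring
    | succ k ih =>
      obtain ⟨ih1, ih2⟩ := ih
      refine ⟨?_, ?_⟩
      · rw [ih2, ih1, Finset.sum_range_succ _ (k + 1), Finset.mul_sum]
        congr 1
        · apply Finset.sum_congr rfl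
          intro j hj
          rw [Finset.mem_range] at hj
          have : k + 1 - j = (k - j) + 1 := by omega
          rw [this, pow_succ]
          ring
        · simp
      · rw [hF]
        push_cast
        rw [h1, h2, ih2]
        ring
  have h3 : |F k| = ‖(F k : ℂ)‖ := by rw [Complex.norm_real, Real.norm_eq_abs]
  rw [h3, (hG k).1]
  refine (norm_sum_le _ _).trans ?_
  have : ∀ j ∈ range (k + 1), ‖u ^ j * v ^ (k - j)‖ ≤ r ^ k := by
    intro j hj
    rw [Finset.mem_range] at hj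
    rw [norm_mul, norm_pow, norm_pow]
    calc ‖u‖ ^ j * ‖v‖ ^ (k - j) ≤ r ^ j * r ^ (k - j) := by
          apply mul_le_mul (pow_le_pow_left₀ (norm_nonneg _) hu _)
            (pow_le_pow_left₀ (norm_nonneg _) hv _) (by positivity) (by positivity)
      _ = r ^ k := by rw [← pow_add]; congr 1; omega
  refine (Finset.sum_le_sum this).trans ?_
  rw [Finset.sum_const, Finset.card_range, nsmul_eq_mul]
  push_cast
  exact le_rfl

/-- roots of `x² - s x + e` with `s² ≤ 4 e` -/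
theorem exists_uv (s e : ℝ) (h : s ^ 2 ≤ 4 * e) : ∃ u v : ℂ, (s : ℂ) = u + v ∧ (e : ℂ) = u * v ∧
    ‖u‖ ≤ Real.sqrt e ∧ ‖v‖ ≤ Real.sqrt e := by
  have he : 0 ≤ e := by nlinarith [sq_nonneg s]
  set t := Real.sqrt (4 * e - s ^ 2) with ht
  have ht2 : t ^ 2 = 4 * e - s ^ 2 := Real.sq_sqrt (by linarith)
  have hn : ∀ t' : ℝ, t' ^ 2 = 4 * e - s ^ 2 → ‖(⟨s / 2, t' / 2⟩ : ℂ)‖ ≤ Real.sqrt e := by
    intro t' h'
    apply Real.le_sqrt_of_sq_le
    rw [← Complex.normSq_eq_norm_sq, Complex.normSq_apply]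
    nlinarith
  refine ⟨⟨s / 2, t / 2⟩, ⟨s / 2, (-t) / 2⟩, ?_, ?_, hn t ht2, hn (-t) (by rw [neg_sq]; exact ht2)⟩
  · apply Complex.ext
    · simp
    · simp; ring
  · apply Complex.ext
    · simp
      nlinarith
    · simp
      ring

/-- Newton's identity -/
theorem newton (s e : ℝ) (F S : ℕ → ℝ) (hF0 : F 0 = 1) (hF1 : F 1 = s)
    (hF : ∀ k, F (k + 2) = s * F (k + 1) - e * F k)
    (hS0 : S 0 = 2) (hS1 : S 1 = s) (hS : ∀ k, S (k + 2) = s * S (k + 1) - e * S k) (k : ℕ) :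
    (k : ℝ) * F k = ∑ j ∈ range k, S (j + 1) * F (k - (j + 1)) := by
  have hSF : ∀ k, S (k + 2) = s * F (k + 1) - 2 * e * F k ∧
      S (k + 3) = s * F (k + 2) - 2 * e * F (k + 1) := by
    intro k
    induction k with
    | zero =>
      refine ⟨?_, ?_⟩
      · rw [hS, hS0, hS1, hF0, hF1]; ring
      · rw [hS, hS, hS0, hS1, hF, hF0, hF1]; ring
    | succ k ih =>
      refine ⟨ih.2, ?_⟩
      rw [hS, ih.2, ih.1, hF (k + 1), hF k]
      ring
  have hN : ∀ k : ℕ, ((k : ℝ) * F k = ∑ j ∈ range k, S (j + 1) * F (k - (j + 1))) ∧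
      (((k + 1 : ℕ) : ℝ) * F (k + 1) =
        ∑ j ∈ range (k + 1), S (j + 1) * F (k + 1 - (j + 1))) := by
    intro k
    induction k with
    | zero => simp [hF0, hF1, hS1]
    | succ k ih =>
      obtain ⟨ih0, ih1⟩ := ih
      refine ⟨ih1, ?_⟩
      have e1 : ∑ j ∈ range (k + 1 + 1), S (j + 1) * F (k + 1 + 1 - (j + 1)) =
          ∑ j ∈ range k, S (j + 1) * F (k + 2 - (j + 1)) + S (k + 1) * s + S (k + 2) := by
        rw [Finset.sum_range_succ, Finset.sum_range_succ]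
        have h1 : k + 1 + 1 - (k + 1) = 1 := by omega
        have h2 : k + 1 + 1 - (k + 1 + 1) = 0 := by omega
        rw [h1, h2, hF0, hF1, mul_one]
      have e2 : ∑ j ∈ range k, S (j + 1) * F (k + 2 - (j + 1)) =
          s * ∑ j ∈ range k, S (j + 1) * F (k + 1 - (j + 1)) -
          e * ∑ j ∈ range k, S (j + 1) * F (k - (j + 1)) := by
        rw [Finset.mul_sum, Finset.mul_sum, ← Finset.sum_sub_distrib]
        apply Finset.sum_congr rfl
        intro j hj
        rw [Finset.mem_range] at hj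
        have h1 : k + 2 - (j + 1) = (k - (j + 1)) + 2 := by omega
        have h2 : k + 1 - (j + 1) = (k - (j + 1)) + 1 := by omega
        rw [h1, h2, hF]
        ring
      have e3 : ∑ j ∈ range (k + 1), S (j + 1) * F (k + 1 - (j + 1)) =
          ∑ j ∈ range k, S (j + 1) * F (k + 1 - (j + 1)) + S (k + 1) := by
        rw [Finset.sum_range_succ]
        have h1 : k + 1 - (k + 1) = 0 := by omega
        rw [h1, hF0, mul_one]
      rw [e3] at ih1
      rw [e1, e2, ← ih0, (hSF k).1]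
      have h4 : ∑ j ∈ range k, S (j + 1) * F (k + 1 - (j + 1)) =
          ((k + 1 : ℕ) : ℝ) * F (k + 1) - S (k + 1) := by linarith
      rw [h4, hF]
      push_cast
      ring
  exact (hN k).1

open ArithmeticFunction in
/-- logarithmic derivative identity for a multiplicative function with second order recurrences -/
theorem gen_log (f : ℕ → ℝ) (e : ℕ → ℝ) (S : ℕ → ℕ → ℝ) (c : ℕ → ℝ)
    (h1 : f 1 = 1) (hmul : ∀ m n, Nat.Coprime m n → f (m * n) = f m * f n)
    (h2 : ∀ k, f (2 ^ (k + 1)) = 0)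
    (hrec : ∀ p, p.Prime → p ≠ 2 → ∀ k, f (p ^ (k + 2)) = f p * f (p ^ (k + 1)) - e p * f (p ^ k))
    (hS0 : ∀ p, S p 0 = 2) (hS1 : ∀ p, S p 1 = f p)
    (hS : ∀ p k, S p (k + 2) = f p * S p (k + 1) - e p * S p k)
    (hc : ∀ p, p.Prime → p ≠ 2 → ∀ k, c (p ^ (k + 1)) = S p (k + 1))
    (hc2 : ∀ k, c (2 ^ (k + 1)) = 0) (n : ℕ) (hn : n ≠ 0) :
    f n * Real.log n = ∑ d ∈ n.divisors, vonMangoldt d * c d * f (n / d) := by
  induction n using Nat.recOnPrimeCoprime with
  | zero => exact absurd rfl hn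
  | prime_pow p k hp =>
    rw [Nat.sum_divisors_prime_pow hp, Nat.cast_pow, Real.log_pow, Finset.sum_range_succ',
      Nat.pow_zero, vonMangoldt_apply_one, zero_mul, zero_mul, add_zero]
    have e1 : ∀ j ∈ range k, vonMangoldt (p ^ (j + 1)) * c (p ^ (j + 1)) *
        f (p ^ k / p ^ (j + 1)) = Real.log p * (c (p ^ (j + 1)) * f (p ^ (k - (j + 1)))) := by
      intro j hj
      rw [Finset.mem_range] at hj
      rw [vonMangoldt_apply_pow (Nat.succ_ne_zero _), vonMangoldt_apply_prime hp,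
        Nat.pow_div (by omega) hp.pos]
      ring
    rw [Finset.sum_congr rfl e1, ← Finset.mul_sum]
    by_cases hp2 : p = 2
    · subst hp2
      rw [Finset.sum_eq_zero (fun j _ => by rw [hc2, zero_mul])]
      rcases Nat.eq_zero_or_pos k with rfl | hk
      · simp
      · obtain ⟨k', rfl⟩ : ∃ k', k = k' + 1 := ⟨k - 1, by omega⟩
        rw [h2]
        simp
    · have hN := newton (f p) (e p) (fun k => f (p ^ k)) (S p) (by simpa using h1) (by simp)
        (hrec p hp hp2) (hS0 p) (hS1 p) (hS p) k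
      have e2 : ∑ j ∈ range k, c (p ^ (j + 1)) * f (p ^ (k - (j + 1))) = k * f (p ^ k) := by
        rw [hN]
        apply Finset.sum_congr rfl
        intro j _
        rw [hc p hp hp2]
      rw [e2]
      ring
  | coprime a b ha' hb' hab ha hb =>
    have ha0 : a ≠ 0 := by omega
    have hb0 : b ≠ 0 := by omega
    have ha1 := ha ha0
    have hb1 := hb hb0
    have hfil : ∀ m : ℕ, ∑ d ∈ m.divisors, vonMangoldt d * c d * f (m / d) =
        ∑ d ∈ m.divisors with IsPrimePow d, vonMangoldt d * c d * f (m / d) := by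
      intro m
      rw [Finset.sum_filter]
      apply Finset.sum_congr rfl
      intro d _
      split_ifs with hd
      · rfl
      · rw [vonMangoldt_eq_zero_iff.2 hd]
        ring
    rw [hfil] at ha1 hb1
    rw [hfil, Nat.mul_divisors_filter_prime_pow hab, Finset.filter_union,
      Finset.sum_union (Nat.disjoint_divisors_filter_isPrimePow hab)]
    have e1 : ∑ d ∈ a.divisors with IsPrimePow d, vonMangoldt d * c d * f (a * b / d) =
        f b * ∑ d ∈ a.divisors with IsPrimePow d, vonMangoldt d * c d * f (a / d) := by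
      rw [Finset.mul_sum]
      apply Finset.sum_congr rfl
      intro d hd
      have hda : d ∣ a := Nat.dvd_of_mem_divisors (Finset.mem_filter.1 hd).1
      rw [← Nat.div_mul_right_comm hda, hmul _ _ (Nat.Coprime.coprime_div_left hab hda)]
      ring
    have e2 : ∑ d ∈ b.divisors with IsPrimePow d, vonMangoldt d * c d * f (a * b / d) =
        f a * ∑ d ∈ b.divisors with IsPrimePow d, vonMangoldt d * c d * f (b / d) := by
      rw [Finset.mul_sum]
      apply Finset.sum_congr rfl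
      intro d hd
      have hdb : d ∣ b := Nat.dvd_of_mem_divisors (Finset.mem_filter.1 hd).1
      rw [Nat.mul_div_assoc _ hdb, hmul _ _ (Nat.Coprime.coprime_div_right hab hdb)]
      ring
    rw [e1, e2, ← ha1, ← hb1, hmul _ _ hab, Nat.cast_mul,
      Real.log_mul (by exact_mod_cast ha0) (by exact_mod_cast hb0)]
    ring

/-! ### the homomorphisms -/

/-- `α ↦ α` -/
noncomputable def hA : GaussianInt →* ℂ := (GaussianInt.toComplex : GaussianInt →* ℂ)

/-- `α ↦ α²` -/
noncomputable def hB : GaussianInt →* ℂ where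
  toFun z := (GaussianInt.toComplex z) ^ 2
  map_one' := by simp
  map_mul' := by intro a b; rw [map_mul, mul_pow]

theorem hA_apply (z : GaussianInt) : hA z = (z.re : ℂ) + (z.im : ℂ) * Complex.I := by
  show GaussianInt.toComplex z = _
  rw [GaussianInt.toComplex_def]

theorem hB_apply (z : GaussianInt) : hB z = ((z.re : ℂ) + (z.im : ℂ) * Complex.I) ^ 2 := by
  show GaussianInt.toComplex z ^ 2 = _
  rw [GaussianInt.toComplex_def]

theorem mem_PS {n : ℕ} {p : ℤ × ℤ} (hp : p ∈ PS n) : p.2 % 2 = 0 ∧ (p.1 + p.2) % 4 = 1 ∧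
    p.1 ^ 2 + p.2 ^ 2 = n := (Finset.mem_filter.1 hp).2

/-- the involution -/
theorem conj_mem {n : ℕ} {p : ℤ × ℤ} (hp : p ∈ PS n) : (p.1, -p.2) ∈ PS n := by
  have h := mem_PS hp
  rw [PS, Finset.mem_filter, Finset.mem_product, Finset.mem_Icc, Finset.mem_Icc] at hp ⊢
  obtain ⟨⟨⟨h1, h2⟩, h3, h4⟩, -⟩ := hp
  refine ⟨⟨⟨h1, h2⟩, by simp only; omega, by simp only; omega⟩, ?_, ?_, ?_⟩
  · have := h.1
    simp only
    omega
  · have h5 := h.1
    have h6 := h.2.1
    simp only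
    omega
  · have := h.2.2
    simp only [neg_sq]
    exact this

theorem sum_odd_zero (n : ℕ) (g : ℤ × ℤ → ℤ) (hg : ∀ p : ℤ × ℤ, g (p.1, -p.2) = - g p) :
    ∑ p ∈ PS n, g p = 0 := by
  have h : ∑ p ∈ PS n, g p = ∑ p ∈ PS n, g (p.1, -p.2) := by
    apply Finset.sum_nbij' (fun p => (p.1, -p.2)) (fun p => (p.1, -p.2))
    · intro p hp; exact conj_mem hp
    · intro p hp; exact conj_mem hp
    · intro p _; simp
    · intro p _; simp
    · intro p _; simp
  simp only [hg, Finset.sum_neg_distrib] at h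
  linarith

theorem an_Sh (n : ℕ) : (an n : ℂ) = Sh hA n := by
  have h0 := sum_odd_zero n (fun p => p.2) (fun p => rfl)
  have h1 : ∑ p ∈ PS n, ((p.2 : ℤ) : ℂ) = 0 := by exact_mod_cast h0
  rw [an, Sh]
  simp only [hA_apply]
  rw [Finset.sum_add_distrib, ← Finset.sum_mul, h1]
  push_cast
  ring

theorem gn_Sh (n : ℕ) : (gn n : ℂ) = Sh hB n := by
  have h0 := sum_odd_zero n (fun p => 2 * p.1 * p.2) (fun p => by simp)
  have h1 : ∑ p ∈ PS n, (2 * (p.1 : ℂ) * (p.2 : ℂ)) = 0 := by exact_mod_cast h0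
  rw [gn, Sh]
  simp only [hB_apply]
  have h2 : ∀ p ∈ PS n, ((p.1 : ℂ) + (p.2 : ℂ) * Complex.I) ^ 2 =
      ((p.1 : ℂ) ^ 2 - (p.2 : ℂ) ^ 2) + (2 * (p.1 : ℂ) * (p.2 : ℂ)) * Complex.I := by
    intro p _
    have := Complex.I_sq
    linear_combination (p.2 : ℂ) ^ 2 * this
  rw [Finset.sum_congr rfl h2, Finset.sum_add_distrib, ← Finset.sum_mul, h1]
  push_cast
  ring

theorem hA_nat (p : ℕ) : hA (p : GaussianInt) = p := by
  show GaussianInt.toComplex (p : GaussianInt) = p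
  simp

theorem hA_neg (p : ℕ) : hA (-(p : GaussianInt)) = -p := by
  show GaussianInt.toComplex (-(p : GaussianInt)) = -p
  simp

theorem hB_nat (p : ℕ) : hB (p : GaussianInt) = (p : ℂ) ^ 2 := by
  show GaussianInt.toComplex (p : GaussianInt) ^ 2 = _
  simp

theorem hB_neg (p : ℕ) : hB (-(p : GaussianInt)) = (p : ℂ) ^ 2 := by
  show GaussianInt.toComplex (-(p : GaussianInt)) ^ 2 = _
  simp

theorem odd_cases {p : ℕ} (hp : p.Prime) (h2 : p ≠ 2) : p % 4 = 1 ∨ p % 4 = 3 := by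
  have := hp.eq_two_or_odd
  omega

end CoefLib

open CoefLib

theorem an_one : an 1 = 1 := by
  have h := an_Sh 1
  rw [Sh_one] at h
  exact_mod_cast h

theorem an_even (n : ℕ) (hn : 2 ∣ n) : an n = 0 := by
  have h := an_Sh n
  rw [Sh_even _ n hn] at h
  exact_mod_cast h

theorem an_mul (m n : ℕ) (hmn : Nat.Coprime m n) : an (m * n) = an m * an n := by
  have h := an_Sh (m * n)
  rw [Sh_mul _ m n hmn, ← an_Sh, ← an_Sh] at h
  exact_mod_cast h

theorem gn_one : gn 1 = 1 := by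
  have h := gn_Sh 1
  rw [Sh_one] at h
  exact_mod_cast h

theorem gn_even (n : ℕ) (hn : 2 ∣ n) : gn n = 0 := by
  have h := gn_Sh n
  rw [Sh_even _ n hn] at h
  exact_mod_cast h

theorem gn_mul (m n : ℕ) (hmn : Nat.Coprime m n) : gn (m * n) = gn m * gn n := by
  have h := gn_Sh (m * n)
  rw [Sh_mul _ m n hmn, ← gn_Sh, ← gn_Sh] at h
  exact_mod_cast h

theorem an_inert (p : ℕ) (hp : p.Prime) (h3 : p % 4 = 3) : an p = 0 := by
  have h := an_Sh p
  rw [(Sh_inert _ p hp h3 0).1] at h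
  exact_mod_cast h

theorem gn_inert (p : ℕ) (hp : p.Prime) (h3 : p % 4 = 3) : gn p = 0 := by
  have h := gn_Sh p
  rw [(Sh_inert _ p hp h3 0).1] at h
  exact_mod_cast h

theorem an_gn_split (p : ℕ) (hp : p.Prime) (h1 : p % 4 = 1) : ∃ a b : ℤ, b ≠ 0 ∧ b % 2 = 0 ∧
    (a + b) % 4 = 1 ∧ a ^ 2 + b ^ 2 = p ∧ an p = 2 * a ∧ gn p = 2 * (a ^ 2 - b ^ 2) := by
  obtain ⟨a, b, hb, h2, h4, hab, hPS⟩ := PS_split p hp h1
  have hne : (a, b) ≠ (a, -b) := by
    intro h
    have := congrArg Prod.snd h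
    simp only at this
    omega
  refine ⟨a, b, hb, h2, h4, hab, ?_, ?_⟩
  · rw [an, hPS, Finset.sum_pair hne]
    ring
  · rw [gn, hPS, Finset.sum_pair hne]
    ring

theorem an_pow (p : ℕ) (hp : p.Prime) (h2 : p ≠ 2) (k : ℕ) :
    an (p ^ (k + 2)) = an p * an (p ^ (k + 1)) - p * an (p ^ k) := by
  rcases odd_cases hp h2 with h | h
  · have e := Sh_split hA p hp h k
    rw [hA_nat, ← an_Sh, ← an_Sh, ← an_Sh, ← an_Sh] at e
    exact_mod_cast e
  · have e := (Sh_inert hA p hp h k).2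
    rw [hA_neg, ← an_Sh, ← an_Sh] at e
    rw [an_inert p hp h, zero_mul, zero_sub]
    have e' : (an (p ^ (k + 2)) : ℂ) = ((-(p * an (p ^ k)) : ℤ) : ℂ) := by
      rw [e]; push_cast; ring
    exact_mod_cast e'

theorem gn_pow (p : ℕ) (hp : p.Prime) (h2 : p ≠ 2) (k : ℕ) :
    gn (p ^ (k + 2)) = gn p * gn (p ^ (k + 1)) -
      ZMod.χ₄ (p : ZMod 4) * (p : ℤ) ^ 2 * gn (p ^ k) := by
  rcases odd_cases hp h2 with h | h
  · have e := Sh_split hB p hp h k
    rw [hB_nat, ← gn_Sh, ← gn_Sh, ← gn_Sh, ← gn_Sh] at e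
    rw [ZMod.χ₄_nat_one_mod_four h, one_mul]
    exact_mod_cast e
  · have e := (Sh_inert hB p hp h k).2
    rw [hB_neg, ← gn_Sh, ← gn_Sh] at e
    rw [gn_inert p hp h, zero_mul, zero_sub, ZMod.χ₄_nat_three_mod_four h]
    have e' : (gn (p ^ (k + 2)) : ℂ) = ((-(-1 * (p : ℤ) ^ 2 * gn (p ^ k)) : ℤ) : ℂ) := by
      rw [e]; push_cast; ring
    exact_mod_cast e'

theorem an_sq_le (p : ℕ) (hp : p.Prime) : (an p) ^ 2 ≤ 4 * p := by
  by_cases h2 : p = 2
  · subst h2
    rw [an_even 2 (dvd_refl 2)]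
    norm_num
  rcases odd_cases hp h2 with h | h
  · obtain ⟨a, b, -, -, -, hab, ha, -⟩ := an_gn_split p hp h
    rw [ha]
    nlinarith [sq_nonneg b]
  · rw [an_inert p hp h]
    have : (0 : ℤ) ≤ p := by positivity
    linarith

theorem an_sq (p : ℕ) (hp : p.Prime) (h2 : p ≠ 2) :
    (an p) ^ 2 = (1 + ZMod.χ₄ (p : ZMod 4)) * p + gn p := by
  rcases odd_cases hp h2 with h | h
  · obtain ⟨a, b, -, -, -, hab, ha, hg⟩ := an_gn_split p hp h
    rw [ha, hg, ← hab, ZMod.χ₄_nat_one_mod_four h]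
    ring
  · rw [an_inert p hp h, gn_inert p hp h, ZMod.χ₄_nat_three_mod_four h]
    ring

theorem tt_eq (p k : ℕ) : (tt p k : ℝ) = pw (an p) p k := by
  have h : ∀ k, (tt p k : ℝ) = pw (an p) p k ∧ (tt p (k + 1) : ℝ) = pw (an p) p (k + 1) := by
    intro k
    induction k with
    | zero => simp [tt, pw]
    | succ k ih =>
      refine ⟨ih.2, ?_⟩
      rw [tt, pw]
      push_cast
      rw [ih.1, ih.2]
  exact (h k).1

theorem tt_bound (p : ℕ) (hp : p.Prime) (k : ℕ) : |(tt p k : ℝ)| ≤ 2 * Real.sqrt p ^ k := by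
  have h := an_sq_le p hp
  have h' : ((an p : ℤ) : ℝ) ^ 2 ≤ 4 * (p : ℝ) := by exact_mod_cast h
  obtain ⟨u, v, h1, h2, hu, hv⟩ := exists_uv _ _ h'
  rw [tt_eq]
  exact pw_bound _ _ _ u v h1 h2 hu hv k

theorem an_prime_pow_le (p : ℕ) (hp : p.Prime) (k : ℕ) :
    |(an (p ^ k) : ℝ)| ≤ (k + 1) * Real.sqrt p ^ k := by
  by_cases h2 : p = 2
  · subst h2
    rcases Nat.eq_zero_or_pos k with rfl | hk
    · simp [an_one]
    · rw [an_even (2 ^ k) (dvd_pow_self 2 (by omega))]
      simp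
      positivity
  have h := an_sq_le p hp
  have h' : ((an p : ℤ) : ℝ) ^ 2 ≤ 4 * (p : ℝ) := by exact_mod_cast h
  obtain ⟨u, v, h1, h2', hu, hv⟩ := exists_uv _ _ h'
  apply hs_bound _ _ _ u v h1 h2' hu hv (fun k => (an (p ^ k) : ℝ)) (by simp [an_one]) (by simp)
  intro k
  rw [an_pow p hp h2 k]
  push_cast
  ring

theorem an_le (n : ℕ) : |(an n : ℝ)| ≤ n.divisors.card * Real.sqrt n := by
  induction n using Nat.recOnPosPrimePosCoprime with
  | zero =>
    rw [an_even 0 (dvd_zero 2)]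
    simp
  | one => simp [an_one]
  | prime_pow p n hp hn =>
    have h := an_prime_pow_le p hp n
    rw [Nat.divisors_prime_pow hp, Finset.card_map, Finset.card_range]
    push_cast
    refine h.trans (le_of_eq ?_)
    congr 1
    rw [Real.sqrt_eq_rpow, Real.sqrt_eq_rpow, ← Real.rpow_natCast, ← Real.rpow_natCast,
      ← Real.rpow_mul (by positivity), ← Real.rpow_mul (by positivity), mul_comm]
  | coprime a b ha hb hab iha ihb =>
    rw [an_mul a b hab, Nat.Coprime.card_divisors_mul hab]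
    push_cast
    rw [abs_mul, Real.sqrt_mul (by positivity)]
    calc |(an a : ℝ)| * |(an b : ℝ)| ≤ (a.divisors.card * Real.sqrt a) *
          (b.divisors.card * Real.sqrt b) := by
          apply mul_le_mul iha ihb (abs_nonneg _) (by positivity)
      _ = _ := by ring

theorem cc_of_not (n : ℕ) (hn : ¬ IsPrimePow n ∨ 2 ∣ n) : cc n = 0 := by
  rw [cc, if_neg]
  rintro ⟨h1, h2⟩
  rcases hn with h | h
  · exact h h1
  · exact h2 ((Nat.minFac_eq_two_iff n).2 h)

theorem cc_prime_pow (p : ℕ) (hp : p.Prime) (h2 : p ≠ 2) (k : ℕ) :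
    cc (p ^ (k + 1)) = (tt p (k + 1) : ℝ) / Real.sqrt ((p : ℝ) ^ (k + 1)) := by
  have hm : (p ^ (k + 1)).minFac = p := hp.pow_minFac (by omega)
  rw [cc, hm, if_pos ⟨hp.isPrimePow.pow (by omega), h2⟩, hp.factorization_pow,
    Finsupp.single_eq_same]
  push_cast
  rfl

theorem cc_prime (p : ℕ) (hp : p.Prime) (h2 : p ≠ 2) : cc p = an p / Real.sqrt p := by
  have h := cc_prime_pow p hp h2 0
  simpa [tt] using h

theorem cc_le (n : ℕ) : |cc n| ≤ 2 := by
  by_cases h : IsPrimePow n ∧ n.minFac ≠ 2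
  · obtain ⟨⟨p, k, hp, hk, rfl⟩, h2⟩ := h
    have hp' : p.Prime := hp.nat_prime
    obtain ⟨k', rfl⟩ : ∃ k', k = k' + 1 := ⟨k - 1, by omega⟩
    have hm : (p ^ (k' + 1)).minFac = p := hp'.pow_minFac (by omega)
    rw [hm] at h2
    rw [cc_prime_pow p hp' h2]
    have h3 := tt_bound p hp' (k' + 1)
    have h4 : Real.sqrt ((p : ℝ) ^ (k' + 1)) = Real.sqrt p ^ (k' + 1) := by
      rw [Real.sqrt_eq_rpow, Real.sqrt_eq_rpow, ← Real.rpow_natCast, ← Real.rpow_natCast,
        ← Real.rpow_mul (by positivity), ← Real.rpow_mul (by positivity), mul_comm]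
    have hp0 : (0 : ℝ) < p := by exact_mod_cast hp'.pos
    have h5 : 0 < Real.sqrt p ^ (k' + 1) := by positivity
    rw [h4, abs_div, abs_of_pos h5, div_le_iff₀ h5]
    exact h3
  · rw [cc, if_neg h]
    norm_num

/-- `a(n) log n = ∑_{d ∣ n} Λ(d) c(d) √d a(n/d)` -/
theorem an_log (n : ℕ) (hn : n ≠ 0) : (an n : ℝ) * Real.log n =
    ∑ d ∈ n.divisors, ArithmeticFunction.vonMangoldt d * cc d * Real.sqrt d * (an (n / d) : ℝ) := by
  have h := gen_log (fun n => (an n : ℝ)) (fun p => (p : ℝ)) (fun p k => (tt p k : ℝ))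
    (fun d => cc d * Real.sqrt d) (by simp [an_one])
    (fun m n hmn => by rw [an_mul m n hmn]; push_cast; ring)
    (fun k => by rw [an_even _ (dvd_pow_self 2 (by omega))]; simp)
    (fun p hp h2 k => by rw [an_pow p hp h2 k]; push_cast; ring)
    (fun p => by simp [tt]) (fun p => by simp [tt])
    (fun p k => by simp only [tt]; push_cast; ring)
    (fun p hp h2 k => by
      rw [cc_prime_pow p hp h2]
      push_cast
      have hp0 : (0 : ℝ) < p := by exact_mod_cast hp.pos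
      have : Real.sqrt ((p : ℝ) ^ (k + 1)) ≠ 0 := by positivity
      field_simp)
    (fun k => by
      rw [cc_of_not _ (Or.inr (dvd_pow_self 2 (by omega))), zero_mul]) n hn
  rw [h]
  apply Finset.sum_congr rfl
  intro d _
  ring

/-- the same for the weight three form, with some bounded `c₂` -/
theorem gn_log : ∃ c₂ : ℕ → ℝ, (∀ n, |c₂ n| ≤ 2) ∧
    (∀ p : ℕ, p.Prime → p ≠ 2 → c₂ p = gn p / p) ∧
    ∀ n : ℕ, n ≠ 0 → ((gn n : ℝ) / n) * Real.log n =
      ∑ d ∈ n.divisors, ArithmeticFunction.vonMangoldt d * c₂ d *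
        ((gn (n / d) : ℝ) / (n / d : ℕ)) := by
  set e : ℕ → ℝ := fun p => ((ZMod.χ₄ (p : ZMod 4) : ℤ) : ℝ) with he
  set c₂ : ℕ → ℝ := fun n => if IsPrimePow n ∧ n.minFac ≠ 2 then
    pw ((gn n.minFac : ℝ) / n.minFac) (e n.minFac) (n.factorization n.minFac) else 0 with hc
  have hpp : ∀ p : ℕ, p.Prime → p ≠ 2 → ∀ k, c₂ (p ^ (k + 1)) = pw ((gn p : ℝ) / p) (e p) (k + 1) := by
    intro p hp h2 k
    have hm : (p ^ (k + 1)).minFac = p := hp.pow_minFac (by omega)
    rw [hc]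
    simp only
    rw [hm, if_pos ⟨hp.isPrimePow.pow (by omega), h2⟩, hp.factorization_pow,
      Finsupp.single_eq_same]
  have hbd : ∀ p : ℕ, p.Prime → p ≠ 2 → ∀ k, |pw ((gn p : ℝ) / p) (e p) k| ≤ 2 := by
    intro p hp h2 k
    have hp0 : (0 : ℝ) < p := by exact_mod_cast hp.pos
    rcases odd_cases hp h2 with h | h
    · obtain ⟨a, b, -, -, -, hab, -, hg⟩ := an_gn_split p hp h
      have he1 : e p = 1 := by
        rw [he]; simp only; rw [ZMod.χ₄_nat_one_mod_four h]; norm_num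
      have hab' : (a : ℝ) ^ 2 + (b : ℝ) ^ 2 = p := by exact_mod_cast hab
      have h4 : ((gn p : ℝ) / p) ^ 2 ≤ 4 * 1 := by
        rw [div_pow, div_le_iff₀ (by positivity), hg]
        push_cast
        rw [← hab']
        nlinarith [mul_nonneg (sq_nonneg (a : ℝ)) (sq_nonneg (b : ℝ))]
      obtain ⟨u, v, h1, h2', hu, hv⟩ := exists_uv _ _ h4
      rw [he1]
      have := pw_bound _ _ _ u v h1 h2' hu hv k
      simpa using this
    · have he1 : e p = -1 := by
        rw [he]; simp only; rw [ZMod.χ₄_nat_three_mod_four h]; norm_num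
      rw [gn_inert p hp h, he1]
      have := pw_bound (((0 : ℤ) : ℝ) / p) (-1) 1 1 (-1) (by simp) (by simp) (by simp) (by simp) k
      simpa using this
  refine ⟨c₂, ?_, ?_, ?_⟩
  · intro n
    by_cases h : IsPrimePow n ∧ n.minFac ≠ 2
    · rw [hc]
      simp only
      rw [if_pos h]
      exact hbd _ (Nat.minFac_prime h.1.ne_one) h.2 _
    · rw [hc]
      simp only
      rw [if_neg h]
      norm_num
  · intro p hp h2
    have h := hpp p hp h2 0
    simpa [pw] using h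
  · intro n hn
    exact gen_log (fun n => (gn n : ℝ) / n) e (fun p k => pw ((gn p : ℝ) / p) (e p) k) c₂
      (by simp [gn_one])
      (fun m n hmn => by
        rw [gn_mul m n hmn]
        push_cast
        rw [mul_div_mul_comm])
      (fun k => by rw [gn_even _ (dvd_pow_self 2 (by omega))]; simp)
      (fun p hp h2 k => by
        rw [gn_pow p hp h2 k, he]
        push_cast
        have hp0 : (0 : ℝ) < p := by exact_mod_cast hp.pos
        field_simp
        ring)
      (fun p => by simp [pw]) (fun p => by simp [pw])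
      (fun p k => by simp only [pw])
      hpp
      (fun k => by
        rw [hc]
        simp only
        rw [if_neg]
        rintro ⟨-, h⟩
        exact h ((Nat.minFac_eq_two_iff _).2 (dvd_pow_self 2 (by omega)))) n hn

end Pool.Agent.H304R2.EC
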