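import Pool.Agent.H304R2.EC.Theta
import Pool.Agent.H304R2.EC.Coef

set_option autoImplicit false

/-!
TEAM Q2, module L1 (helper911): continuation and functional equation of the twisted L-function.
-/

open Finset Filter Topology MeasureTheory Set Asymptotics

namespace Pool.Agent.H304R2.EC

/-- the completed function -/
noncomputable def LL (q : ℕ) (χ : DirichletCharacter ℂ q) (s : ℂ) : ℂ :=
  mellin (fun x : ℝ => TH q χ (x / (Real.sqrt 8 * q))) (s + 1 / 2)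

/-- crude polynomial bound for the coefficients -/
theorem an_crude (n : ℕ) : |(an n : ℝ)| ≤ (2 * (n : ℝ) + 1) ^ 2 * n := by
  unfold an
  push_cast
  refine (Finset.abs_sum_le_sum_abs _ _).trans ?_
  have h1 : ∀ p ∈ PS n, |((p.1 : ℤ) : ℝ)| ≤ n := by
    intro p hp
    simp only [PS, Finset.mem_filter, Finset.mem_product, Finset.mem_Icc] at hp
    obtain ⟨⟨⟨ha, hb⟩, _⟩, _⟩ := hp
    rw [abs_le]
    constructor
    · exact_mod_cast ha
    · exact_mod_cast hb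
  refine (Finset.sum_le_card_nsmul _ _ _ h1).trans ?_
  rw [nsmul_eq_mul]
  refine mul_le_mul_of_nonneg_right ?_ (Nat.cast_nonneg n)
  have h2 : (PS n).card ≤ (2 * n + 1) ^ 2 := by
    refine (Finset.card_filter_le _ _).trans ?_
    rw [Finset.card_product, Int.card_Icc]
    have : ((n : ℤ) + 1 - -(n : ℤ)).toNat = 2 * n + 1 := by omega
    rw [this, sq]
  exact_mod_cast h2

theorem an_zero : an 0 = 0 := by
  unfold an PS
  apply Finset.sum_eq_zero
  intro p hp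
  simp only [Finset.mem_filter, Finset.mem_product, Finset.mem_Icc] at hp
  omega

/-- the coefficients -/
noncomputable def cf (q : ℕ) (χ : DirichletCharacter ℂ q) (n : ℕ) : ℂ :=
  χ (n : ZMod q) * (an n : ℂ)

theorem cf_zero (q : ℕ) (χ : DirichletCharacter ℂ q) : cf q χ 0 = 0 := by
  unfold cf; rw [an_zero]; simp

theorem cf_norm_le (q : ℕ) (χ : DirichletCharacter ℂ q) (n : ℕ) : ‖cf q χ n‖ ≤ |(an n : ℝ)| := by
  unfold cf
  rw [norm_mul]
  have h1 : ‖χ (n : ZMod q)‖ ≤ 1 := DirichletCharacter.norm_le_one χ _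
  have h2 : ‖((an n : ℤ) : ℂ)‖ = |(an n : ℝ)| := by
    rw [Complex.norm_intCast]
  rw [h2]
  calc ‖χ (n : ZMod q)‖ * |(an n : ℝ)| ≤ 1 * |(an n : ℝ)| :=
        mul_le_mul_of_nonneg_right h1 (abs_nonneg _)
    _ = _ := one_mul _

theorem summ_crude {y : ℝ} (hy : 0 < y) :
    Summable (fun n : ℕ => |(an n : ℝ)| * Real.exp (-Real.pi * n * y)) := by
  have hpi := Real.pi_pos
  have hr : ‖Real.exp (-(Real.pi * y))‖ < 1 := by
    rw [Real.norm_eq_abs, abs_of_pos (Real.exp_pos _), Real.exp_lt_one_iff]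
    have := mul_pos hpi hy
    linarith
  have h3 := summable_pow_mul_geometric_of_norm_lt_one 3 hr
  have h2 := summable_pow_mul_geometric_of_norm_lt_one 2 hr
  have h1 := summable_pow_mul_geometric_of_norm_lt_one 1 hr
  refine Summable.of_nonneg_of_le (fun n => by positivity) (fun n => ?_)
    (((h3.mul_left 4).add (h2.mul_left 4)).add h1)
  have hexp : Real.exp (-Real.pi * n * y) = Real.exp (-(Real.pi * y)) ^ n := by
    rw [← Real.exp_nat_mul]; ring_nf
  rw [hexp]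
  have hn : (0 : ℝ) ≤ n := Nat.cast_nonneg n
  calc |(an n : ℝ)| * Real.exp (-(Real.pi * y)) ^ n
      ≤ ((2 * (n : ℝ) + 1) ^ 2 * n) * Real.exp (-(Real.pi * y)) ^ n :=
        mul_le_mul_of_nonneg_right (an_crude n) (by positivity)
    _ = _ := by ring

theorem summ_cf (q : ℕ) (χ : DirichletCharacter ℂ q) {y : ℝ} (hy : 0 < y) :
    Summable (fun n : ℕ => cf q χ n * (Real.exp (-Real.pi * n * y) : ℂ)) := by
  refine Summable.of_norm_bounded (summ_crude hy) (fun n => ?_)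
  rw [norm_mul, Complex.norm_real, Real.norm_eq_abs, abs_of_pos (Real.exp_pos _)]
  exact mul_le_mul_of_nonneg_right (cf_norm_le q χ n) (Real.exp_pos _).le

theorem TH_hasSum (q : ℕ) (χ : DirichletCharacter ℂ q) {y : ℝ} (hy : 0 < y) :
    HasSum (fun n : ℕ => cf q χ n * (Real.exp (-Real.pi * n * y) : ℂ)) (TH q χ y) :=
  (summ_cf q χ hy).hasSum

theorem TH_cont (q : ℕ) (χ : DirichletCharacter ℂ q) : ContinuousOn (TH q χ) (Ioi 0) := by
  intro y hy
  have hy0 : (0 : ℝ) < y := hy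
  have h1 : ContinuousOn (TH q χ) (Ioi (y / 2)) := by
    unfold TH
    apply continuousOn_tsum (u := fun n : ℕ => |(an n : ℝ)| * Real.exp (-Real.pi * n * (y / 2)))
    · intro n
      fun_prop
    · exact summ_crude (by linarith)
    · intro n x hx
      have hx' : y / 2 < x := hx
      rw [norm_mul, Complex.norm_real, Real.norm_eq_abs, abs_of_pos (Real.exp_pos _)]
      refine mul_le_mul (cf_norm_le q χ n) ?_ (Real.exp_pos _).le (abs_nonneg _)
      apply Real.exp_le_exp.mpr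
      have hn : (0 : ℝ) ≤ n := Nat.cast_nonneg n
      have hpi := Real.pi_pos
      have : Real.pi * n * (y / 2) ≤ Real.pi * n * x :=
        mul_le_mul_of_nonneg_left hx'.le (by positivity)
      linarith
  exact (h1.continuousAt (Ioi_mem_nhds (by linarith))).continuousWithinAt

theorem TH_bound (q : ℕ) (χ : DirichletCharacter ℂ q) :
    ∃ C : ℝ, ∀ y : ℝ, 1 ≤ y → ‖TH q χ y‖ ≤ C * Real.exp (-(Real.pi / 2) * y) := by
  refine ⟨∑' n : ℕ, |(an n : ℝ)| * Real.exp (-Real.pi * n * (1 / 2)), fun y hy => ?_⟩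
  have hs := summ_crude (y := 1 / 2) (by norm_num)
  have hs' := hs.mul_right (Real.exp (-(Real.pi / 2) * y))
  rw [← tsum_mul_right]
  unfold TH
  refine tsum_of_norm_bounded hs'.hasSum (fun n => ?_)
  rw [norm_mul, Complex.norm_real, Real.norm_eq_abs, abs_of_pos (Real.exp_pos _),
    mul_assoc (|(an n : ℝ)|)]
  rcases Nat.eq_zero_or_pos n with h0 | h0
  · subst h0
    rw [an_zero]; simp
  refine mul_le_mul (cf_norm_le q χ n) ?_ (Real.exp_pos _).le (abs_nonneg _)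
  rw [← Real.exp_add]
  apply Real.exp_le_exp.mpr
  have hn : (1 : ℝ) ≤ n := by exact_mod_cast h0
  have hpi := Real.pi_pos
  have : 0 ≤ Real.pi * ((n : ℝ) - 1) * y / 2 + Real.pi * n * (y - 1) / 2 := by
    have h1 : 0 ≤ (n : ℝ) - 1 := by linarith
    have h2 : 0 ≤ y - 1 := by linarith
    positivity
  nlinarith [this]

/-- scaled theta function -/
noncomputable def sTH (q : ℕ) (χ : DirichletCharacter ℂ q) (x : ℝ) : ℂ :=
  TH q χ (x / (Real.sqrt 8 * q))

theorem sc_pos (q : ℕ) [NeZero q] : 0 < Real.sqrt 8 * (q : ℝ) := by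
  have : (0 : ℝ) < q := by exact_mod_cast Nat.pos_of_ne_zero (NeZero.ne q)
  positivity

theorem sTH_cont (q : ℕ) [NeZero q] (χ : DirichletCharacter ℂ q) :
    ContinuousOn (sTH q χ) (Ioi 0) := by
  unfold sTH
  refine (TH_cont q χ).comp (by fun_prop) ?_
  intro x hx
  have hx' : (0 : ℝ) < x := hx
  exact div_pos hx' (sc_pos q)

theorem sTH_top (q : ℕ) [NeZero q] (χ : DirichletCharacter ℂ q) (r : ℝ) :
    (fun x => sTH q χ x - 0) =O[atTop] (fun x : ℝ => x ^ r) := by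
  obtain ⟨C, hC⟩ := TH_bound q χ
  set c : ℝ := Real.pi / 2 / (Real.sqrt 8 * q) with hc
  have hcpos : 0 < c := div_pos (by positivity) (sc_pos q)
  have h1 : (fun x => sTH q χ x - 0) =O[atTop] (fun x : ℝ => Real.exp (-c * x)) := by
    refine IsBigO.of_bound C ?_
    filter_upwards [eventually_ge_atTop (Real.sqrt 8 * q)] with x hx
    rw [sub_zero, Real.norm_eq_abs, abs_of_pos (Real.exp_pos _)]
    have h2 := hC (x / (Real.sqrt 8 * q)) (by rw [le_div_iff₀ (sc_pos q)]; linarith)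
    unfold sTH
    refine h2.trans (le_of_eq ?_)
    congr 2
    rw [hc]
    field_simp
  exact h1.trans (isLittleO_exp_neg_mul_rpow_atTop hcpos r).isBigO

/-- the FE pair -/
noncomputable def PP (q : ℕ) [NeZero q] (χ : DirichletCharacter ℂ q) (w : ℂ) (hw : w ≠ 0)
    (hfe : ∀ x : ℝ, 0 < x →
      TH q χ (1 / (Real.sqrt 8 * q * x)) = w * (x : ℂ) ^ 2 * TH q χ⁻¹ (x / (Real.sqrt 8 * q))) :
    WeakFEPair ℂ where
  f := sTH q χ
  g := sTH q χ⁻¹
  k := 2
  ε := w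
  f₀ := 0
  g₀ := 0
  hf_int := (sTH_cont q χ).locallyIntegrableOn measurableSet_Ioi
  hg_int := (sTH_cont q χ⁻¹).locallyIntegrableOn measurableSet_Ioi
  hk := by norm_num
  hε := hw
  h_feq := by
    intro x hx
    have hx' : (0 : ℝ) < x := hx
    have h := hfe x hx'
    unfold sTH
    rw [show (1 / x) / (Real.sqrt 8 * q) = 1 / (Real.sqrt 8 * q * x) by
      rw [div_div, mul_comm x]]
    rw [h, smul_eq_mul]
    congr 2
    rw [Real.rpow_ofNat]
    push_cast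
    rfl
  hf_top := sTH_top q χ
  hg_top := sTH_top q χ⁻¹

theorem PP_strong (q : ℕ) [NeZero q] (χ : DirichletCharacter ℂ q) (w : ℂ) (hw : w ≠ 0)
    (hfe : ∀ x : ℝ, 0 < x →
      TH q χ (1 / (Real.sqrt 8 * q * x)) = w * (x : ℂ) ^ 2 * TH q χ⁻¹ (x / (Real.sqrt 8 * q))) :
    IsStrongFEPair (PP q χ w hw hfe) where
  hf₀ := rfl
  hg₀ := rfl

theorem LL_eq (q : ℕ) [NeZero q] (χ : DirichletCharacter ℂ q) (w : ℂ) (hw : w ≠ 0)
    (hfe : ∀ x : ℝ, 0 < x →
      TH q χ (1 / (Real.sqrt 8 * q * x)) = w * (x : ℂ) ^ 2 * TH q χ⁻¹ (x / (Real.sqrt 8 * q)))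
    (s : ℂ) : LL q χ s = (PP q χ w hw hfe).Λ (s + 1 / 2) := by
  rw [(PP_strong q χ w hw hfe).Λ_eq]
  rfl

theorem LL_entire (q : ℕ) [NeZero q] (hq : Odd q) (χ : DirichletCharacter ℂ q)
    (hχ : χ.IsPrimitive) : Differentiable ℂ (LL q χ) := by
  obtain ⟨w, hw, hfe⟩ := theta_fe q hq χ hχ
  have hw0 : w ≠ 0 := by
    intro h; rw [h, norm_zero] at hw; exact zero_ne_one hw
  have : LL q χ = fun s => (PP q χ w hw0 hfe).Λ (s + 1 / 2) := by
    funext s; exact LL_eq q χ w hw0 hfe s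
  rw [this]
  exact (PP_strong q χ w hw0 hfe).differentiable_Λ.comp (by fun_prop)

theorem LL_fe (q : ℕ) [NeZero q] (hq : Odd q) (χ : DirichletCharacter ℂ q) (hχ : χ.IsPrimitive) :
    ∃ w : ℂ, ‖w‖ = 1 ∧ ∀ s : ℂ, LL q χ (1 - s) = w * LL q χ⁻¹ s := by
  obtain ⟨w, hw, hfe⟩ := theta_fe q hq χ hχ
  have hw0 : w ≠ 0 := by
    intro h; rw [h, norm_zero] at hw; exact zero_ne_one hw
  refine ⟨w, hw, fun s => ?_⟩
  rw [LL_eq q χ w hw0 hfe]
  have h1 := (PP q χ w hw0 hfe).functional_equation (s + 1 / 2)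
  have h2 : (((PP q χ w hw0 hfe).k : ℝ) : ℂ) - (s + 1 / 2) = 1 - s + 1 / 2 := by
    change ((2 : ℝ) : ℂ) - (s + 1 / 2) = 1 - s + 1 / 2
    push_cast; ring
  rw [h2] at h1
  rw [h1, (PP_strong q χ w hw0 hfe).symm_Λ_eq, smul_eq_mul]
  rfl

theorem LL_scale (q : ℕ) [NeZero q] (χ : DirichletCharacter ℂ q) (s : ℂ) :
    LL q χ s = ((Real.sqrt 8 * q : ℝ) : ℂ) ^ (s + 1 / 2) * mellin (TH q χ) (s + 1 / 2) := by
  unfold LL
  have h1 := mellin_comp_mul_left (TH q χ) (s + 1 / 2) (a := (Real.sqrt 8 * q)⁻¹)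
    (inv_pos.mpr (sc_pos q))
  have h2 : (fun x : ℝ => TH q χ (x / (Real.sqrt 8 * q))) =
      fun x : ℝ => TH q χ ((Real.sqrt 8 * q)⁻¹ * x) := by
    funext x; rw [div_eq_inv_mul]
  rw [h2, h1, smul_eq_mul]
  congr 1
  rw [Complex.ofReal_inv, Complex.inv_cpow _ _, Complex.cpow_neg, inv_inv]
  rw [Complex.arg_ofReal_of_nonneg (sc_pos q).le]
  exact Real.pi_pos.ne

theorem FF_eq (q : ℕ) [NeZero q] (χ : DirichletCharacter ℂ q) (s : ℂ) :
    FF q χ s = (Complex.Gamma (s + 1 / 2))⁻¹ *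
      ((Real.sqrt 8 * q / Real.pi : ℝ) : ℂ) ^ (-(s + 1 / 2)) * LL q χ s := by
  rw [LL_scale]
  unfold FF
  have h0 : ((Real.sqrt 8 * q : ℝ) : ℂ) ≠ 0 := by exact_mod_cast (sc_pos q).ne'
  have h3 : ((Real.sqrt 8 * q / Real.pi : ℝ) : ℂ) ^ (-(s + 1 / 2)) =
      ((Real.sqrt 8 * q : ℝ) : ℂ) ^ (-(s + 1 / 2)) * (Real.pi : ℂ) ^ (s + 1 / 2) := by
    rw [div_eq_mul_inv, Complex.ofReal_mul,
      Complex.mul_cpow_ofReal_nonneg (sc_pos q).le (inv_pos.mpr Real.pi_pos).le]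
    congr 1
    rw [Complex.ofReal_inv, Complex.inv_cpow, Complex.cpow_neg, inv_inv]
    rw [Complex.arg_ofReal_of_nonneg Real.pi_pos.le]
    exact Real.pi_pos.ne
  rw [h3, Complex.cpow_neg]
  have h4 : ((Real.sqrt 8 * q : ℝ) : ℂ) ^ (s + 1 / 2) ≠ 0 := by
    rw [Complex.cpow_ne_zero_iff]
    left; exact h0
  generalize ((Real.sqrt 8 * q : ℝ) : ℂ) ^ (s + 1 / 2) = X at h4 ⊢
  generalize mellin (TH q χ) (s + 1 / 2) = M
  generalize (Complex.Gamma (s + 1 / 2))⁻¹ = G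
  generalize (Real.pi : ℂ) ^ (s + 1 / 2) = P
  field_simp

theorem FF_entire (q : ℕ) [NeZero q] (hq : Odd q) (χ : DirichletCharacter ℂ q)
    (hχ : χ.IsPrimitive) : Differentiable ℂ (FF q χ) := by
  have h : FF q χ = fun s => (Complex.Gamma (s + 1 / 2))⁻¹ *
      ((Real.sqrt 8 * q / Real.pi : ℝ) : ℂ) ^ (-(s + 1 / 2)) * LL q χ s := by
    funext s; exact FF_eq q χ s
  rw [h]
  have h0 : ((Real.sqrt 8 * q / Real.pi : ℝ) : ℂ) ≠ 0 := by
    exact_mod_cast (div_pos (sc_pos q) Real.pi_pos).ne'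
  have hG : Differentiable ℂ (fun s : ℂ => (Complex.Gamma (s + 1 / 2))⁻¹) :=
    Complex.differentiable_one_div_Gamma.comp (by fun_prop)
  have hc : Differentiable ℂ (fun s : ℂ =>
      ((Real.sqrt 8 * q / Real.pi : ℝ) : ℂ) ^ (-(s + 1 / 2))) := by
    intro s
    exact (DifferentiableAt.const_cpow (by fun_prop) (Or.inl h0))
  exact (hG.mul hc).mul (LL_entire q hq χ hχ)

theorem summ_div {σ : ℝ} (hσ : 1 < σ) :
    Summable (fun n : ℕ => |(an n : ℝ)| / (n : ℝ) ^ (σ + 1 / 2)) := by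
  have h1 : LSeriesSummable 1 (σ : ℂ) := LSeriesSummable_one_iff.mpr (by simpa using hσ)
  have h2 := h1.convolution h1
  have h3 := h2.norm
  refine Summable.of_nonneg_of_le (fun n => by positivity) (fun n => ?_) h3
  rcases Nat.eq_zero_or_pos n with h | h
  · subst h
    rw [an_zero]
    simp
  rw [LSeries.term_of_ne_zero h.ne', LSeries.convolution_def, norm_div,
    Complex.norm_natCast_cpow_of_pos h, Complex.ofReal_re]
  have hn : (0 : ℝ) < n := by exact_mod_cast h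
  have h4 : ‖∑ p ∈ n.divisorsAntidiagonal, (1 : ℕ → ℂ) p.1 * (1 : ℕ → ℂ) p.2‖ =
      n.divisors.card := by
    simp only [Pi.one_apply, mul_one, Finset.sum_const, nsmul_eq_mul]
    rw [Complex.norm_natCast, ← Nat.map_div_right_divisors, Finset.card_map]
  rw [h4]
  have h5 := an_le n
  have h6 : (n : ℝ) ^ (σ + 1 / 2) = (n : ℝ) ^ σ * Real.sqrt n := by
    rw [Real.rpow_add hn, Real.sqrt_eq_rpow]
  rw [h6, div_le_div_iff₀ (by positivity) (by positivity)]
  have h7 : 0 < (n : ℝ) ^ σ := by positivity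
  nlinarith [mul_le_mul_of_nonneg_right h5 h7.le]

theorem FF_series (q : ℕ) [NeZero q] (χ : DirichletCharacter ℂ q) (s : ℂ) (hs : 1 < s.re) :
    HasSum (fun n : ℕ => χ (n : ZMod q) * (an n : ℂ) * (n : ℂ) ^ (-(s + 1 / 2))) (FF q χ s) := by
  have hre : (s + 1 / 2).re = s.re + 1 / 2 := by
    rw [Complex.add_re]; norm_num
  have hpos : 0 < (s + 1 / 2).re := by rw [hre]; linarith
  have h1 := hasSum_mellin_pi_mul (a := cf q χ) (q := fun n : ℕ => (n : ℝ)) (F := TH q χ)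
    (s := s + 1 / 2) (fun n => by
      rcases Nat.eq_zero_or_pos n with h | h
      · left; rw [h, cf_zero]
      · right; exact_mod_cast h) hpos (fun t ht => TH_hasSum q χ ht) (by
      rw [hre]
      refine Summable.of_nonneg_of_le (fun n => by positivity) (fun n => ?_) (summ_div hs)
      exact div_le_div_of_nonneg_right (cf_norm_le q χ n) (by positivity))
  have h2 := h1.mul_left ((Real.pi : ℂ) ^ (s + 1 / 2) * (Complex.Gamma (s + 1 / 2))⁻¹)
  have h3 : (Real.pi : ℂ) ^ (s + 1 / 2) * (Complex.Gamma (s + 1 / 2))⁻¹ *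
      mellin (TH q χ) (s + 1 / 2) = FF q χ s := rfl
  rw [h3] at h2
  have h4 : (fun n : ℕ => χ (n : ZMod q) * (an n : ℂ) * (n : ℂ) ^ (-(s + 1 / 2))) =
      fun n : ℕ => (Real.pi : ℂ) ^ (s + 1 / 2) * (Complex.Gamma (s + 1 / 2))⁻¹ *
        ((Real.pi : ℂ) ^ (-(s + 1 / 2)) * Complex.Gamma (s + 1 / 2) * cf q χ n /
          ((n : ℝ) : ℂ) ^ (s + 1 / 2)) := by
    funext n
    rcases Nat.eq_zero_or_pos n with h | h
    · subst h
      rw [cf_zero, an_zero]; simp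
    · have hG : Complex.Gamma (s + 1 / 2) ≠ 0 := Complex.Gamma_ne_zero_of_re_pos hpos
      have hP : (Real.pi : ℂ) ^ (s + 1 / 2) ≠ 0 := by
        rw [Complex.cpow_ne_zero_iff]; left
        exact_mod_cast Real.pi_ne_zero
      rw [Complex.cpow_neg, Complex.cpow_neg, Complex.ofReal_natCast]
      unfold cf
      generalize (Real.pi : ℂ) ^ (s + 1 / 2) = P at hP ⊢
      generalize Complex.Gamma (s + 1 / 2) = G at hG ⊢
      generalize ((n : ℂ) ^ (s + 1 / 2)) = N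
      field_simp
  rw [h4]
  exact h2

theorem TH_conj (q : ℕ) (χ : DirichletCharacter ℂ q) (y : ℝ) :
    TH q χ⁻¹ y = (starRingEnd ℂ) (TH q χ y) := by
  unfold TH
  rw [Complex.conj_tsum]
  refine tsum_congr (fun n => ?_)
  rw [map_mul, map_mul, Complex.conj_ofReal, ← MulChar.star_apply']
  congr 2
  simp

theorem mellin_conj (f : ℝ → ℂ) (s : ℂ) :
    mellin (fun x => (starRingEnd ℂ) (f x)) ((starRingEnd ℂ) s) =
      (starRingEnd ℂ) (mellin f s) := by
  unfold mellin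
  rw [← integral_conj]
  refine setIntegral_congr_fun measurableSet_Ioi (fun t ht => ?_)
  have ht' : (0 : ℝ) < t := ht
  simp only [smul_eq_mul, map_mul]
  congr 1
  have h1 : (starRingEnd ℂ) s - 1 = (starRingEnd ℂ) (s - 1) := by simp
  rw [h1, Complex.cpow_conj, Complex.conj_ofReal]
  rw [Complex.arg_ofReal_of_nonneg ht'.le]
  exact Real.pi_pos.ne

theorem FF_conj (q : ℕ) [NeZero q] (χ : DirichletCharacter ℂ q) (s : ℂ) :
    FF q χ⁻¹ ((starRingEnd ℂ) s) = (starRingEnd ℂ) (FF q χ s) := by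
  unfold FF
  have h0 : (starRingEnd ℂ) s + 1 / 2 = (starRingEnd ℂ) (s + 1 / 2) := by
    rw [map_add, map_div₀, map_one, map_ofNat]
  have h1 : TH q χ⁻¹ = fun x => (starRingEnd ℂ) (TH q χ x) := by
    funext x; exact TH_conj q χ x
  rw [h0, h1, mellin_conj, Complex.Gamma_conj, map_mul, map_mul, map_inv₀]
  congr 2
  rw [Complex.cpow_conj, Complex.conj_ofReal]
  rw [Complex.arg_ofReal_of_nonneg Real.pi_pos.le]
  exact Real.pi_pos.ne

/-- crude bound in vertical strips for fixed `q`, `χ`, as input for Phragmen-Lindelöf -/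
theorem LL_bdd (q : ℕ) [NeZero q] (hq : Odd q) (χ : DirichletCharacter ℂ q) (hχ : χ.IsPrimitive)
    (a b : ℝ) : ∃ C : ℝ, ∀ s : ℂ, a ≤ s.re → s.re ≤ b → ‖LL q χ s‖ ≤ C := by
  obtain ⟨w, hw, hfe⟩ := theta_fe q hq χ hχ
  have hw0 : w ≠ 0 := by
    intro h; rw [h, norm_zero] at hw; exact zero_ne_one hw
  have hconv : ∀ z : ℂ, MellinConvergent (sTH q χ) z := fun z =>
    ((PP_strong q χ w hw0 hfe).hasMellin z).1
  have hint : ∀ c : ℝ, IntegrableOn (fun t : ℝ => t ^ (c - 1 / 2) * ‖sTH q χ t‖) (Ioi 0) := by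
    intro c
    have h1 : IntegrableOn (fun t : ℝ => ‖(t : ℂ) ^ (((c + 1 / 2 : ℝ) : ℂ) - 1) • sTH q χ t‖)
        (Ioi 0) := (hconv ((c + 1 / 2 : ℝ) : ℂ)).norm
    refine h1.congr_fun ?_ measurableSet_Ioi
    intro t ht
    have ht' : (0 : ℝ) < t := ht
    simp only [norm_smul]
    rw [Complex.norm_cpow_eq_rpow_re_of_pos ht']
    congr 2
    simp; ring
  refine ⟨∫ t in Ioi (0 : ℝ), (t ^ (a - 1 / 2) * ‖sTH q χ t‖ + t ^ (b - 1 / 2) * ‖sTH q χ t‖),
    fun s h1 h2 => ?_⟩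
  unfold LL mellin
  refine (norm_integral_le_integral_norm _).trans ?_
  refine setIntegral_mono_on ?_ ((hint a).add (hint b)) measurableSet_Ioi (fun t ht => ?_)
  · exact (hconv (s + 1 / 2)).norm
  have ht' : (0 : ℝ) < t := ht
  rw [norm_smul, Complex.norm_cpow_eq_rpow_re_of_pos ht', ← add_mul]
  refine mul_le_mul_of_nonneg_right ?_ (norm_nonneg _)
  have h3 : (s + 1 / 2 - 1 : ℂ).re = s.re - 1 / 2 := by simp; ring
  rw [h3]
  rcases le_total 1 t with h4 | h4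
  · have := Real.rpow_le_rpow_of_exponent_le h4 (show s.re - 1 / 2 ≤ b - 1 / 2 by linarith)
    have h5 : 0 ≤ t ^ (a - 1 / 2) := by positivity
    linarith
  · have := Real.rpow_le_rpow_of_exponent_ge ht' h4 (show a - 1 / 2 ≤ s.re - 1 / 2 by linarith)
    have h5 : 0 ≤ t ^ (b - 1 / 2) := by positivity
    linarith

end Pool.Agent.H304R2.EC
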