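import Pool.Agent.H304R2.EC.Coef
import Pool.Agent.H304R2.EC.Pair

set_option autoImplicit false

/-! TEAM Q2, task L4 (helper332): `FF = exp G` on `Re s > 1`, logarithmic derivative. -/

open Complex Filter Topology LSeries


namespace Pool.Agent.H304R2.EC

namespace LogDer

variable (q : ℕ) (χ : DirichletCharacter ℂ q)

/-- the coefficients of `FF` -/
noncomputable def gco (n : ℕ) : ℂ := χ (n : ZMod q) * (an n : ℂ) * (n : ℂ) ^ (-(1 / 2 : ℂ))

/-- the coefficients of `- FF'/FF` -/
noncomputable def bco (n : ℕ) : ℂ :=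
  χ (n : ZMod q) * (cc n : ℂ) * (ArithmeticFunction.vonMangoldt n : ℂ)

/-- the coefficients of `log FF` -/
noncomputable def lco (n : ℕ) : ℂ := bco q χ n / (Real.log n : ℂ)

theorem term_gco (s : ℂ) (n : ℕ) (hs : 1 < s.re) :
    LSeries.term (gco q χ) s n = χ (n : ZMod q) * (an n : ℂ) * (n : ℂ) ^ (-(s + 1 / 2)) := by
  rcases eq_or_ne n 0 with rfl | hn
  · have h : -(s + 1 / 2) ≠ 0 := by
      intro h
      have := congrArg Complex.re h
      simp at this
      linarith
    simp only [LSeries.term_zero, Nat.cast_zero]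
    rw [Complex.zero_cpow h, mul_zero]
  · rw [LSeries.term_of_ne_zero hn, gco, div_eq_mul_inv, ← Complex.cpow_neg, mul_assoc,
      ← Complex.cpow_add _ _ (Nat.cast_ne_zero.mpr hn)]
    congr 2
    ring

theorem gco_hasSum [NeZero q] (s : ℂ) (hs : 1 < s.re) :
    HasSum (LSeries.term (gco q χ) s) (FF q χ s) := by
  have h := FF_series q χ s hs
  have h2 : LSeries.term (gco q χ) s =
      fun n : ℕ => χ (n : ZMod q) * (an n : ℂ) * (n : ℂ) ^ (-(s + 1 / 2)) :=
    funext fun n => term_gco q χ s n hs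
  rw [h2]
  exact h

theorem gco_eq [NeZero q] (s : ℂ) (hs : 1 < s.re) : LSeries (gco q χ) s = FF q χ s :=
  (gco_hasSum q χ s hs).tsum_eq

theorem gco_summable [NeZero q] (s : ℂ) (hs : 1 < s.re) : LSeriesSummable (gco q χ) s :=
  (gco_hasSum q χ s hs).summable

theorem absc_gco [NeZero q] : abscissaOfAbsConv (gco q χ) ≤ 1 := by
  have h := LSeries.abscissaOfAbsConv_le_of_forall_lt_LSeriesSummable (f := gco q χ) (x := 1)
    (fun y hy => gco_summable q χ y (by simpa using hy))
  simpa using h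

theorem bco_norm_le (n : ℕ) : ‖bco q χ n‖ ≤ 2 * ArithmeticFunction.vonMangoldt n := by
  rw [bco, norm_mul, norm_mul, Complex.norm_real, Complex.norm_real, Real.norm_eq_abs,
    Real.norm_eq_abs, abs_of_nonneg ArithmeticFunction.vonMangoldt_nonneg]
  have h1 := DirichletCharacter.norm_le_one χ (n : ZMod q)
  have h2 := cc_le n
  have h3 : (0 : ℝ) ≤ ArithmeticFunction.vonMangoldt n := ArithmeticFunction.vonMangoldt_nonneg
  have h4 : ‖χ (n : ZMod q)‖ * |cc n| ≤ 1 * 2 :=
    mul_le_mul h1 h2 (abs_nonneg _) zero_le_one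
  calc _ ≤ (1 * 2) * ArithmeticFunction.vonMangoldt n := mul_le_mul_of_nonneg_right h4 h3
    _ = _ := by ring

theorem lco_norm_le (n : ℕ) :
    ‖lco q χ n‖ ≤ (2 / Real.log 2) * ArithmeticFunction.vonMangoldt n := by
  have hlog2 : 0 < Real.log 2 := Real.log_pos (by norm_num)
  have h3 : (0 : ℝ) ≤ ArithmeticFunction.vonMangoldt n := ArithmeticFunction.vonMangoldt_nonneg
  rw [lco, norm_div, Complex.norm_real, Real.norm_eq_abs]
  rcases Nat.lt_or_ge n 2 with hn | hn
  · have : (Real.log n) = 0 := by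
      interval_cases n <;> simp
    rw [this, abs_zero, div_zero]
    positivity
  · have hl : Real.log 2 ≤ Real.log n := Real.log_le_log (by norm_num) (by exact_mod_cast hn)
    rw [abs_of_pos (lt_of_lt_of_le hlog2 hl)]
    calc ‖bco q χ n‖ / Real.log n ≤ (2 * ArithmeticFunction.vonMangoldt n) / Real.log n :=
          div_le_div_of_nonneg_right (bco_norm_le q χ n) (by linarith)
      _ ≤ (2 * ArithmeticFunction.vonMangoldt n) / Real.log 2 :=
          div_le_div_of_nonneg_left (by positivity) hlog2 hl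
      _ = _ := by ring

theorem summable_of_le (f : ℕ → ℂ) (C : ℝ)
    (hf : ∀ n, ‖f n‖ ≤ C * ArithmeticFunction.vonMangoldt n) (s : ℂ) (hs : 1 < s.re) :
    LSeriesSummable f s := by
  have h := (ArithmeticFunction.LSeriesSummable_vonMangoldt hs)
  refine Summable.of_norm_bounded (g := fun n => C * ‖LSeries.term
    (fun n => ((ArithmeticFunction.vonMangoldt n : ℝ) : ℂ)) s n‖) ((h.norm).mul_left C) ?_
  intro n
  rcases eq_or_ne n 0 with rfl | hn
  · simp
  · rw [LSeries.term_of_ne_zero hn, LSeries.term_of_ne_zero hn, norm_div, norm_div,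
      Complex.norm_real, Real.norm_eq_abs, abs_of_nonneg ArithmeticFunction.vonMangoldt_nonneg,
      ← mul_div_assoc]
    exact div_le_div_of_nonneg_right (hf n) (norm_nonneg _)

theorem bco_summable (s : ℂ) (hs : 1 < s.re) : LSeriesSummable (bco q χ) s :=
  summable_of_le _ _ (bco_norm_le q χ) s hs

theorem lco_summable (s : ℂ) (hs : 1 < s.re) : LSeriesSummable (lco q χ) s :=
  summable_of_le _ _ (lco_norm_le q χ) s hs

theorem absc_lco : abscissaOfAbsConv (lco q χ) ≤ 1 := by
  have h := LSeries.abscissaOfAbsConv_le_of_forall_lt_LSeriesSummable (f := lco q χ) (x := 1)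
    (fun y hy => lco_summable q χ y (by simpa using hy))
  simpa using h

theorem logMul_lco (n : ℕ) : logMul (lco q χ) n = bco q χ n := by
  unfold logMul lco
  rw [← Complex.natCast_log]
  rcases Nat.lt_or_ge n 2 with hn | hn
  · have h1 : (Real.log n) = 0 := by
      interval_cases n <;> simp
    have h2 : (ArithmeticFunction.vonMangoldt n) = 0 := by
      interval_cases n <;> simp
    rw [h1, bco, h2]
    simp
  · have hl : (Real.log n) ≠ 0 := by
      have : 0 < Real.log n := Real.log_pos (by exact_mod_cast hn)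
      exact this.ne'
    have hl' : (Real.log n : ℂ) ≠ 0 := by exact_mod_cast hl
    field_simp

theorem gco_one : gco q χ 1 = 1 := by
  simp [gco, an_one]

theorem logMul_gco (n : ℕ) (hn : n ≠ 0) :
    logMul (gco q χ) n = LSeries.convolution (bco q χ) (gco q χ) n := by
  rw [LSeries.convolution_def]
  beta_reduce
  rw [Nat.sum_divisorsAntidiagonal (f := fun a b => bco q χ a * gco q χ b)]
  unfold logMul
  rw [← Complex.natCast_log]
  have h := an_log n hn
  have hC : ((an n : ℂ)) * (Real.log n : ℂ) = ∑ d ∈ n.divisors,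
      ((ArithmeticFunction.vonMangoldt d : ℝ) : ℂ) * (cc d : ℂ) * (Real.sqrt d : ℂ) *
        (an (n / d) : ℂ) := by
    have := congrArg (fun x : ℝ => (x : ℂ)) h
    push_cast at this
    rw [← this, Complex.natCast_log]
  have : (Real.log n : ℂ) * gco q χ n = (χ (n : ZMod q) * (n : ℂ) ^ (-(1 / 2 : ℂ))) *
      ((an n : ℂ) * (Real.log n : ℂ)) := by
    unfold gco; ring
  rw [this, hC, Finset.mul_sum]
  refine Finset.sum_congr rfl ?_
  intro d hd
  have hdn : d ∣ n := Nat.dvd_of_mem_divisors hd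
  obtain ⟨e, rfl⟩ := hdn
  have hd0 : d ≠ 0 := by rintro rfl; simp at hn
  have he0 : e ≠ 0 := by rintro rfl; simp at hn
  rw [Nat.mul_div_cancel_left e (Nat.pos_of_ne_zero hd0)]
  unfold bco gco
  have h1 : ((d * e : ℕ) : ℂ) ^ (-(1 / 2 : ℂ)) =
      (d : ℂ) ^ (-(1 / 2 : ℂ)) * (e : ℂ) ^ (-(1 / 2 : ℂ)) := by
    push_cast
    rw [Complex.natCast_mul_natCast_cpow]
  have h2 : (d : ℂ) ^ (-(1 / 2 : ℂ)) * (Real.sqrt d : ℂ) = 1 := by
    have hd' : (0 : ℝ) ≤ d := Nat.cast_nonneg d
    rw [Real.sqrt_eq_rpow, Complex.ofReal_cpow hd']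
    push_cast
    rw [← Complex.cpow_add _ _ (Nat.cast_ne_zero.mpr hd0)]
    simp
  have h3 : χ ((d * e : ℕ) : ZMod q) = χ (d : ZMod q) * χ (e : ZMod q) := by
    push_cast
    rw [map_mul]
  rw [h1, h3]
  linear_combination (χ (d : ZMod q) * χ (e : ZMod q) * (e : ℂ) ^ (-(1 / 2 : ℂ)) *
    ((ArithmeticFunction.vonMangoldt d : ℝ) : ℂ) * (cc d : ℂ) * (an e : ℂ)) * h2

theorem hasDeriv [NeZero q] (s : ℂ) (hs : 1 < s.re) :
    HasDerivAt (FF q χ) (-(LSeries (bco q χ) s * FF q χ s)) s := by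
  have habs : abscissaOfAbsConv (gco q χ) < s.re :=
    lt_of_le_of_lt (absc_gco q χ) (by exact_mod_cast hs)
  have h := LSeries_hasDerivAt habs
  have h1 : LSeries (logMul (gco q χ)) s = LSeries (bco q χ) s * FF q χ s := by
    rw [← gco_eq q χ s hs, ← LSeries_convolution' (bco_summable q χ s hs) (gco_summable q χ s hs)]
    exact LSeries_congr (fun {n} hn => logMul_gco q χ n hn) s
  rw [h1] at h
  refine h.congr_of_eventuallyEq ?_
  have hU : IsOpen {z : ℂ | 1 < z.re} := isOpen_lt continuous_const continuous_re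
  filter_upwards [hU.mem_nhds hs] with z hz
  exact (gco_eq q χ z hz).symm

theorem hasDeriv_lco (s : ℂ) (hs : 1 < s.re) :
    HasDerivAt (LSeries (lco q χ)) (-LSeries (bco q χ) s) s := by
  have habs : abscissaOfAbsConv (lco q χ) < s.re :=
    lt_of_le_of_lt (absc_lco q χ) (by exact_mod_cast hs)
  have h := LSeries_hasDerivAt habs
  have h1 : LSeries (logMul (lco q χ)) s = LSeries (bco q χ) s :=
    LSeries_congr (fun {n} _ => logMul_lco q χ n) s
  rwa [h1] at h

theorem FF_exp [NeZero q] (s : ℂ) (hs : 1 < s.re) :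
    FF q χ s = Complex.exp (LSeries (lco q χ) s) := by
  set U : Set ℂ := {z : ℂ | 1 < z.re} with hUdef
  have hU : IsOpen U := isOpen_lt continuous_const continuous_re
  have hUc : IsPreconnected U := (convex_halfSpace_re_gt 1).isPreconnected
  set H : ℂ → ℂ := fun z => FF q χ z * Complex.exp (-LSeries (lco q χ) z) with hH
  have hHd : ∀ z ∈ U, HasDerivAt H 0 z := by
    intro z hz
    have h1 := hasDeriv q χ z hz
    have h2 := ((hasDeriv_lco q χ z hz).neg).cexp
    have h3 := h1.mul h2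
    refine h3.congr_deriv ?_
    simp only [Pi.neg_apply]
    ring
  have hconst : ∀ z ∈ U, H z = H s := fun z hz =>
    hU.is_const_of_deriv_eq_zero hUc
      (fun w hw => (hHd w hw).differentiableAt.differentiableWithinAt)
      (fun w hw => (hHd w hw).deriv) hz hs
  have hlim1 : Tendsto (fun x : ℝ => FF q χ x) atTop (𝓝 1) := by
    have h := LSeries.tendsto_atTop (f := gco q χ)
      (lt_of_le_of_lt (absc_gco q χ) (by exact EReal.coe_lt_top 1))
    rw [gco_one] at h
    refine h.congr' ?_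
    filter_upwards [eventually_gt_atTop (1 : ℝ)] with x hx
    exact gco_eq q χ x (by simpa using hx)
  have hlim2 : Tendsto (fun x : ℝ => LSeries (lco q χ) x) atTop (𝓝 0) := by
    have h := LSeries.tendsto_atTop (f := lco q χ)
      (lt_of_le_of_lt (absc_lco q χ) (by exact EReal.coe_lt_top 1))
    have h0 : lco q χ 1 = 0 := by simp [lco]
    rwa [h0] at h
  have hlim : Tendsto (fun x : ℝ => H x) atTop (𝓝 (1 * Complex.exp (-0))) :=
    hlim1.mul (hlim2.neg.cexp)
  have hlim' : Tendsto (fun x : ℝ => H x) atTop (𝓝 (H s)) := by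
    refine tendsto_const_nhds.congr' ?_
    filter_upwards [eventually_gt_atTop (1 : ℝ)] with x hx
    exact (hconst x (by simpa [hUdef] using hx)).symm
  have hHs : H s = 1 := by
    have := tendsto_nhds_unique hlim' hlim
    simpa using this
  have : FF q χ s * Complex.exp (-LSeries (lco q χ) s) = 1 := hHs
  rw [Complex.exp_neg] at this
  have hne := Complex.exp_ne_zero (LSeries (lco q χ) s)
  field_simp at this
  exact this

end LogDer

open LogDer

theorem FF_ne_zero (q : ℕ) [NeZero q] (χ : DirichletCharacter ℂ q) (s : ℂ) (hs : 1 < s.re) :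
    FF q χ s ≠ 0 := by
  rw [FF_exp q χ s hs]
  exact Complex.exp_ne_zero _

theorem FF_ld (q : ℕ) [NeZero q] (χ : DirichletCharacter ℂ q) (s : ℂ) (hs : 1 < s.re) :
    deriv (FF q χ) s / FF q χ s =
      - ∑' n : ℕ, (χ (n : ZMod q) * (cc n : ℂ) * (ArithmeticFunction.vonMangoldt n : ℂ)) *
        (n : ℂ) ^ (-s) := by
  rw [(hasDeriv q χ s hs).deriv]
  have hne := FF_ne_zero q χ s hs
  rw [neg_div, mul_div_cancel_right₀ _ hne]
  congr 1
  unfold LSeries
  refine tsum_congr fun n => ?_
  rcases eq_or_ne n 0 with rfl | hn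
  · simp
  · rw [LSeries.term_of_ne_zero hn, bco, div_eq_mul_inv, ← Complex.cpow_neg]

theorem FF_lower : ∃ c : ℝ, 0 < c ∧ ∀ (q : ℕ) [NeZero q] (χ : DirichletCharacter ℂ q) (t : ℝ),
    c ≤ ‖FF q χ (⟨2, t⟩ : ℂ)‖ := by
  set S : ℝ := ∑' n : ℕ, (2 / Real.log 2) * ‖LSeries.term
    (fun n => ((ArithmeticFunction.vonMangoldt n : ℝ) : ℂ)) (2 : ℂ) n‖ with hS
  refine ⟨Real.exp (-S), Real.exp_pos _, ?_⟩
  intro q _ χ t
  have hs : 1 < (⟨2, t⟩ : ℂ).re := by norm_num
  rw [FF_exp q χ _ hs, Complex.norm_exp, Real.exp_le_exp]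
  have hsum := lco_summable q χ (⟨2, t⟩ : ℂ) hs
  have hbound : ‖LSeries (lco q χ) (⟨2, t⟩ : ℂ)‖ ≤ S := by
    have hsm : Summable fun n : ℕ => (2 / Real.log 2) * ‖LSeries.term
      (fun n => ((ArithmeticFunction.vonMangoldt n : ℝ) : ℂ)) (2 : ℂ) n‖ :=
      ((ArithmeticFunction.LSeriesSummable_vonMangoldt
        (s := 2) (by norm_num)).norm).mul_left _
    refine tsum_of_norm_bounded hsm.hasSum ?_
    intro n
    rcases eq_or_ne n 0 with rfl | hn
    · simp
    · have hnpos : (0 : ℝ) < n := by exact_mod_cast Nat.pos_of_ne_zero hn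
      rw [LSeries.term_of_ne_zero hn, LSeries.term_of_ne_zero hn, norm_div, norm_div,
        Complex.norm_real, Real.norm_eq_abs, abs_of_nonneg ArithmeticFunction.vonMangoldt_nonneg,
        Complex.norm_natCast_cpow_of_pos (Nat.pos_of_ne_zero hn),
        Complex.norm_natCast_cpow_of_pos (Nat.pos_of_ne_zero hn), ← mul_div_assoc]
      exact div_le_div_of_nonneg_right (lco_norm_le q χ n) (by positivity)
  have := Complex.abs_re_le_norm (LSeries (lco q χ) (⟨2, t⟩ : ℂ))
  have h2 := neg_abs_le (LSeries (lco q χ) (⟨2, t⟩ : ℂ)).re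
  linarith

end Pool.Agent.H304R2.EC
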