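import Pool.Agent.H304R2.EC.Defs

set_option autoImplicit false

/-! Gauss: the number of points of `y^2 = x^3 - x` over `ZMod p`. -/

namespace Pool.Agent.H304R2.EC

open Finset

namespace Pts

variable {p : ℕ} [hF : Fact p.Prime]

/-- the quadratic character of `ZMod p` -/
noncomputable abbrev qc (p : ℕ) [Fact p.Prime] : MulChar (ZMod p) ℤ := quadraticChar (ZMod p)

/-- Jacobsthal sums -/
noncomputable def SS (a : ZMod p) : ℤ := ∑ x : ZMod p, qc p (x * (x ^ 2 - a))

theorem rc (h2 : p ≠ 2) : ringChar (ZMod p) ≠ 2 := by rwa [ZMod.ringChar_zmod_n]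

theorem qc_sq {a : ZMod p} (ha : a ≠ 0) : qc p (a ^ 2) = 1 := quadraticChar_sq_one' ha

theorem qc_self {a : ZMod p} (ha : a ≠ 0) : qc p a * qc p a = 1 := by
  have := quadraticChar_sq_one ha
  rw [sq] at this
  exact this

theorem sum_qc (h2 : p ≠ 2) : ∑ x : ZMod p, qc p x = 0 := quadraticChar_sum_zero (rc h2)

theorem pair_sum (h2 : p ≠ 2) (u v : ZMod p) :
    ∑ a : ZMod p, qc p ((a - u) * (a - v)) = if u = v then (p : ℤ) - 1 else -1 := by
  split_ifs with h
  · subst h
    have h1 : ∀ a : ZMod p, qc p ((a - u) * (a - u)) = if a = u then 0 else 1 := by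
      intro a
      split_ifs with ha
      · subst ha
        simp
      · rw [← sq]
        exact qc_sq (sub_ne_zero.2 ha)
    simp_rw [h1]
    rw [Finset.sum_ite]
    simp only [sum_const_zero, zero_add, sum_const, nsmul_eq_mul, mul_one]
    rw [Finset.filter_ne', Finset.card_erase_of_mem (mem_univ _), Finset.card_univ, ZMod.card]
    have := hF.out.one_lt
    push_cast [Nat.cast_sub this.le]
    ring
  · have hvu : v - u ≠ 0 := sub_ne_zero.2 (Ne.symm h)
    have e : ZMod p ≃ ZMod p := (Equiv.mulLeft₀ (v - u) hvu).trans (Equiv.addLeft u)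
    rw [← Equiv.sum_comp ((Equiv.mulLeft₀ (v - u) hvu).trans (Equiv.addLeft u))]
    have h1 : ∀ x : ZMod p, qc p ((((Equiv.mulLeft₀ (v - u) hvu).trans (Equiv.addLeft u)) x - u) *
        (((Equiv.mulLeft₀ (v - u) hvu).trans (Equiv.addLeft u)) x - v)) =
        qc p (-1) * (qc p x * qc p (1 - x)) := by
      intro x
      have : ((((Equiv.mulLeft₀ (v - u) hvu).trans (Equiv.addLeft u)) x - u) *
        (((Equiv.mulLeft₀ (v - u) hvu).trans (Equiv.addLeft u)) x - v)) =
          (v - u) ^ 2 * (-1 * (x * (1 - x))) := by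
        simp only [Equiv.trans_apply, Equiv.mulLeft₀_apply, Equiv.coe_addLeft]
        ring
      rw [this, map_mul, qc_sq hvu, one_mul, map_mul, map_mul]
    simp_rw [h1]
    rw [← Finset.mul_sum]
    have h3 := jacobiSum_nontrivial_inv (χ := qc p) (quadraticChar_ne_one (rc h2))
    rw [(quadraticChar_isQuadratic (ZMod p)).inv] at h3
    unfold jacobiSum at h3
    rw [h3]
    have := qc_self (p := p) (a := -1) (by simp)
    linarith

theorem SS_sq_sum (h2 : p ≠ 2) (h1 : qc p (-1) = 1) :
    ∑ a : ZMod p, SS a ^ 2 = 2 * (p : ℤ) * ((p : ℤ) - 1) := by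
  have e1 : ∀ a : ZMod p, SS a ^ 2 = ∑ x : ZMod p, ∑ y : ZMod p,
      qc p (x * y) * qc p ((a - x ^ 2) * (a - y ^ 2)) := by
    intro a
    rw [sq, SS, Finset.sum_mul_sum]
    refine Finset.sum_congr rfl fun x _ => Finset.sum_congr rfl fun y _ => ?_
    rw [← map_mul, ← map_mul]
    congr 1
    ring
  simp_rw [e1]
  rw [Finset.sum_comm]
  have e2 : ∀ x : ZMod p, ∑ a : ZMod p, ∑ y : ZMod p,
      qc p (x * y) * qc p ((a - x ^ 2) * (a - y ^ 2)) =
      (p : ℤ) * (if x = 0 then 0 else 2) - qc p x * ∑ y : ZMod p, qc p y := by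
    intro x
    rw [Finset.sum_comm]
    have e3 : ∀ y : ZMod p, ∑ a : ZMod p, qc p (x * y) * qc p ((a - x ^ 2) * (a - y ^ 2)) =
        (p : ℤ) * (if x ^ 2 = y ^ 2 then qc p (x * y) else 0) - qc p x * qc p y := by
      intro y
      rw [← Finset.mul_sum, pair_sum h2, map_mul]
      split_ifs <;> ring
    simp_rw [e3]
    rw [Finset.sum_sub_distrib, ← Finset.mul_sum, ← Finset.mul_sum]
    congr 2
    rw [← Finset.sum_filter]
    split_ifs with hx
    · subst hx
      refine Finset.sum_eq_zero fun y _ => ?_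
      simp
    · have hne : x ≠ -x := by
        intro h
        apply hx
        have h4 : (2 : ZMod p) * x = 0 := by linear_combination h
        rcases mul_eq_zero.1 h4 with h5 | h5
        · exfalso
          apply h2
          have h6 : ((2 : ℕ) : ZMod p) = 0 := by exact_mod_cast h5
          rw [ZMod.natCast_eq_zero_iff] at h6
          exact (Nat.prime_dvd_prime_iff_eq hF.out Nat.prime_two).1 h6
        · exact h5
      have : (univ.filter fun y : ZMod p => x ^ 2 = y ^ 2) = {x, -x} := by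
        ext y
        simp only [mem_filter, mem_univ, true_and, mem_insert, mem_singleton]
        rw [sq_eq_sq_iff_eq_or_eq_neg]
        constructor
        · rintro (h | h)
          · exact Or.inl h.symm
          · exact Or.inr (by rw [h]; ring)
        · rintro (h | h)
          · exact Or.inl h.symm
          · exact Or.inr (by rw [h]; ring)
      rw [this, Finset.sum_pair hne]
      have h7 : x * x = x ^ 2 := by ring
      have h8 : x * -x = -1 * x ^ 2 := by ring
      rw [h7, h8, map_mul, qc_sq hx, h1]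
      norm_num
  simp_rw [e2]
  rw [Finset.sum_sub_distrib, ← Finset.mul_sum, ← Finset.sum_mul, sum_qc h2, mul_zero, sub_zero,
    Finset.sum_ite]
  simp only [sum_const_zero, zero_add, sum_const, nsmul_eq_mul]
  rw [Finset.filter_ne', Finset.card_erase_of_mem (mem_univ _), Finset.card_univ, ZMod.card]
  have := hF.out.one_lt
  push_cast [Nat.cast_sub this.le]
  ring

theorem SS_scale (a t : ZMod p) (ht : t ≠ 0) : SS (a * t ^ 2) = qc p t * SS a := by
  unfold SS
  rw [← Equiv.sum_comp (Equiv.mulLeft₀ t ht), Finset.mul_sum]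
  refine Finset.sum_congr rfl fun x _ => ?_
  have : (Equiv.mulLeft₀ t ht) x * ((Equiv.mulLeft₀ t ht) x ^ 2 - a * t ^ 2) =
      t ^ 2 * (t * (x * (x ^ 2 - a))) := by
    simp only [Equiv.mulLeft₀_apply]; ring
  rw [this, map_mul, qc_sq ht, one_mul, map_mul]

theorem SS_zero (h2 : p ≠ 2) : SS (0 : ZMod p) = 0 := by
  unfold SS
  rw [← sum_qc (p := p) h2]
  refine Finset.sum_congr rfl fun x _ => ?_
  by_cases hx : x = 0
  · subst hx; simp
  · have : x * (x ^ 2 - 0) = x ^ 2 * x := by ring
    rw [this, map_mul, qc_sq hx, one_mul]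

theorem jacobsthal (h2 : p ≠ 2) (h1 : qc p (-1) = 1) (n : ZMod p) (hn : ¬ IsSquare n) :
    SS (1 : ZMod p) ^ 2 + SS n ^ 2 = 4 * (p : ℤ) := by
  have hn0 : n ≠ 0 := by rintro rfl; exact hn ⟨0, by simp⟩
  have key : ∀ a : ZMod p, a ≠ 0 → SS a ^ 2 + SS (n * a) ^ 2 = SS (1 : ZMod p) ^ 2 + SS n ^ 2 := by
    intro a ha
    by_cases h : IsSquare a
    · obtain ⟨t, rfl⟩ := h
      have ht : t ≠ 0 := by rintro rfl; simp at ha
      have e1 : t * t = 1 * t ^ 2 := by ring
      have e2 : n * (t * t) = n * t ^ 2 := by ring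
      rw [e2, e1, SS_scale _ _ ht, SS_scale _ _ ht, mul_pow, mul_pow]
      have := qc_self ht
      rw [← sq] at this
      rw [this]; ring
    · have hna : IsSquare (n * a) := by
        rw [← quadraticChar_one_iff_isSquare (mul_ne_zero hn0 ha), map_mul,
          quadraticChar_neg_one_iff_not_isSquare.2 hn, quadraticChar_neg_one_iff_not_isSquare.2 h]
        norm_num
      obtain ⟨t, ht⟩ := hna
      have ht0 : t ≠ 0 := by
        rintro rfl
        rw [mul_zero] at ht
        exact mul_ne_zero hn0 ha ht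
      have e1 : n * a = 1 * t ^ 2 := by rw [ht]; ring
      have e2 : a = n * (t / n) ^ 2 := by
        field_simp
        rw [← sq] at ht
        linear_combination ht
      have ht1 : t / n ≠ 0 := div_ne_zero ht0 hn0
      rw [e1, SS_scale _ _ ht0]
      conv_lhs => rw [e2]
      rw [SS_scale _ _ ht1, mul_pow, mul_pow]
      have h3 := qc_self ht0
      have h4 := qc_self ht1
      rw [← sq] at h3 h4
      rw [h3, h4]; ring
  have hs := SS_sq_sum h2 h1
  have hs0 : ∑ a ∈ univ.erase (0 : ZMod p), SS a ^ 2 = 2 * (p : ℤ) * ((p : ℤ) - 1) := by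
    rw [← hs, ← Finset.add_sum_erase _ _ (mem_univ (0 : ZMod p)), SS_zero h2]
    ring
  have hs1 : ∑ a ∈ univ.erase (0 : ZMod p), SS (n * a) ^ 2 = 2 * (p : ℤ) * ((p : ℤ) - 1) := by
    rw [← hs0]
    refine Finset.sum_bij (fun a _ => n * a) ?_ ?_ ?_ ?_
    · intro a ha
      rw [mem_erase] at ha ⊢
      exact ⟨mul_ne_zero hn0 ha.1, mem_univ _⟩
    · intro a _ b _ hab
      exact mul_left_cancel₀ hn0 hab
    · intro b hb
      rw [mem_erase] at hb
      refine ⟨n⁻¹ * b, ?_, ?_⟩
      · rw [mem_erase]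
        exact ⟨mul_ne_zero (inv_ne_zero hn0) hb.1, mem_univ _⟩
      · field_simp
    · intro a _; rfl
  have hs2 : ∑ a ∈ univ.erase (0 : ZMod p), (SS a ^ 2 + SS (n * a) ^ 2) =
      ((p : ℤ) - 1) * (SS (1 : ZMod p) ^ 2 + SS n ^ 2) := by
    rw [Finset.sum_congr rfl fun a ha => key a (mem_erase.1 ha).1, sum_const, nsmul_eq_mul,
      Finset.card_erase_of_mem (mem_univ _), Finset.card_univ, ZMod.card]
    have := hF.out.one_lt
    push_cast [Nat.cast_sub this.le]
    ring
  rw [Finset.sum_add_distrib, hs0, hs1] at hs2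
  have hp1 : (p : ℤ) - 1 ≠ 0 := by
    have := hF.out.one_lt
    omega
  apply mul_left_cancel₀ hp1
  linarith

/-! ### the number of points -/

theorem aE_eq_SS (h2 : p ≠ 2) : aE p = - SS (1 : ZMod p) := by
  have hcard : (((Finset.range p ×ˢ Finset.range p).filter
    (fun xy : ℕ × ℕ => (p : ℤ) ∣ (xy.2 : ℤ) ^ 2 - ((xy.1 : ℤ) ^ 3 - (xy.1 : ℤ)))).card : ℤ) =
      ∑ x : ZMod p, (((univ : Finset (ZMod p)).filter fun y => y ^ 2 = x ^ 3 - x).card : ℤ) := by
    rw [← Nat.cast_sum, ← Finset.card_sigma]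
    congr 1
    refine Finset.card_bij' (fun xy _ => (⟨(xy.1 : ZMod p), (xy.2 : ZMod p)⟩ : Σ _ : ZMod p, ZMod p))
      (fun q _ => (q.1.val, q.2.val)) ?_ ?_ ?_ ?_
    · rintro ⟨x, y⟩ h
      simp only [mem_filter, mem_product, mem_range] at h
      simp only [mem_sigma, mem_univ, mem_filter, true_and]
      obtain ⟨_, h⟩ := h
      rw [← ZMod.intCast_zmod_eq_zero_iff_dvd] at h
      push_cast at h
      linear_combination h
    · rintro ⟨x, y⟩ h
      simp only [mem_sigma, mem_univ, mem_filter, true_and] at h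
      simp only [mem_filter, mem_product, mem_range]
      refine ⟨⟨ZMod.val_lt _, ZMod.val_lt _⟩, ?_⟩
      rw [← ZMod.intCast_zmod_eq_zero_iff_dvd]
      push_cast
      simp only [ZMod.natCast_val, ZMod.cast_id', id_eq]
      linear_combination h
    · rintro ⟨x, y⟩ h
      simp only [mem_filter, mem_product, mem_range] at h
      simp only [Prod.mk.injEq]
      exact ⟨ZMod.val_cast_of_lt h.1.1, ZMod.val_cast_of_lt h.1.2⟩
    · rintro ⟨x, y⟩ h
      simp
  have hfib : ∀ x : ZMod p, (((univ : Finset (ZMod p)).filter fun y => y ^ 2 = x ^ 3 - x).card : ℤ) =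
      qc p (x * (x ^ 2 - 1)) + 1 := by
    intro x
    have := quadraticChar_card_sqrts (rc h2) (x ^ 3 - x)
    have e : x * (x ^ 2 - 1) = x ^ 3 - x := by ring
    rw [e, ← this]
    congr 2
    ext y
    simp
  unfold aE
  rw [hcard]
  simp_rw [hfib]
  rw [Finset.sum_add_distrib]
  simp only [sum_const, nsmul_eq_mul, mul_one, card_univ, ZMod.card]
  unfold SS
  ring

/-! ### the count modulo 4 -/

/-- the `x` with `x^3 - x` a nonzero square -/
noncomputable def XX (p : ℕ) [Fact p.Prime] : Finset (ZMod p) :=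
  open Classical in univ.filter fun x => x * (x ^ 2 - 1) ≠ 0 ∧ IsSquare (x * (x ^ 2 - 1))

theorem mem_XX {x : ZMod p} : x ∈ XX p ↔ x * (x ^ 2 - 1) ≠ 0 ∧ IsSquare (x * (x ^ 2 - 1)) := by
  classical
  simp [XX]

theorem two_ne (h2 : p ≠ 2) : (2 : ZMod p) ≠ 0 := by
  intro h5
  apply h2
  have h6 : ((2 : ℕ) : ZMod p) = 0 := by exact_mod_cast h5
  rw [ZMod.natCast_eq_zero_iff] at h6
  exact (Nat.prime_dvd_prime_iff_eq hF.out Nat.prime_two).1 h6

theorem SS_one (h2 : p ≠ 2) : SS (1 : ZMod p) = 2 * ((XX p).card : ℤ) - ((p : ℤ) - 3) := by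
  classical
  have h20 := two_ne (p := p) h2
  have e1 : ∀ x : ZMod p, qc p (x * (x ^ 2 - 1)) =
      2 * (if x ∈ XX p then 1 else 0) - (if x * (x ^ 2 - 1) ≠ 0 then 1 else 0) := by
    intro x
    by_cases h0 : x * (x ^ 2 - 1) = 0
    · rw [h0]
      have : x ∉ XX p := fun h => (mem_XX.1 h).1 h0
      simp [this]
    · by_cases hs : IsSquare (x * (x ^ 2 - 1))
      · have : x ∈ XX p := mem_XX.2 ⟨h0, hs⟩
        rw [(quadraticChar_one_iff_isSquare h0).2 hs]
        simp [this, h0]
      · have : x ∉ XX p := fun h => hs (mem_XX.1 h).2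
        rw [quadraticChar_neg_one_iff_not_isSquare.2 hs]
        simp [this, h0]
  unfold SS
  simp_rw [e1]
  rw [Finset.sum_sub_distrib, ← Finset.mul_sum, Finset.sum_boole, Finset.sum_boole]
  have e2 : (univ.filter fun x => x ∈ XX p) = XX p := by ext; simp
  have e3 : (univ.filter fun x : ZMod p => x * (x ^ 2 - 1) ≠ 0) =
      ((univ.erase (0 : ZMod p)).erase 1).erase (-1) := by
    ext x
    simp only [mem_filter, mem_univ, true_and, mem_erase, and_true]
    constructor
    · intro h
      refine ⟨?_, ?_, ?_⟩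
      · rintro rfl; apply h; ring
      · rintro rfl; apply h; ring
      · rintro rfl; apply h; ring
    · rintro ⟨h1, h3, h4⟩ h
      rcases mul_eq_zero.1 h with h | h
      · exact h4 h
      · have : (x - 1) * (x + 1) = 0 := by linear_combination h
        rcases mul_eq_zero.1 this with h | h
        · exact h3 (by linear_combination h)
        · exact h1 (by linear_combination h)
  have hm1 : (-1 : ZMod p) ≠ 1 := by
    intro h
    apply h20
    linear_combination -h
  rw [e2, e3, Finset.card_erase_of_mem, Finset.card_erase_of_mem, Finset.card_erase_of_mem,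
    Finset.card_univ, ZMod.card]
  · have h3 : 3 ≤ p := by
      have := hF.out.two_le
      omega
    have : ((p - 1 - 1 - 1 : ℕ) : ℤ) = (p : ℤ) - 3 := by omega
    rw [this]
  · exact mem_univ _
  · simp
  · simp [hm1]

theorem XX_card (h2 : p ≠ 2) (i : ZMod p) (hi : i ^ 2 = -1) : ∃ k : ℕ, (XX p).card = 4 * k + 2 := by
  classical
  have h20 := two_ne (p := p) h2
  have hi0 : i ≠ 0 := by
    rintro rfl
    simp at hi
  have neg_mem : ∀ x, x ∈ XX p → -x ∈ XX p := by
    intro x hx
    obtain ⟨h0, t, ht⟩ := mem_XX.1 hx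
    rw [mem_XX]
    have e : -x * ((-x) ^ 2 - 1) = i ^ 2 * (x * (x ^ 2 - 1)) := by rw [hi]; ring
    rw [e]
    refine ⟨mul_ne_zero (pow_ne_zero 2 hi0) h0, i * t, ?_⟩
    rw [ht]; ring
  have inv_mem : ∀ x, x ∈ XX p → x⁻¹ ∈ XX p := by
    intro x hx
    obtain ⟨h0, t, ht⟩ := mem_XX.1 hx
    have hx0 : x ≠ 0 := left_ne_zero_of_mul h0
    rw [mem_XX]
    have e : x⁻¹ * (x⁻¹ ^ 2 - 1) = i ^ 2 * (x * (x ^ 2 - 1)) * ((x⁻¹) ^ 2) ^ 2 := by
      rw [hi]; field_simp; ring
    rw [e]
    refine ⟨mul_ne_zero (mul_ne_zero (pow_ne_zero 2 hi0) h0)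
      (pow_ne_zero 2 (pow_ne_zero 2 (inv_ne_zero hx0))), i * t * (x⁻¹) ^ 2, ?_⟩
    rw [ht]; ring
  set Y := (XX p).filter fun x => x ^ 2 ≠ -1 with hY
  have hcardX : (XX p).card = Y.card + 2 := by
    have h1 := Finset.card_filter_add_card_filter_not (s := XX p) (fun x => x ^ 2 ≠ -1)
    have h3 : ((XX p).filter fun x => ¬ x ^ 2 ≠ -1) = {i, -i} := by
      ext x
      simp only [mem_filter, not_not, mem_insert, mem_singleton]
      constructor
      · rintro ⟨_, h⟩
        rw [← hi, sq_eq_sq_iff_eq_or_eq_neg] at h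
        exact h
      · have hiX : i ∈ XX p := by
          rw [mem_XX]
          have e : i * (i ^ 2 - 1) = (1 - i) * (1 - i) := by
            have : (1 - i) * (1 - i) = 1 - 2 * i + i ^ 2 := by ring
            rw [this, hi]; ring
          have e' : i * (i ^ 2 - 1) = (-2) * i := by rw [hi]; ring
          refine ⟨?_, 1 - i, e⟩
          rw [e']
          exact mul_ne_zero (neg_ne_zero.2 h20) hi0
        rintro (rfl | rfl)
        · exact ⟨hiX, hi⟩
        · exact ⟨neg_mem _ hiX, by rw [neg_sq, hi]⟩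
    have hne : i ≠ -i := by
      intro h
      have : (2 : ZMod p) * i = 0 := by linear_combination h
      rcases mul_eq_zero.1 this with h | h
      · exact h20 h
      · exact hi0 h
    rw [h3, Finset.card_pair hne] at h1
    rw [← h1]
  have hfib : ∀ b ∈ Y.image (fun x => x ^ 2 + (x⁻¹) ^ 2),
      (Y.filter fun x => x ^ 2 + (x⁻¹) ^ 2 = b).card = 4 := by
    intro b hb
    obtain ⟨x, hx, rfl⟩ := mem_image.1 hb
    rw [hY, mem_filter] at hx
    obtain ⟨hxX, hx1⟩ := hx
    have h0 := (mem_XX.1 hxX).1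
    have hx0 : x ≠ 0 := left_ne_zero_of_mul h0
    have hx2 : x ^ 2 ≠ 1 := by
      intro h
      exact right_ne_zero_of_mul h0 (by rw [h]; ring)
    have hset : (Y.filter fun y => y ^ 2 + (y⁻¹) ^ 2 = x ^ 2 + (x⁻¹) ^ 2) =
        {x, -x, x⁻¹, -x⁻¹} := by
      ext y
      rw [hY, mem_filter, mem_filter]
      simp only [mem_insert, mem_singleton]
      constructor
      · rintro ⟨⟨hyX, _⟩, h⟩
        have hy0 : y ≠ 0 := left_ne_zero_of_mul (mem_XX.1 hyX).1
        have h3 : (y - x) * (y + x) * ((x * y - 1) * (x * y + 1)) = 0 := by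
          field_simp at h
          linear_combination h
        rcases mul_eq_zero.1 h3 with h4 | h4
        · rcases mul_eq_zero.1 h4 with h5 | h5
          · exact Or.inl (by linear_combination h5)
          · exact Or.inr (Or.inl (by linear_combination h5))
        · rcases mul_eq_zero.1 h4 with h5 | h5
          · refine Or.inr (Or.inr (Or.inl ?_))
            field_simp
            linear_combination h5
          · refine Or.inr (Or.inr (Or.inr ?_))
            field_simp
            linear_combination h5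
      · have hsqi : (x⁻¹) ^ 2 ≠ -1 := by
          intro h
          apply hx1
          rw [inv_pow, inv_eq_iff_eq_inv] at h
          rw [h]; simp
        rintro (rfl | rfl | rfl | rfl)
        · exact ⟨⟨hxX, hx1⟩, rfl⟩
        · refine ⟨⟨neg_mem _ hxX, by rwa [neg_sq]⟩, ?_⟩
          rw [neg_sq, inv_neg, neg_sq]
        · refine ⟨⟨inv_mem _ hxX, hsqi⟩, ?_⟩
          rw [inv_inv]; ring
        · refine ⟨⟨neg_mem _ (inv_mem _ hxX), by rwa [neg_sq]⟩, ?_⟩
          rw [neg_sq, inv_neg, neg_sq, inv_inv]; ring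
    rw [hset]
    have n1 : x ≠ -x := by
      intro h
      have : (2 : ZMod p) * x = 0 := by linear_combination h
      rcases mul_eq_zero.1 this with h | h
      · exact h20 h
      · exact hx0 h
    have n2 : x ≠ x⁻¹ := by
      intro h
      apply hx2
      rw [sq]
      nth_rewrite 2 [h]
      exact mul_inv_cancel₀ hx0
    have n3 : x ≠ -x⁻¹ := by
      intro h
      apply hx1
      rw [sq]
      nth_rewrite 2 [h]
      rw [mul_neg, mul_inv_cancel₀ hx0]
    have n4 : -x ≠ x⁻¹ := by
      intro h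
      apply n3
      rw [← h]; ring
    have n5 : -x ≠ -x⁻¹ := by
      intro h
      exact n2 (neg_injective h)
    have n6 : x⁻¹ ≠ -x⁻¹ := by
      intro h
      have : (2 : ZMod p) * x⁻¹ = 0 := by linear_combination h
      rcases mul_eq_zero.1 this with h | h
      · exact h20 h
      · exact inv_ne_zero hx0 h
    rw [card_insert_of_notMem, card_insert_of_notMem, card_insert_of_notMem, card_singleton]
    · simp only [mem_singleton]; exact n6
    · simp only [mem_insert, mem_singleton, not_or]; exact ⟨n4, n5⟩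
    · simp only [mem_insert, mem_singleton, not_or]; exact ⟨n1, n2, n3⟩
  refine ⟨(Y.image (fun x => x ^ 2 + (x⁻¹) ^ 2)).card, ?_⟩
  rw [hcardX, Finset.card_eq_sum_card_image (fun x => x ^ 2 + (x⁻¹) ^ 2) Y,
    Finset.sum_congr rfl hfib, sum_const, smul_eq_mul, mul_comm]

/-! ### uniqueness of the representation -/

omit hF in
theorem sq_unique {a b A B : ℤ} (hp : p.Prime) (h : a ^ 2 + b ^ 2 = p) (H : A ^ 2 + B ^ 2 = p)
    (ha : a % 2 = 1) (hA : A % 2 = 1) (hb : b % 2 = 0) : a ^ 2 = A ^ 2 := by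
  have hp' : Prime (p : ℤ) := Nat.prime_iff_prime_int.1 hp
  have hp0 : (0 : ℤ) < p := by exact_mod_cast hp.pos
  have hd : (p : ℤ) ∣ (a * B - b * A) * (a * B + b * A) :=
    ⟨a ^ 2 - A ^ 2, by linear_combination a ^ 2 * H - A ^ 2 * h⟩
  have fin : a ^ 2 * B ^ 2 = b ^ 2 * A ^ 2 → a ^ 2 = A ^ 2 := by
    intro e
    apply mul_left_cancel₀ hp0.ne'
    linear_combination e - a ^ 2 * H + A ^ 2 * h
  have par : ∀ u v : ℤ, a * A + u = 0 → u = b * v → False := by
    intro u v h1 h3
    obtain ⟨a', ha'⟩ : ∃ a', a = 2 * a' + 1 := ⟨a / 2, by omega⟩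
    obtain ⟨A', hA'⟩ : ∃ A', A = 2 * A' + 1 := ⟨A / 2, by omega⟩
    obtain ⟨b', hb'⟩ : ∃ b', b = 2 * b' := ⟨b / 2, by omega⟩
    rw [ha', hA', h3, hb'] at h1
    have : 2 * (2 * a' * A' + a' + A' + b' * v) = -1 := by linear_combination h1
    omega
  rcases hp'.dvd_or_dvd hd with ⟨k, hk⟩ | ⟨k, hk⟩
  · have e1 : (p : ℤ) ^ 2 * k ^ 2 + (a * A + b * B) ^ 2 = (p : ℤ) ^ 2 := by
      have : (a * B - b * A) ^ 2 + (a * A + b * B) ^ 2 = (a ^ 2 + b ^ 2) * (A ^ 2 + B ^ 2) := by ring
      rw [hk, h, H] at this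
      linear_combination this
    have e2 : k ^ 2 ≤ 1 := by
      by_contra hcon
      push Not at hcon
      have : (p : ℤ) ^ 2 * 1 < (p : ℤ) ^ 2 * k ^ 2 := mul_lt_mul_of_pos_left hcon (by positivity)
      nlinarith [sq_nonneg (a * A + b * B)]
    have e3 : k = 0 ∨ k ^ 2 = 1 := by
      rcases lt_or_eq_of_le e2 with h3 | h3
      · left
        have : k ^ 2 = 0 := by nlinarith [sq_nonneg k]
        exact pow_eq_zero_iff (two_ne_zero) |>.1 this
      · exact Or.inr h3
    rcases e3 with e3 | e3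
    · rw [e3, mul_zero] at hk
      apply fin
      have : a * B = b * A := by linear_combination hk
      have h5 : (a * B) ^ 2 = (b * A) ^ 2 := by rw [this]
      linear_combination h5
    · exfalso
      rw [e3, mul_one] at e1
      have h5 : (a * A + b * B) ^ 2 = 0 := by linear_combination e1
      exact par (b * B) B (pow_eq_zero_iff (two_ne_zero) |>.1 h5) rfl
  · have e1 : (p : ℤ) ^ 2 * k ^ 2 + (a * A - b * B) ^ 2 = (p : ℤ) ^ 2 := by
      have : (a * B + b * A) ^ 2 + (a * A - b * B) ^ 2 = (a ^ 2 + b ^ 2) * (A ^ 2 + B ^ 2) := by ring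
      rw [hk, h, H] at this
      linear_combination this
    have e2 : k ^ 2 ≤ 1 := by
      by_contra hcon
      push Not at hcon
      have : (p : ℤ) ^ 2 * 1 < (p : ℤ) ^ 2 * k ^ 2 := mul_lt_mul_of_pos_left hcon (by positivity)
      nlinarith [sq_nonneg (a * A - b * B)]
    have e3 : k = 0 ∨ k ^ 2 = 1 := by
      rcases lt_or_eq_of_le e2 with h3 | h3
      · left
        have : k ^ 2 = 0 := by nlinarith [sq_nonneg k]
        exact pow_eq_zero_iff (two_ne_zero) |>.1 this
      · exact Or.inr h3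
    rcases e3 with e3 | e3
    · rw [e3, mul_zero] at hk
      apply fin
      have : a * B = -(b * A) := by linear_combination hk
      have h5 : (a * B) ^ 2 = (-(b * A)) ^ 2 := by rw [this]
      linear_combination h5
    · exfalso
      rw [e3, mul_one] at e1
      have h5 : (a * A - b * B) ^ 2 = 0 := by linear_combination e1
      have h6 := pow_eq_zero_iff (two_ne_zero) |>.1 h5
      exact par (-(b * B)) (-B) (by linear_combination h6) (by ring)

end Pts

open Pts in
theorem aE_eq (p : ℕ) (hp : p.Prime) (h2 : p ≠ 2) : aE p = an p := by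
  have : Fact p.Prime := ⟨hp⟩
  have hodd : p % 2 = 1 := hp.mod_two_eq_one_iff_ne_two.2 h2
  have h24 : p % 4 = 1 ∨ p % 4 = 3 := by omega
  rcases h24 with h4 | h4
  · -- `p ≡ 1 mod 4`
    obtain ⟨i, hi⟩ : ∃ i : ZMod p, i ^ 2 = -1 := by
      have := (ZMod.exists_sq_eq_neg_one_iff (p := p)).2 (by omega)
      obtain ⟨i, hi⟩ := this
      exact ⟨i, by rw [sq, ← hi]⟩
    have hm1 : qc p (-1) = 1 := by
      rw [quadraticChar_one_iff_isSquare (by simp)]
      exact ⟨i, by rw [← hi, sq]⟩
    obtain ⟨n, hn⟩ := quadraticChar_exists_neg_one (rc (p := p) h2)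
    have hn' : ¬ IsSquare n := quadraticChar_neg_one_iff_not_isSquare.1 hn
    have hJ := jacobsthal h2 hm1 n hn'
    obtain ⟨k, hk⟩ := XX_card h2 i hi
    have hS := SS_one (p := p) h2
    have hE := aE_eq_SS (p := p) h2
    rw [hk] at hS
    push_cast at hS
    have hE2 : aE p = (p : ℤ) - 7 - 8 * k := by rw [hE, hS]; ring
    obtain ⟨A, hA⟩ : ∃ A : ℤ, aE p = 2 * A := ⟨aE p / 2, by omega⟩
    have hSA : SS (1 : ZMod p) = -(2 * A) := by linarith
    rw [hSA] at hJ
    have hSn : (SS n) % 2 = 0 := by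
      rcases Int.emod_two_eq_zero_or_one (SS n) with h | h
      · exact h
      · exfalso
        obtain ⟨c, hc⟩ : ∃ c, SS n = 2 * c + 1 := ⟨SS n / 2, by omega⟩
        rw [hc] at hJ
        have : 2 * (2 * A ^ 2 + 2 * c ^ 2 + 2 * c - 2 * p) = -1 := by linear_combination hJ
        omega
    obtain ⟨B, hB⟩ : ∃ B : ℤ, SS n = 2 * B := ⟨SS n / 2, by omega⟩
    rw [hB] at hJ
    have hAB : A ^ 2 + B ^ 2 = p := by linarith
    -- congruences
    have hA4 : 2 * A = (p : ℤ) - 7 - 8 * k := by linarith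
    have hAodd : A % 2 = 1 := by omega
    have hcong : B % 2 = 0 ∧ (A + B) % 4 = 1 := by
      obtain ⟨a', ha'⟩ : ∃ a', A = 2 * a' + 1 := ⟨A / 2, by omega⟩
      have hBe : B % 2 = 0 := by
        rcases Int.emod_two_eq_zero_or_one B with h | h
        · exact h
        · exfalso
          obtain ⟨c, hc⟩ : ∃ c, B = 2 * c + 1 := ⟨B / 2, by omega⟩
          rw [ha', hc] at hAB
          have : 2 * (2 * a' ^ 2 + 2 * a' + 2 * c ^ 2 + 2 * c + 1) = (p : ℤ) := by
            linear_combination hAB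
          omega
      refine ⟨hBe, ?_⟩
      obtain ⟨b', hb'⟩ : ∃ b', B = 2 * b' := ⟨B / 2, by omega⟩
      -- `a' (a'+1)` is even
      obtain ⟨e, he⟩ : ∃ e, a' * (a' + 1) = 2 * e := (Int.even_mul_succ_self a').two_dvd
      have h8 : 8 * e + 1 + 4 * b' ^ 2 = (p : ℤ) := by
        rw [ha', hb'] at hAB
        linear_combination hAB - 4 * he
      rcases Int.emod_two_eq_zero_or_one b' with h | h
      · obtain ⟨c, hc⟩ : ∃ c, b' = 2 * c := ⟨b' / 2, by omega⟩
        have h9 : 8 * e + 1 + 16 * c ^ 2 = (p : ℤ) := by rw [hc] at h8; linear_combination h8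
        generalize c ^ 2 = c2 at h9
        omega
      · obtain ⟨c, hc⟩ : ∃ c, b' = 2 * c + 1 := ⟨b' / 2, by omega⟩
        have h9 : 8 * e + 1 + 16 * (c ^ 2 + c) + 4 = (p : ℤ) := by
          rw [hc] at h8; linear_combination h8
        generalize c ^ 2 + c = c2 at h9
        omega
    obtain ⟨hB2, hAB4⟩ := hcong
    have hB0 : B ≠ 0 := by
      rintro rfl
      have h5 : A ^ 2 = (p : ℤ) := by linarith
      have h6 : A.natAbs ^ 2 = p := by
        zify
        rw [sq_abs]
        exact h5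
      rw [← h6] at hp
      exact Nat.Prime.not_prime_pow le_rfl hp
    have hp1 : (1 : ℤ) ≤ p := by exact_mod_cast hp.one_lt.le
    have hrange : ∀ x : ℤ, x ^ 2 ≤ p → -(p : ℤ) ≤ x ∧ x ≤ p := by
      intro x hx
      constructor <;> nlinarith
    have hPS : PS p = {(A, B), (A, -B)} := by
      ext ⟨a, b⟩
      simp only [PS, mem_filter, mem_product, mem_Icc, mem_insert, mem_singleton, Prod.mk.injEq]
      constructor
      · rintro ⟨_, hb2, hab, hsq⟩
        have haodd : a % 2 = 1 := by omega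
        have h7 := sq_unique hp hsq hAB haodd hAodd hb2
        have h8 : b ^ 2 = B ^ 2 := by linarith
        have hb : b = B ∨ b = -B := sq_eq_sq_iff_eq_or_eq_neg.1 h8
        rcases sq_eq_sq_iff_eq_or_eq_neg.1 h7 with h9 | h9
        · rcases hb with hb | hb
          · exact Or.inl ⟨h9, hb⟩
          · exact Or.inr ⟨h9, hb⟩
        · exfalso
          rcases hb with hb | hb <;> omega
      · have hA2 : A ^ 2 ≤ p := by nlinarith [sq_nonneg B]
        have hB2' : B ^ 2 ≤ p := by nlinarith [sq_nonneg A]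
        rintro (⟨rfl, rfl⟩ | ⟨rfl, rfl⟩)
        · exact ⟨⟨hrange _ hA2, hrange _ hB2'⟩, hB2, hAB4, hAB⟩
        · refine ⟨⟨hrange _ hA2, hrange _ (by rwa [neg_sq])⟩, by omega, by omega, ?_⟩
          rw [neg_sq]; exact hAB
    have hne : ((A, B) : ℤ × ℤ) ≠ (A, -B) := by
      intro h
      have : B = -B := congrArg Prod.snd h
      exact hB0 (by linarith)
    unfold an
    rw [hPS, Finset.sum_pair hne, hA]
    ring
  · -- `p ≡ 3 mod 4`
    have han : an p = 0 := by
      unfold an
      have : PS p = ∅ := by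
        rw [Finset.eq_empty_iff_forall_notMem]
        rintro ⟨a, b⟩ h
        simp only [PS, mem_filter, mem_product, mem_Icc] at h
        obtain ⟨_, hb, hab, hsq⟩ := h
        obtain ⟨b', hb'⟩ : ∃ b', b = 2 * b' := ⟨b / 2, by omega⟩
        obtain ⟨a', ha'⟩ : ∃ a', a = 2 * a' + 1 := ⟨a / 2, by omega⟩
        have : 4 * (a' ^ 2 + a' + b' ^ 2) + 1 = (p : ℤ) := by
          rw [ha', hb'] at hsq
          linear_combination hsq
        omega
      rw [this, Finset.sum_empty]
    rw [han, aE_eq_SS h2]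
    have hm1 : qc p (-1) = -1 := by
      rw [quadraticChar_neg_one_iff_not_isSquare, ZMod.exists_sq_eq_neg_one_iff]
      simp [h4]
    have hs : SS (1 : ZMod p) = - SS (1 : ZMod p) := by
      unfold SS
      conv_lhs => rw [← Equiv.sum_comp (Equiv.neg (ZMod p))]
      rw [← Finset.sum_neg_distrib]
      refine Finset.sum_congr rfl fun x _ => ?_
      have e : (Equiv.neg (ZMod p)) x * ((Equiv.neg (ZMod p)) x ^ 2 - 1) =
          -1 * (x * (x ^ 2 - 1)) := by
        simp only [Equiv.neg_apply]; ring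
      rw [e, map_mul, hm1]
      ring
    linarith

end Pool.Agent.H304R2.EC
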