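import Pool.Agent.H304R2.EC.Defs

set_option autoImplicit false

/-!
TEAM Q2 (helper304): blueprint of the analytic part. Every statement is to be proved under the same
name in namespace `Pool.Agent.H304R2.EC`, in the file named in its section.
-/

open Finset Filter Topology

namespace Pool.Agent.H304R2.EC.Blueprint

open Pool.Agent.H304R2.EC

/-! ### G1 (Gauss2.lean): two dimensional Gauss sum -/

theorem gauss2 (q : ℕ) [NeZero q] (hq : Odd q) (χ : DirichletCharacter ℂ q) (hχ : χ.IsPrimitive) :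
    ∃ K : ℂ, ‖K‖ = q ∧ ∀ x y : ZMod q,
      ∑ a : ZMod q, ∑ b : ZMod q, χ (a ^ 2 + b ^ 2) * ZMod.stdAddChar (a * x + b * y) =
        K * χ⁻¹ (x ^ 2 + y ^ 2) := sorry

/-! ### G2 (Dft.lean): discrete Fourier transform of the coefficients (from G1 and CRT) -/

theorem dft (q : ℕ) [NeZero q] (hq : Odd q) (χ : DirichletCharacter ℂ q) (hχ : χ.IsPrimitive) :
    ∃ K : ℂ, ‖K‖ = q ∧ ∀ n n' : ℤ,
      ∑ r ∈ (range (4 * q)).filter (fun r => r % 4 = 1), ∑ s ∈ range (2 * q),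
        (-1 : ℂ) ^ s * χ ((r ^ 2 + 4 * s ^ 2 : ℕ) : ZMod q) *
          Complex.exp (2 * Real.pi * Complex.I * ((r : ℂ) / (4 * q)) * n) *
          Complex.exp (2 * Real.pi * Complex.I * ((s : ℂ) / (2 * q)) * n') =
      if Odd n' then 2 * Complex.I ^ ((q : ℤ) * n) * K * χ⁻¹ ((n ^ 2 + n' ^ 2 : ℤ) : ZMod q)
      else 0 := sorry

/-! ### G3 (Sum4.lean): sums over pairs of integers in terms of primary elements -/

theorem sum_primary (Φ : ℕ → ℂ) (C δ : ℝ) (hδ : 0 < δ) (hΦ : ∀ k : ℕ, ‖Φ k‖ ≤ C * Real.exp (-δ * k)) :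
    HasSum (fun p : ℤ × ℤ => if p.1 % 4 = 1 then
        (-1 : ℂ) ^ p.2.natAbs * p.1 * Φ (p.1 ^ 2 + 4 * p.2 ^ 2).natAbs else 0)
      (∑' k : ℕ, (an k : ℂ) * Φ k) := sorry

theorem sum_odd (Φ : ℕ → ℂ) (C δ : ℝ) (hδ : 0 < δ) (hΦ : ∀ k : ℕ, ‖Φ k‖ ≤ C * Real.exp (-δ * k)) :
    HasSum (fun p : ℤ × ℤ => if p.1 % 2 = 1 ∧ p.2 % 2 = 1 then
        (p.1 : ℂ) * ((ZMod.χ₄ (p.1 : ZMod 4) : ℤ) : ℂ) * Φ (p.1 ^ 2 + p.2 ^ 2).natAbs else 0)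
      (4 * ∑' k : ℕ, (an k : ℂ) * Φ (2 * k)) := sorry

/-! ### G4 (Theta.lean): functional equation of the theta series, from G2, G3 and the kernels of
`Mathlib.NumberTheory.LSeries.HurwitzZetaOdd/Even` -/

theorem theta_fe (q : ℕ) [NeZero q] (hq : Odd q) (χ : DirichletCharacter ℂ q) (hχ : χ.IsPrimitive) :
    ∃ w : ℂ, ‖w‖ = 1 ∧ ∀ x : ℝ, 0 < x →
      TH q χ (1 / (Real.sqrt 8 * q * x)) = w * (x : ℂ) ^ 2 * TH q χ⁻¹ (x / (Real.sqrt 8 * q)) :=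
  sorry

/-! ### A1 (Mult.lean): sums over primary elements, arithmetic in `ℤ[i]` -/

theorem Sh_one (h : GaussianInt →* ℂ) : Sh h 1 = 1 := sorry

theorem Sh_even (h : GaussianInt → ℂ) (n : ℕ) (hn : 2 ∣ n) : Sh h n = 0 := sorry

theorem Sh_mul (h : GaussianInt →* ℂ) (m n : ℕ) (hmn : Nat.Coprime m n) :
    Sh h (m * n) = Sh h m * Sh h n := sorry

theorem Sh_inert (h : GaussianInt →* ℂ) (p : ℕ) (hp : p.Prime) (h3 : p % 4 = 3) (k : ℕ) :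
    Sh h p = 0 ∧ Sh h (p ^ (k + 2)) = h (-(p : GaussianInt)) * Sh h (p ^ k) := sorry

theorem PS_split (p : ℕ) (hp : p.Prime) (h1 : p % 4 = 1) :
    ∃ a b : ℤ, b ≠ 0 ∧ b % 2 = 0 ∧ (a + b) % 4 = 1 ∧ a ^ 2 + b ^ 2 = p ∧
      PS p = {(a, b), (a, -b)} := sorry

theorem Sh_split (h : GaussianInt →* ℂ) (p : ℕ) (hp : p.Prime) (h1 : p % 4 = 1) (k : ℕ) :
    Sh h (p ^ (k + 2)) = Sh h p * Sh h (p ^ (k + 1)) - h (p : GaussianInt) * Sh h (p ^ k) := sorry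

/-! ### A2 (Coef.lean): consequences for `an`, `gn`, `cc` (from A1) -/

theorem an_one : an 1 = 1 := sorry

theorem an_even (n : ℕ) (hn : 2 ∣ n) : an n = 0 := sorry

theorem an_mul (m n : ℕ) (hmn : Nat.Coprime m n) : an (m * n) = an m * an n := sorry

theorem an_pow (p : ℕ) (hp : p.Prime) (h2 : p ≠ 2) (k : ℕ) :
    an (p ^ (k + 2)) = an p * an (p ^ (k + 1)) - p * an (p ^ k) := sorry

theorem an_sq_le (p : ℕ) (hp : p.Prime) : (an p) ^ 2 ≤ 4 * p := sorry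

theorem an_le (n : ℕ) : |(an n : ℝ)| ≤ n.divisors.card * Real.sqrt n := sorry

theorem cc_le (n : ℕ) : |cc n| ≤ 2 := sorry

theorem cc_prime (p : ℕ) (hp : p.Prime) (h2 : p ≠ 2) : cc p = an p / Real.sqrt p := sorry

theorem cc_of_not (n : ℕ) (hn : ¬ IsPrimePow n ∨ 2 ∣ n) : cc n = 0 := sorry

/-- `a(n) log n = ∑_{d ∣ n} Λ(d) c(d) √d a(n/d)` -/
theorem an_log (n : ℕ) (hn : n ≠ 0) : (an n : ℝ) * Real.log n =
    ∑ d ∈ n.divisors, ArithmeticFunction.vonMangoldt d * cc d * Real.sqrt d * (an (n / d) : ℝ) :=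
  sorry

/-- the same for the weight three form, with some bounded `c₂` -/
theorem gn_log : ∃ c₂ : ℕ → ℝ, (∀ n, |c₂ n| ≤ 2) ∧
    (∀ p : ℕ, p.Prime → p ≠ 2 → c₂ p = gn p / p) ∧
    ∀ n : ℕ, n ≠ 0 → ((gn n : ℝ) / n) * Real.log n =
      ∑ d ∈ n.divisors, ArithmeticFunction.vonMangoldt d * c₂ d * ((gn (n / d) : ℝ) / (n / d : ℕ)) :=
  sorry

theorem an_sq (p : ℕ) (hp : p.Prime) (h2 : p ≠ 2) :
    (an p) ^ 2 = (1 + ZMod.χ₄ (p : ZMod 4)) * p + gn p := sorry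

/-! ### A3a (MertAbs.lean): abstract Mertens lemma -/

theorem mert_abs (G B : ℕ → ℝ) (C L : ℝ) (hB : ∀ n, |B n| ≤ 2)
    (hconv : ∀ n : ℕ, n ≠ 0 → G n * Real.log n =
      ∑ d ∈ n.divisors, ArithmeticFunction.vonMangoldt d * B d * G (n / d))
    (hS : ∀ N : ℕ, |∑ n ∈ Icc 1 N, G n| ≤ C * Real.sqrt N)
    (hL : Tendsto (fun N : ℕ => ∑ n ∈ Icc 1 N, G n / n) atTop (𝓝 L)) (hL0 : L ≠ 0) :
    ∃ C' : ℝ, ∀ N : ℕ, |∑ d ∈ Icc 1 N, ArithmeticFunction.vonMangoldt d * B d / d| ≤ C' := sorry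

/-! ### A3b (GnSum.lean): partial sums of the normalised weight three coefficients -/

theorem gn_eq (n : ℕ) : gn n = ∑ p ∈ ((Icc (-(2 * (n : ℤ))) (2 * (n : ℤ))) ×ˢ
    (Icc (-(2 * (n : ℤ))) (2 * (n : ℤ)))).filter
    (fun p : ℤ × ℤ => p.1 % 4 = 1 ∧ p.2 % 4 = 1 ∧ p.1 ^ 2 + p.2 ^ 2 = 2 * (n : ℤ)), p.1 * p.2 := sorry

theorem gn_sum : ∃ C : ℝ, ∀ N : ℕ, |∑ n ∈ Icc 1 N, (gn n : ℝ) / n| ≤ C * Real.sqrt N := sorry

/-! ### A3c (GnPos.lean): the value at `1` is positive -/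

theorem gn_lim : ∃ L : ℝ, L ≠ 0 ∧
    Tendsto (fun N : ℕ => ∑ n ∈ Icc 1 N, ((gn n : ℝ) / n) / n) atTop (𝓝 L) := sorry

/-! ### A3d (RS.lean): the Rankin-Selberg sum -/

theorem rs : ∃ C : ℝ, ∀ x : ℝ, 1 ≤ x →
    |∑ n ∈ Icc 1 ⌊x⌋₊, (ArithmeticFunction.vonMangoldt n) ^ 2 * (cc n) ^ 2 / n - (Real.log x) ^ 2 / 2|
      ≤ C * (1 + Real.log x) := sorry

/-! ### P1 (Points.lean): Gauss' theorem on the number of points -/

theorem aE_eq (p : ℕ) (hp : p.Prime) (h2 : p ≠ 2) : aE p = an p := sorry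

/-! ### L1 (Pair.lean): continuation and functional equation (from G4, A2) -/

/-- the completed function -/
noncomputable def LL (q : ℕ) (χ : DirichletCharacter ℂ q) (s : ℂ) : ℂ :=
  mellin (fun x : ℝ => TH q χ (x / (Real.sqrt 8 * q))) (s + 1 / 2)

theorem LL_entire (q : ℕ) [NeZero q] (hq : Odd q) (χ : DirichletCharacter ℂ q)
    (hχ : χ.IsPrimitive) : Differentiable ℂ (LL q χ) := sorry

theorem LL_fe (q : ℕ) [NeZero q] (hq : Odd q) (χ : DirichletCharacter ℂ q) (hχ : χ.IsPrimitive) :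
    ∃ w : ℂ, ‖w‖ = 1 ∧ ∀ s : ℂ, LL q χ (1 - s) = w * LL q χ⁻¹ s := sorry

theorem FF_eq (q : ℕ) [NeZero q] (χ : DirichletCharacter ℂ q) (s : ℂ) :
    FF q χ s = (Complex.Gamma (s + 1 / 2))⁻¹ *
      ((Real.sqrt 8 * q / Real.pi : ℝ) : ℂ) ^ (-(s + 1 / 2)) * LL q χ s := sorry

theorem FF_entire (q : ℕ) [NeZero q] (hq : Odd q) (χ : DirichletCharacter ℂ q)
    (hχ : χ.IsPrimitive) : Differentiable ℂ (FF q χ) := sorry

theorem FF_series (q : ℕ) [NeZero q] (χ : DirichletCharacter ℂ q) (s : ℂ) (hs : 1 < s.re) :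
    HasSum (fun n : ℕ => χ (n : ZMod q) * (an n : ℂ) * (n : ℂ) ^ (-(s + 1 / 2))) (FF q χ s) := sorry

theorem FF_conj (q : ℕ) [NeZero q] (χ : DirichletCharacter ℂ q) (s : ℂ) :
    FF q χ⁻¹ ((starRingEnd ℂ) s) = (starRingEnd ℂ) (FF q χ s) := sorry

/-- crude bound in vertical strips for fixed `q`, `χ`, as input for Phragmen-Lindelöf -/
theorem LL_bdd (q : ℕ) [NeZero q] (hq : Odd q) (χ : DirichletCharacter ℂ q) (hχ : χ.IsPrimitive)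
    (a b : ℝ) : ∃ C : ℝ, ∀ s : ℂ, a ≤ s.re → s.re ≤ b → ‖LL q χ s‖ ≤ C := sorry

/-! ### L2 (Growth.lean) -/

theorem FF_growth : ∃ A : ℝ, 1 ≤ A ∧ ∀ (q : ℕ) [NeZero q] (χ : DirichletCharacter ℂ q), Odd q →
    χ.IsPrimitive → ∀ s : ℂ, (1 / 16 : ℝ) ≤ s.re → s.re ≤ 4 → 1 ≤ s.im →
      ‖FF q χ s‖ ≤ A * ((q : ℝ) * s.im) ^ A := sorry

/-! ### L3 (Left.lean) -/

theorem FF_left : ∃ A : ℝ, 1 ≤ A ∧ ∀ (q : ℕ) [NeZero q] (χ : DirichletCharacter ℂ q), Odd q →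
    χ.IsPrimitive → ∀ s : ℂ, -1 / 2 ≤ s.re → s.re ≤ 1 / 2 → 1 ≤ s.im → FF q χ s ≠ 0 →
    ‖deriv (FF q χ) s / FF q χ s + ((2 * Real.log (q * s.im) : ℝ) : ℂ) +
      (starRingEnd ℂ) (deriv (FF q χ) (1 - (starRingEnd ℂ) s) /
        FF q χ (1 - (starRingEnd ℂ) s))‖ ≤ A := sorry

/-! ### L4 (LogDer.lean): `Re s > 1` (from A2 and `FF_series`) -/

theorem FF_ne_zero (q : ℕ) [NeZero q] (χ : DirichletCharacter ℂ q) (s : ℂ) (hs : 1 < s.re) :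
    FF q χ s ≠ 0 := sorry

theorem FF_ld (q : ℕ) [NeZero q] (χ : DirichletCharacter ℂ q) (s : ℂ) (hs : 1 < s.re) :
    deriv (FF q χ) s / FF q χ s =
      - ∑' n : ℕ, (χ (n : ZMod q) * (cc n : ℂ) * (ArithmeticFunction.vonMangoldt n : ℂ)) *
        (n : ℂ) ^ (-s) := sorry

theorem FF_lower : ∃ c : ℝ, 0 < c ∧ ∀ (q : ℕ) [NeZero q] (χ : DirichletCharacter ℂ q) (t : ℝ),
    c ≤ ‖FF q χ (⟨2, t⟩ : ℂ)‖ := sorry

/-! ### L5 (NZR.lean): no zeros on `Re s = 1` -/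

theorem FF_line (q : ℕ) [NeZero q] (hq : Odd q) (χ : DirichletCharacter ℂ q) (hχ : χ.IsPrimitive)
    (t : ℝ) (ht : t ≠ 0) : FF q χ (⟨1, t⟩ : ℂ) ≠ 0 := sorry

/-! ### L6 (Sym.lean): symmetry of the zeros (from L1, `FF_ne_zero`, L5) -/

theorem FF_nzl (q : ℕ) [NeZero q] (hq : Odd q) (χ : DirichletCharacter ℂ q) (hχ : χ.IsPrimitive)
    (s : ℂ) (h1 : s.re ≤ 0) (h2 : 1 ≤ s.im) : FF q χ s ≠ 0 := sorry

theorem FF_symm (q : ℕ) [NeZero q] (hq : Odd q) (χ : DirichletCharacter ℂ q) (hχ : χ.IsPrimitive)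
    (s : ℂ) (h2 : 1 ≤ s.im) :
    analyticOrderAt (FF q χ) (1 - (starRingEnd ℂ) s) = analyticOrderAt (FF q χ) s := sorry

/-! ### L7 (EProd.lean): Euler product (from A2 and `FF_series`) -/

theorem FF_prod (q : ℕ) [NeZero q] (χ : DirichletCharacter ℂ q) (s : ℂ) (hs : 1 < s.re) :
    FF q χ s = ∏' p : {p : ℕ // p.Prime ∧ p ≠ 2},
      (1 - χ ((p : ℕ) : ZMod q) * (an p : ℂ) * ((p : ℕ) : ℂ) ^ (-(s + 1 / 2)) +
        χ ((p : ℕ) : ZMod q) ^ 2 * ((p : ℕ) : ℂ) ^ (-2 * s))⁻¹ := sorry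

end Pool.Agent.H304R2.EC.Blueprint
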