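import Pool.Agent.H304R2.EC.Defs

set_option autoImplicit false

/-!
TEAM Q2, module G1 (helper909): the two dimensional Gauss sum of a primitive character.
-/

open Finset

namespace Pool.Agent.H304R2.EC

namespace G1Aux

/-! The next four lemmas are taken from the Starting point file `Helper112/MultLS.lean`. -/

lemma parseval (f : ℕ) [NeZero f] (Φ : ZMod f → ℂ) :
    ∑ n : ZMod f, ‖∑ a : ZMod f, Φ a * ZMod.stdAddChar (n * a)‖ ^ 2 =
      f * ∑ a : ZMod f, ‖Φ a‖ ^ 2 := by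
  have key : ∑ n : ZMod f, (∑ a : ZMod f, Φ a * ZMod.stdAddChar (n * a)) *
      (starRingEnd ℂ) (∑ a : ZMod f, Φ a * ZMod.stdAddChar (n * a)) =
      f * ∑ a : ZMod f, Φ a * (starRingEnd ℂ) (Φ a) := by
    simp_rw [map_sum, Finset.sum_mul_sum]
    rw [Finset.sum_comm]
    rw [Finset.mul_sum]
    apply Finset.sum_congr rfl
    intro a _
    rw [Finset.sum_comm]
    have h1 : ∀ b : ZMod f, ∑ n : ZMod f, Φ a * ZMod.stdAddChar (n * a) *
        (starRingEnd ℂ) (Φ b * ZMod.stdAddChar (n * b)) =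
        Φ a * (starRingEnd ℂ) (Φ b) * if a = b then (f : ℂ) else 0 := by
      intro b
      have h2 : ∀ n : ZMod f, Φ a * ZMod.stdAddChar (n * a) *
        (starRingEnd ℂ) (Φ b * ZMod.stdAddChar (n * b)) =
        Φ a * (starRingEnd ℂ) (Φ b) * ZMod.stdAddChar (n * (a - b)) := by
        intro n
        rw [(starRingEnd ℂ).map_mul, ← AddChar.map_neg_eq_conj, mul_sub, sub_eq_add_neg,
          AddChar.map_add_eq_mul]
        ring
      simp_rw [h2]
      rw [← Finset.mul_sum, AddChar.sum_mulShift (a - b) (ZMod.isPrimitive_stdAddChar f)]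
      simp [sub_eq_zero]
    simp_rw [h1]
    simp
    ring
  have e1 : ∀ z : ℂ, z * (starRingEnd ℂ) z = ((‖z‖ ^ 2 : ℝ) : ℂ) := by
    intro z
    rw [Complex.mul_conj, Complex.normSq_eq_norm_sq]
  simp_rw [e1] at key
  exact_mod_cast key

lemma norm_char (f : ℕ) [NeZero f] (χ : DirichletCharacter ℂ f) (a : ZMod f) :
    ‖χ a‖ = if IsUnit a then 1 else 0 := by
  split_ifs with h
  · obtain ⟨u, rfl⟩ := h
    exact χ.unit_norm_eq_one u
  · rw [χ.map_nonunit h, norm_zero]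

lemma sum_norm_char (f : ℕ) [NeZero f] (χ : DirichletCharacter ℂ f) :
    ∑ a : ZMod f, ‖χ a‖ ^ 2 = Nat.totient f := by
  classical
  simp_rw [norm_char]
  have : ∀ a : ZMod f, ((if IsUnit a then (1:ℝ) else 0) ^ 2) = if IsUnit a then 1 else 0 := by
    intro a; split_ifs <;> simp
  simp_rw [this]
  rw [Finset.sum_boole, ← ZMod.card_units_eq_totient f]
  congr 1
  symm
  apply Finset.card_bij (fun (a : (ZMod f)ˣ) _ => (a : ZMod f))
  · intro a _; simp
  · intro a _ b _ hab; exact Units.ext hab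
  · intro b hb
    rw [Finset.mem_filter] at hb
    exact ⟨hb.2.unit, Finset.mem_univ _, rfl⟩

lemma norm_sq_gaussSum {f : ℕ} [NeZero f] {χ : DirichletCharacter ℂ f} (hχ : χ.IsPrimitive) :
    ‖gaussSum χ (ZMod.stdAddChar : AddChar (ZMod f) ℂ)‖ ^ 2 = f := by
  have h := parseval f (fun a => χ a)
  rw [sum_norm_char] at h
  have h1 : ∀ n : ZMod f, ∑ a : ZMod f, χ a * ZMod.stdAddChar (n * a) =
      χ⁻¹ n * gaussSum χ (ZMod.stdAddChar : AddChar (ZMod f) ℂ) := by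
    intro n
    rw [← gaussSum_mulShift_of_isPrimitive _ hχ n]
    rfl
  simp_rw [h1, norm_mul, mul_pow] at h
  rw [← Finset.sum_mul, sum_norm_char, mul_comm] at h
  have h0 : (Nat.totient f : ℝ) ≠ 0 := by
    have := Nat.totient_pos.mpr (NeZero.pos f)
    positivity
  exact mul_right_cancel₀ h0 h

/-- sums over `ZMod q` supported on the units -/
lemma sum_units (q : ℕ) [NeZero q] (f : ZMod q → ℂ) (hf : ∀ a, ¬ IsUnit a → f a = 0) :
    ∑ u : (ZMod q)ˣ, f u = ∑ a : ZMod q, f a := by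
  refine Finset.sum_of_injOn (fun u : (ZMod q)ˣ => (u : ZMod q)) ?_ ?_ ?_ ?_
  · intro a _ b _ h
    exact Units.ext h
  · intro a _
    simp
  · intro a _ ha
    apply hf
    rintro ⟨u, rfl⟩
    exact ha ⟨u, by simp, rfl⟩
  · intro a _
    rfl

/-- one dimensional quadratic Gauss sum -/
noncomputable def g (q : ℕ) [NeZero q] (k : ZMod q) : ℂ := ∑ a : ZMod q, ZMod.stdAddChar (k * a ^ 2)

lemma isUnit_two (q : ℕ) (hq : Odd q) : IsUnit (2 : ZMod q) := by
  have : ((2 : ℕ) : ZMod q) = 2 := by norm_cast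
  rw [← this, ZMod.isUnit_iff_coprime]
  exact (Nat.coprime_two_left).2 hq

lemma norm_g_one (q : ℕ) [NeZero q] (hq : Odd q) : ‖g q 1‖ ^ 2 = q := by
  have key : g q 1 * (starRingEnd ℂ) (g q 1) = q := by
    unfold g
    rw [map_sum, Finset.sum_mul_sum, Finset.sum_comm]
    have h1 : ∀ c : ZMod q, ∑ a : ZMod q, (ZMod.stdAddChar (1 * a ^ 2) : ℂ) *
        (starRingEnd ℂ) (ZMod.stdAddChar (1 * c ^ 2) : ℂ) =
        ∑ d : ZMod q, (ZMod.stdAddChar (d ^ 2) : ℂ) * (ZMod.stdAddChar (c * (2 * d)) : ℂ) := by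
      intro c
      rw [← Equiv.sum_comp (Equiv.addRight c)]
      refine Finset.sum_congr rfl fun d _ => ?_
      rw [← AddChar.map_neg_eq_conj, ← AddChar.map_add_eq_mul, ← AddChar.map_add_eq_mul]
      congr 1
      simp only [Equiv.coe_addRight]
      ring
    simp_rw [h1]
    rw [Finset.sum_comm]
    simp_rw [← Finset.mul_sum]
    have h2 : ∀ d : ZMod q, ∑ c : ZMod q, (ZMod.stdAddChar (c * (2 * d)) : ℂ) =
        if d = 0 then (q : ℂ) else 0 := by
      intro d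
      rw [AddChar.sum_mulShift (2 * d) (ZMod.isPrimitive_stdAddChar q)]
      have : 2 * d = 0 ↔ d = 0 := (isUnit_two q hq).mul_right_eq_zero
      simp [this]
    simp_rw [h2]
    simp
  have e1 : g q 1 * (starRingEnd ℂ) (g q 1) = ((‖g q 1‖ ^ 2 : ℝ) : ℂ) := by
    rw [Complex.mul_conj, Complex.normSq_eq_norm_sq]
  rw [e1] at key
  exact_mod_cast key

/-- every unit modulo an odd number is a sum of two squares -/
lemma unit_sum_sq (q : ℕ) [NeZero q] (hq : Odd q) (k : ZMod q) (hk : IsUnit k) :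
    ∃ u v : ZMod q, u ^ 2 + v ^ 2 = k := by
  have hcop : Nat.Coprime q 4 := by
    have : Nat.Coprime q (2 ^ 2) := Nat.Coprime.pow_right 2 (Nat.coprime_two_right.2 hq)
    simpa using this
  obtain ⟨m, hm1, hm2⟩ := Nat.chineseRemainder hcop k.val 1
  have hkv : Nat.Coprime k.val q := by
    rw [← ZMod.isUnit_iff_coprime, ZMod.natCast_zmod_val]
    exact hk
  have hmq : Nat.Coprime m q := by
    have := hm1.gcd_eq
    rw [Nat.Coprime, this]
    exact hkv
  have hm4 : Nat.Coprime m 4 := by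
    have := hm2.gcd_eq
    rw [Nat.Coprime, this]
    rfl
  have hmu : IsUnit ((m : ℕ) : ZMod (q * 4)) := by
    rw [ZMod.isUnit_iff_coprime]
    exact Nat.Coprime.mul_right hmq hm4
  have : NeZero (q * 4) := ⟨mul_ne_zero (NeZero.ne q) (by norm_num)⟩
  obtain ⟨p, -, hp, hpm⟩ := Nat.forall_exists_prime_gt_and_eq_mod hmu 0
  rw [ZMod.natCast_eq_natCast_iff] at hpm
  have hp4 : p ≡ 1 [MOD 4] := (hpm.of_mul_left q).trans hm2
  have hpq : p ≡ k.val [MOD q] := (hpm.of_mul_right 4).trans hm1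
  have : Fact p.Prime := ⟨hp⟩
  obtain ⟨a, b, hab⟩ := Nat.Prime.sq_add_sq (p := p) (by
    unfold Nat.ModEq at hp4; omega)
  refine ⟨a, b, ?_⟩
  have h1 : ((p : ℕ) : ZMod q) = ((k.val : ℕ) : ZMod q) := (ZMod.natCast_eq_natCast_iff _ _ _).2 hpq
  rw [ZMod.natCast_zmod_val] at h1
  rw [← h1, ← hab]
  push_cast
  ring

/-- the square of the Gauss sum does not depend on the unit -/
lemma g_sq (q : ℕ) [NeZero q] (hq : Odd q) (k : ZMod q) (hk : IsUnit k) :
    g q k ^ 2 = g q 1 ^ 2 := by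
  obtain ⟨u, v, huv⟩ := unit_sum_sq q hq k hk
  have hG : ∀ c : ZMod q, g q c ^ 2 =
      ∑ p : ZMod q × ZMod q, (ZMod.stdAddChar (c * (p.1 ^ 2 + p.2 ^ 2)) : ℂ) := by
    intro c
    rw [sq, g, Finset.sum_mul_sum, ← Finset.univ_product_univ, Finset.sum_product]
    refine Finset.sum_congr rfl fun a _ => Finset.sum_congr rfl fun b _ => ?_
    rw [← AddChar.map_add_eq_mul]
    congr 1
    ring
  rw [hG, hG]
  obtain ⟨w, hw⟩ := hk
  have hw1 : (w : ZMod q) * ((w⁻¹ : (ZMod q)ˣ) : ZMod q) = 1 := by simp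
  have hwk : k * ((w⁻¹ : (ZMod q)ˣ) : ZMod q) = 1 := by rw [← hw]; exact hw1
  let φ : ZMod q × ZMod q ≃ ZMod q × ZMod q :=
    { toFun := fun p => (u * p.1 - v * p.2, v * p.1 + u * p.2)
      invFun := fun p => (((w⁻¹ : (ZMod q)ˣ) : ZMod q) * (u * p.1 + v * p.2),
        ((w⁻¹ : (ZMod q)ˣ) : ZMod q) * (u * p.2 - v * p.1))
      left_inv := by
        rintro ⟨a, b⟩
        ext
        · simp only
          linear_combination (((w⁻¹ : (ZMod q)ˣ) : ZMod q) * a) * huv + a * hwk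
        · simp only
          linear_combination (((w⁻¹ : (ZMod q)ˣ) : ZMod q) * b) * huv + b * hwk
      right_inv := by
        rintro ⟨a, b⟩
        ext
        · simp only
          linear_combination (((w⁻¹ : (ZMod q)ˣ) : ZMod q) * a) * huv + a * hwk
        · simp only
          linear_combination (((w⁻¹ : (ZMod q)ˣ) : ZMod q) * b) * huv + b * hwk }
  rw [← Equiv.sum_comp φ (fun p : ZMod q × ZMod q =>
    (ZMod.stdAddChar (1 * (p.1 ^ 2 + p.2 ^ 2)) : ℂ))]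
  refine Finset.sum_congr rfl fun p _ => ?_
  congr 1
  simp only [φ, Equiv.coe_fn_mk]
  linear_combination (-(p.1 ^ 2 + p.2 ^ 2)) * huv

/-- completing the square -/
lemma complete_square (q : ℕ) [NeZero q] (h : ZMod q) (h2 : 2 * h = 1) (w : (ZMod q)ˣ) (x : ZMod q) :
    ∑ a : ZMod q, (ZMod.stdAddChar ((w : ZMod q) * a ^ 2 + a * x) : ℂ) =
      ZMod.stdAddChar (-(x ^ 2 * h ^ 2 * ((w⁻¹ : (ZMod q)ˣ) : ZMod q))) * g q w := by
  rw [g, Finset.mul_sum, ← Equiv.sum_comp (Equiv.addRight (-(h * x * ((w⁻¹ : (ZMod q)ˣ) : ZMod q))))]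
  refine Finset.sum_congr rfl fun a _ => ?_
  rw [← AddChar.map_add_eq_mul]
  congr 1
  have hw1 : (w : ZMod q) * ((w⁻¹ : (ZMod q)ˣ) : ZMod q) = 1 := by simp
  simp only [Equiv.coe_addRight]
  generalize ((w⁻¹ : (ZMod q)ˣ) : ZMod q) = W at *
  generalize (w : ZMod q) = w' at *
  linear_combination (-2 * a * h * x + h ^ 2 * x ^ 2 * W) * hw1 + (-a * x + x ^ 2 * W * h) * h2

end G1Aux

open G1Aux

theorem gauss2 (q : ℕ) [NeZero q] (hq : Odd q) (χ : DirichletCharacter ℂ q) (hχ : χ.IsPrimitive) :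
    ∃ K : ℂ, ‖K‖ = q ∧ ∀ x y : ZMod q,
      ∑ a : ZMod q, ∑ b : ZMod q, χ (a ^ 2 + b ^ 2) * ZMod.stdAddChar (a * x + b * y) =
        K * χ⁻¹ (x ^ 2 + y ^ 2) := by
  have hinv : (χ⁻¹).IsPrimitive := by
    rw [DirichletCharacter.isPrimitive_def, DirichletCharacter.conductor_inv]
    exact hχ
  set τ : ℂ := gaussSum χ (ZMod.stdAddChar : AddChar (ZMod q) ℂ) with hτ
  set τ' : ℂ := gaussSum χ⁻¹ (ZMod.stdAddChar : AddChar (ZMod q) ℂ) with hτ'
  have hn : ‖τ‖ ^ 2 = q := norm_sq_gaussSum hχ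
  have hn' : ‖τ'‖ ^ 2 = q := norm_sq_gaussSum hinv
  have hq0 : (q : ℝ) ≠ 0 := by exact_mod_cast NeZero.ne q
  have hτ0 : τ ≠ 0 := by
    intro h
    rw [h] at hn
    simp at hn
    exact hq0 (by exact_mod_cast hn.symm)
  have hτ'0 : τ' ≠ 0 := by
    intro h
    rw [h] at hn'
    simp at hn'
    exact hq0 (by exact_mod_cast hn'.symm)
  obtain ⟨t, ht⟩ := isUnit_two q hq
  set h : ZMod q := ((t⁻¹ : (ZMod q)ˣ) : ZMod q) with hh
  have h2 : 2 * h = 1 := by rw [← ht]; simp [hh]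
  have hsum : ∀ c : ZMod q, ∑ j : ZMod q, χ j * ZMod.stdAddChar (c * j) = χ⁻¹ c * τ := by
    intro c
    rw [hτ, ← gaussSum_mulShift_of_isPrimitive _ hχ c]
    rfl
  have hsum' : ∀ c : ZMod q, ∑ j : ZMod q, χ⁻¹ j * ZMod.stdAddChar (c * j) = χ c * τ' := by
    intro c
    have := gaussSum_mulShift_of_isPrimitive (ZMod.stdAddChar : AddChar (ZMod q) ℂ) hinv c
    rw [inv_inv] at this
    rw [hτ', ← this]
    rfl
  refine ⟨g q 1 ^ 2 * (τ / τ') * χ⁻¹ (-(h ^ 2)), ?_, ?_⟩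
  · have e1 : ‖g q 1 ^ 2‖ = q := by rw [norm_pow]; exact norm_g_one q hq
    have e2 : ‖τ / τ'‖ = 1 := by
      rw [norm_div]
      have : ‖τ‖ = ‖τ'‖ := by
        have h3 : ‖τ‖ ^ 2 = ‖τ'‖ ^ 2 := by rw [hn, hn']
        exact (pow_left_inj₀ (norm_nonneg _) (norm_nonneg _) (by norm_num)).1 h3
      rw [this, div_self (norm_ne_zero_iff.2 hτ'0)]
    have e3 : ‖χ⁻¹ (-(h ^ 2))‖ = 1 := by
      rw [norm_char, if_pos]
      exact ((Units.isUnit t⁻¹).pow 2).neg
    rw [norm_mul, norm_mul, e1, e2, e3]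
    ring
  · intro x y
    have h1 : τ' * ∑ a : ZMod q, ∑ b : ZMod q, χ (a ^ 2 + b ^ 2) *
        ZMod.stdAddChar (a * x + b * y) = ∑ k : ZMod q, χ⁻¹ k *
          ((∑ a : ZMod q, (ZMod.stdAddChar (k * a ^ 2 + a * x) : ℂ)) *
            ∑ b : ZMod q, (ZMod.stdAddChar (k * b ^ 2 + b * y) : ℂ)) := by
      have h3 : ∀ a b : ZMod q, τ' * (χ (a ^ 2 + b ^ 2) * ZMod.stdAddChar (a * x + b * y)) =
          ∑ k : ZMod q, χ⁻¹ k * ((ZMod.stdAddChar (k * a ^ 2 + a * x) : ℂ) *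
            (ZMod.stdAddChar (k * b ^ 2 + b * y) : ℂ)) := by
        intro a b
        rw [← mul_assoc, mul_comm τ', ← hsum', Finset.sum_mul]
        refine Finset.sum_congr rfl fun k _ => ?_
        rw [mul_assoc, ← AddChar.map_add_eq_mul, ← AddChar.map_add_eq_mul]
        congr 2
        ring
      have h5 : ∀ k : ZMod q, χ⁻¹ k *
          ((∑ a : ZMod q, (ZMod.stdAddChar (k * a ^ 2 + a * x) : ℂ)) *
            ∑ b : ZMod q, (ZMod.stdAddChar (k * b ^ 2 + b * y) : ℂ)) =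
          ∑ a : ZMod q, ∑ b : ZMod q, χ⁻¹ k * ((ZMod.stdAddChar (k * a ^ 2 + a * x) : ℂ) *
            (ZMod.stdAddChar (k * b ^ 2 + b * y) : ℂ)) := by
        intro k
        rw [Finset.sum_mul_sum, Finset.mul_sum]
        refine Finset.sum_congr rfl fun a _ => ?_
        rw [Finset.mul_sum]
      rw [Finset.sum_congr rfl fun k _ => h5 k]
      have h6 : ∀ G : ZMod q → ZMod q → ZMod q → ℂ,
          ∑ k, ∑ a, ∑ b, G k a b = ∑ a, ∑ b, ∑ k, G k a b := by
        intro G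
        rw [Finset.sum_comm]
        exact Finset.sum_congr rfl fun a _ => Finset.sum_comm
      rw [h6, Finset.mul_sum]
      refine Finset.sum_congr rfl fun a _ => ?_
      rw [Finset.mul_sum]
      refine Finset.sum_congr rfl fun b _ => ?_
      rw [h3]
    have h4 : ∑ k : ZMod q, χ⁻¹ k *
          ((∑ a : ZMod q, (ZMod.stdAddChar (k * a ^ 2 + a * x) : ℂ)) *
            ∑ b : ZMod q, (ZMod.stdAddChar (k * b ^ 2 + b * y) : ℂ)) =
        ∑ w : (ZMod q)ˣ, χ (w : ZMod q) *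
          (ZMod.stdAddChar (-(h ^ 2 * (x ^ 2 + y ^ 2)) * (w : ZMod q)) * g q 1 ^ 2) := by
      rw [← sum_units q _ (fun a ha => by rw [MulChar.map_nonunit _ ha, zero_mul]),
        ← Equiv.sum_comp (Equiv.inv (ZMod q)ˣ)]
      refine Finset.sum_congr rfl fun w _ => ?_
      rw [complete_square q h h2, complete_square q h h2]
      have e1 : χ⁻¹ (((Equiv.inv (ZMod q)ˣ) w : (ZMod q)ˣ) : ZMod q) = χ (w : ZMod q) := by
        simp only [Equiv.inv_apply]
        rw [MulChar.inv_apply, Ring.inverse_unit, inv_inv]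
      rw [e1]
      congr 1
      rw [← g_sq q hq (((Equiv.inv (ZMod q)ˣ) w : (ZMod q)ˣ) : ZMod q) (Units.isUnit _)]
      simp only [Equiv.inv_apply, inv_inv]
      have e2 : (ZMod.stdAddChar (-(h ^ 2 * (x ^ 2 + y ^ 2)) * (w : ZMod q)) : ℂ) =
          ZMod.stdAddChar (-(x ^ 2 * h ^ 2 * (w : ZMod q))) *
            ZMod.stdAddChar (-(y ^ 2 * h ^ 2 * (w : ZMod q))) := by
        rw [← AddChar.map_add_eq_mul]
        congr 1
        ring
      rw [e2]
      ring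
    have h5 : ∑ w : (ZMod q)ˣ, χ (w : ZMod q) *
          (ZMod.stdAddChar (-(h ^ 2 * (x ^ 2 + y ^ 2)) * (w : ZMod q)) * g q 1 ^ 2) =
        χ⁻¹ (-(h ^ 2 * (x ^ 2 + y ^ 2))) * τ * g q 1 ^ 2 := by
      rw [← hsum, Finset.sum_mul, sum_units q (fun w : ZMod q => χ w *
          (ZMod.stdAddChar (-(h ^ 2 * (x ^ 2 + y ^ 2)) * w) * g q 1 ^ 2))
        (fun a ha => by rw [MulChar.map_nonunit _ ha, zero_mul])]
      refine Finset.sum_congr rfl fun w _ => ?_
      ring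
    have h6 : χ⁻¹ (-(h ^ 2 * (x ^ 2 + y ^ 2))) = χ⁻¹ (-(h ^ 2)) * χ⁻¹ (x ^ 2 + y ^ 2) := by
      rw [← map_mul]
      congr 1
      ring
    rw [h4, h5, h6] at h1
    have h7 : ∑ a : ZMod q, ∑ b : ZMod q, χ (a ^ 2 + b ^ 2) * ZMod.stdAddChar (a * x + b * y) =
        (χ⁻¹ (-(h ^ 2)) * χ⁻¹ (x ^ 2 + y ^ 2) * τ * g q 1 ^ 2) / τ' := by
      rw [← h1]
      field_simp
    rw [h7]
    field_simp

end Pool.Agent.H304R2.EC
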