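import Pool.Agent.H304R2.EC.Defs
import Pool.Agent.H304R2.EC.Gauss2

/-!
TEAM Q2 (helper304), task G2: discrete Fourier transform of the coefficients.
-/

set_option autoImplicit false

open Finset Filter Topology

namespace Pool.Agent.H304R2.EC

theorem dft_sum_zmod (q : ℕ) [NeZero q] (f : ZMod q → ℂ) :
    ∑ v ∈ range q, f (v : ZMod q) = ∑ a : ZMod q, f a := by
  refine sum_bij' (fun v _ => (v : ZMod q)) (fun a _ => a.val) ?_ ?_ ?_ ?_ ?_
  · intro v _; exact mem_univ _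
  · intro a _; exact mem_range.2 (ZMod.val_lt a)
  · intro v hv; exact ZMod.val_cast_of_lt (mem_range.1 hv)
  · intro a _; exact ZMod.natCast_zmod_val a
  · intro v _; rfl

theorem dft_r (q : ℕ) [NeZero q] (hq : Odd q) (F : ℕ → ℂ) (hF : ∀ r, F (r % (4 * q)) = F r) :
    ∑ r ∈ (range (4 * q)).filter (fun r => r % 4 = 1), F r = ∑ v ∈ range q, F (q ^ 2 + 4 * v) := by
  have hq0 : 0 < q := Nat.pos_of_ne_zero (NeZero.ne q)
  have hq2 : q ^ 2 % 4 = 1 := by
    obtain ⟨k, rfl⟩ := hq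
    have : (2 * k + 1) ^ 2 = 4 * (k ^ 2 + k) + 1 := by ring
    omega
  symm
  refine sum_nbij (fun v => (q ^ 2 + 4 * v) % (4 * q)) ?_ ?_ ?_ ?_
  · intro v _
    simp only [mem_filter, mem_range]
    refine ⟨Nat.mod_lt _ (by omega), ?_⟩
    rw [Nat.mod_mul_right_mod]
    omega
  · intro v hv w hw h
    simp only [coe_range, Set.mem_Iio] at hv hw
    have h1 : q ^ 2 + 4 * v ≡ q ^ 2 + 4 * w [MOD 4 * q] := h
    have h2 : 4 * v ≡ 4 * w [MOD 4 * q] := Nat.ModEq.add_left_cancel' _ h1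
    have h3 : v ≡ w [MOD q] := Nat.ModEq.mul_left_cancel' (by norm_num) h2
    exact Nat.ModEq.eq_of_lt_of_lt h3 hv hw
  · intro r hr
    simp only [coe_filter, mem_range, Set.mem_ofPred_eq] at hr
    have h3 : 4 * ((r + 3 * q ^ 2) / 4) = r + 3 * q ^ 2 := by omega
    refine ⟨((r + 3 * q ^ 2) / 4) % q, ?_, ?_⟩
    · simp only [coe_range, Set.mem_Iio]
      exact Nat.mod_lt _ hq0
    · show (q ^ 2 + 4 * (((r + 3 * q ^ 2) / 4) % q)) % (4 * q) = r
      have h4 : q ^ 2 + 4 * (((r + 3 * q ^ 2) / 4) % q) ≡ r [MOD 4 * q] := by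
        calc q ^ 2 + 4 * (((r + 3 * q ^ 2) / 4) % q)
            ≡ q ^ 2 + 4 * ((r + 3 * q ^ 2) / 4) [MOD 4 * q] := by
              refine Nat.ModEq.add_left _ ?_
              exact Nat.ModEq.mul_left' 4 (Nat.mod_modEq _ _)
          _ = r + 4 * q * q := by rw [h3]; ring
          _ ≡ r [MOD 4 * q] := by
              simp [Nat.ModEq]
      have h5 := h4
      rw [Nat.ModEq, Nat.mod_eq_of_lt hr.1] at h5
      exact h5
  · intro v _
    exact (hF _).symm

theorem dft_s (q : ℕ) [NeZero q] (hq : Odd q) (F : ℕ → ℂ) (hF : ∀ r, F (r % (2 * q)) = F r) :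
    ∑ s ∈ range (2 * q), F s = ∑ t ∈ range 2, ∑ v ∈ range q, F (q * t + 2 * v) := by
  have hq0 : 0 < q := Nat.pos_of_ne_zero (NeZero.ne q)
  obtain ⟨k, hk⟩ := hq
  symm
  rw [← sum_product']
  refine sum_nbij (fun x => (q * x.1 + 2 * x.2) % (2 * q)) ?_ ?_ ?_ ?_
  · intro x _
    exact mem_range.2 (Nat.mod_lt _ (by omega))
  · rintro ⟨t, v⟩ hx ⟨t', v'⟩ hx' h
    simp only [coe_product, coe_range, Set.mem_prod, Set.mem_Iio] at hx hx' h
    have h1 : q * t + 2 * v ≡ q * t' + 2 * v' [MOD 2 * q] := h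
    have h2 : q * t + 2 * v ≡ q * t' + 2 * v' [MOD 2] := h1.of_mul_right q
    have ht : t = t' := by
      rw [hk] at h2
      have e1 : (2 * k + 1) * t + 2 * v = t + 2 * (k * t + v) := by ring
      have e2 : (2 * k + 1) * t' + 2 * v' = t' + 2 * (k * t' + v') := by ring
      rw [e1, e2, Nat.ModEq] at h2
      omega
    subst ht
    have h3 : 2 * v ≡ 2 * v' [MOD 2 * q] := Nat.ModEq.add_left_cancel' _ h1
    have h4 : v ≡ v' [MOD q] := Nat.ModEq.mul_left_cancel' (by norm_num) h3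
    have h5 := Nat.ModEq.eq_of_lt_of_lt h4 hx.2 hx'.2
    rw [h5]
  · intro s hs
    simp only [coe_range, Set.mem_Iio] at hs
    have h3 : 2 * ((s + q * (s % 2)) / 2) = s + q * (s % 2) := by
      rcases Nat.mod_two_eq_zero_or_one s with h | h
      · rw [h]; omega
      · rw [h]; omega
    refine ⟨(s % 2, ((s + q * (s % 2)) / 2) % q), ?_, ?_⟩
    · simp only [coe_product, coe_range, Set.mem_prod, Set.mem_Iio]
      exact ⟨Nat.mod_lt _ (by norm_num), Nat.mod_lt _ hq0⟩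
    · show (q * (s % 2) + 2 * (((s + q * (s % 2)) / 2) % q)) % (2 * q) = s
      have h4 : q * (s % 2) + 2 * (((s + q * (s % 2)) / 2) % q) ≡ s [MOD 2 * q] := by
        calc q * (s % 2) + 2 * (((s + q * (s % 2)) / 2) % q)
            ≡ q * (s % 2) + 2 * ((s + q * (s % 2)) / 2) [MOD 2 * q] := by
              refine Nat.ModEq.add_left _ ?_
              exact Nat.ModEq.mul_left' 2 (Nat.mod_modEq _ _)
          _ = s + 2 * q * (s % 2) := by rw [h3]; ring
          _ ≡ s [MOD 2 * q] := by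
              simp [Nat.ModEq]
      have h5 := h4
      rw [Nat.ModEq, Nat.mod_eq_of_lt hs] at h5
      exact h5
  · intro x _
    exact (hF _).symm

/-- periodicity of the exponential factor -/
theorem dft_exp_per (N : ℕ) (hN : 0 < N) (r : ℕ) (n : ℤ) :
    Complex.exp (2 * Real.pi * Complex.I * (((r % N : ℕ) : ℂ) / N) * n) =
      Complex.exp (2 * Real.pi * Complex.I * ((r : ℂ) / N) * n) := by
  have hN' : (N : ℂ) ≠ 0 := by exact_mod_cast hN.ne'
  have h1 : (r : ℂ) = ((r % N : ℕ) : ℂ) + N * ((r / N : ℕ) : ℂ) := by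
    exact_mod_cast (Nat.mod_add_div r N).symm
  have h2 : 2 * Real.pi * Complex.I * ((r : ℂ) / N) * n =
      2 * Real.pi * Complex.I * (((r % N : ℕ) : ℂ) / N) * n +
        ((((r / N : ℕ) : ℤ) * n : ℤ) : ℂ) * (2 * Real.pi * Complex.I) := by
    rw [h1, Int.cast_mul, Int.cast_natCast]
    generalize ((r % N : ℕ) : ℂ) = A
    generalize ((r / N : ℕ) : ℂ) = B
    field_simp
  rw [h2, Complex.exp_add, Complex.exp_int_mul_two_pi_mul_I, mul_one]

theorem dft_cast_mod {q N r : ℕ} (h : q ∣ N) : ((r % N : ℕ) : ZMod q) = (r : ZMod q) := by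
  rw [ZMod.natCast_eq_natCast_iff]
  exact (Nat.mod_modEq r N).of_dvd h

/-- `e(v n / q)` as an additive character -/
theorem dft_exp_char (q : ℕ) [NeZero q] (v : ℕ) (n : ℤ) :
    Complex.exp (2 * Real.pi * Complex.I * ((v : ℂ) / q) * n) =
      ZMod.stdAddChar ((v : ZMod q) * (n : ZMod q)) := by
  have h : (v : ZMod q) * (n : ZMod q) = (((v : ℤ) * n : ℤ) : ZMod q) := by push_cast; rfl
  rw [h, ZMod.stdAddChar_coe]
  congr 1
  push_cast
  ring

theorem dft_exp4 (q : ℕ) [NeZero q] (v : ℕ) (n : ℤ) :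
    Complex.exp (2 * Real.pi * Complex.I * (((q ^ 2 + 4 * v : ℕ) : ℂ) / (4 * q)) * n) =
      Complex.I ^ ((q : ℤ) * n) * ZMod.stdAddChar ((v : ZMod q) * (n : ZMod q)) := by
  have hqC : (q : ℂ) ≠ 0 := by exact_mod_cast NeZero.ne q
  rw [← dft_exp_char]
  have h1 : Complex.I ^ ((q : ℤ) * n) = Complex.exp ((((q : ℤ) * n : ℤ) : ℂ) * (Real.pi / 2 * Complex.I)) := by
    rw [Complex.exp_int_mul, Complex.exp_pi_div_two_mul_I]
  rw [h1, ← Complex.exp_add]
  congr 1
  push_cast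
  field_simp
  ring

theorem dft_exp2 (q : ℕ) [NeZero q] (t v : ℕ) (n : ℤ) :
    Complex.exp (2 * Real.pi * Complex.I * (((q * t + 2 * v : ℕ) : ℂ) / (2 * q)) * n) =
      ((-1) ^ n) ^ t * ZMod.stdAddChar ((v : ZMod q) * (n : ZMod q)) := by
  have hqC : (q : ℂ) ≠ 0 := by exact_mod_cast NeZero.ne q
  rw [← dft_exp_char]
  have h1 : (((-1 : ℂ)) ^ n) ^ t = Complex.exp (((t : ℤ) * n : ℤ) * (Real.pi * Complex.I)) := by
    rw [Complex.exp_int_mul, Complex.exp_pi_mul_I, mul_comm, zpow_mul, zpow_natCast]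
  rw [h1, ← Complex.exp_add]
  congr 1
  push_cast
  field_simp

theorem dft (q : ℕ) [NeZero q] (hq : Odd q) (χ : DirichletCharacter ℂ q) (hχ : χ.IsPrimitive) :
    ∃ K : ℂ, ‖K‖ = q ∧ ∀ n n' : ℤ,
      ∑ r ∈ (range (4 * q)).filter (fun r => r % 4 = 1), ∑ s ∈ range (2 * q),
        (-1 : ℂ) ^ s * χ ((r ^ 2 + 4 * s ^ 2 : ℕ) : ZMod q) *
          Complex.exp (2 * Real.pi * Complex.I * ((r : ℂ) / (4 * q)) * n) *
          Complex.exp (2 * Real.pi * Complex.I * ((s : ℂ) / (2 * q)) * n') =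
      if Odd n' then 2 * Complex.I ^ ((q : ℤ) * n) * K * χ⁻¹ ((n ^ 2 + n' ^ 2 : ℤ) : ZMod q)
      else 0 := by
  obtain ⟨K0, hK0, hg⟩ := gauss2 q hq χ hχ
  have hq0 : 0 < q := Nat.pos_of_ne_zero (NeZero.ne q)
  have hqC : (q : ℂ) ≠ 0 := by exact_mod_cast hq0.ne'
  have hunit : IsUnit ((16 : ℕ) : ZMod q) := by
    rw [ZMod.isUnit_iff_coprime]
    have : Nat.Coprime (2 ^ 4) q := Nat.Coprime.pow_left 4 (Nat.coprime_two_left.2 hq)
    simpa using this
  refine ⟨χ ((16 : ℕ) : ZMod q) * K0, ?_, ?_⟩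
  · rw [norm_mul, hK0, ← hunit.unit_spec, DirichletCharacter.unit_norm_eq_one, one_mul]
  intro n n'
  -- the terms as functions of natural numbers
  have e4 : ((4 * q : ℕ) : ℂ) = 4 * q := by push_cast; rfl
  have e2 : ((2 * q : ℕ) : ℂ) = 2 * q := by push_cast; rfl
  -- inner sum
  have hin : ∀ r : ℕ, ∑ s ∈ range (2 * q),
        (-1 : ℂ) ^ s * χ ((r ^ 2 + 4 * s ^ 2 : ℕ) : ZMod q) *
          Complex.exp (2 * Real.pi * Complex.I * ((r : ℂ) / (4 * q)) * n) *
          Complex.exp (2 * Real.pi * Complex.I * ((s : ℂ) / (2 * q)) * n') =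
      (if Odd n' then 2 else 0) *
        Complex.exp (2 * Real.pi * Complex.I * ((r : ℂ) / (4 * q)) * n) *
        ∑ b : ZMod q, χ ((r : ZMod q) ^ 2 + 16 * b ^ 2) * ZMod.stdAddChar (b * (n' : ZMod q)) := by
    intro r
    rw [dft_s q hq]
    · have hterm : ∀ t v : ℕ, (-1 : ℂ) ^ (q * t + 2 * v) *
          χ ((r ^ 2 + 4 * (q * t + 2 * v) ^ 2 : ℕ) : ZMod q) *
          Complex.exp (2 * Real.pi * Complex.I * ((r : ℂ) / (4 * q)) * n) *
          Complex.exp (2 * Real.pi * Complex.I * (((q * t + 2 * v : ℕ) : ℂ) / (2 * q)) * n') =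
          ((-1) ^ t * ((-1) ^ n') ^ t) *
            (Complex.exp (2 * Real.pi * Complex.I * ((r : ℂ) / (4 * q)) * n) *
            (χ ((r : ZMod q) ^ 2 + 16 * (v : ZMod q) ^ 2) *
              ZMod.stdAddChar ((v : ZMod q) * (n' : ZMod q)))) := by
        intro t v
        rw [dft_exp2]
        have h1 : (-1 : ℂ) ^ (q * t + 2 * v) = (-1) ^ t := by
          rw [pow_add, pow_mul, pow_mul, hq.neg_one_pow]
          norm_num
        have h2 : ((r ^ 2 + 4 * (q * t + 2 * v) ^ 2 : ℕ) : ZMod q) =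
            (r : ZMod q) ^ 2 + 16 * (v : ZMod q) ^ 2 := by
          push_cast
          rw [ZMod.natCast_self]
          ring
        rw [h1, h2]
        ring
      have hsum : ∀ t : ℕ, ∑ v ∈ range q, (-1 : ℂ) ^ (q * t + 2 * v) *
          χ ((r ^ 2 + 4 * (q * t + 2 * v) ^ 2 : ℕ) : ZMod q) *
          Complex.exp (2 * Real.pi * Complex.I * ((r : ℂ) / (4 * q)) * n) *
          Complex.exp (2 * Real.pi * Complex.I * (((q * t + 2 * v : ℕ) : ℂ) / (2 * q)) * n') =
          ((-1) ^ t * ((-1) ^ n') ^ t) *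
            (Complex.exp (2 * Real.pi * Complex.I * ((r : ℂ) / (4 * q)) * n) *
            ∑ b : ZMod q, χ ((r : ZMod q) ^ 2 + 16 * b ^ 2) *
              ZMod.stdAddChar (b * (n' : ZMod q))) := by
        intro t
        rw [sum_congr rfl fun v _ => hterm t v, ← mul_sum, ← mul_sum,
          dft_sum_zmod q (fun b => χ ((r : ZMod q) ^ 2 + 16 * b ^ 2) *
              ZMod.stdAddChar (b * (n' : ZMod q)))]
      rw [sum_congr rfl fun t _ => hsum t, sum_range_succ, sum_range_succ, sum_range_zero]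
      split_ifs with hodd
      · rw [hodd.neg_one_zpow]
        ring
      · have heven : Even n' := Int.not_odd_iff_even.1 hodd
        rw [heven.neg_one_zpow]
        ring
    · intro s
      have h1 : (-1 : ℂ) ^ (s % (2 * q)) = (-1) ^ s := by
        conv_rhs => rw [← Nat.mod_add_div s (2 * q)]
        rw [pow_add, mul_assoc, pow_mul]
        norm_num
      have h2 : ((r ^ 2 + 4 * (s % (2 * q)) ^ 2 : ℕ) : ZMod q) = ((r ^ 2 + 4 * s ^ 2 : ℕ) : ZMod q) := by
        push_cast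
        rw [dft_cast_mod (Dvd.intro_left 2 rfl)]
      have h3 := dft_exp_per (2 * q) (by omega) s n'
      rw [e2] at h3
      rw [h1, h2, h3]
  simp_rw [hin]
  rw [dft_r q hq]
  · have hterm : ∀ v : ℕ, (if Odd n' then (2 : ℂ) else 0) *
        Complex.exp (2 * Real.pi * Complex.I * (((q ^ 2 + 4 * v : ℕ) : ℂ) / (4 * q)) * n) *
        ∑ b : ZMod q, χ (((q ^ 2 + 4 * v : ℕ) : ZMod q) ^ 2 + 16 * b ^ 2) *
          ZMod.stdAddChar (b * (n' : ZMod q)) =
        ((if Odd n' then (2 : ℂ) else 0) * Complex.I ^ ((q : ℤ) * n) * χ ((16 : ℕ) : ZMod q)) *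
        ∑ b : ZMod q, χ ((v : ZMod q) ^ 2 + b ^ 2) *
          ZMod.stdAddChar ((v : ZMod q) * (n : ZMod q) + b * (n' : ZMod q)) := by
      intro v
      rw [dft_exp4, mul_sum, mul_sum]
      refine sum_congr rfl fun b _ => ?_
      have h1 : (((q ^ 2 + 4 * v : ℕ) : ZMod q) ^ 2 + 16 * b ^ 2) =
          ((16 : ℕ) : ZMod q) * ((v : ZMod q) ^ 2 + b ^ 2) := by
        push_cast
        rw [ZMod.natCast_self]
        ring
      have h3 : χ (((16 : ℕ) : ZMod q) * ((v : ZMod q) ^ 2 + b ^ 2)) =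
          χ ((16 : ℕ) : ZMod q) * χ ((v : ZMod q) ^ 2 + b ^ 2) := map_mul χ _ _
      rw [h1, h3, AddChar.map_add_eq_mul]
      ring
    rw [sum_congr rfl fun v _ => hterm v, ← mul_sum,
      dft_sum_zmod q (fun a => ∑ b : ZMod q, χ (a ^ 2 + b ^ 2) *
          ZMod.stdAddChar (a * (n : ZMod q) + b * (n' : ZMod q))), hg]
    have h2 : ((n ^ 2 + n' ^ 2 : ℤ) : ZMod q) = (n : ZMod q) ^ 2 + (n' : ZMod q) ^ 2 := by
      push_cast
      rfl
    rw [h2]
    split_ifs
    · ring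
    · ring
  · intro r
    rw [dft_cast_mod (Dvd.intro_left 4 rfl)]
    have := dft_exp_per (4 * q) (by omega) r n
    rw [e4] at this
    rw [this]

end Pool.Agent.H304R2.EC
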