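import Pool.Agent.H304R2.EC.Coef
import Pool.Agent.H304R2.EC.Pair

set_option autoImplicit false

/-! TEAM Q2, task L7 (helper332): Euler product of `FF`. -/

open Complex Filter Topology

namespace Pool.Agent.H304R2.EC

namespace EProd

theorem an_zero : an 0 = 0 := by
  unfold an PS
  apply Finset.sum_eq_zero
  rintro ⟨a, b⟩ hp
  simp only [Finset.mem_filter, Finset.mem_product, Finset.mem_Icc, Nat.cast_zero, neg_zero] at hp
  obtain ⟨⟨⟨h1, h2⟩, ⟨h3, h4⟩⟩, h5, h6, h7⟩ := hp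
  have : a = 0 := le_antisymm h2 h1
  have : b = 0 := le_antisymm h4 h3
  subst_vars
  simp at h6

/-- the `n`-th term of the Dirichlet series -/
noncomputable def fco (q : ℕ) (χ : DirichletCharacter ℂ q) (s : ℂ) (n : ℕ) : ℂ :=
  χ (n : ZMod q) * (an n : ℂ) * (n : ℂ) ^ (-(s + 1 / 2))

/-- local factor identity -/
theorem local_factor (a : ℕ → ℂ) (u v : ℂ) (h0 : a 0 = 1) (h1 : a 1 = u)
    (hrec : ∀ k, a (k + 2) = u * a (k + 1) - v * a k) (hs : Summable a) :
    (1 - u + v) * ∑' k, a k = 1 := by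
  have e1 : ∑' k, a k = a 0 + ∑' k, a (k + 1) := hs.tsum_eq_zero_add
  have hs1 : Summable (fun k => a (k + 1)) := (summable_nat_add_iff 1).mpr hs
  have e2 : ∑' k, a (k + 1) = a 1 + ∑' k, a (k + 2) := hs1.tsum_eq_zero_add
  have e3 : ∑' k, a (k + 2) = u * ∑' k, a (k + 1) - v * ∑' k, a k := by
    rw [← tsum_mul_left, ← tsum_mul_left, ← (hs1.mul_left u).tsum_sub (hs.mul_left v)]
    exact tsum_congr hrec
  rw [h0] at e1
  rw [h1] at e2
  linear_combination (1 - u) * e1 + e2 + e3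

end EProd

open EProd

theorem FF_prod (q : ℕ) [NeZero q] (χ : DirichletCharacter ℂ q) (s : ℂ) (hs : 1 < s.re) :
    FF q χ s = ∏' p : {p : ℕ // p.Prime ∧ p ≠ 2},
      (1 - χ ((p : ℕ) : ZMod q) * (an p : ℂ) * ((p : ℕ) : ℂ) ^ (-(s + 1 / 2)) +
        χ ((p : ℕ) : ZMod q) ^ 2 * ((p : ℕ) : ℂ) ^ (-2 * s))⁻¹ := by
  have hsum : HasSum (fco q χ s) (FF q χ s) := FF_series q χ s hs
  have hf1 : fco q χ s 1 = 1 := by simp [fco, an_one]
  have hf0 : fco q χ s 0 = 0 := by simp [fco, an_zero]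
  have hmul : ∀ {m n : ℕ}, m.Coprime n → fco q χ s (m * n) = fco q χ s m * fco q χ s n := by
    intro m n hmn
    unfold fco
    rw [an_mul m n hmn]
    push_cast
    rw [Complex.natCast_mul_natCast_cpow, map_mul]
    ring
  have hprod := EulerProduct.eulerProduct_tprod hf1 hmul hsum.summable.norm hf0
  rw [← hsum.tsum_eq, ← hprod]
  -- summability along powers
  have hpow : ∀ p : ℕ, p.Prime → Summable (fun e => fco q χ s (p ^ e)) := fun p hp =>
    hsum.summable.comp_injective (Nat.pow_right_injective hp.two_le)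
  set g : {p : ℕ // p.Prime ∧ p ≠ 2} → Nat.Primes := fun p => ⟨p.1, p.2.1⟩ with hg
  have hginj : Function.Injective g := by
    intro a b hab
    apply Subtype.ext
    have := congrArg (fun x : Nat.Primes => (x : ℕ)) hab
    simpa [hg] using this
  have hsupp : Function.mulSupport (fun p : Nat.Primes => ∑' e, fco q χ s ((p : ℕ) ^ e)) ⊆
      Set.range g := by
    intro p hp
    by_cases h2 : (p : ℕ) = 2
    · exfalso
      apply hp
      have hval : ∀ e, e ≠ 0 → fco q χ s ((p : ℕ) ^ e) = 0 := by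
        intro e he
        unfold fco
        rw [an_even _ (by rw [h2]; exact dvd_pow_self 2 he)]
        simp
      change ∑' e, fco q χ s ((p : ℕ) ^ e) = 1
      rw [tsum_eq_single 0 hval]
      simpa using hf1
    · exact ⟨⟨p.1, p.2, h2⟩, rfl⟩
  rw [← hginj.tprod_eq hsupp]
  refine tprod_congr fun p => ?_
  obtain ⟨p, hp, h2⟩ := p
  simp only [hg]
  change ∑' e, fco q χ s (p ^ e) = _
  have hp0 : (p : ℂ) ≠ 0 := Nat.cast_ne_zero.mpr hp.ne_zero
  set X : ℂ := χ (p : ZMod q) * (p : ℂ) ^ (-(s + 1 / 2)) with hX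
  have hval : ∀ e, fco q χ s (p ^ e) = (an (p ^ e) : ℂ) * X ^ e := by
    intro e
    unfold fco
    have h1 : ((p ^ e : ℕ) : ℂ) ^ (-(s + 1 / 2)) = ((p : ℂ) ^ (-(s + 1 / 2))) ^ e := by
      induction e with
      | zero => simp
      | succ e ih =>
        rw [pow_succ, pow_succ, ← ih]
        push_cast
        rw [show ((p : ℂ) ^ e) = ((p ^ e : ℕ) : ℂ) by push_cast; rfl,
          Complex.natCast_mul_natCast_cpow]
    rw [h1, hX]
    push_cast
    rw [map_pow, mul_pow]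
    ring
  have hX2 : (p : ℂ) * X ^ 2 = χ (p : ZMod q) ^ 2 * (p : ℂ) ^ (-2 * s) := by
    have h1 : (p : ℂ) ^ (-2 * s) = (p : ℂ) * ((p : ℂ) ^ (-(s + 1 / 2)) *
        (p : ℂ) ^ (-(s + 1 / 2))) := by
      rw [← Complex.cpow_add _ _ hp0]
      have h2 : (p : ℂ) * (p : ℂ) ^ (-(s + 1 / 2) + -(s + 1 / 2)) =
          (p : ℂ) ^ (1 : ℂ) * (p : ℂ) ^ (-(s + 1 / 2) + -(s + 1 / 2)) := by
        rw [Complex.cpow_one]
      rw [h2, ← Complex.cpow_add _ _ hp0]
      congr 1
      ring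
    rw [h1, hX]
    ring
  have key := local_factor (fun e => fco q χ s (p ^ e)) ((an p : ℂ) * X) ((p : ℂ) * X ^ 2)
    (by simpa using hf1) (by
      have := hval 1
      simp only [pow_one] at this ⊢
      exact this) (by
      intro k
      simp only [hval]
      rw [an_pow p hp h2 k]
      push_cast
      ring) (hpow p hp)
  rw [eq_comm, inv_eq_iff_eq_inv]
  rw [← hX2, show χ ((p : ℕ) : ZMod q) * (an p : ℂ) * ((p : ℕ) : ℂ) ^ (-(s + 1 / 2)) =
    (an p : ℂ) * X by rw [hX]; ring]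
  exact eq_inv_of_mul_eq_one_left key

end Pool.Agent.H304R2.EC
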