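import Mathlib
import Pool.Agent.H304R2.EC.Defs

set_option autoImplicit false

/-!
TEAM Q2, task A3b (helper992): partial sums of the normalised weight three coefficients.
-/

open Finset Filter Topology

namespace Pool.Agent.H304R2.EC

theorem gn_eq (n : ℕ) : gn n = ∑ p ∈ ((Icc (-(2 * (n : ℤ))) (2 * (n : ℤ))) ×ˢ
    (Icc (-(2 * (n : ℤ))) (2 * (n : ℤ)))).filter
    (fun p : ℤ × ℤ => p.1 % 4 = 1 ∧ p.2 % 4 = 1 ∧ p.1 ^ 2 + p.2 ^ 2 = 2 * (n : ℤ)), p.1 * p.2 := by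
  unfold gn PS
  have habs : ∀ (a b m : ℤ), a ^ 2 + b ^ 2 = m → -m ≤ a ∧ a ≤ m := by
    intro a b m h
    have hb : 0 ≤ b ^ 2 := sq_nonneg b
    have h1 : a ≤ a ^ 2 := by nlinarith [sq_nonneg (a - 1), sq_nonneg a, Int.le_self_sq a]
    have h2 : -a ≤ a ^ 2 := by
      have := Int.le_self_sq (-a)
      rw [neg_sq] at this
      exact this
    constructor <;> linarith
  refine Finset.sum_nbij' (fun p => (p.1 + p.2, p.1 - p.2))
    (fun q => ((q.1 + q.2) / 2, (q.1 - q.2) / 2)) ?_ ?_ ?_ ?_ ?_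
  · rintro ⟨a, b⟩ h
    simp only [mem_filter, mem_product, mem_Icc] at h ⊢
    obtain ⟨-, hb, hab, hn⟩ := h
    have hs : (a + b) ^ 2 + (a - b) ^ 2 = 2 * (n : ℤ) := by rw [← hn]; ring
    have hs' : (a - b) ^ 2 + (a + b) ^ 2 = 2 * (n : ℤ) := by rw [← hn]; ring
    refine ⟨⟨habs _ _ _ hs, habs _ _ _ hs'⟩, hab, ?_, hs⟩
    omega
  · rintro ⟨u, v⟩ h
    simp only [mem_filter, mem_product, mem_Icc] at h ⊢
    obtain ⟨-, hu, hv, hn⟩ := h
    obtain ⟨a, ha⟩ : ∃ a, u + v = 2 * a := ⟨(u + v) / 2, by omega⟩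
    obtain ⟨b, hb⟩ : ∃ b, u - v = 2 * b := ⟨(u - v) / 2, by omega⟩
    have e1 : (u + v) / 2 = a := by omega
    have e2 : (u - v) / 2 = b := by omega
    have hu' : u = a + b := by omega
    have hv' : v = a - b := by omega
    have hs : a ^ 2 + b ^ 2 = (n : ℤ) := by
      rw [hu', hv'] at hn
      nlinarith
    have hs' : b ^ 2 + a ^ 2 = (n : ℤ) := by linarith
    rw [e1, e2]
    refine ⟨⟨habs _ _ _ hs, habs _ _ _ hs'⟩, ?_, ?_, hs⟩
    · omega
    · omega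
  · rintro ⟨a, b⟩ h
    simp only [Prod.mk.injEq]
    constructor <;> omega
  · rintro ⟨u, v⟩ h
    simp only [mem_filter, mem_product, mem_Icc] at h
    obtain ⟨-, hu, hv, hn⟩ := h
    simp only [Prod.mk.injEq]
    constructor <;> omega
  · rintro ⟨a, b⟩ h
    simp only
    ring

/-- alternating sums -/
theorem alt_bound (a d : ℕ → ℝ) (M : ℝ) (hM : ∀ k, |a k| ≤ M) (hd : ∀ k, |a k - a (k + 1)| ≤ d k)
    (K : ℕ) : |∑ k ∈ range K, (-1 : ℝ) ^ k * a k| ≤ M + (∑ k ∈ range K, d k) / 2 := by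
  have hid : ∀ K : ℕ, 2 * ∑ k ∈ range K, (-1 : ℝ) ^ k * a k =
      a 0 - (-1) ^ K * a K + ∑ k ∈ range K, (-1 : ℝ) ^ k * (a k - a (k + 1)) := by
    intro K
    induction K with
    | zero => simp
    | succ K ih =>
      rw [sum_range_succ, sum_range_succ, mul_add, ih]
      ring
  have h1 : |2 * ∑ k ∈ range K, (-1 : ℝ) ^ k * a k| ≤ 2 * M + ∑ k ∈ range K, d k := by
    rw [hid K]
    have hs : |∑ k ∈ range K, (-1 : ℝ) ^ k * (a k - a (k + 1))| ≤ ∑ k ∈ range K, d k := by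
      refine (Finset.abs_sum_le_sum_abs _ _).trans (Finset.sum_le_sum fun k _ => ?_)
      rw [abs_mul, abs_pow, abs_neg, abs_one, one_pow, one_mul]
      exact hd k
    have h0 := hM 0
    have hK : |(-1 : ℝ) ^ K * a K| ≤ M := by
      rw [abs_mul, abs_pow, abs_neg, abs_one, one_pow, one_mul]
      exact hM K
    calc |a 0 - (-1) ^ K * a K + ∑ k ∈ range K, (-1 : ℝ) ^ k * (a k - a (k + 1))|
        ≤ |a 0 - (-1) ^ K * a K| + |∑ k ∈ range K, (-1 : ℝ) ^ k * (a k - a (k + 1))| :=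
          abs_add_le _ _
      _ ≤ (|a 0| + |(-1) ^ K * a K|) + |∑ k ∈ range K, (-1 : ℝ) ^ k * (a k - a (k + 1))| := by
          gcongr
          exact abs_sub _ _
      _ ≤ _ := by linarith
  rw [abs_mul, abs_of_pos (by norm_num : (0 : ℝ) < 2)] at h1
  linarith

/-- the inner sum, in terms of `w = |v|` -/
theorem inner_bound (u : ℝ) (hu : 1 ≤ |u|) (K : ℕ) :
    |∑ k ∈ range K, (-1 : ℝ) ^ k * (2 * u * (2 * k + 1) / (u ^ 2 + (2 * k + 1) ^ 2))| ≤ 9 := by
  have hu0 : 0 < |u| := by linarith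
  have hsq : u ^ 2 = |u| ^ 2 := (sq_abs u).symm
  have key := alt_bound (fun k => 2 * u * (2 * k + 1) / (u ^ 2 + (2 * k + 1) ^ 2))
    (fun k => 8 * |u| / (|u| + 2 * k + 1) ^ 2) 1 ?_ ?_ K
  · have hsum : ∀ K : ℕ, ∑ k ∈ range K, 8 * |u| / (|u| + 2 * k + 1) ^ 2 ≤
        8 * |u| * (1 / |u| - 1 / (|u| + K)) := by
      intro K
      induction K with
      | zero => simp
      | succ K ih =>
        rw [sum_range_succ]
        have hK : (0 : ℝ) ≤ K := Nat.cast_nonneg K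
        have h1 : 8 * |u| / (|u| + 2 * K + 1) ^ 2 ≤
            8 * |u| * (1 / (|u| + K) - 1 / (|u| + (K + 1 : ℕ))) := by
          push_cast
          have e : 1 / (|u| + (K : ℝ)) - 1 / (|u| + ((K : ℝ) + 1)) =
              1 / ((|u| + K) * (|u| + (K + 1))) := by
            field_simp
            ring
          rw [e, mul_one_div]
          apply div_le_div_of_nonneg_left (by positivity) (by positivity)
          nlinarith
        calc _ ≤ 8 * |u| * (1 / |u| - 1 / (|u| + K)) +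
              8 * |u| * (1 / (|u| + K) - 1 / (|u| + (K + 1 : ℕ))) := add_le_add ih h1
          _ = _ := by ring
    have h2 : ∑ k ∈ range K, 8 * |u| / (|u| + 2 * k + 1) ^ 2 ≤ 8 := by
      refine (hsum K).trans ?_
      have : 0 ≤ 1 / (|u| + K) := by positivity
      have e : 8 * |u| * (1 / |u|) = 8 := by field_simp
      nlinarith
    linarith
  · intro k
    have hpos : 0 < u ^ 2 + (2 * (k : ℝ) + 1) ^ 2 := by positivity
    rw [abs_div, abs_of_pos hpos, div_le_one hpos, abs_mul, abs_mul,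
      abs_of_pos (by norm_num : (0 : ℝ) < 2), abs_of_pos (by positivity : 0 < 2 * (k : ℝ) + 1), hsq]
    nlinarith [sq_nonneg (|u| - (2 * (k : ℝ) + 1))]
  · intro k
    have hk : (0 : ℝ) ≤ k := Nat.cast_nonneg k
    push_cast
    set w : ℝ := 2 * (k : ℝ) + 1 with hw
    have hw1 : 2 * ((k : ℝ) + 1) + 1 = w + 2 := by rw [hw]; ring
    rw [hw1]
    have hw0 : 1 ≤ w := by rw [hw]; linarith
    have hp1 : 0 < u ^ 2 + w ^ 2 := by positivity
    have hp2 : 0 < u ^ 2 + (w + 2) ^ 2 := by positivity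
    have e : 2 * u * w / (u ^ 2 + w ^ 2) - 2 * u * (w + 2) / (u ^ 2 + (w + 2) ^ 2) =
        (2 * u) * (2 * (w * (w + 2)) - 2 * u ^ 2) / ((u ^ 2 + w ^ 2) * (u ^ 2 + (w + 2) ^ 2)) := by
      field_simp
      ring
    rw [e, abs_div, abs_of_pos (mul_pos hp1 hp2), abs_mul, abs_mul,
      abs_of_pos (by norm_num : (0 : ℝ) < 2)]
    have h1 : |2 * (w * (w + 2)) - 2 * u ^ 2| ≤ 2 * (u ^ 2 + (w + 2) ^ 2) := by
      rw [abs_le]
      constructor <;> nlinarith [sq_nonneg u]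
    have h2 : (|u| + w) ^ 2 ≤ 2 * (u ^ 2 + w ^ 2) := by
      rw [hsq]
      nlinarith [sq_nonneg (|u| - w)]
    have h3 : |u| + 2 * (k : ℝ) + 1 = |u| + w := by rw [hw]; ring
    rw [h3]
    rw [div_le_div_iff₀ (by positivity) (by positivity)]
    calc 2 * |u| * |2 * (w * (w + 2)) - 2 * u ^ 2| * (|u| + w) ^ 2
        ≤ 2 * |u| * (2 * (u ^ 2 + (w + 2) ^ 2)) * (2 * (u ^ 2 + w ^ 2)) := by
          gcongr
      _ = 8 * |u| * ((u ^ 2 + w ^ 2) * (u ^ 2 + (w + 2) ^ 2)) := by ring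

/-- the summands over `v` for fixed `u` -/
noncomputable def vset (N : ℕ) (u : ℤ) : Finset ℤ :=
  (Icc (-(2 * (N : ℤ))) (2 * (N : ℤ))).filter (fun v => v % 4 = 1 ∧ u ^ 2 + v ^ 2 ≤ 2 * (N : ℤ))

theorem vsum_bound (N : ℕ) (u : ℤ) (hu : u % 4 = 1) :
    |∑ v ∈ vset N u, 2 * (u : ℝ) * v / ((u : ℝ) ^ 2 + (v : ℝ) ^ 2)| ≤
      if u ^ 2 ≤ 2 * (N : ℤ) then 9 else 0 := by
  have hu0 : u ≠ 0 := by rintro rfl; omega
  split_ifs with hN
  · obtain ⟨R, hR⟩ : ∃ R : ℕ, (R : ℤ) = 2 * (N : ℤ) - u ^ 2 :=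
      ⟨(2 * (N : ℤ) - u ^ 2).toNat, Int.toNat_of_nonneg (by linarith)⟩
    set K := (Nat.sqrt R + 1) / 2 with hK
    have hmem : ∀ k : ℕ, k < K ↔ ((2 * k + 1) ^ 2 : ℤ) ≤ R := by
      intro k
      have h1 : k < K ↔ 2 * k + 1 ≤ Nat.sqrt R := by omega
      rw [h1, Nat.le_sqrt']
      exact_mod_cast Iff.rfl
    have habs : ∀ (a b m : ℤ), a ^ 2 + b ^ 2 ≤ m → -m ≤ b ∧ b ≤ m := by
      intro a b m h
      have ha : 0 ≤ a ^ 2 := sq_nonneg a
      have h1 : b ≤ b ^ 2 := Int.le_self_sq b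
      have h2 : -b ≤ b ^ 2 := by
        have := Int.le_self_sq (-b)
        rw [neg_sq] at this
        exact this
      constructor <;> linarith
    have hsgn : ∀ k : ℕ, ((-1 : ℤ) ^ k * (2 * k + 1)) % 4 = 1 := by
      intro k
      rcases Nat.even_or_odd' k with ⟨j, rfl | rfl⟩
      · rw [pow_mul]
        push_cast
        norm_num
        omega
      · rw [pow_succ, pow_mul]
        push_cast
        norm_num
        omega
    have hsq : ∀ k : ℕ, ((-1 : ℤ) ^ k * (2 * k + 1)) ^ 2 = (2 * k + 1) ^ 2 := by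
      intro k
      rw [mul_pow, ← pow_mul, mul_comm k 2, pow_mul]
      norm_num
    have hsum : ∑ v ∈ vset N u, 2 * (u : ℝ) * v / ((u : ℝ) ^ 2 + (v : ℝ) ^ 2) =
        ∑ k ∈ range K, (-1 : ℝ) ^ k * (2 * (u : ℝ) * (2 * k + 1) / ((u : ℝ) ^ 2 + (2 * k + 1) ^ 2)) := by
      symm
      refine Finset.sum_nbij' (fun k : ℕ => (-1 : ℤ) ^ k * (2 * k + 1)) (fun v : ℤ => v.natAbs / 2)
        ?_ ?_ ?_ ?_ ?_
      · intro k hk
        rw [Finset.mem_range, hmem] at hk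
        have h1 : u ^ 2 + ((-1 : ℤ) ^ k * (2 * k + 1)) ^ 2 ≤ 2 * (N : ℤ) := by
          rw [hsq]; linarith
        simp only [vset, mem_filter, mem_Icc]
        exact ⟨habs _ _ _ h1, hsgn k, h1⟩
      · intro v hv
        simp only [vset, mem_filter, mem_Icc] at hv
        obtain ⟨-, hv4, hv2⟩ := hv
        rw [Finset.mem_range, hmem]
        have h1 : (2 * ((v.natAbs / 2 : ℕ) : ℤ) + 1) = v.natAbs := by omega
        rw [h1, Int.natAbs_sq]
        linarith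
      · intro k hk
        have h1 : ((-1 : ℤ) ^ k * (2 * k + 1)).natAbs = 2 * k + 1 := by
          rw [Int.natAbs_mul, Int.natAbs_pow, Int.natAbs_neg, Int.natAbs_one, one_pow, one_mul]
          omega
        show ((-1 : ℤ) ^ k * (2 * (k : ℤ) + 1)).natAbs / 2 = k
        rw [h1]
        omega
      · intro v hv
        simp only [vset, mem_filter, mem_Icc] at hv
        obtain ⟨-, hv4, hv2⟩ := hv
        have h1 : (2 * ((v.natAbs / 2 : ℕ) : ℤ) + 1) = v.natAbs := by omega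
        rw [h1]
        rcases le_total 0 v with h | h
        · have he : Even (v.natAbs / 2) := by
            rw [Nat.even_iff]; omega
          rw [he.neg_one_pow, one_mul]
          omega
        · have ho : Odd (v.natAbs / 2) := by
            rw [Nat.odd_iff]; omega
          rw [ho.neg_one_pow]
          omega
      · intro k hk
        push_cast
        have e1 : ((-1 : ℝ) ^ k * (2 * (k : ℝ) + 1)) ^ 2 = (2 * (k : ℝ) + 1) ^ 2 := by
          have := hsq k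
          exact_mod_cast this
        rw [e1]
        ring
    rw [hsum]
    apply inner_bound
    have : (1 : ℤ) ≤ |u| := Int.one_le_abs hu0
    exact_mod_cast this
  · have : vset N u = ∅ := by
      rw [vset, Finset.filter_eq_empty_iff]
      intro v _ h
      have := sq_nonneg v
      apply hN
      linarith [h.2]
    rw [this]
    simp

theorem gn_sum : ∃ C : ℝ, ∀ N : ℕ, |∑ n ∈ Icc 1 N, (gn n : ℝ) / n| ≤ C * Real.sqrt N := by
  refine ⟨36, fun N => ?_⟩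
  rcases Nat.eq_zero_or_pos N with rfl | hNpos
  · simp
  have habs : ∀ (a b m : ℤ), a ^ 2 + b ^ 2 ≤ m → (-m ≤ a ∧ a ≤ m) ∧ (-m ≤ b ∧ b ≤ m) := by
    intro a b m h
    have ha : 0 ≤ a ^ 2 := sq_nonneg a
    have hb : 0 ≤ b ^ 2 := sq_nonneg b
    have h1 : b ≤ b ^ 2 := Int.le_self_sq b
    have h2 : -b ≤ b ^ 2 := by
      have := Int.le_self_sq (-b)
      rw [neg_sq] at this
      exact this
    have h3 : a ≤ a ^ 2 := Int.le_self_sq a
    have h4 : -a ≤ a ^ 2 := by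
      have := Int.le_self_sq (-a)
      rw [neg_sq] at this
      exact this
    refine ⟨⟨?_, ?_⟩, ?_, ?_⟩ <;> linarith
  have hstep : ∑ n ∈ Icc 1 N, (gn n : ℝ) / n =
      ∑ u ∈ (Icc (-(2 * (N : ℤ))) (2 * (N : ℤ))).filter (fun u => u % 4 = 1),
        ∑ v ∈ vset N u, 2 * (u : ℝ) * v / ((u : ℝ) ^ 2 + (v : ℝ) ^ 2) := by
    have hl : ∀ n ∈ Icc 1 N, (gn n : ℝ) / n = ∑ p ∈ ((Icc (-(2 * (N : ℤ))) (2 * (N : ℤ))) ×ˢ
        (Icc (-(2 * (N : ℤ))) (2 * (N : ℤ)))).filter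
        (fun p : ℤ × ℤ => p.1 % 4 = 1 ∧ p.2 % 4 = 1 ∧ p.1 ^ 2 + p.2 ^ 2 = 2 * (n : ℤ)),
        2 * (p.1 : ℝ) * p.2 / ((p.1 : ℝ) ^ 2 + (p.2 : ℝ) ^ 2) := by
      intro n hn
      rw [mem_Icc] at hn
      rw [gn_eq]
      push_cast
      rw [Finset.sum_div]
      apply Finset.sum_congr_of_eq_on_inter
      · rintro ⟨u, v⟩ h1 h2
        exfalso
        apply h2
        simp only [mem_filter, mem_product, mem_Icc] at h1 ⊢
        obtain ⟨-, h3, h4, h5⟩ := h1
        refine ⟨?_, h3, h4, h5⟩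
        have hnN : (n : ℤ) ≤ N := by exact_mod_cast hn.2
        have := habs u v (2 * N) (by rw [h5]; linarith)
        exact this
      · rintro ⟨u, v⟩ h1 h2
        exfalso
        apply h2
        simp only [mem_filter, mem_product, mem_Icc] at h1 ⊢
        obtain ⟨-, h3, h4, h5⟩ := h1
        refine ⟨?_, h3, h4, h5⟩
        exact habs u v (2 * n) (by rw [h5])
      · rintro ⟨u, v⟩ h1 h2
        simp only [mem_filter, mem_product, mem_Icc] at h1
        obtain ⟨-, h3, h4, h5⟩ := h1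
        simp only
        have h5' : (u : ℝ) ^ 2 + (v : ℝ) ^ 2 = 2 * n := by exact_mod_cast h5
        rw [h5']
        have hn0 : (n : ℝ) ≠ 0 := by
          have : n ≠ 0 := by omega
          exact_mod_cast this
        field_simp
    rw [Finset.sum_congr rfl hl]
    set T : Finset (ℤ × ℤ) := ((Icc (-(2 * (N : ℤ))) (2 * (N : ℤ))) ×ˢ
        (Icc (-(2 * (N : ℤ))) (2 * (N : ℤ)))).filter
        (fun p : ℤ × ℤ => p.1 % 4 = 1 ∧ p.2 % 4 = 1 ∧ p.1 ^ 2 + p.2 ^ 2 ≤ 2 * (N : ℤ)) with hT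
    have hmod : ∀ u v : ℤ, u % 4 = 1 → v % 4 = 1 → ∃ k : ℤ, u ^ 2 + v ^ 2 = 2 * k ∧ 1 ≤ k := by
      intro u v hu hv
      obtain ⟨a, ha⟩ : ∃ a, u = 4 * a + 1 := ⟨u / 4, by omega⟩
      obtain ⟨b, hb⟩ : ∃ b, v = 4 * b + 1 := ⟨v / 4, by omega⟩
      refine ⟨8 * a ^ 2 + 4 * a + 8 * b ^ 2 + 4 * b + 1, by rw [ha, hb]; ring, ?_⟩
      have h1 : 0 ≤ 2 * a ^ 2 + a := by nlinarith [Int.le_self_sq (-a), sq_nonneg a]
      have h2 : 0 ≤ 2 * b ^ 2 + b := by nlinarith [Int.le_self_sq (-b), sq_nonneg b]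
      linarith
    have hfib := Finset.sum_fiberwise_of_maps_to (s := T) (t := Icc 1 N)
      (g := fun p : ℤ × ℤ => ((p.1 ^ 2 + p.2 ^ 2) / 2).toNat)
      (f := fun p : ℤ × ℤ => 2 * (p.1 : ℝ) * p.2 / ((p.1 : ℝ) ^ 2 + (p.2 : ℝ) ^ 2)) (by
        rintro ⟨u, v⟩ h
        simp only [hT, mem_filter, mem_product, mem_Icc] at h
        obtain ⟨-, h3, h4, h5⟩ := h
        obtain ⟨k, hk, hk1⟩ := hmod u v h3 h4
        simp only [mem_Icc]
        rw [hk] at h5 ⊢
        omega)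
    have hR : ∑ u ∈ (Icc (-(2 * (N : ℤ))) (2 * (N : ℤ))).filter (fun u => u % 4 = 1),
        ∑ v ∈ vset N u, 2 * (u : ℝ) * v / ((u : ℝ) ^ 2 + (v : ℝ) ^ 2) =
        ∑ p ∈ T, 2 * (p.1 : ℝ) * p.2 / ((p.1 : ℝ) ^ 2 + (p.2 : ℝ) ^ 2) := by
      rw [hT, Finset.sum_filter, Finset.sum_filter, Finset.sum_product]
      apply Finset.sum_congr rfl
      intro u _
      split_ifs with hu4
      · rw [vset, Finset.sum_filter]
        simp only [hu4, true_and]
      · simp [hu4]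
    rw [hR, ← hfib]
    apply Finset.sum_congr rfl
    intro n hn
    apply Finset.sum_congr _ (fun _ _ => rfl)
    ext ⟨u, v⟩
    simp only [hT, mem_filter, mem_product, mem_Icc]
    rw [mem_Icc] at hn
    constructor
    · rintro ⟨h1, h3, h4, h5⟩
      have hnN : (n : ℤ) ≤ N := by exact_mod_cast hn.2
      refine ⟨⟨h1, h3, h4, by rw [h5]; linarith⟩, ?_⟩
      rw [h5]
      omega
    · rintro ⟨⟨h1, h3, h4, h5⟩, h6⟩
      refine ⟨h1, h3, h4, ?_⟩
      obtain ⟨k, hk, hk1⟩ := hmod u v h3 h4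
      rw [hk] at h6 ⊢
      omega
  rw [hstep]
  calc |∑ u ∈ (Icc (-(2 * (N : ℤ))) (2 * (N : ℤ))).filter (fun u => u % 4 = 1),
        ∑ v ∈ vset N u, 2 * (u : ℝ) * v / ((u : ℝ) ^ 2 + (v : ℝ) ^ 2)|
      ≤ ∑ u ∈ (Icc (-(2 * (N : ℤ))) (2 * (N : ℤ))).filter (fun u => u % 4 = 1),
        |∑ v ∈ vset N u, 2 * (u : ℝ) * v / ((u : ℝ) ^ 2 + (v : ℝ) ^ 2)| :=
        Finset.abs_sum_le_sum_abs _ _
    _ ≤ ∑ u ∈ (Icc (-(2 * (N : ℤ))) (2 * (N : ℤ))).filter (fun u => u % 4 = 1),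
        (if u ^ 2 ≤ 2 * (N : ℤ) then 9 else 0 : ℝ) := by
        apply Finset.sum_le_sum
        intro u hu
        exact vsum_bound N u (Finset.mem_filter.1 hu).2
    _ ≤ ∑ u ∈ Icc (-(Nat.sqrt (2 * N) : ℤ)) (Nat.sqrt (2 * N) : ℤ), (9 : ℝ) := by
        rw [← Finset.sum_filter]
        apply Finset.sum_le_sum_of_subset_of_nonneg
        · intro u hu
          rw [Finset.mem_filter] at hu
          have h1 : u.natAbs ^ 2 ≤ 2 * N := by
            have := hu.2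
            rw [← Int.natAbs_sq] at this
            exact_mod_cast this
          have h2 : u.natAbs ≤ Nat.sqrt (2 * N) := Nat.le_sqrt'.2 h1
          rw [mem_Icc]
          omega
        · intros; norm_num
    _ = 9 * (2 * Nat.sqrt (2 * N) + 1) := by
        rw [Finset.sum_const, Int.card_Icc, nsmul_eq_mul]
        have : ((Nat.sqrt (2 * N) : ℤ) + 1 - -(Nat.sqrt (2 * N) : ℤ)).toNat =
            2 * Nat.sqrt (2 * N) + 1 := by omega
        rw [this]
        push_cast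
        ring
    _ ≤ 36 * Real.sqrt N := by
        have h1 : (Nat.sqrt (2 * N) : ℝ) ≤ Real.sqrt (2 * N) := by
          have := Real.nat_sqrt_le_real_sqrt (a := 2 * N)
          push_cast at this
          exact this
        have h2 : Real.sqrt (2 * (N : ℝ)) ≤ 1.45 * Real.sqrt N := by
          rw [Real.sqrt_mul (by norm_num)]
          have : Real.sqrt 2 ≤ 1.45 := by
            rw [Real.sqrt_le_left (by norm_num)]
            norm_num
          gcongr
        have h3 : 1 ≤ Real.sqrt N := by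
          rw [Real.one_le_sqrt]
          exact_mod_cast hNpos
        nlinarith

end Pool.Agent.H304R2.EC
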