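import Mathlib
import Pool.Agent.H304R2.EC.GnSum

set_option autoImplicit false

/-!
TEAM Q2, task A3c (helper992): the value at `1` is positive.
-/

open Finset Filter Topology

namespace Pool.Agent.H304R2.EC

/-- partial summation -/
theorem conv_of_sqrt (G : ℕ → ℝ) (C : ℝ)
    (hS : ∀ N : ℕ, |∑ n ∈ Icc 1 N, G n| ≤ C * Real.sqrt N) :
    ∃ L : ℝ, Tendsto (fun N : ℕ => ∑ n ∈ Icc 1 N, G n / n) atTop (𝓝 L) := by
  set S : ℕ → ℝ := fun N => ∑ n ∈ Icc 1 N, G n with hSdef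
  have hC : 0 ≤ C := by
    have := (abs_nonneg _).trans (hS 1)
    simpa using this
  have hid : ∀ N : ℕ, ∑ n ∈ Icc 1 N, G n / n =
      S N / (N + 1) + ∑ n ∈ range (N + 1), S n * (1 / n - 1 / (n + 1)) := by
    intro N
    induction N with
    | zero => simp [hSdef]
    | succ N ih =>
      rw [Finset.sum_Icc_succ_top (by omega), ih, Finset.sum_range_succ _ (N + 1)]
      have hsucc : S (N + 1) = S N + G (N + 1) := by
        simp only [hSdef]
        rw [Finset.sum_Icc_succ_top (by omega)]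
      rw [hsucc]
      push_cast
      have h1 : (N : ℝ) + 1 ≠ 0 := by positivity
      have h2 : (N : ℝ) + 1 + 1 ≠ 0 := by positivity
      field_simp
      ring
  have hb : ∀ n : ℕ, ‖S n * (1 / (n : ℝ) - 1 / ((n : ℝ) + 1))‖ ≤ C * (1 / (n : ℝ) ^ (3 / 2 : ℝ)) := by
    intro n
    rcases Nat.eq_zero_or_pos n with rfl | hn
    · simp [hSdef]
    · have hn' : (0 : ℝ) < n := by exact_mod_cast hn
      have e : 1 / (n : ℝ) - 1 / ((n : ℝ) + 1) = 1 / (n * (n + 1)) := by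
        field_simp
        ring
      rw [e, norm_mul, Real.norm_eq_abs, Real.norm_eq_abs, abs_of_pos (by positivity : 0 < 1 / ((n : ℝ) * (n + 1)))]
      have h1 : (n : ℝ) ^ (3 / 2 : ℝ) * Real.sqrt n = (n : ℝ) ^ 2 := by
        rw [Real.sqrt_eq_rpow, ← Real.rpow_add hn', ← Real.rpow_natCast]
        norm_num
      have h2 : 0 < (n : ℝ) ^ (3 / 2 : ℝ) := by positivity
      calc |S n| * (1 / ((n : ℝ) * (n + 1))) ≤ (C * Real.sqrt n) * (1 / ((n : ℝ) * n)) := by
            apply mul_le_mul (hS n) _ (by positivity) (by positivity)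
            apply one_div_le_one_div_of_le (by positivity)
            nlinarith
        _ = C * (1 / (n : ℝ) ^ (3 / 2 : ℝ)) := by
            have h3 : (n : ℝ) * n = (n : ℝ) ^ (3 / 2 : ℝ) * Real.sqrt n := by rw [h1]; ring
            rw [h3]
            have h4 : Real.sqrt n ≠ 0 := by positivity
            field_simp
  have hsum : Summable (fun n : ℕ => S n * (1 / (n : ℝ) - 1 / ((n : ℝ) + 1))) := by
    refine Summable.of_norm_bounded (g := fun n : ℕ => C * (1 / (n : ℝ) ^ (3 / 2 : ℝ))) ?_ hb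
    exact (Real.summable_one_div_nat_rpow.2 (by norm_num)).mul_left C
  refine ⟨0 + ∑' n : ℕ, S n * (1 / (n : ℝ) - 1 / ((n : ℝ) + 1)), ?_⟩
  simp_rw [hid]
  refine Tendsto.add ?_ ?_
  · have h1 : Tendsto (fun N : ℕ => C * (Real.sqrt (N : ℝ))⁻¹) atTop (𝓝 (C * 0)) := by
      apply Tendsto.const_mul
      apply Tendsto.inv_tendsto_atTop
      exact Real.tendsto_sqrt_atTop.comp tendsto_natCast_atTop_atTop
    rw [mul_zero] at h1
    refine squeeze_zero_norm' ?_ h1
    filter_upwards [eventually_gt_atTop 0] with N hN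
    have hN' : (0 : ℝ) < N := by exact_mod_cast hN
    rw [norm_div, Real.norm_eq_abs, Real.norm_eq_abs, abs_of_pos (by positivity : (0 : ℝ) < N + 1)]
    calc |S N| / ((N : ℝ) + 1) ≤ (C * Real.sqrt N) / N := by
          apply div_le_div₀ (by positivity) (hS N) hN' (by linarith)
      _ = C * (Real.sqrt (N : ℝ))⁻¹ := by
          have h4 : Real.sqrt N ≠ 0 := by positivity
          have h5 : (N : ℝ) = Real.sqrt N * Real.sqrt N := (Real.mul_self_sqrt hN'.le).symm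
          rw [mul_div_assoc]
          congr 1
          rw [div_eq_iff hN'.ne']
          nth_rewrite 3 [h5]
          field_simp
  · exact (hsum.hasSum.tendsto_sum_nat).comp (tendsto_add_atTop_nat 1)

theorem summable_poly (k : ℕ) (ρ : ℝ) (h0 : 0 < ρ) (h1 : ρ < 1) :
    Summable (fun n : ℕ => ((n : ℝ) + 1) ^ k * ρ ^ n) := by
  have h := summable_pow_mul_geometric_of_norm_lt_one (R := ℝ) k (r := ρ) (by
    rw [Real.norm_eq_abs, abs_of_pos h0]; exact h1)
  have h2 := (summable_nat_add_iff 1).2 h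
  have h3 := h2.mul_left ρ⁻¹
  refine h3.congr fun n => ?_
  push_cast
  rw [pow_succ]
  field_simp

theorem summable_coef (a : ℕ → ℝ) (K : ℝ) (k : ℕ) (ha : ∀ n, |a n| ≤ K * ((n : ℝ) + 1) ^ k)
    (x : ℝ) (hx : |x| < 1) : Summable (fun n : ℕ => a n * x ^ n) := by
  obtain ⟨ρ, h1, h2⟩ := exists_between hx
  have h0 : 0 < ρ := (abs_nonneg x).trans_lt h1
  refine Summable.of_norm_bounded (g := fun n : ℕ => K * (((n : ℝ) + 1) ^ k * ρ ^ n))
    ((summable_poly k ρ h0 h2).mul_left K) fun n => ?_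
  rw [norm_mul, norm_pow, Real.norm_eq_abs, Real.norm_eq_abs, ← mul_assoc]
  have : |x| ^ n ≤ ρ ^ n := pow_le_pow_left₀ (abs_nonneg x) h1.le n
  exact mul_le_mul (ha n) this (by positivity) ((abs_nonneg _).trans (ha n))

theorem hasDeriv_coef (a : ℕ → ℝ) (K : ℝ) (k : ℕ) (ha : ∀ n, |a n| ≤ K * ((n : ℝ) + 1) ^ k)
    (x : ℝ) (hx : |x| < 1) :
    HasDerivAt (fun z : ℝ => ∑' n : ℕ, a n * z ^ n) (∑' n : ℕ, a n * (n * x ^ (n - 1))) x := by
  obtain ⟨ρ, h1, h2⟩ := exists_between hx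
  have h0 : 0 < ρ := (abs_nonneg x).trans_lt h1
  have hK : 0 ≤ K := by
    have := (abs_nonneg _).trans (ha 0)
    simpa using this
  refine hasDerivAt_tsum_of_isPreconnected (t := Set.Ioo (-ρ) ρ)
    (u := fun n : ℕ => (K * ρ⁻¹) * (((n : ℝ) + 1) ^ (k + 1) * ρ ^ n))
    (g := fun n z => a n * z ^ n) (g' := fun n z => a n * (n * z ^ (n - 1)))
    ((summable_poly (k + 1) ρ h0 h2).mul_left _) isOpen_Ioo isPreconnected_Ioo ?_ ?_
    (y₀ := 0) ⟨by linarith, h0⟩ ?_ (by rw [Set.mem_Ioo]; exact abs_lt.1 h1)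
  · intro n y _
    exact (hasDerivAt_pow n y).const_mul (a n)
  · intro n y hy
    have hy' : |y| ≤ ρ := (abs_lt.2 hy).le
    rcases Nat.eq_zero_or_pos n with rfl | hn
    · simp only [CharP.cast_eq_zero, zero_mul, mul_zero, norm_zero]
      positivity
    · rw [norm_mul, norm_mul, norm_pow, Real.norm_eq_abs, Real.norm_eq_abs, Real.norm_eq_abs,
        abs_of_nonneg (Nat.cast_nonneg n : (0 : ℝ) ≤ n)]
      have h3 : |y| ^ (n - 1) ≤ ρ ^ (n - 1) := pow_le_pow_left₀ (abs_nonneg y) hy' _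
      have h4 : ρ ^ n = ρ * ρ ^ (n - 1) := by
        rw [← pow_succ']; congr 1; omega
      calc |a n| * ((n : ℝ) * |y| ^ (n - 1))
          ≤ (K * ((n : ℝ) + 1) ^ k) * (((n : ℝ) + 1) * ρ ^ (n - 1)) := by
            apply mul_le_mul (ha n) _ (by positivity) (by positivity)
            apply mul_le_mul (by linarith) h3 (by positivity) (by positivity)
        _ = (K * ρ⁻¹) * (((n : ℝ) + 1) ^ (k + 1) * ρ ^ n) := by
            rw [h4, pow_succ]
            field_simp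
  · exact summable_coef a K k ha 0 (by simp)

theorem gn_zero : gn 0 = 0 := by
  rw [gn, PS]
  apply Finset.sum_eq_zero
  rintro ⟨a, b⟩ h
  simp only [mem_filter, mem_product, mem_Icc] at h
  simp only
  have : a ^ 2 + b ^ 2 = 0 := by exact_mod_cast h.2.2.2
  have ha : a = 0 := by nlinarith [sq_nonneg a, sq_nonneg b]
  have hb : b = 0 := by nlinarith [sq_nonneg a, sq_nonneg b]
  rw [ha, hb]
  ring

theorem gn_one : gn 1 = 1 := by
  have : PS 1 = {(1, 0)} := by
    rw [PS]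
    decide
  rw [gn, this]
  simp

theorem gn_abs_le (n : ℕ) : |(gn n : ℝ)| ≤ 4 * ((n : ℝ) + 1) ^ 3 := by
  have h1 : |gn n| ≤ ∑ p ∈ PS n, (n : ℤ) := by
    rw [gn]
    refine (Finset.abs_sum_le_sum_abs _ _).trans (Finset.sum_le_sum ?_)
    rintro ⟨a, b⟩ h
    simp only [PS, mem_filter, mem_product, mem_Icc] at h
    rw [abs_le]
    constructor <;> nlinarith [sq_nonneg a, sq_nonneg b, h.2.2.2]
  have h2 : (PS n).card ≤ (2 * n + 1) * (2 * n + 1) := by
    rw [PS]
    refine (Finset.card_filter_le _ _).trans ?_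
    rw [Finset.card_product, Int.card_Icc]
    have : ((n : ℤ) + 1 - -(n : ℤ)).toNat = 2 * n + 1 := by omega
    rw [this]
  rw [Finset.sum_const, nsmul_eq_mul] at h1
  have h3 : |(gn n : ℝ)| ≤ (PS n).card * n := by exact_mod_cast h1
  have h4 : ((PS n).card : ℝ) ≤ (2 * n + 1) * (2 * n + 1) := by exact_mod_cast h2
  have h5 : (0 : ℝ) ≤ n := Nat.cast_nonneg n
  calc |(gn n : ℝ)| ≤ (PS n).card * n := h3
    _ ≤ ((2 * n + 1) * (2 * n + 1)) * n := by gcongr
    _ ≤ 4 * ((n : ℝ) + 1) ^ 3 := by nlinarith [mul_nonneg h5 h5]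

/-- coefficients of the weight `3/2` theta series -/
noncomputable def Tset (m : ℕ) : Finset ℤ :=
  (Icc (-(m : ℤ)) m).filter (fun u => u % 4 = 1 ∧ u ^ 2 = m)

noncomputable def tc (m : ℕ) : ℝ := ∑ u ∈ Tset m, (u : ℝ)

theorem tc_abs_le (m : ℕ) : |tc m| ≤ 2 * ((m : ℝ) + 1) ^ 2 := by
  have h1 : |tc m| ≤ ∑ u ∈ Tset m, (m : ℝ) := by
    rw [tc]
    refine (Finset.abs_sum_le_sum_abs _ _).trans (Finset.sum_le_sum ?_)
    intro u h
    simp only [Tset, mem_filter, mem_Icc] at h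
    have : |u| ≤ m := abs_le.2 h.1
    exact_mod_cast this
  have h2 : (Tset m).card ≤ 2 * m + 1 := by
    rw [Tset]
    refine (Finset.card_filter_le _ _).trans ?_
    rw [Int.card_Icc]
    omega
  rw [Finset.sum_const, nsmul_eq_mul] at h1
  have h4 : ((Tset m).card : ℝ) ≤ 2 * m + 1 := by exact_mod_cast h2
  have h5 : (0 : ℝ) ≤ m := Nat.cast_nonneg m
  calc |tc m| ≤ (Tset m).card * m := h1
    _ ≤ (2 * m + 1) * m := by gcongr
    _ ≤ _ := by nlinarith

theorem tc_conv (M : ℕ) : ∑ kl ∈ antidiagonal M, tc kl.1 * tc kl.2 =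
    ∑ p ∈ ((Icc (-(M : ℤ)) M) ×ˢ (Icc (-(M : ℤ)) M)).filter
      (fun p : ℤ × ℤ => p.1 % 4 = 1 ∧ p.2 % 4 = 1 ∧ p.1 ^ 2 + p.2 ^ 2 = M), (p.1 : ℝ) * p.2 := by
  have habs : ∀ (a m : ℤ), a ^ 2 ≤ m → (-m ≤ a ∧ a ≤ m) := by
    intro a m h
    have h3 : a ≤ a ^ 2 := Int.le_self_sq a
    have h4 : -a ≤ a ^ 2 := by
      have := Int.le_self_sq (-a)
      rw [neg_sq] at this
      exact this
    constructor <;> linarith
  rw [← Finset.sum_fiberwise_of_maps_to (t := antidiagonal M)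
    (g := fun p : ℤ × ℤ => (p.1.natAbs ^ 2, p.2.natAbs ^ 2))]
  · apply Finset.sum_congr rfl
    rintro ⟨k, l⟩ hkl
    rw [HasAntidiagonal.mem_antidiagonal] at hkl
    simp only at hkl ⊢
    rw [tc, tc, Finset.sum_mul_sum, ← Finset.sum_product']
    apply Finset.sum_congr _ (fun _ _ => rfl)
    ext ⟨u, v⟩
    simp only [Tset, mem_filter, mem_product, mem_Icc, Prod.mk.injEq]
    have hkl' : (k : ℤ) + l = M := by exact_mod_cast hkl
    constructor
    · rintro ⟨⟨h1, h2, h3⟩, h4, h5, h6⟩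
      have e1 : u.natAbs ^ 2 = k := by
        have := Int.natAbs_sq u
        rw [h3] at this
        exact_mod_cast this
      have e2 : v.natAbs ^ 2 = l := by
        have := Int.natAbs_sq v
        rw [h6] at this
        exact_mod_cast this
      refine ⟨⟨⟨habs _ _ ?_, habs _ _ ?_⟩, h2, h5, ?_⟩, e1, e2⟩
      · linarith [sq_nonneg v]
      · linarith [sq_nonneg u]
      · linarith
    · rintro ⟨⟨-, h2, h3, h4⟩, h5, h6⟩
      have e1 : u ^ 2 = k := by
        rw [← Int.natAbs_sq, ← h5]; push_cast; rfl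
      have e2 : v ^ 2 = l := by
        rw [← Int.natAbs_sq, ← h6]; push_cast; rfl
      exact ⟨⟨habs _ _ e1.le, h2, e1⟩, habs _ _ e2.le, h3, e2⟩
  · rintro ⟨u, v⟩ h
    simp only [mem_filter] at h
    simp only [HasAntidiagonal.mem_antidiagonal]
    have h4 := h.2.2.2
    rw [← Int.natAbs_sq, ← Int.natAbs_sq v] at h4
    exact_mod_cast h4

theorem tc_conv_even (n : ℕ) : ∑ kl ∈ antidiagonal (2 * n), tc kl.1 * tc kl.2 = (gn n : ℝ) := by
  rw [tc_conv, gn_eq]
  push_cast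
  rfl

theorem tc_conv_odd (n : ℕ) : ∑ kl ∈ antidiagonal (2 * n + 1), tc kl.1 * tc kl.2 = 0 := by
  rw [tc_conv]
  apply Finset.sum_eq_zero
  rintro ⟨u, v⟩ h
  exfalso
  simp only [mem_filter] at h
  obtain ⟨-, h1, h2, h3⟩ := h
  obtain ⟨a, ha⟩ : ∃ a, u = 2 * a + 1 := ⟨u / 2, by omega⟩
  obtain ⟨b, hb⟩ : ∃ b, v = 2 * b + 1 := ⟨v / 2, by omega⟩
  have : u ^ 2 + v ^ 2 = 2 * (2 * a ^ 2 + 2 * a + 2 * b ^ 2 + 2 * b + 1) := by
    rw [ha, hb]; ring
  push_cast at h3
  omega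

theorem theta_nonneg (x : ℝ) (h0 : 0 ≤ x) (h1 : x < 1) : 0 ≤ ∑' n : ℕ, (gn n : ℝ) * x ^ n := by
  set s := Real.sqrt x with hs
  have hs0 : 0 ≤ s := Real.sqrt_nonneg x
  have hs1 : s < 1 := by
    rw [hs, Real.sqrt_lt' (by norm_num)]
    simpa using h1
  have hsa : |s| < 1 := by rwa [abs_of_nonneg hs0]
  have hs2 : s ^ 2 = x := Real.sq_sqrt h0
  have hsum : Summable (fun n : ℕ => tc n * s ^ n) := summable_coef tc 2 2 tc_abs_le s hsa
  have hnorm : Summable (fun n : ℕ => ‖tc n * s ^ n‖) := hsum.norm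
  have hprod := tsum_mul_tsum_eq_tsum_sum_antidiagonal_of_summable_norm hnorm hnorm
  have hprodS := summable_norm_sum_mul_antidiagonal_of_summable_norm hnorm hnorm
  have hterm : ∀ M : ℕ, ∑ kl ∈ antidiagonal M, (tc kl.1 * s ^ kl.1) * (tc kl.2 * s ^ kl.2) =
      (∑ kl ∈ antidiagonal M, tc kl.1 * tc kl.2) * s ^ M := by
    intro M
    rw [Finset.sum_mul]
    apply Finset.sum_congr rfl
    rintro ⟨k, l⟩ hkl
    rw [HasAntidiagonal.mem_antidiagonal] at hkl
    simp only at hkl ⊢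
    rw [← hkl, pow_add]
    ring
  simp_rw [hterm] at hprod
  have heven : ∀ n : ℕ, (∑ kl ∈ antidiagonal (2 * n), tc kl.1 * tc kl.2) * s ^ (2 * n) =
      (gn n : ℝ) * x ^ n := by
    intro n
    rw [tc_conv_even, pow_mul, hs2]
  have hodd : ∀ n : ℕ, (∑ kl ∈ antidiagonal (2 * n + 1), tc kl.1 * tc kl.2) * s ^ (2 * n + 1) =
      0 := by
    intro n
    rw [tc_conv_odd, zero_mul]
  have hgs : Summable (fun n : ℕ => (gn n : ℝ) * x ^ n) :=
    summable_coef (fun n => (gn n : ℝ)) 4 3 gn_abs_le x (by rwa [abs_of_nonneg h0])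
  have hsplit := tsum_even_add_odd
    (f := fun M : ℕ => (∑ kl ∈ antidiagonal M, tc kl.1 * tc kl.2) * s ^ M)
    (by simp_rw [heven]; exact hgs) (by simp_rw [hodd]; exact summable_zero)
  simp_rw [heven, hodd] at hsplit
  rw [tsum_zero, add_zero] at hsplit
  rw [hsplit, ← hprod]
  exact mul_self_nonneg _

theorem gn_lim : ∃ L : ℝ, L ≠ 0 ∧
    Tendsto (fun N : ℕ => ∑ n ∈ Icc 1 N, ((gn n : ℝ) / n) / n) atTop (𝓝 L) := by
  obtain ⟨C, hC⟩ := gn_sum
  obtain ⟨L, hL⟩ := conv_of_sqrt (fun n => (gn n : ℝ) / n) C hC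
  refine ⟨L, ?_, hL⟩
  set h : ℕ → ℝ := fun n => (gn n : ℝ) / n with hh
  set g : ℕ → ℝ := fun n => (gn n : ℝ) / n / n with hg
  have hdiv : ∀ (y : ℝ) (n : ℕ), |y / n| ≤ |y| := by
    intro y n
    rcases Nat.eq_zero_or_pos n with rfl | hn
    · simp
    · rw [abs_div, Nat.abs_cast]
      exact div_le_self (abs_nonneg _) (by exact_mod_cast hn)
  have hhb : ∀ n, |h n| ≤ 4 * ((n : ℝ) + 1) ^ 3 := fun n => (hdiv _ n).trans (gn_abs_le n)
  have hgb : ∀ n, |g n| ≤ 4 * ((n : ℝ) + 1) ^ 3 := fun n => (hdiv _ n).trans (hhb n)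
  set H : ℝ → ℝ := fun z => ∑' n : ℕ, h n * z ^ n with hH
  set G : ℝ → ℝ := fun z => ∑' n : ℕ, g n * z ^ n with hG
  have hH' : ∀ x : ℝ, |x| < 1 → HasDerivAt H (∑' n : ℕ, h n * (n * x ^ (n - 1))) x :=
    fun x hx => hasDeriv_coef h 4 3 hhb x hx
  have hG' : ∀ x : ℝ, |x| < 1 → HasDerivAt G (∑' n : ℕ, g n * (n * x ^ (n - 1))) x :=
    fun x hx => hasDeriv_coef g 4 3 hgb x hx
  have hHx : ∀ x : ℝ, x * ∑' n : ℕ, h n * (n * x ^ (n - 1)) = ∑' n : ℕ, (gn n : ℝ) * x ^ n := by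
    intro x
    rw [← tsum_mul_left]
    apply tsum_congr
    intro n
    rcases Nat.eq_zero_or_pos n with rfl | hn
    · simp [gn_zero]
    · have hn0 : (n : ℝ) ≠ 0 := by positivity
      have e : x ^ n = x * x ^ (n - 1) := by
        rw [← pow_succ']; congr 1; omega
      rw [e, hh]
      simp only
      field_simp
  have hGx : ∀ x : ℝ, x * ∑' n : ℕ, g n * (n * x ^ (n - 1)) = H x := by
    intro x
    rw [← tsum_mul_left, hH]
    apply tsum_congr
    intro n
    rcases Nat.eq_zero_or_pos n with rfl | hn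
    · simp [hh]
    · have hn0 : (n : ℝ) ≠ 0 := by positivity
      have e : x ^ n = x * x ^ (n - 1) := by
        rw [← pow_succ']; congr 1; omega
      rw [e, hh, hg]
      simp only
      field_simp
  have hzero : ∀ c : ℕ → ℝ, ∑' n : ℕ, c n * (0 : ℝ) ^ n = c 0 := by
    intro c
    rw [tsum_eq_single 0]
    · simp
    · intro n hn
      simp [hn]
  have hH0 : H 0 = 0 := by
    rw [hH]; simp only; rw [hzero]; simp [hh]
  have hG0 : G 0 = 0 := by
    rw [hG]; simp only; rw [hzero]; simp [hg]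
  have habs : ∀ x : ℝ, 0 ≤ x → x < 1 → |x| < 1 := fun x h0 h1 => by rwa [abs_of_nonneg h0]
  have hHmono : MonotoneOn H (Set.Ico 0 1) := by
    apply monotoneOn_of_deriv_nonneg (convex_Ico 0 1)
    · intro x hx
      exact (hH' x (habs x hx.1 hx.2)).continuousAt.continuousWithinAt
    · intro x hx
      rw [interior_Ico] at hx
      exact (hH' x (habs x hx.1.le hx.2)).differentiableAt.differentiableWithinAt
    · intro x hx
      rw [interior_Ico] at hx
      rw [(hH' x (habs x hx.1.le hx.2)).deriv]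
      have h1 := hHx x
      have h2 := theta_nonneg x hx.1.le hx.2
      rw [← h1] at h2
      exact nonneg_of_mul_nonneg_right h2 hx.1
  have hHnn : ∀ x ∈ Set.Ico (0 : ℝ) 1, 0 ≤ H x := by
    intro x hx
    have := hHmono ⟨le_rfl, by norm_num⟩ hx hx.1
    rwa [hH0] at this
  have hGmono : MonotoneOn G (Set.Ico 0 1) := by
    apply monotoneOn_of_deriv_nonneg (convex_Ico 0 1)
    · intro x hx
      exact (hG' x (habs x hx.1 hx.2)).continuousAt.continuousWithinAt
    · intro x hx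
      rw [interior_Ico] at hx
      exact (hG' x (habs x hx.1.le hx.2)).differentiableAt.differentiableWithinAt
    · intro x hx
      rw [interior_Ico] at hx
      rw [(hG' x (habs x hx.1.le hx.2)).deriv]
      have h1 := hGx x
      have h2 := hHnn x ⟨hx.1.le, hx.2⟩
      rw [← h1] at h2
      exact nonneg_of_mul_nonneg_right h2 hx.1
  have hG1 : ∑' n : ℕ, g n * (n * (0 : ℝ) ^ (n - 1)) = 1 := by
    rw [tsum_eq_single 1]
    · simp [hg, gn_one]
    · intro n hn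
      rcases Nat.eq_zero_or_pos n with rfl | hn'
      · simp
      · have : n - 1 ≠ 0 := by omega
        simp [this]
  have hslope := hasDerivAt_iff_tendsto_slope.1 (hG' 0 (by simp))
  rw [hG1] at hslope
  have hev : ∀ᶠ x in 𝓝[>] (0 : ℝ), 0 < slope G 0 x :=
    (hslope.mono_left (nhdsWithin_mono _ (fun x hx => (ne_of_gt hx)))).eventually
      (lt_mem_nhds (by norm_num))
  have hev2 : ∀ᶠ x in 𝓝[>] (0 : ℝ), x ∈ Set.Ioo (0 : ℝ) 1 := Ioo_mem_nhdsGT (by norm_num)
  obtain ⟨r, hr1, hr2⟩ := (hev.and hev2).exists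
  have hGr : 0 < G r := by
    rw [slope_def_field, hG0, sub_zero, sub_zero] at hr1
    have := mul_pos hr1 hr2.1
    rwa [div_mul_cancel₀ _ hr2.1.ne'] at this
  have hL' : Tendsto (fun n : ℕ => ∑ i ∈ range n, g i) atTop (𝓝 L) := by
    rw [← tendsto_add_atTop_iff_nat 1]
    refine hL.congr fun N => ?_
    rw [Finset.range_eq_Ico, Finset.sum_eq_sum_Ico_succ_bot (by omega)]
    have : g 0 = 0 := by simp [hg]
    rw [this, zero_add]
    rfl
  have habel := Real.tendsto_tsum_powerSeries_nhdsWithin_lt hL'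
  have hge : G r ≤ L := by
    refine ge_of_tendsto habel ?_
    have : ∀ᶠ x in 𝓝[<] (1 : ℝ), x ∈ Set.Ioo r 1 := Ioo_mem_nhdsLT hr2.2
    filter_upwards [this] with x hx
    exact hGmono ⟨hr2.1.le, hr2.2⟩ ⟨hr2.1.le.trans hx.1.le, hx.2⟩ hx.1.le
  exact (hGr.trans_le hge).ne'

end Pool.Agent.H304R2.EC
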