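import Pool.Agent.H304R2.EC.Pair

set_option autoImplicit false

/-!
TEAM Q2, module L2 (helper911): growth of the twisted L-function, uniform in the conductor.
-/

open Finset Filter Topology MeasureTheory Set Asymptotics

namespace Pool.Agent.H304R2.EC

/-- the absolute value of the Dirichlet series on `Re s = 3/2` -/
noncomputable def C0 : ℝ := ∑' n : ℕ, |(an n : ℝ)| / (n : ℝ) ^ ((3 : ℝ) / 2 + 1 / 2)

theorem C0_nonneg : 0 ≤ C0 := tsum_nonneg (fun n => by positivity)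

theorem FF_le_C0 (q : ℕ) [NeZero q] (χ : DirichletCharacter ℂ q) (s : ℂ) (hs : 3 / 2 ≤ s.re) :
    ‖FF q χ s‖ ≤ C0 := by
  have h1 := FF_series q χ s (by linarith)
  refine tsum_of_norm_bounded (g := fun n : ℕ => |(an n : ℝ)| / (n : ℝ) ^ ((3 : ℝ) / 2 + 1 / 2))
    (f := fun n : ℕ => χ (n : ZMod q) * (an n : ℂ) * (n : ℂ) ^ (-(s + 1 / 2)))
    (summ_div (by norm_num)).hasSum (fun n => ?_) |> fun h => by rwa [h1.tsum_eq] at h
  rcases Nat.eq_zero_or_pos n with h | h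
  · subst h
    rw [an_zero]; simp
  have hn : (1 : ℝ) ≤ n := by exact_mod_cast h
  rw [norm_mul, Complex.norm_natCast_cpow_of_pos h]
  have h2 := cf_norm_le q χ n
  unfold cf at h2
  have h3 : (-(s + 1 / 2)).re = -(s.re + 1 / 2) := by simp
  rw [h3, Real.rpow_neg (by positivity), ← div_eq_mul_inv]
  exact div_le_div₀ (abs_nonneg _) h2 (by positivity)
    (Real.rpow_le_rpow_of_exponent_le hn (by linarith))

theorem norm_Gamma_le {z : ℂ} (hz : 0 < z.re) : ‖Complex.Gamma z‖ ≤ Real.Gamma z.re := by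
  rw [Complex.Gamma_eq_integral hz, Real.Gamma_eq_integral hz]
  unfold Complex.GammaIntegral
  refine (norm_integral_le_integral_norm _).trans (le_of_eq ?_)
  refine setIntegral_congr_fun measurableSet_Ioi (fun t ht => ?_)
  have ht' : (0 : ℝ) < t := ht
  simp only [norm_mul]
  rw [Complex.norm_cpow_eq_rpow_re_of_pos ht', Complex.norm_real, Real.norm_eq_abs,
    abs_of_pos (Real.exp_pos _)]
  simp

theorem norm_sin_le (z : ℂ) : ‖Complex.sin z‖ ≤ Real.exp |z.im| := by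
  unfold Complex.sin
  rw [norm_div, norm_mul, Complex.norm_I, mul_one]
  have h1 : ‖Complex.exp (-z * Complex.I) - Complex.exp (z * Complex.I)‖ ≤
      Real.exp |z.im| + Real.exp |z.im| := by
    refine (norm_sub_le _ _).trans ?_
    rw [Complex.norm_exp, Complex.norm_exp]
    refine add_le_add (Real.exp_le_exp.mpr ?_) (Real.exp_le_exp.mpr ?_)
    · have : (-z * Complex.I).re = z.im := by simp
      rw [this]; exact le_abs_self _
    · have : (z * Complex.I).re = -z.im := by simp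
      rw [this]; exact neg_le_abs _
  have h2 : ‖(2 : ℂ)‖ = 2 := by norm_num
  rw [h2]
  linarith

/-- crude bound for the reciprocal of the Gamma function in a strip -/
theorem inv_Gamma_le : ∃ M : ℝ, 0 ≤ M ∧ ∀ z : ℂ, 0 ≤ z.re → z.re ≤ 2 → 1 ≤ |z.im| →
    ‖(Complex.Gamma z)⁻¹‖ ≤ M * Real.exp (Real.pi * |z.im|) := by
  obtain ⟨M, hM⟩ := (isCompact_Icc (a := (1 : ℝ)) (b := 3)).exists_bound_of_continuousOn
    (f := Real.Gamma) (fun x hx => (Real.differentiableAt_Gamma (fun m => by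
      have := hx.1
      have h2 : (0 : ℝ) ≤ m := Nat.cast_nonneg m
      linarith)).continuousAt.continuousWithinAt)
  have hM0 : 0 ≤ M := (norm_nonneg _).trans (hM 1 (by constructor <;> norm_num))
  refine ⟨M, hM0, fun z h1 h2 h3 => ?_⟩
  have him : z.im ≠ 0 := by
    intro h; rw [h, abs_zero] at h3; linarith
  have hz1 : z - 1 ≠ 0 := by
    intro h; apply him; have := congrArg Complex.im h; simpa using this
  have hz2 : z - 2 ≠ 0 := by
    intro h; apply him; have := congrArg Complex.im h; simpa using this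
  have hG1 : Complex.Gamma z = (z - 1) * Complex.Gamma (z - 1) := by
    have := Complex.Gamma_add_one (z - 1) hz1
    rwa [sub_add_cancel] at this
  have hG2 : Complex.Gamma (z - 1) = (z - 2) * Complex.Gamma (z - 2) := by
    have := Complex.Gamma_add_one (z - 2) hz2
    rwa [show z - 2 + 1 = z - 1 by ring] at this
  have hR := Complex.Gamma_mul_Gamma_one_sub (z - 2)
  have hsin : Complex.sin (Real.pi * (z - 2)) ≠ 0 := by
    intro h
    rw [Complex.sin_eq_zero_iff] at h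
    obtain ⟨k, hk⟩ := h
    have hpi : (Real.pi : ℂ) ≠ 0 := by exact_mod_cast Real.pi_ne_zero
    have h5 : z - 2 = k := by
      have : (Real.pi : ℂ) * (z - 2) = Real.pi * k := by rw [hk]; ring
      exact mul_left_cancel₀ hpi this
    apply him
    have := congrArg Complex.im h5
    simpa using this
  have hpi : (Real.pi : ℂ) ≠ 0 := by exact_mod_cast Real.pi_ne_zero
  have hinv : (Complex.Gamma (z - 2))⁻¹ =
      Complex.Gamma (1 - (z - 2)) * Complex.sin (Real.pi * (z - 2)) / Real.pi := by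
    have hne : Complex.Gamma (z - 2) ≠ 0 := by
      intro h
      rw [h, zero_mul] at hR
      have : (Real.pi : ℂ) / Complex.sin (Real.pi * (z - 2)) ≠ 0 := div_ne_zero hpi hsin
      exact this hR.symm
    rw [inv_eq_iff_eq_inv, inv_div, eq_div_iff]
    · have h6 : Complex.Gamma (z - 2) * Complex.Gamma (1 - (z - 2)) *
          Complex.sin (Real.pi * (z - 2)) = Real.pi := by
        rw [hR]; field_simp
      rw [← mul_assoc]; exact h6
    · refine mul_ne_zero ?_ hsin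
      intro h
      rw [h, mul_zero] at hR
      exact (div_ne_zero hpi hsin) hR.symm
  rw [hG1, hG2, mul_inv, mul_inv, hinv]
  have hn1 : ‖(z - 1)⁻¹‖ ≤ 1 := by
    rw [norm_inv]
    apply inv_le_one_of_one_le₀
    refine h3.trans ?_
    have := Complex.abs_im_le_norm (z - 1)
    simpa using this
  have hn2 : ‖(z - 2)⁻¹‖ ≤ 1 := by
    rw [norm_inv]
    apply inv_le_one_of_one_le₀
    refine h3.trans ?_
    have := Complex.abs_im_le_norm (z - 2)
    simpa using this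
  have hn3 : ‖Complex.Gamma (1 - (z - 2))‖ ≤ M := by
    have hre : (1 - (z - 2)).re = 3 - z.re := by simp; ring
    refine (norm_Gamma_le (by rw [hre]; linarith)).trans ?_
    rw [hre]
    exact (le_abs_self _).trans (hM _ ⟨by linarith, by linarith⟩)
  have hn4 : ‖Complex.sin (Real.pi * (z - 2))‖ ≤ Real.exp (Real.pi * |z.im|) := by
    refine (norm_sin_le _).trans (le_of_eq ?_)
    congr 1
    have : ((Real.pi : ℂ) * (z - 2)).im = Real.pi * z.im := by simp
    rw [this, abs_mul, abs_of_pos Real.pi_pos]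
  have hn5 : ‖((Real.pi : ℂ))⁻¹‖ ≤ 1 := by
    rw [norm_inv, Complex.norm_real, Real.norm_eq_abs, abs_of_pos Real.pi_pos]
    apply inv_le_one_of_one_le₀
    linarith [Real.pi_gt_three]
  rw [div_eq_mul_inv, norm_mul, norm_mul, norm_mul, norm_mul]
  have hE : 0 ≤ Real.exp (Real.pi * |z.im|) := (Real.exp_pos _).le
  calc ‖(z - 1)⁻¹‖ * (‖(z - 2)⁻¹‖ * (‖Complex.Gamma (1 - (z - 2))‖ *
        ‖Complex.sin (Real.pi * (z - 2))‖ * ‖((Real.pi : ℂ))⁻¹‖))
      ≤ 1 * (1 * (M * Real.exp (Real.pi * |z.im|) * 1)) := by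
        gcongr
    _ = M * Real.exp (Real.pi * |z.im|) := by ring

/-- on the line `Re s = -1/2` -/
theorem FF_left_edge (q : ℕ) [NeZero q] (hq : Odd q) (χ : DirichletCharacter ℂ q)
    (hχ : χ.IsPrimitive) (s : ℂ) (hs : s.re = -1 / 2) :
    ‖FF q χ s‖ ≤ C0 * (q : ℝ) ^ 2 * (1 + |s.im|) ^ 2 := by
  obtain ⟨w, hw, hfe⟩ := LL_fe q hq χ hχ
  have hq1 : (1 : ℝ) ≤ q := by exact_mod_cast Nat.pos_of_ne_zero (NeZero.ne q)
  have hC := C0_nonneg
  set t : ℝ := s.im with ht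
  have hsI : s + 1 / 2 = (t : ℂ) * Complex.I := by
    apply Complex.ext
    · rw [Complex.add_re, hs]; norm_num
    · rw [Complex.add_im]; norm_num [ht]
  by_cases h0 : t = 0
  · have : FF q χ s = 0 := by
      rw [FF_eq, hsI, h0]
      simp [Complex.Gamma_zero]
    rw [this, norm_zero]
    positivity
  set Q : ℝ := Real.sqrt 8 * q / Real.pi with hQ
  have hQpos : 0 < Q := div_pos (sc_pos q) Real.pi_pos
  have hQq : Q ≤ q := by
    rw [hQ, div_le_iff₀ Real.pi_pos]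
    have h8 : Real.sqrt 8 ≤ Real.pi := by
      refine le_trans ?_ Real.pi_gt_three.le
      rw [show (3 : ℝ) = Real.sqrt 9 by
        rw [show (9 : ℝ) = 3 ^ 2 by norm_num]; rw [Real.sqrt_sq (by norm_num)]]
      exact Real.sqrt_le_sqrt (by norm_num)
    nlinarith
  have h1 : LL q χ s = w * LL q χ⁻¹ (1 - s) := by
    have := hfe (1 - s)
    rwa [sub_sub_cancel] at this
  have hG0 : Complex.Gamma (1 - s + 1 / 2) ≠ 0 := by
    apply Complex.Gamma_ne_zero_of_re_pos
    have : (1 - s + 1 / 2).re = 2 := by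
      rw [Complex.add_re, Complex.sub_re, hs]; norm_num
    rw [this]; norm_num
  have hQ0 : (Q : ℂ) ≠ 0 := by exact_mod_cast hQpos.ne'
  have h2 : LL q χ⁻¹ (1 - s) = Complex.Gamma (1 - s + 1 / 2) * (Q : ℂ) ^ (1 - s + 1 / 2) *
      FF q χ⁻¹ (1 - s) := by
    rw [FF_eq, ← hQ, Complex.cpow_neg]
    have h3 : (Q : ℂ) ^ (1 - s + 1 / 2) ≠ 0 := by
      rw [Complex.cpow_ne_zero_iff]; left; exact hQ0
    generalize (Q : ℂ) ^ (1 - s + 1 / 2) = X at h3 ⊢
    generalize Complex.Gamma (1 - s + 1 / 2) = G at hG0 ⊢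
    field_simp
  have h3 : FF q χ s = (Complex.Gamma (s + 1 / 2))⁻¹ * (Q : ℂ) ^ (-(s + 1 / 2)) *
      (w * (Complex.Gamma (1 - s + 1 / 2) * (Q : ℂ) ^ (1 - s + 1 / 2) * FF q χ⁻¹ (1 - s))) := by
    rw [FF_eq, ← hQ, h1, h2]
  have h4 : ‖FF q χ⁻¹ (1 - s)‖ ≤ C0 := FF_le_C0 q χ⁻¹ (1 - s) (by
    rw [Complex.sub_re, hs]; norm_num)
  have h5 : ‖(Q : ℂ) ^ (-(s + 1 / 2))‖ = 1 := by
    rw [Complex.norm_cpow_eq_rpow_re_of_pos hQpos, hsI]
    simp
  have h6 : ‖(Q : ℂ) ^ (1 - s + 1 / 2)‖ = Q ^ 2 := by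
    rw [Complex.norm_cpow_eq_rpow_re_of_pos hQpos]
    have : (1 - s + 1 / 2).re = 2 := by
      rw [Complex.add_re, Complex.sub_re, hs]; norm_num
    rw [this, Real.rpow_ofNat]
  have h7 : ‖(Complex.Gamma (s + 1 / 2))⁻¹‖ * ‖Complex.Gamma (1 - s + 1 / 2)‖ ≤ (1 + |t|) ^ 2 := by
    have hsI2 : 1 - s + 1 / 2 = 2 - (t : ℂ) * Complex.I := by rw [← hsI]; ring
    rw [hsI, hsI2]
    have hIm : ((t : ℂ) * Complex.I) ≠ 0 := by
      refine mul_ne_zero ?_ Complex.I_ne_zero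
      exact_mod_cast h0
    have e1 : Complex.Gamma (2 - (t : ℂ) * Complex.I) =
        (1 - (t : ℂ) * Complex.I) * Complex.Gamma (1 - (t : ℂ) * Complex.I) := by
      have := Complex.Gamma_add_one (1 - (t : ℂ) * Complex.I) (by
        intro h
        have := congrArg Complex.re h
        simp at this)
      rwa [show 1 - (t : ℂ) * Complex.I + 1 = 2 - (t : ℂ) * Complex.I by ring] at this
    have e2 : Complex.Gamma (1 - (t : ℂ) * Complex.I) =
        (-(t : ℂ) * Complex.I) * Complex.Gamma (-(t : ℂ) * Complex.I) := by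
      have := Complex.Gamma_add_one (-(t : ℂ) * Complex.I) (by
        rw [neg_mul]; exact neg_ne_zero.mpr hIm)
      rwa [show -(t : ℂ) * Complex.I + 1 = 1 - (t : ℂ) * Complex.I by ring] at this
    have e3 : Complex.Gamma (-(t : ℂ) * Complex.I) =
        (starRingEnd ℂ) (Complex.Gamma ((t : ℂ) * Complex.I)) := by
      rw [← Complex.Gamma_conj]
      congr 1
      rw [map_mul, Complex.conj_I, Complex.conj_ofReal]; ring
    have e4 : ‖Complex.Gamma (-(t : ℂ) * Complex.I)‖ = ‖Complex.Gamma ((t : ℂ) * Complex.I)‖ := by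
      rw [e3, RCLike.norm_conj]
    rw [e1, e2, norm_mul, norm_mul, e4, norm_inv]
    have hGt : ‖Complex.Gamma ((t : ℂ) * Complex.I)‖ ≠ 0 := by
      rw [norm_ne_zero_iff]
      apply Complex.Gamma_ne_zero
      intro m h
      apply h0
      have := congrArg Complex.im h
      simpa using this
    have e5 : ‖(1 : ℂ) - (t : ℂ) * Complex.I‖ ≤ 1 + |t| := by
      refine (norm_sub_le _ _).trans ?_
      rw [norm_one, norm_mul, Complex.norm_I, mul_one, Complex.norm_real, Real.norm_eq_abs]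
    have e6 : ‖-(t : ℂ) * Complex.I‖ = |t| := by
      rw [norm_mul, Complex.norm_I, mul_one, norm_neg, Complex.norm_real, Real.norm_eq_abs]
    rw [e6]
    have e7 : ‖Complex.Gamma ((t : ℂ) * Complex.I)‖⁻¹ * (‖(1 : ℂ) - (t : ℂ) * Complex.I‖ *
        (|t| * ‖Complex.Gamma ((t : ℂ) * Complex.I)‖)) = ‖(1 : ℂ) - (t : ℂ) * Complex.I‖ * |t| := by
      field_simp
    rw [e7, sq]
    exact mul_le_mul e5 (by linarith [abs_nonneg t]) (abs_nonneg _) (by positivity)
  rw [h3, norm_mul, norm_mul, norm_mul, norm_mul, norm_mul, h5, h6, hw]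
  calc ‖(Complex.Gamma (s + 1 / 2))⁻¹‖ * 1 * (1 * (‖Complex.Gamma (1 - s + 1 / 2)‖ * Q ^ 2 *
        ‖FF q χ⁻¹ (1 - s)‖))
      = (‖(Complex.Gamma (s + 1 / 2))⁻¹‖ * ‖Complex.Gamma (1 - s + 1 / 2)‖) * Q ^ 2 *
        ‖FF q χ⁻¹ (1 - s)‖ := by ring
    _ ≤ (1 + |t|) ^ 2 * (q : ℝ) ^ 2 * C0 := by gcongr
    _ = _ := by ring

/-- the auxiliary function -/
noncomputable def HH (q : ℕ) (χ : DirichletCharacter ℂ q) (s : ℂ) : ℂ :=
  FF q χ s * (q : ℂ) ^ (s - 3 / 2) * ((s + 3) ^ 2)⁻¹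

theorem sp3_ne {s : ℂ} (hs : -1 / 2 ≤ s.re) : s + 3 ≠ 0 := by
  intro h
  have := congrArg Complex.re h
  simp at this
  linarith

theorem HH_bound (q : ℕ) [NeZero q] (hq : Odd q) (χ : DirichletCharacter ℂ q)
    (hχ : χ.IsPrimitive) (s : ℂ) (h1 : -1 / 2 ≤ s.re) (h2 : s.re ≤ 3 / 2) :
    ‖HH q χ s‖ ≤ 2 * C0 := by
  have hq1 : (1 : ℝ) ≤ q := by exact_mod_cast Nat.pos_of_ne_zero (NeZero.ne q)
  have hq0 : (0 : ℝ) < q := by linarith
  have hqC : (q : ℂ) ≠ 0 := by exact_mod_cast hq0.ne'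
  have hC := C0_nonneg
  have hqn : ∀ z : ℂ, ‖(q : ℂ) ^ (z - 3 / 2)‖ = (q : ℝ) ^ (z.re - 3 / 2) := by
    intro z
    rw [Complex.norm_natCast_cpow_of_pos (Nat.pos_of_ne_zero (NeZero.ne q))]
    congr 1
    rw [Complex.sub_re]; norm_num
  have hs3 : ∀ z : ℂ, ‖((z + 3) ^ 2)⁻¹‖ = (‖z + 3‖ ^ 2)⁻¹ := by
    intro z; rw [norm_inv, norm_pow]
  refine PhragmenLindelof.vertical_strip (f := HH q χ) (a := -1 / 2) (b := 3 / 2) ?_ ?_ ?_ ?_ h1 h2
  · -- differentiability
    have hd : DifferentiableOn ℂ (HH q χ) {z : ℂ | -3 < z.re} := by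
      intro z hz
      have hz3 : (z + 3) ^ 2 ≠ 0 := by
        apply pow_ne_zero
        intro h
        have := congrArg Complex.re h
        simp at this
        have hz' : -3 < z.re := hz
        linarith
      apply DifferentiableAt.differentiableWithinAt
      unfold HH
      refine (((FF_entire q hq χ hχ) z).mul ?_).mul ?_
      · exact DifferentiableAt.const_cpow (by fun_prop) (Or.inl hqC)
      · exact DifferentiableAt.inv (by fun_prop) hz3
    apply DifferentiableOn.diffContOnCl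
    apply hd.mono
    refine (Complex.continuous_re.closure_preimage_subset _).trans ?_
    intro z hz
    have hz' : z.re ∈ closure (Ioo (-1 / 2 : ℝ) (3 / 2)) := hz
    rw [closure_Ioo (by norm_num)] at hz'
    have := hz'.1
    change -3 < z.re
    linarith
  · -- growth
    obtain ⟨M, hM0, hM⟩ := inv_Gamma_le
    obtain ⟨C, hC'⟩ := LL_bdd q hq χ hχ (-1 / 2) (3 / 2)
    set Q : ℝ := Real.sqrt 8 * q / Real.pi with hQ
    have hQpos : 0 < Q := div_pos (sc_pos q) Real.pi_pos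
    refine ⟨1, ?_, Real.pi, ?_⟩
    · rw [show ((3 : ℝ) / 2 - -1 / 2) = 2 by norm_num]
      linarith [Real.pi_gt_three]
    refine IsBigO.of_bound (M * (1 + Q ^ (-2 : ℝ)) * C) ?_
    rw [eventually_inf_principal]
    have hev : ∀ᶠ z : ℂ in comap (abs ∘ Complex.im) atTop, 1 ≤ |z.im| := by
      have := (eventually_ge_atTop (1 : ℝ)).comap (abs ∘ Complex.im)
      exact this
    filter_upwards [hev] with z hz1 hz2
    have hz2' : z.re ∈ Ioo (-1 / 2 : ℝ) (3 / 2) := hz2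
    have hre : (z + 1 / 2).re = z.re + 1 / 2 := by rw [Complex.add_re]; norm_num
    have him : (z + 1 / 2).im = z.im := by simp
    have e1 := hM (z + 1 / 2) (by rw [hre]; linarith [hz2'.1]) (by rw [hre]; linarith [hz2'.2])
      (by rw [him]; exact hz1)
    rw [him] at e1
    have e2 := hC' z hz2'.1.le hz2'.2.le
    have e3 : ‖(Q : ℂ) ^ (-(z + 1 / 2))‖ ≤ 1 + Q ^ (-2 : ℝ) := by
      rw [Complex.norm_cpow_eq_rpow_re_of_pos hQpos, Complex.neg_re, hre]
      rcases le_total 1 Q with h | h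
      · have := Real.rpow_le_one_of_one_le_of_nonpos h
          (show -(z.re + 1 / 2) ≤ 0 by linarith [hz2'.1])
        have h5 : 0 ≤ Q ^ (-2 : ℝ) := by positivity
        linarith
      · have := Real.rpow_le_rpow_of_exponent_ge hQpos h
          (show (-2 : ℝ) ≤ -(z.re + 1 / 2) by linarith [hz2'.2])
        linarith
    have e4 : (q : ℝ) ^ (z.re - 3 / 2) ≤ 1 :=
      Real.rpow_le_one_of_one_le_of_nonpos hq1 (by linarith [hz2'.2])
    have e5 : (‖z + 3‖ ^ 2)⁻¹ ≤ 1 := by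
      apply inv_le_one_of_one_le₀
      have : (z + 3).re = z.re + 3 := by rw [Complex.add_re]; norm_num
      have h5 := Complex.abs_re_le_norm (z + 3)
      rw [this, abs_of_pos (by linarith [hz2'.1])] at h5
      nlinarith [hz2'.1]
    have hC0' : 0 ≤ C := (norm_nonneg _).trans e2
    unfold HH
    rw [norm_mul, norm_mul, hqn, hs3, FF_eq, ← hQ, norm_mul, norm_mul, Real.norm_eq_abs,
      abs_of_pos (Real.exp_pos _)]
    have e6 : Real.exp (Real.pi * |z.im|) ≤ Real.exp (Real.pi * Real.exp (1 * |z.im|)) := by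
      apply Real.exp_le_exp.mpr
      apply mul_le_mul_of_nonneg_left _ Real.pi_pos.le
      rw [one_mul]
      linarith [Real.add_one_le_exp |z.im|]
    have hE := (Real.exp_pos (Real.pi * |z.im|)).le
    calc ‖(Complex.Gamma (z + 1 / 2))⁻¹‖ * ‖(Q : ℂ) ^ (-(z + 1 / 2))‖ * ‖LL q χ z‖ *
          (q : ℝ) ^ (z.re - 3 / 2) * (‖z + 3‖ ^ 2)⁻¹
        ≤ (M * Real.exp (Real.pi * |z.im|)) * (1 + Q ^ (-2 : ℝ)) * C * 1 * 1 := by
          gcongr
      _ = M * (1 + Q ^ (-2 : ℝ)) * C * Real.exp (Real.pi * |z.im|) := by ring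
      _ ≤ M * (1 + Q ^ (-2 : ℝ)) * C * Real.exp (Real.pi * Real.exp (1 * |z.im|)) := by
          apply mul_le_mul_of_nonneg_left e6
          positivity
  · intro z hz
    have e1 := FF_left_edge q hq χ hχ z hz
    unfold HH
    rw [norm_mul, norm_mul, hqn, hs3, hz]
    have e2 : (q : ℝ) ^ ((-1 : ℝ) / 2 - 3 / 2) = ((q : ℝ) ^ 2)⁻¹ := by
      rw [show ((-1 : ℝ) / 2 - 3 / 2) = -((2 : ℕ) : ℝ) by norm_num, Real.rpow_neg hq0.le,
        Real.rpow_natCast]
    rw [e2]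
    have e3 : (1 + |z.im|) ^ 2 ≤ 2 * ‖z + 3‖ ^ 2 := by
      rw [Complex.sq_norm, Complex.normSq_apply]
      have : (z + 3).re = 5 / 2 := by rw [Complex.add_re, hz]; norm_num
      have h' : (z + 3).im = z.im := by simp
      rw [this, h']
      have := sq_nonneg (1 - |z.im|)
      have h4 : |z.im| ^ 2 = z.im * z.im := by rw [sq_abs, sq]
      nlinarith
    have e4 : 0 < ‖z + 3‖ ^ 2 := by
      have : z + 3 ≠ 0 := sp3_ne (by rw [hz])
      positivity
    calc ‖FF q χ z‖ * ((q : ℝ) ^ 2)⁻¹ * (‖z + 3‖ ^ 2)⁻¹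
        ≤ (C0 * (q : ℝ) ^ 2 * (1 + |z.im|) ^ 2) * ((q : ℝ) ^ 2)⁻¹ * (‖z + 3‖ ^ 2)⁻¹ := by gcongr
      _ = C0 * ((1 + |z.im|) ^ 2 * (‖z + 3‖ ^ 2)⁻¹) := by field_simp
      _ ≤ C0 * 2 := by
          apply mul_le_mul_of_nonneg_left _ hC
          rw [← div_eq_mul_inv, div_le_iff₀ e4]
          exact e3
      _ = 2 * C0 := by ring
  · intro z hz
    have e1 := FF_le_C0 q χ z (by rw [hz])
    unfold HH
    rw [norm_mul, norm_mul, hqn, hs3, hz, sub_self, Real.rpow_zero, mul_one]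
    have e4 : 1 ≤ ‖z + 3‖ ^ 2 := by
      have : (z + 3).re = 9 / 2 := by rw [Complex.add_re, hz]; norm_num
      have h5 := Complex.abs_re_le_norm (z + 3)
      rw [this, abs_of_pos (by norm_num)] at h5
      nlinarith
    calc ‖FF q χ z‖ * (‖z + 3‖ ^ 2)⁻¹ ≤ C0 * 1 := by
          apply mul_le_mul e1 (inv_le_one_of_one_le₀ e4) (by positivity) hC
      _ ≤ 2 * C0 := by linarith

theorem FF_growth : ∃ A : ℝ, 1 ≤ A ∧ ∀ (q : ℕ) [NeZero q] (χ : DirichletCharacter ℂ q), Odd q →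
    χ.IsPrimitive → ∀ s : ℂ, (1 / 16 : ℝ) ≤ s.re → s.re ≤ 4 → 1 ≤ s.im →
      ‖FF q χ s‖ ≤ A * ((q : ℝ) * s.im) ^ A := by
  have hC := C0_nonneg
  refine ⟨2 + 100 * C0, by linarith, ?_⟩
  intro q _ χ hq hχ s h1 h2 h3
  have hq1 : (1 : ℝ) ≤ q := by exact_mod_cast Nat.pos_of_ne_zero (NeZero.ne q)
  have hq0 : (0 : ℝ) < q := by linarith
  have hqt : 1 ≤ (q : ℝ) * s.im := by nlinarith
  have hpow : ((q : ℝ) * s.im) ^ 2 ≤ ((q : ℝ) * s.im) ^ (2 + 100 * C0) := by
    rw [← Real.rpow_ofNat]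
    exact Real.rpow_le_rpow_of_exponent_le hqt (by linarith)
  have key : ‖FF q χ s‖ ≤ 100 * C0 * ((q : ℝ) * s.im) ^ 2 := by
    rcases le_total s.re (3 / 2) with h | h
    · have e1 := HH_bound q hq χ hχ s (by linarith) h
      unfold HH at e1
      rw [norm_mul, norm_mul, norm_inv, norm_pow,
        Complex.norm_natCast_cpow_of_pos (Nat.pos_of_ne_zero (NeZero.ne q))] at e1
      have hre : (s - 3 / 2).re = s.re - 3 / 2 := by rw [Complex.sub_re]; norm_num
      rw [hre] at e1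
      have e2 : 0 < ‖s + 3‖ ^ 2 := by
        have : s + 3 ≠ 0 := sp3_ne (by linarith)
        positivity
      have e3 : ‖s + 3‖ ^ 2 ≤ 50 * s.im ^ 2 := by
        rw [Complex.sq_norm, Complex.normSq_apply]
        have : (s + 3).re = s.re + 3 := by rw [Complex.add_re]; norm_num
        have h' : (s + 3).im = s.im := by simp
        rw [this, h']
        nlinarith
      have e4 : ((q : ℝ) ^ 2)⁻¹ ≤ (q : ℝ) ^ (s.re - 3 / 2) := by
        rw [← Real.rpow_natCast, ← Real.rpow_neg hq0.le]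
        apply Real.rpow_le_rpow_of_exponent_le hq1
        push_cast
        linarith
      have e5 : ‖FF q χ s‖ * ((q : ℝ) ^ 2)⁻¹ * (‖s + 3‖ ^ 2)⁻¹ ≤ 2 * C0 := by
        refine le_trans ?_ e1
        gcongr
      have e6 : ‖FF q χ s‖ ≤ 2 * C0 * (‖s + 3‖ ^ 2) * (q : ℝ) ^ 2 := by
        have hq2 : (0 : ℝ) < (q : ℝ) ^ 2 := by positivity
        have : ‖FF q χ s‖ = (‖FF q χ s‖ * ((q : ℝ) ^ 2)⁻¹ * (‖s + 3‖ ^ 2)⁻¹) *
            (‖s + 3‖ ^ 2) * (q : ℝ) ^ 2 := by
          have e2' := e2.ne'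
          generalize ‖s + 3‖ ^ 2 = N at e2' ⊢
          field_simp
        rw [this]
        gcongr
      calc ‖FF q χ s‖ ≤ 2 * C0 * (‖s + 3‖ ^ 2) * (q : ℝ) ^ 2 := e6
        _ ≤ 2 * C0 * (50 * s.im ^ 2) * (q : ℝ) ^ 2 := by gcongr
        _ = 100 * C0 * ((q : ℝ) * s.im) ^ 2 := by ring
    · have e1 := FF_le_C0 q χ s h
      have e2 : 1 ≤ ((q : ℝ) * s.im) ^ 2 := by nlinarith
      nlinarith
  calc ‖FF q χ s‖ ≤ 100 * C0 * ((q : ℝ) * s.im) ^ 2 := key
    _ ≤ (2 + 100 * C0) * ((q : ℝ) * s.im) ^ (2 + 100 * C0) := by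
      apply mul_le_mul (by linarith) hpow (by positivity) (by positivity)

end Pool.Agent.H304R2.EC
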