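import Pool.Agent.H304R2.EC.Defs
import Pool.Agent.H370R2.DirGood
import Pool.Agent.H304R2.EC.Pair

set_option autoImplicit false

/-!
TEAM Q2 (helper304, helper385): L3, logarithmic derivative of the functional equation.
-/

open Complex Filter Topology

namespace Pool.Agent.H304R2.EC

open H370.DL (refl hasDerivAt_refl analyticAt_refl im_osc eventually_im_ne ne_neg_nat_of_im
  logDeriv_refl digamma_ext order_refl)

/-- the factor of the asymmetric functional equation -/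
noncomputable def LX (w : ℂ) (κ : ℝ) (z : ℂ) : ℂ :=
  (κ : ℂ) ^ (1 - 2 * z) * w * Gamma (3 / 2 - z) / Gamma (z + 1 / 2)

theorem FF_funcL (q : ℕ) [NeZero q] (hq : Odd q) (χ : DirichletCharacter ℂ q)
    (hχ : χ.IsPrimitive) : ∃ w : ℂ, ‖w‖ = 1 ∧ ∀ z : ℂ, z.im ≠ 0 →
      FF q χ z = LX w (Real.sqrt 8 * q / Real.pi) z * refl (FF q χ) z := by
  obtain ⟨w, hw, h⟩ := LL_fe q hq χ hχ
  refine ⟨w, hw, fun z hz => ?_⟩
  have hq0 : (0 : ℝ) < q := by exact_mod_cast (NeZero.pos q)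
  have hκ : 0 < Real.sqrt 8 * q / Real.pi := by
    have := Real.pi_pos
    positivity
  set κ : ℝ := Real.sqrt 8 * q / Real.pi with hκd
  have hκc : (κ : ℂ) ≠ 0 := ofReal_ne_zero.mpr hκ.ne'
  have h1 : LL q χ z = w * LL q χ⁻¹ (1 - z) := by
    have := h (1 - z)
    rwa [sub_sub_cancel] at this
  have h2 : FF q χ⁻¹ (1 - z) = refl (FF q χ) z := by
    have := FF_conj q χ (1 - (starRingEnd ℂ) z)
    show _ = (starRingEnd ℂ) (FF q χ (1 - (starRingEnd ℂ) z))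
    rw [← this]
    congr 1
    simp
  have h3 := FF_eq q χ z
  have h4 := FF_eq q χ⁻¹ (1 - z)
  rw [← hκd] at h3 h4
  have hg1 : Gamma (3 / 2 - z) ≠ 0 := Gamma_ne_zero (ne_neg_nat_of_im (by simpa using hz))
  have e32 : (1 - z + 1 / 2 : ℂ) = 3 / 2 - z := by ring
  rw [e32] at h4
  have hp : (κ : ℂ) ^ (-(3 / 2 - z)) ≠ 0 := by
    rw [Ne, cpow_eq_zero_iff]
    exact fun h => hκc h.1
  have h5 : LL q χ⁻¹ (1 - z) = Gamma (3 / 2 - z) * ((κ : ℂ) ^ (-(3 / 2 - z)))⁻¹ *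
      refl (FF q χ) z := by
    rw [← h2, h4]
    generalize Gamma (3 / 2 - z) = G1 at *
    generalize (κ : ℂ) ^ (-(3 / 2 - z)) = P at *
    field_simp
  have h6 : (κ : ℂ) ^ (1 - 2 * z) = (κ : ℂ) ^ (-(z + 1 / 2)) * ((κ : ℂ) ^ (-(3 / 2 - z)))⁻¹ := by
    rw [← cpow_neg, ← cpow_add _ _ hκc]
    congr 1
    ring
  rw [h3, h1, h5, LX, h6]
  ring

theorem logDeriv_LX (w : ℂ) (hw : w ≠ 0) (κ : ℝ) (hκ : 0 < κ) {s : ℂ} (hs : s.im ≠ 0) :
    logDeriv (LX w κ) s = -(2 * Real.log κ : ℂ) - logDeriv Gamma (3 / 2 - s) -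
      logDeriv Gamma (s + 1 / 2) := by
  have him1 : (3 / 2 - s).im ≠ 0 := by simpa using hs
  have him2 : (s + 1 / 2).im ≠ 0 := by simpa using hs
  have hg1 := Gamma_ne_zero (ne_neg_nat_of_im him1)
  have hg2 := Gamma_ne_zero (ne_neg_nat_of_im him2)
  have hκc : (κ : ℂ) ≠ 0 := ofReal_ne_zero.mpr hκ.ne'
  have hqne : (κ : ℂ) ^ (1 - 2 * s) ≠ 0 := by
    rw [Ne, cpow_eq_zero_iff]
    exact fun h => hκc h.1
  have d1 : HasDerivAt (fun z : ℂ => (κ : ℂ) ^ (1 - 2 * z))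
      ((κ : ℂ) ^ (1 - 2 * s) * log (κ : ℂ) * (-(2 * 1))) s := by
    have h1 : HasDerivAt (fun z : ℂ => 1 - 2 * z) (-(2 * 1)) s :=
      ((hasDerivAt_id s).const_mul 2).const_sub 1
    exact h1.const_cpow (Or.inl hκc)
  have d2 : HasDerivAt (fun z : ℂ => Gamma (3 / 2 - z)) (deriv Gamma (3 / 2 - s) * (-1)) s := by
    have h1 : HasDerivAt (fun z : ℂ => 3 / 2 - z) (-1) s := (hasDerivAt_id s).const_sub _
    exact HasDerivAt.comp s (differentiableAt_Gamma _ (ne_neg_nat_of_im him1)).hasDerivAt h1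
  have d3 : HasDerivAt (fun z : ℂ => Gamma (z + 1 / 2)) (deriv Gamma (s + 1 / 2)) s := by
    have h1 : HasDerivAt (fun z : ℂ => z + 1 / 2) 1 s := (hasDerivAt_id s).add_const _
    simpa [Function.comp_def] using
      HasDerivAt.comp s (differentiableAt_Gamma _ (ne_neg_nat_of_im him2)).hasDerivAt h1
  have d4 := ((d1.mul_const w).mul d2).div d3 hg2
  have e : deriv (LX w κ) s = _ := d4.deriv
  rw [logDeriv_apply, e, logDeriv_apply, logDeriv_apply, LX]
  have hlog : log (κ : ℂ) = (Real.log κ : ℂ) := by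
    rw [Complex.ofReal_log hκ.le]
  simp only [Pi.mul_apply]
  rw [hlog]
  generalize (κ : ℂ) ^ (1 - 2 * s) = P at *
  generalize Gamma (3 / 2 - s) = G1 at *
  generalize Gamma (s + 1 / 2) = G2 at *
  field_simp
  ring

theorem LX_analytic (w : ℂ) (κ : ℝ) (hκ : 0 < κ) {s : ℂ} (hs : s.im ≠ 0) :
    AnalyticAt ℂ (LX w κ) s := by
  rw [analyticAt_iff_eventually_differentiableAt]
  filter_upwards [eventually_im_ne hs] with z hz
  have him1 : (3 / 2 - z).im ≠ 0 := by simpa using hz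
  have him2 : (z + 1 / 2).im ≠ 0 := by simpa using hz
  have hκc : (κ : ℂ) ≠ 0 := ofReal_ne_zero.mpr hκ.ne'
  have hg2 := Gamma_ne_zero (ne_neg_nat_of_im him2)
  have a1 : DifferentiableAt ℂ (fun z : ℂ => (κ : ℂ) ^ (1 - 2 * z)) z :=
    DifferentiableAt.const_cpow (by fun_prop) (Or.inl hκc)
  have a2 : DifferentiableAt ℂ (fun z : ℂ => Gamma (3 / 2 - z)) z :=
    DifferentiableAt.comp z (differentiableAt_Gamma _ (ne_neg_nat_of_im him1)) (by fun_prop)
  have a3 : DifferentiableAt ℂ (fun z : ℂ => Gamma (z + 1 / 2)) z :=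
    DifferentiableAt.comp z (differentiableAt_Gamma _ (ne_neg_nat_of_im him2)) (by fun_prop)
  exact ((a1.mul_const w).mul a2).div a3 hg2

theorem LX_ne_zero (w : ℂ) (hw : w ≠ 0) (κ : ℝ) (hκ : 0 < κ) {s : ℂ} (hs : s.im ≠ 0) :
    LX w κ s ≠ 0 := by
  have him1 : (3 / 2 - s).im ≠ 0 := by simpa using hs
  have him2 : (s + 1 / 2).im ≠ 0 := by simpa using hs
  have hg1 := Gamma_ne_zero (ne_neg_nat_of_im him1)
  have hg2 := Gamma_ne_zero (ne_neg_nat_of_im him2)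
  have hκc : (κ : ℂ) ≠ 0 := ofReal_ne_zero.mpr hκ.ne'
  have hqne : (κ : ℂ) ^ (1 - 2 * s) ≠ 0 := by
    rw [Ne, cpow_eq_zero_iff]
    exact fun h => hκc h.1
  unfold LX
  exact div_ne_zero (mul_ne_zero (mul_ne_zero hqne hw) hg1) hg2

theorem FF_left : ∃ A : ℝ, 1 ≤ A ∧ ∀ (q : ℕ) [NeZero q] (χ : DirichletCharacter ℂ q), Odd q →
    χ.IsPrimitive → ∀ s : ℂ, -1 / 2 ≤ s.re → s.re ≤ 1 / 2 → 1 ≤ s.im → FF q χ s ≠ 0 →
    ‖deriv (FF q χ) s / FF q χ s + ((2 * Real.log (q * s.im) : ℝ) : ℂ) +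
      (starRingEnd ℂ) (deriv (FF q χ) (1 - (starRingEnd ℂ) s) /
        FF q χ (1 - (starRingEnd ℂ) s))‖ ≤ A := by
  obtain ⟨C, hC0, hC⟩ := digamma_ext
  refine ⟨|2 * Real.log (Real.sqrt 8 / Real.pi)| + C + C + 1, by
    have := abs_nonneg (2 * Real.log (Real.sqrt 8 / Real.pi))
    linarith, ?_⟩
  intro q _ χ hq hχ s h1 h2 h3 h4
  have hs : s.im ≠ 0 := by linarith
  have hq0 : (0 : ℝ) < q := by exact_mod_cast (NeZero.pos q)
  have hpi := Real.pi_pos
  have hκ : 0 < Real.sqrt 8 * q / Real.pi := by positivity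
  obtain ⟨w, hw, hfe⟩ := FF_funcL q hq χ hχ
  have hw0 : w ≠ 0 := by
    intro h
    rw [h, norm_zero] at hw
    exact zero_ne_one hw
  set κ : ℝ := Real.sqrt 8 * q / Real.pi with hκd
  have hd : Differentiable ℂ (FF q χ) := FF_entire q hq χ hχ
  have ha : AnalyticAt ℂ (FF q χ) (1 - (starRingEnd ℂ) s) :=
    (hd.differentiableOn).analyticAt Filter.univ_mem
  have e1 : FF q χ =ᶠ[𝓝 s] fun z => LX w κ z * refl (FF q χ) z := by
    filter_upwards [eventually_im_ne hs] with z hz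
    exact hfe z hz
  have hr : refl (FF q χ) s ≠ 0 := by
    intro h
    apply h4
    rw [hfe s hs, h, mul_zero]
  have e2 : logDeriv (FF q χ) s = logDeriv (LX w κ) s + logDeriv (refl (FF q χ)) s := by
    rw [(logDeriv_congr_nhds e1).eq_of_nhds]
    exact logDeriv_mul s (LX_ne_zero w hw0 κ hκ hs) hr (LX_analytic w κ hκ hs).differentiableAt
      (analyticAt_refl ha).differentiableAt
  rw [logDeriv_refl ha.differentiableAt, logDeriv_LX w hw0 κ hκ hs] at e2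
  change ‖logDeriv (FF q χ) s + ((2 * Real.log (q * s.im) : ℝ) : ℂ) +
    (starRingEnd ℂ) (logDeriv (FF q χ) (1 - (starRingEnd ℂ) s))‖ ≤ _
  rw [e2]
  have b1 := hC (3 / 2 - s) (by simp; linarith) (by simp; linarith)
    (by simp [abs_of_nonneg (by linarith : 0 ≤ s.im)]; linarith)
  have b2 := hC (s + 1 / 2) (by simp; linarith) (by simp; linarith)
    (by simp [abs_of_nonneg (by linarith : 0 ≤ s.im)]; linarith)
  have i1 : |(3 / 2 - s).im| = s.im := by
    simp [abs_of_nonneg (by linarith : 0 ≤ s.im)]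
  have i2 : |(s + 1 / 2).im| = s.im := by
    simp [abs_of_nonneg (by linarith : 0 ≤ s.im)]
  rw [i1] at b1
  rw [i2] at b2
  have hlogκ : Real.log κ = Real.log (Real.sqrt 8 / Real.pi) + Real.log q := by
    rw [← Real.log_mul (by positivity) hq0.ne', hκd]
    congr 1
    ring
  have hlogq : Real.log (q * s.im) = Real.log q + Real.log s.im :=
    Real.log_mul hq0.ne' hs
  have e3 : -(2 * Real.log κ : ℂ) - logDeriv Gamma (3 / 2 - s) - logDeriv Gamma (s + 1 / 2) +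
      -(starRingEnd ℂ) (logDeriv (FF q χ) (1 - (starRingEnd ℂ) s)) +
        ((2 * Real.log (q * s.im) : ℝ) : ℂ) +
      (starRingEnd ℂ) (logDeriv (FF q χ) (1 - (starRingEnd ℂ) s)) =
      -((2 * Real.log (Real.sqrt 8 / Real.pi) : ℝ) : ℂ) -
        (logDeriv Gamma (3 / 2 - s) - Real.log s.im) -
      (logDeriv Gamma (s + 1 / 2) - Real.log s.im) := by
    rw [hlogq, hlogκ]
    push_cast
    ring
  rw [e3]
  refine (norm_sub_le _ _).trans ?_
  have n1 := norm_sub_le (-((2 * Real.log (Real.sqrt 8 / Real.pi) : ℝ) : ℂ))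
    (logDeriv Gamma (3 / 2 - s) - Real.log s.im)
  rw [norm_neg, Complex.norm_real, Real.norm_eq_abs] at n1
  linarith

end Pool.Agent.H304R2.EC
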