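import Pool.Agent.H304R2.EC.Defs

set_option autoImplicit false

/-! A3a: abstract Mertens lemma. -/

open Finset Filter Topology

namespace Pool.Agent.H304R2.EC

namespace MertAbs

/-- summation by parts -/
theorem abel (a w : ℕ → ℝ) (N : ℕ) : ∑ n ∈ Icc 1 N, a n * w n =
    ∑ n ∈ Icc 1 N, (∑ k ∈ Icc 1 n, a k) * (w n - w (n + 1)) + (∑ k ∈ Icc 1 N, a k) * w (N + 1) := by
  induction N with
  | zero => simp
  | succ N ih =>
    rw [Finset.sum_Icc_succ_top (by omega), Finset.sum_Icc_succ_top (by omega), ih,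
      Finset.sum_Icc_succ_top (by omega : 1 ≤ N + 1)]
    ring

theorem inv_sqrt_diff (n : ℕ) (hn : 1 ≤ n) :
    1 / Real.sqrt n - 1 / Real.sqrt (n + 1 : ℕ) ≤ 1 / (n * Real.sqrt n) := by
  have hn' : (1 : ℝ) ≤ n := by exact_mod_cast hn
  have h1 : 0 < Real.sqrt n := Real.sqrt_pos.2 (by linarith)
  have hs : Real.sqrt n * Real.sqrt n = n := Real.mul_self_sqrt (by linarith)
  set s := Real.sqrt n with hsdef
  have h2 : Real.sqrt (n + 1 : ℕ) ≤ s + 1 / s := by
    rw [Real.sqrt_le_left (by positivity)]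
    push_cast
    have : (s + 1 / s) ^ 2 = s * s + 2 + 1 / s ^ 2 := by
      field_simp
      ring
    rw [this, hs]
    have : 0 ≤ 1 / s ^ 2 := by positivity
    linarith
  have h3 : 0 < Real.sqrt (n + 1 : ℕ) := Real.sqrt_pos.2 (by positivity)
  have h4 : 1 / (s + 1 / s) ≤ 1 / Real.sqrt (n + 1 : ℕ) := one_div_le_one_div_of_le h3 h2
  have h5 : 1 / s - 1 / (s + 1 / s) = 1 / (s * (s * s + 1)) := by
    field_simp
    ring
  have h6 : 1 / (s * (s * s + 1)) ≤ 1 / (n * s) := by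
    apply one_div_le_one_div_of_le (by positivity)
    rw [hs]
    nlinarith
  linarith

/-- `n^{-3/2} ≤ 2 (1/√(n-1) - 1/√n)` shifted -/
theorem three_halves (n : ℕ) (hn : 1 ≤ n) :
    1 / ((n + 1 : ℕ) * Real.sqrt (n + 1 : ℕ)) ≤
      2 * (1 / Real.sqrt n - 1 / Real.sqrt (n + 1 : ℕ)) := by
  have hn' : (1 : ℝ) ≤ n := by exact_mod_cast hn
  have hs1 : 0 < Real.sqrt n := Real.sqrt_pos.2 (by linarith)
  have hs2 : 0 < Real.sqrt (n + 1 : ℕ) := Real.sqrt_pos.2 (by positivity)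
  have e1 : Real.sqrt n * Real.sqrt n = n := Real.mul_self_sqrt (by linarith)
  have e2 : Real.sqrt (n + 1 : ℕ) * Real.sqrt (n + 1 : ℕ) = ((n + 1 : ℕ) : ℝ) :=
    Real.mul_self_sqrt (by positivity)
  set s := Real.sqrt n
  set t := Real.sqrt (n + 1 : ℕ)
  have hst : s ≤ t := Real.sqrt_le_sqrt (by push_cast; linarith)
  have e3 : t * t - s * s = 1 := by rw [e1, e2]; push_cast; ring
  rw [← e2]
  have e4 : 2 * (1 / s - 1 / t) = 2 * (t * t - s * s) / (s * t * (s + t)) := by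
    have : s + t ≠ 0 := by positivity
    field_simp
    ring
  rw [e4, e3, mul_one, div_le_div_iff₀ (by positivity) (by positivity), one_mul]
  have h1 : s * t * (s + t) ≤ t * t * (t + t) := by gcongr
  nlinarith

theorem sum_three_halves (M N : ℕ) (hM : 1 ≤ M) (hMN : M ≤ N) :
    ∑ n ∈ Ioc M N, 1 / (n * Real.sqrt n) ≤ 2 * (1 / Real.sqrt M) := by
  have key : ∑ n ∈ Ioc M N, 1 / (n * Real.sqrt n) ≤
      2 * (1 / Real.sqrt M - 1 / Real.sqrt N) := by
    induction N, hMN using Nat.le_induction with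
    | base => simp
    | succ N hN ih =>
      rw [← Finset.insert_Ioc_right_eq_Ioc_add_one (by omega), Finset.sum_insert (by simp)]
      have := three_halves N (by omega)
      linarith
  have : 0 ≤ 1 / Real.sqrt N := by positivity
  linarith

theorem sum_inv_sqrt (N : ℕ) : ∑ n ∈ Icc 1 N, 1 / Real.sqrt n ≤ 2 * Real.sqrt N := by
  induction N with
  | zero => simp
  | succ N ih =>
    rw [Finset.sum_Icc_succ_top (by omega)]
    have h1 : 0 < Real.sqrt (N + 1 : ℕ) := Real.sqrt_pos.2 (by positivity)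
    have h0 : 0 ≤ Real.sqrt N := Real.sqrt_nonneg _
    have e1 : Real.sqrt N * Real.sqrt N = N := Real.mul_self_sqrt (by positivity)
    have e2 : Real.sqrt (N + 1 : ℕ) * Real.sqrt (N + 1 : ℕ) = ((N + 1 : ℕ) : ℝ) :=
      Real.mul_self_sqrt (by positivity)
    push_cast at *
    set s := Real.sqrt N
    set t := Real.sqrt (N + 1)
    have h2 : 2 * s + 1 / t ≤ 2 * t := by
      have h3 : 1 / t * t = 1 := by field_simp
      have h4 : (2 * s + 1 / t) * t ≤ 2 * t * t := by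
        rw [add_mul, h3]
        nlinarith [sq_nonneg (s - t)]
      exact le_of_mul_le_mul_right h4 h1
    linarith

theorem lambda_sum : ∃ C : ℝ, 0 ≤ C ∧ ∀ N : ℕ,
    ∑ d ∈ Icc 1 N, ArithmeticFunction.vonMangoldt d * (1 / Real.sqrt d) ≤ C * Real.sqrt N := by
  set c : ℝ := Real.log 4 + 4 with hc
  have hc0 : 0 ≤ c := by
    have : 0 ≤ Real.log 4 := Real.log_nonneg (by norm_num)
    rw [hc]; linarith
  have hpsi : ∀ n : ℕ, ∑ k ∈ Icc 1 n, ArithmeticFunction.vonMangoldt k ≤ c * n := by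
    intro n
    have h := Chebyshev.psi_le_const_mul_self (x := (n : ℝ)) (by positivity)
    unfold Chebyshev.psi at h
    rw [Nat.floor_natCast] at h
    exact h
  refine ⟨3 * c, by positivity, fun N => ?_⟩
  rw [abel]
  have h1 : ∑ n ∈ Icc 1 N, (∑ k ∈ Icc 1 n, ArithmeticFunction.vonMangoldt k) *
      (1 / Real.sqrt n - 1 / Real.sqrt (n + 1 : ℕ)) ≤ ∑ n ∈ Icc 1 N, c * (1 / Real.sqrt n) := by
    apply Finset.sum_le_sum
    intro n hn
    rw [Finset.mem_Icc] at hn
    have hn' : (1 : ℝ) ≤ n := by exact_mod_cast hn.1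
    have h2 := inv_sqrt_diff n hn.1
    have h3 : 0 ≤ 1 / Real.sqrt n - 1 / Real.sqrt (n + 1 : ℕ) := by
      rw [sub_nonneg]
      apply one_div_le_one_div_of_le (Real.sqrt_pos.2 (by linarith))
      apply Real.sqrt_le_sqrt
      push_cast
      linarith
    calc (∑ k ∈ Icc 1 n, ArithmeticFunction.vonMangoldt k) *
          (1 / Real.sqrt n - 1 / Real.sqrt (n + 1 : ℕ))
        ≤ (c * n) * (1 / (n * Real.sqrt n)) := by
          apply mul_le_mul (hpsi n) h2 h3 (by positivity)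
      _ = c * (1 / Real.sqrt n) := by
          have : Real.sqrt n ≠ 0 := (Real.sqrt_pos.2 (by linarith)).ne'
          field_simp
  have h2 : (∑ k ∈ Icc 1 N, ArithmeticFunction.vonMangoldt k) * (1 / Real.sqrt (N + 1 : ℕ)) ≤
      c * Real.sqrt N := by
    have h3 : 0 < Real.sqrt (N + 1 : ℕ) := Real.sqrt_pos.2 (by positivity)
    have h4 : Real.sqrt N ≤ Real.sqrt (N + 1 : ℕ) := Real.sqrt_le_sqrt (by push_cast; linarith)
    have e1 : Real.sqrt N * Real.sqrt N = N := Real.mul_self_sqrt (by positivity)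
    calc (∑ k ∈ Icc 1 N, ArithmeticFunction.vonMangoldt k) * (1 / Real.sqrt (N + 1 : ℕ))
        ≤ (c * N) * (1 / Real.sqrt (N + 1 : ℕ)) := by gcongr; exact hpsi N
      _ = (c * (Real.sqrt N * Real.sqrt N)) * (1 / Real.sqrt (N + 1 : ℕ)) := by rw [e1]
      _ = c * (Real.sqrt N * (Real.sqrt N / Real.sqrt (N + 1 : ℕ))) := by ring
      _ ≤ c * (Real.sqrt N * 1) := by
          gcongr
          rwa [div_le_one h3]
      _ = c * Real.sqrt N := by ring
  rw [← Finset.mul_sum] at h1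
  have h3 := mul_le_mul_of_nonneg_left (sum_inv_sqrt N) hc0
  linarith

/-- the Dirichlet convolution identity summed -/
theorem conv_sum (G B : ℕ → ℝ)
    (hconv : ∀ n : ℕ, n ≠ 0 → G n * Real.log n =
      ∑ d ∈ n.divisors, ArithmeticFunction.vonMangoldt d * B d * G (n / d)) (N : ℕ) :
    ∑ n ∈ Icc 1 N, G n * Real.log n / n = ∑ d ∈ Icc 1 N,
      (ArithmeticFunction.vonMangoldt d * B d / d) * ∑ m ∈ Icc 1 (N / d), G m / m := by
  set F : ArithmeticFunction ℝ := ⟨fun d => ArithmeticFunction.vonMangoldt d * B d / d, by simp⟩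
    with hF
  set K : ArithmeticFunction ℝ := ⟨fun m => G m / m, by simp⟩ with hK
  have h := ArithmeticFunction.sum_Ioc_mul_eq_sum_sum F K N
  have e1 : ∀ n ∈ Icc 1 N, G n * Real.log n / n = (F * K) n := by
    intro n hn
    rw [Finset.mem_Icc] at hn
    have hn0 : n ≠ 0 := by omega
    rw [hconv n hn0, ArithmeticFunction.mul_apply]
    rw [Nat.sum_divisorsAntidiagonal (f := fun a b => F a * K b)]
    rw [Finset.sum_div]
    apply Finset.sum_congr rfl
    intro d hd
    have hdn := Nat.dvd_of_mem_divisors hd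
    have hd0 : d ≠ 0 := (Nat.pos_of_mem_divisors hd).ne'
    obtain ⟨m, rfl⟩ := hdn
    have hm0 : m ≠ 0 := by rintro rfl; simp at hn0
    rw [Nat.mul_div_cancel_left m (Nat.pos_of_ne_zero hd0)]
    show _ = (ArithmeticFunction.vonMangoldt d * B d / d) * (G m / m)
    have : (d : ℝ) ≠ 0 := by exact_mod_cast hd0
    have : (m : ℝ) ≠ 0 := by exact_mod_cast hm0
    push_cast
    field_simp
  rw [Finset.sum_congr rfl e1]
  exact h

theorem log_le_four (n : ℕ) (hn : 1 ≤ n) : Real.log n ≤ 4 * (n : ℝ) ^ ((1 : ℝ) / 4) := by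
  have := Real.log_natCast_le_rpow_div n (ε := 1 / 4) (by norm_num)
  linarith

/-- difference of `log n / n` -/
theorem wdiff (n : ℕ) (hn : 1 ≤ n) :
    |Real.log n / n - Real.log (n + 1 : ℕ) / (n + 1 : ℕ)| ≤ (1 + Real.log n) / (n : ℝ) ^ 2 := by
  have hn' : (1 : ℝ) ≤ n := by exact_mod_cast hn
  have hlog : 0 ≤ Real.log n := Real.log_nonneg hn'
  have h1 : Real.log (n + 1 : ℕ) - Real.log n ≤ 1 / n := by
    rw [← Real.log_div (by positivity) (by positivity)]
    have := Real.log_le_sub_one_of_pos (x := ((n + 1 : ℕ) : ℝ) / n) (by positivity)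
    push_cast at *
    have e : ((n : ℝ) + 1) / n - 1 = 1 / n := by field_simp; ring
    linarith
  have h2 : 0 ≤ Real.log (n + 1 : ℕ) - Real.log n := by
    rw [sub_nonneg]
    apply Real.log_le_log (by linarith)
    push_cast
    linarith
  set L := Real.log n
  set L' := Real.log (n + 1 : ℕ)
  have e : L / n - L' / (n + 1 : ℕ) = (L - n * (L' - L)) / (n * (n + 1)) := by
    push_cast
    field_simp
    ring
  rw [e, abs_div, abs_of_pos (by positivity : (0 : ℝ) < n * (n + 1))]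
  have h3 : |L - n * (L' - L)| ≤ 1 + L := by
    have h4 : (n : ℝ) * (L' - L) ≤ 1 := by
      have := mul_le_mul_of_nonneg_left h1 (by linarith : (0 : ℝ) ≤ n)
      have e2 : (n : ℝ) * (1 / n) = 1 := by field_simp
      linarith
    have h5 : 0 ≤ (n : ℝ) * (L' - L) := by positivity
    rw [abs_le]
    constructor <;> linarith
  apply div_le_div₀ (by linarith) h3 (by positivity)
  nlinarith

theorem logsum_bound (G : ℕ → ℝ) (C : ℝ) (hC : 0 ≤ C)
    (hS : ∀ N : ℕ, |∑ n ∈ Icc 1 N, G n| ≤ C * Real.sqrt N) :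
    ∃ K : ℝ, ∀ N : ℕ, |∑ n ∈ Icc 1 N, G n * Real.log n / n| ≤ K := by
  have hsum : Summable (fun n : ℕ => 5 * C * (n : ℝ) ^ (-(5 : ℝ) / 4)) := by
    apply Summable.mul_left
    rw [Real.summable_nat_rpow]
    norm_num
  refine ⟨(∑' n : ℕ, 5 * C * (n : ℝ) ^ (-(5 : ℝ) / 4)) + 2 * C, fun N => ?_⟩
  have e : ∑ n ∈ Icc 1 N, G n * Real.log n / n =
      ∑ n ∈ Icc 1 N, G n * ((fun n : ℕ => Real.log n / n) n) := by
    apply Finset.sum_congr rfl
    intro n _
    ring
  rw [e, abel]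
  refine (abs_add_le _ _).trans (add_le_add ?_ ?_)
  · refine (Finset.abs_sum_le_sum_abs _ _).trans ?_
    have h1 : ∀ n ∈ Icc 1 N, |(∑ k ∈ Icc 1 n, G k) * (Real.log n / n -
        Real.log (n + 1 : ℕ) / (n + 1 : ℕ))| ≤ 5 * C * (n : ℝ) ^ (-(5 : ℝ) / 4) := by
      intro n hn
      rw [Finset.mem_Icc] at hn
      have hn' : (1 : ℝ) ≤ n := by exact_mod_cast hn.1
      have hn0 : (0 : ℝ) < n := by linarith
      rw [abs_mul]
      have h2 := hS n
      have h3 := wdiff n hn.1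
      have h4 : (1 + Real.log n) ≤ 5 * (n : ℝ) ^ ((1 : ℝ) / 4) := by
        have h5 := log_le_four n hn.1
        have h6 : (1 : ℝ) ≤ (n : ℝ) ^ ((1 : ℝ) / 4) := Real.one_le_rpow hn' (by norm_num)
        linarith
      have h7 : (1 + Real.log n) / (n : ℝ) ^ 2 ≤ 5 * (n : ℝ) ^ ((1 : ℝ) / 4) / (n : ℝ) ^ 2 := by
        gcongr
      calc |∑ k ∈ Icc 1 n, G k| * |Real.log n / n - Real.log (n + 1 : ℕ) / (n + 1 : ℕ)|
          ≤ (C * Real.sqrt n) * (5 * (n : ℝ) ^ ((1 : ℝ) / 4) / (n : ℝ) ^ 2) :=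
            mul_le_mul h2 (h3.trans h7) (abs_nonneg _) (by positivity)
        _ = 5 * C * ((n : ℝ) ^ ((1 : ℝ) / 2) * (n : ℝ) ^ ((1 : ℝ) / 4) * (n : ℝ) ^ (-(2 : ℝ))) := by
            rw [Real.sqrt_eq_rpow, Real.rpow_neg hn0.le, Real.rpow_two]
            ring
        _ = 5 * C * (n : ℝ) ^ (-(5 : ℝ) / 4) := by
            rw [← Real.rpow_add hn0, ← Real.rpow_add hn0]
            norm_num
    refine (Finset.sum_le_sum h1).trans ?_
    exact hsum.sum_le_tsum _ (fun n _ => by positivity)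
  · show |(∑ k ∈ Icc 1 N, G k) * (Real.log (N + 1 : ℕ) / (N + 1 : ℕ))| ≤ 2 * C
    rw [abs_mul]
    have hN : (0 : ℝ) < (N + 1 : ℕ) := by positivity
    have h1 : Real.log (N + 1 : ℕ) ≤ 2 * Real.sqrt (N + 1 : ℕ) := by
      have := Real.log_natCast_le_rpow_div (N + 1) (ε := 1 / 2) (by norm_num)
      rw [Real.sqrt_eq_rpow]
      linarith
    have h2 : 0 ≤ Real.log (N + 1 : ℕ) := Real.log_nonneg (by push_cast; linarith [(Nat.cast_nonneg N : (0:ℝ) ≤ N)])
    rw [abs_of_nonneg (by positivity : 0 ≤ Real.log (N + 1 : ℕ) / (N + 1 : ℕ))]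
    have h3 : Real.sqrt N ≤ Real.sqrt (N + 1 : ℕ) := Real.sqrt_le_sqrt (by push_cast; linarith)
    have e2 : Real.sqrt (N + 1 : ℕ) * Real.sqrt (N + 1 : ℕ) = ((N + 1 : ℕ) : ℝ) :=
      Real.mul_self_sqrt (by positivity)
    calc |∑ k ∈ Icc 1 N, G k| * (Real.log (N + 1 : ℕ) / (N + 1 : ℕ))
        ≤ (C * Real.sqrt (N + 1 : ℕ)) * (2 * Real.sqrt (N + 1 : ℕ) / (N + 1 : ℕ)) := by
          apply mul_le_mul ((hS N).trans (by gcongr)) (by gcongr) (by positivity) (by positivity)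
      _ = 2 * C * ((Real.sqrt (N + 1 : ℕ) * Real.sqrt (N + 1 : ℕ)) / (N + 1 : ℕ)) := by ring
      _ = 2 * C := by rw [e2, div_self hN.ne', mul_one]

theorem tail_bound (G : ℕ → ℝ) (C L : ℝ) (hC : 0 ≤ C)
    (hS : ∀ N : ℕ, |∑ n ∈ Icc 1 N, G n| ≤ C * Real.sqrt N)
    (hL : Tendsto (fun N : ℕ => ∑ n ∈ Icc 1 N, G n / n) atTop (𝓝 L)) (M : ℕ) (hM : 1 ≤ M) :
    |L - ∑ n ∈ Icc 1 M, G n / n| ≤ 4 * C / Real.sqrt M := by
  have hM' : (1 : ℝ) ≤ M := by exact_mod_cast hM
  have hsM : 0 < Real.sqrt M := Real.sqrt_pos.2 (by linarith)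
  have eT : ∀ N : ℕ, ∑ n ∈ Icc 1 N, G n / n =
      ∑ n ∈ Icc 1 N, (∑ k ∈ Icc 1 n, G k) * ((1 : ℝ) / n - 1 / (n + 1 : ℕ)) +
        (∑ k ∈ Icc 1 N, G k) * (1 / (N + 1 : ℕ)) := by
    intro N
    have := abel G (fun n => 1 / (n : ℝ)) N
    rw [← this]
    apply Finset.sum_congr rfl
    intro n _
    ring
  have hend : ∀ N : ℕ, M ≤ N → |(∑ k ∈ Icc 1 N, G k) * (1 / ((N + 1 : ℕ) : ℝ))| ≤
      C / Real.sqrt M := by
    intro N hN
    rw [abs_mul, abs_of_nonneg (by positivity : (0 : ℝ) ≤ 1 / (N + 1 : ℕ))]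
    have hN' : (1 : ℝ) ≤ N := by exact_mod_cast hM.trans hN
    have hsN : 0 < Real.sqrt N := Real.sqrt_pos.2 (by linarith)
    have e1 : Real.sqrt N * Real.sqrt N = N := Real.mul_self_sqrt (by positivity)
    calc |∑ k ∈ Icc 1 N, G k| * (1 / ((N + 1 : ℕ) : ℝ)) ≤ (C * Real.sqrt N) * (1 / N) := by
          apply mul_le_mul (hS N) _ (by positivity) (by positivity)
          apply one_div_le_one_div_of_le (by linarith)
          push_cast
          linarith
      _ = C / Real.sqrt N := by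
          nth_rewrite 2 [← e1]
          field_simp
      _ ≤ C / Real.sqrt M := by
          apply div_le_div_of_nonneg_left hC hsM
          exact Real.sqrt_le_sqrt (by exact_mod_cast hN)
  have hdiff : ∀ N : ℕ, M ≤ N → |(∑ n ∈ Icc 1 N, G n / n) - ∑ n ∈ Icc 1 M, G n / n| ≤
      4 * C / Real.sqrt M := by
    intro N hN
    rw [eT N, eT M]
    have hsplit : ∑ n ∈ Icc 1 N, (∑ k ∈ Icc 1 n, G k) * ((1 : ℝ) / n - 1 / (n + 1 : ℕ)) =
        ∑ n ∈ Icc 1 M, (∑ k ∈ Icc 1 n, G k) * ((1 : ℝ) / n - 1 / (n + 1 : ℕ)) +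
        ∑ n ∈ Ioc M N, (∑ k ∈ Icc 1 n, G k) * ((1 : ℝ) / n - 1 / (n + 1 : ℕ)) := by
      rw [← Finset.sum_union]
      · congr 1
        ext n
        simp only [Finset.mem_union, Finset.mem_Icc, Finset.mem_Ioc]
        omega
      · rw [Finset.disjoint_left]
        intro n h1 h2
        rw [Finset.mem_Icc] at h1
        rw [Finset.mem_Ioc] at h2
        omega
    have hmid : |∑ n ∈ Ioc M N, (∑ k ∈ Icc 1 n, G k) * ((1 : ℝ) / n - 1 / (n + 1 : ℕ))| ≤
        2 * C / Real.sqrt M := by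
      refine (Finset.abs_sum_le_sum_abs _ _).trans ?_
      have h1 : ∀ n ∈ Ioc M N, |(∑ k ∈ Icc 1 n, G k) * ((1 : ℝ) / n - 1 / (n + 1 : ℕ))| ≤
          C * (1 / (n * Real.sqrt n)) := by
        intro n hn
        rw [Finset.mem_Ioc] at hn
        have hn' : (1 : ℝ) ≤ n := by exact_mod_cast (by omega : 1 ≤ n)
        have hsn : 0 < Real.sqrt n := Real.sqrt_pos.2 (by linarith)
        have e1 : Real.sqrt n * Real.sqrt n = n := Real.mul_self_sqrt (by positivity)
        rw [abs_mul]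
        have e2 : (1 : ℝ) / n - 1 / (n + 1 : ℕ) = 1 / (n * (n + 1)) := by
          push_cast
          field_simp
          ring
        rw [e2, abs_of_nonneg (by positivity : (0 : ℝ) ≤ 1 / (n * (n + 1)))]
        calc |∑ k ∈ Icc 1 n, G k| * (1 / ((n : ℝ) * (n + 1)))
            ≤ (C * Real.sqrt n) * (1 / (n * n)) := by
              apply mul_le_mul (hS n) _ (by positivity) (by positivity)
              apply one_div_le_one_div_of_le (by positivity)
              nlinarith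
          _ = C * (1 / (n * Real.sqrt n)) := by
              nth_rewrite 3 [← e1]
              field_simp
      refine (Finset.sum_le_sum h1).trans ?_
      rw [← Finset.mul_sum]
      calc C * ∑ n ∈ Ioc M N, 1 / (n * Real.sqrt n) ≤ C * (2 * (1 / Real.sqrt M)) := by
            gcongr
            exact sum_three_halves M N hM hN
        _ = 2 * C / Real.sqrt M := by ring
    rw [hsplit]
    have h2 := abs_le.1 hmid
    have h3 := abs_le.1 (hend N hN)
    have h4 := abs_le.1 (hend M le_rfl)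
    have e5 : 4 * C / Real.sqrt M = 2 * C / Real.sqrt M + C / Real.sqrt M + C / Real.sqrt M := by
      ring
    rw [e5, abs_le]
    constructor <;> linarith
  have hlim : Tendsto (fun N : ℕ => |(∑ n ∈ Icc 1 N, G n / n) - ∑ n ∈ Icc 1 M, G n / n|) atTop
      (𝓝 |L - ∑ n ∈ Icc 1 M, G n / n|) := (hL.sub_const _).abs
  apply le_of_tendsto hlim
  filter_upwards [eventually_ge_atTop M] with N hN
  exact hdiff N hN

end MertAbs

open MertAbs

theorem mert_abs (G B : ℕ → ℝ) (C L : ℝ) (hB : ∀ n, |B n| ≤ 2)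
    (hconv : ∀ n : ℕ, n ≠ 0 → G n * Real.log n =
      ∑ d ∈ n.divisors, ArithmeticFunction.vonMangoldt d * B d * G (n / d))
    (hS : ∀ N : ℕ, |∑ n ∈ Icc 1 N, G n| ≤ C * Real.sqrt N)
    (hL : Tendsto (fun N : ℕ => ∑ n ∈ Icc 1 N, G n / n) atTop (𝓝 L)) (hL0 : L ≠ 0) :
    ∃ C' : ℝ, ∀ N : ℕ, |∑ d ∈ Icc 1 N, ArithmeticFunction.vonMangoldt d * B d / d| ≤ C' := by
  have hC : 0 ≤ C := by
    have := hS 1
    rw [Nat.cast_one, Real.sqrt_one, mul_one] at this
    exact (abs_nonneg _).trans this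
  obtain ⟨K, hK⟩ := logsum_bound G C hC hS
  obtain ⟨C4, hC4, hlam⟩ := lambda_sum
  refine ⟨(K + 16 * C * C4) / |L|, fun N => ?_⟩
  have hLpos : 0 < |L| := abs_pos.2 hL0
  rw [le_div_iff₀ hLpos]
  have hmain := conv_sum G B hconv N
  have e1 : (∑ d ∈ Icc 1 N, ArithmeticFunction.vonMangoldt d * B d / d) * L =
      (∑ n ∈ Icc 1 N, G n * Real.log n / n) + ∑ d ∈ Icc 1 N,
        (ArithmeticFunction.vonMangoldt d * B d / d) * (L - ∑ m ∈ Icc 1 (N / d), G m / m) := by
    rw [hmain, ← Finset.sum_add_distrib, Finset.sum_mul]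
    apply Finset.sum_congr rfl
    intro d _
    ring
  rw [← abs_mul, e1]
  refine (abs_add_le _ _).trans (add_le_add (hK N) ?_)
  refine (Finset.abs_sum_le_sum_abs _ _).trans ?_
  have h1 : ∀ d ∈ Icc 1 N, |(ArithmeticFunction.vonMangoldt d * B d / d) *
      (L - ∑ m ∈ Icc 1 (N / d), G m / m)| ≤
      (16 * C / Real.sqrt N) * (ArithmeticFunction.vonMangoldt d * (1 / Real.sqrt d)) := by
    intro d hd
    rw [Finset.mem_Icc] at hd
    have hd' : (1 : ℝ) ≤ d := by exact_mod_cast hd.1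
    have hN' : (1 : ℝ) ≤ N := by exact_mod_cast hd.1.trans hd.2
    have hsN : 0 < Real.sqrt N := Real.sqrt_pos.2 (by linarith)
    have hsd : 0 < Real.sqrt d := Real.sqrt_pos.2 (by linarith)
    have hq : 1 ≤ N / d := (Nat.one_le_div_iff (by omega)).2 hd.2
    have h2 := tail_bound G C L hC hS hL (N / d) hq
    have hq' : (1 : ℝ) ≤ (N / d : ℕ) := by exact_mod_cast hq
    -- sqrt (N/d) ≥ sqrt N / (2 sqrt d)
    have h3 : (N : ℝ) / d ≤ 2 * ((N / d : ℕ) : ℝ) := by
      have h4 : (N : ℝ) / d < (N / d : ℕ) + 1 := by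
        rw [div_lt_iff₀ (by linarith)]
        have h5 := Nat.lt_div_mul_add (a := N) (b := d) (by omega)
        have h6 : (N : ℝ) < ((N / d * d + d : ℕ) : ℝ) := by exact_mod_cast h5
        push_cast at h6
        linarith
      linarith
    have h4 : Real.sqrt N / (2 * Real.sqrt d) ≤ Real.sqrt (N / d : ℕ) := by
      rw [Real.le_sqrt' (by positivity), div_pow, mul_pow, Real.sq_sqrt (by positivity),
        Real.sq_sqrt (by positivity)]
      have h5 : (N : ℝ) / (2 ^ 2 * d) = (N : ℝ) / d / 4 := by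
        field_simp
        norm_num
      rw [h5]
      linarith
    have h5 : 4 * C / Real.sqrt (N / d : ℕ) ≤ 8 * C * (Real.sqrt d / Real.sqrt N) := by
      calc 4 * C / Real.sqrt (N / d : ℕ) ≤ 4 * C / (Real.sqrt N / (2 * Real.sqrt d)) := by
            apply div_le_div_of_nonneg_left (by positivity) (by positivity) h4
        _ = 8 * C * (Real.sqrt d / Real.sqrt N) := by
            field_simp
            ring
    have hvm : 0 ≤ ArithmeticFunction.vonMangoldt d := ArithmeticFunction.vonMangoldt_nonneg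
    have h6 : |ArithmeticFunction.vonMangoldt d * B d / d| ≤
        2 * ArithmeticFunction.vonMangoldt d / d := by
      rw [abs_div, abs_mul, abs_of_nonneg hvm, abs_of_nonneg (by linarith : (0 : ℝ) ≤ d)]
      have := mul_le_mul_of_nonneg_left (hB d) hvm
      apply div_le_div_of_nonneg_right _ (by linarith)
      linarith
    rw [abs_mul]
    calc |ArithmeticFunction.vonMangoldt d * B d / d| * |L - ∑ m ∈ Icc 1 (N / d), G m / m|
        ≤ (2 * ArithmeticFunction.vonMangoldt d / d) * (8 * C * (Real.sqrt d / Real.sqrt N)) :=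
          mul_le_mul h6 (h2.trans h5) (abs_nonneg _) (by positivity)
      _ = (16 * C / Real.sqrt N) * (ArithmeticFunction.vonMangoldt d * (Real.sqrt d / d)) := by
          ring
      _ = (16 * C / Real.sqrt N) * (ArithmeticFunction.vonMangoldt d * (1 / Real.sqrt d)) := by
          congr 2
          rw [div_eq_div_iff (by positivity) (by positivity), one_mul]
          exact Real.mul_self_sqrt (by positivity)
  refine (Finset.sum_le_sum h1).trans ?_
  rw [← Finset.mul_sum]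
  rcases Nat.eq_zero_or_pos N with hN | hN
  · subst hN
    simp
    positivity
  · have hN' : (1 : ℝ) ≤ N := by exact_mod_cast hN
    have hsN : 0 < Real.sqrt N := Real.sqrt_pos.2 (by linarith)
    calc (16 * C / Real.sqrt N) * ∑ d ∈ Icc 1 N, ArithmeticFunction.vonMangoldt d * (1 / Real.sqrt d)
        ≤ (16 * C / Real.sqrt N) * (C4 * Real.sqrt N) := by
          gcongr
          exact hlam N
      _ = 16 * C * C4 := by field_simp

end Pool.Agent.H304R2.EC
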