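import Pool.Agent.H304R2.EC.Coef
import Pool.Agent.H304R2.EC.Pair
import Pool.Agent.H304R2.EC.LogDer

set_option autoImplicit false

open Finset Filter Topology Complex
open ArithmeticFunction (vonMangoldt)
open ArithmeticFunction.vonMangoldt

namespace Pool.Agent.H304R2.EC

/-! ### `L5`: no zeros on `Re s = 1` -/

theorem PS_three (n : ℕ) (hn : n % 4 = 3) : PS n = ∅ := by
  unfold PS
  rw [Finset.filter_eq_empty_iff]
  rintro ⟨a, b⟩ _ ⟨h1, h2, h3⟩
  simp only at h1 h2 h3
  have hb : b ^ 2 % 4 = 0 := by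
    obtain ⟨c, hc⟩ : ∃ c, b = 2 * c := ⟨b / 2, by omega⟩
    rw [hc]; ring_nf; omega
  have ha : a ^ 2 % 4 = 0 ∨ a ^ 2 % 4 = 1 := by
    rcases Int.even_or_odd' a with ⟨c, hc | hc⟩
    · left; rw [hc]; ring_nf; omega
    · right; rw [hc]; ring_nf; omega
  have : ((n : ℤ)) % 4 = 3 := by omega
  omega

theorem tt_three (p : ℕ) (hp : p % 4 = 3) : ∀ k : ℕ, k % 2 = 1 → tt p k = 0 := by
  have h0 : an p = 0 := by
    unfold an; rw [PS_three p hp]; simp
  intro k
  induction k using Nat.strong_induction_on with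
  | _ k ih =>
    intro hk
    match k, hk with
    | 1, _ => rw [tt, h0]
    | (k + 2), hk =>
      rw [tt, h0, ih k (by omega) (by omega)]; ring

theorem cc_three (n : ℕ) (hn : n % 4 ≠ 1) : cc n = 0 := by
  unfold cc
  split_ifs with h
  · obtain ⟨h1, h2⟩ := h
    have hn1 : n ≠ 1 := h1.one_lt.ne'
    have hp : n.minFac.Prime := Nat.minFac_prime hn1
    obtain ⟨p, k, hp', hk, hpk⟩ := h1
    have hp'' : p.Prime := hp'.nat_prime
    have hmf : n.minFac = p := by
      rw [← hpk]; exact hp''.pow_minFac hk.ne'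
    have hfac : n.factorization n.minFac = k := by
      rw [hmf, ← hpk, Nat.Prime.factorization_pow hp'']; simp
    rw [hfac, hmf]
    have hodd : p % 2 = 1 := by
      rcases hp''.eq_two_or_odd with h | h
      · exact absurd (hmf.trans h) h2
      · exact h
    have hp3 : p % 4 = 3 := by
      by_contra hc
      have : p % 4 = 1 := by omega
      apply hn
      rw [← hpk, Nat.pow_mod, this]; simp
    have hk1 : k % 2 = 1 := by
      by_contra hc
      apply hn
      have : k = 2 * (k / 2) := by omega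
      rw [← hpk, this, pow_mul, Nat.pow_mod, Nat.pow_mod p, hp3]; simp
    rw [tt_three p hp3 k hk1]; simp
  · rfl

/-- the elementary inequality -/
theorem ineq_aux (c : ℝ) (hc : |c| ≤ 2) (y : ℂ) (hy : ‖y‖ = 1 ∨ y = 0) :
    0 ≤ (3 + 2 * (c : ℂ) * y + y ^ 2).re := by
  rcases hy with hy | hy
  · have h1 : y.re ^ 2 + y.im ^ 2 = 1 := by
      have := Complex.sq_norm y
      rw [Complex.normSq_apply, hy] at this
      nlinarith
    have h2 : (3 + 2 * (c : ℂ) * y + y ^ 2).re = 3 + 2 * c * y.re + (y.re ^ 2 - y.im ^ 2) := by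
      simp [pow_two]
    rw [h2]
    have h3 : |y.re| ≤ 1 := by
      rw [← sq_le_one_iff_abs_le_one]; nlinarith
    have h4 : |c * y.re| ≤ 2 * |y.re| := by
      rw [abs_mul]; exact mul_le_mul_of_nonneg_right hc (abs_nonneg _)
    have h5 := abs_le.1 h4
    have h6 : |y.re| ^ 2 = y.re ^ 2 := sq_abs _
    nlinarith [h5.1, h5.2, sq_nonneg (|y.re| - 1)]
  · rw [hy]; norm_num

/-- `(σ - 1) F'/F (σ + i t) → m`, the order of the zero -/
theorem tendsto_logDeriv (F : ℂ → ℂ) (hF : Differentiable ℂ F) (z0 : ℂ) (m : ℕ)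
    (hm : analyticOrderAt F z0 = m) :
    Tendsto (fun σ : ℝ => ((σ : ℂ)) * (deriv F (z0 + σ) / F (z0 + σ))) (𝓝[>] 0) (𝓝 (m : ℂ)) := by
  have han : AnalyticAt ℂ F z0 := hF.analyticAt z0
  obtain ⟨g, hg, hg0, hFg⟩ := (han.analyticOrderAt_eq_natCast).1 hm
  -- near z0, deriv F z = m (z-z0)^(m-1) g z + (z-z0)^m g' z
  have hev : ∀ᶠ z in 𝓝 z0, F z = (z - z0) ^ m • g z ∧ DifferentiableAt ℂ g z ∧ g z ≠ 0 ∧
      deriv F z = m * (z - z0) ^ (m - 1) * g z + (z - z0) ^ m * deriv g z := by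
    have h1 : ∀ᶠ z in 𝓝 z0, F =ᶠ[𝓝 z] fun z => (z - z0) ^ m • g z := hFg.eventually_nhds
    have h2 : ∀ᶠ z in 𝓝 z0, AnalyticAt ℂ g z := hg.eventually_analyticAt
    have h3 : ∀ᶠ z in 𝓝 z0, g z ≠ 0 := hg.continuousAt.eventually_ne hg0
    filter_upwards [h1, h2, h3] with z h1 h2 h3
    refine ⟨h1.self_of_nhds, h2.differentiableAt, h3, ?_⟩
    rw [h1.deriv_eq]
    have : HasDerivAt (fun z => (z - z0) ^ m • g z)
        (m * (z - z0) ^ (m - 1) * g z + (z - z0) ^ m * deriv g z) z := by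
      have ha : HasDerivAt (fun z : ℂ => (z - z0) ^ m) (m * (z - z0) ^ (m - 1)) z := by
        have := ((hasDerivAt_id z).sub_const z0).fun_pow m
        simpa using this
      have := ha.fun_mul h2.differentiableAt.hasDerivAt
      simpa [smul_eq_mul] using this
    exact this.deriv
  have hz : Tendsto (fun σ : ℝ => z0 + (σ : ℂ)) (𝓝[>] 0) (𝓝 z0) := by
    have : Tendsto (fun σ : ℝ => z0 + (σ : ℂ)) (𝓝 0) (𝓝 (z0 + ((0 : ℝ) : ℂ))) :=
      (continuous_const.add Complex.continuous_ofReal).tendsto 0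
    simp only [Complex.ofReal_zero, add_zero] at this
    exact this.mono_left nhdsWithin_le_nhds
  have hlim : Tendsto (fun σ : ℝ => (m : ℂ) + (σ : ℂ) * (deriv g (z0 + σ) / g (z0 + σ)))
      (𝓝[>] 0) (𝓝 ((m : ℂ) + ((0 : ℝ) : ℂ) * (deriv g z0 / g z0))) := by
    refine tendsto_const_nhds.add ?_
    refine Tendsto.mul ?_ ?_
    · exact (Complex.continuous_ofReal.tendsto 0).mono_left nhdsWithin_le_nhds
    · refine Tendsto.div ?_ ?_ hg0
      · exact (hg.deriv.continuousAt.tendsto).comp hz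
      · exact (hg.continuousAt.tendsto).comp hz
  simp only [Complex.ofReal_zero, zero_mul, add_zero] at hlim
  refine hlim.congr' ?_
  filter_upwards [hz.eventually hev, self_mem_nhdsWithin] with σ h hσ
  obtain ⟨e1, _, e3, e4⟩ := h
  have hσ0 : (σ : ℂ) ≠ 0 := by
    exact_mod_cast (ne_of_gt hσ)
  rw [e4, e1]
  simp only [add_sub_cancel_left, smul_eq_mul]
  rcases Nat.eq_zero_or_pos m with h0 | h0
  · subst h0; simp
  · have : (σ : ℂ) ^ m = σ * (σ : ℂ) ^ (m - 1) := by
      rw [← pow_succ']; congr 1; omega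
    rw [this]
    field_simp

theorem summable_vM (σ : ℝ) (hσ : 1 < σ) : Summable (fun n : ℕ => vonMangoldt n * (n : ℝ) ^ (-σ)) := by
  have := ArithmeticFunction.LSeriesSummable_vonMangoldt (s := (σ : ℂ)) (by simpa using hσ)
  have h2 := this.norm
  refine h2.congr ?_
  intro n
  rcases Nat.eq_zero_or_pos n with rfl | hn
  · simp
  · rw [LSeries.norm_term_eq]
    simp only [hn.ne', if_false]
    rw [Real.rpow_neg (by positivity), div_eq_mul_inv]
    congr 1
    rw [Complex.norm_real, Real.norm_of_nonneg ArithmeticFunction.vonMangoldt_nonneg]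

/-- the part coming from `n ≡ 1 mod 4` -/
theorem limS1 : Tendsto (fun σ : ℝ => (σ : ℂ) *
    LSeries (fun n => (residueClass (1 : ZMod 4) n : ℂ)) (1 + σ)) (𝓝[>] 0) (𝓝 (1 / 2)) := by
  have hc := continuousOn_LFunctionResidueClassAux (1 : ZMod 4)
  have h1 : Tendsto (fun σ : ℝ => LFunctionResidueClassAux (1 : ZMod 4) (1 + (σ : ℂ))) (𝓝[>] 0)
      (𝓝 (LFunctionResidueClassAux (1 : ZMod 4) 1)) := by
    have := hc 1 (by simp)
    refine this.tendsto.comp ?_
    rw [tendsto_nhdsWithin_iff]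
    constructor
    · have : Tendsto (fun σ : ℝ => (1 : ℂ) + (σ : ℂ)) (𝓝 0) (𝓝 ((1 : ℂ) + ((0 : ℝ) : ℂ))) :=
        (continuous_const.add Complex.continuous_ofReal).tendsto 0
      simp only [Complex.ofReal_zero, add_zero] at this
      exact this.mono_left nhdsWithin_le_nhds
    · filter_upwards [self_mem_nhdsWithin] with σ hσ
      have : (0 : ℝ) < σ := hσ
      simp only [Set.mem_ofPred_eq, Complex.add_re, Complex.one_re, Complex.ofReal_re]
      linarith
  have h0 : Tendsto (fun σ : ℝ => (σ : ℂ)) (𝓝[>] 0) (𝓝 (((0 : ℝ) : ℂ))) :=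
    (Complex.continuous_ofReal.tendsto 0).mono_left nhdsWithin_le_nhds
  have h2 : Tendsto (fun σ : ℝ => (σ : ℂ) * LFunctionResidueClassAux (1 : ZMod 4) (1 + (σ : ℂ)) + 1 / 2)
      (𝓝[>] 0) (𝓝 (((0 : ℝ) : ℂ) * LFunctionResidueClassAux (1 : ZMod 4) 1 + 1 / 2)) :=
    (h0.mul h1).add tendsto_const_nhds
  simp only [Complex.ofReal_zero, zero_mul, zero_add] at h2
  refine h2.congr' ?_
  filter_upwards [self_mem_nhdsWithin] with σ hσ
  have hσ0 : (0 : ℝ) < σ := hσ
  have hσ1 : (σ : ℂ) ≠ 0 := by exact_mod_cast hσ0.ne'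
  rw [eqOn_LFunctionResidueClassAux (a := (1 : ZMod 4)) isUnit_one
    (by simp only [Set.mem_ofPred_eq, Complex.add_re, Complex.one_re, Complex.ofReal_re]; linarith)]
  have : (Nat.totient 4) = 2 := by decide
  rw [this]
  simp only [add_sub_cancel_left]
  field_simp
  push_cast
  ring

/-- each residue class modulo `N` has no pole at `1 + i u`, `u ≠ 0` -/
theorem limRes (N : ℕ) [NeZero N] (a : ZMod N) (ha : IsUnit a) (u : ℝ) (hu : u ≠ 0) :
    Tendsto (fun σ : ℝ => (σ : ℂ) *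
      LSeries (fun n => (residueClass a n : ℂ)) (1 + u * I + σ)) (𝓝[>] 0) (𝓝 0) := by
  have hc := continuousOn_LFunctionResidueClassAux a
  have hz : Tendsto (fun σ : ℝ => (1 : ℂ) + u * I + (σ : ℂ)) (𝓝[>] 0) (𝓝 (1 + u * I)) := by
    have : Tendsto (fun σ : ℝ => (1 : ℂ) + u * I + (σ : ℂ)) (𝓝 0)
        (𝓝 ((1 : ℂ) + u * I + ((0 : ℝ) : ℂ))) :=
      (continuous_const.add Complex.continuous_ofReal).tendsto 0
    simp only [Complex.ofReal_zero, add_zero] at this
    exact this.mono_left nhdsWithin_le_nhds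
  have h1 : Tendsto (fun σ : ℝ => LFunctionResidueClassAux a (1 + u * I + (σ : ℂ))) (𝓝[>] 0)
      (𝓝 (LFunctionResidueClassAux a (1 + u * I))) := by
    have := hc (1 + u * I) (by simp)
    refine this.tendsto.comp ?_
    rw [tendsto_nhdsWithin_iff]
    refine ⟨hz, ?_⟩
    filter_upwards [self_mem_nhdsWithin] with σ hσ
    have : (0 : ℝ) < σ := hσ
    simp
    linarith
  have h0 : Tendsto (fun σ : ℝ => (σ : ℂ)) (𝓝[>] 0) (𝓝 (((0 : ℝ) : ℂ))) :=
    (Complex.continuous_ofReal.tendsto 0).mono_left nhdsWithin_le_nhds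
  have hne : (1 : ℂ) + u * I - 1 ≠ 0 := by
    intro h
    apply hu
    have := congrArg Complex.im h
    simpa using this
  have h3 : Tendsto (fun σ : ℝ => ((N.totient : ℂ)⁻¹ / ((1 : ℂ) + u * I + (σ : ℂ) - 1))) (𝓝[>] 0)
      (𝓝 ((N.totient : ℂ)⁻¹ / ((1 : ℂ) + u * I - 1))) :=
    Tendsto.div tendsto_const_nhds (hz.sub_const 1) hne
  have h2 := h0.mul (h1.add h3)
  simp only [Complex.ofReal_zero, zero_mul] at h2
  refine h2.congr' ?_
  filter_upwards [self_mem_nhdsWithin] with σ hσ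
  have hσ0 : (0 : ℝ) < σ := hσ
  rw [eqOn_LFunctionResidueClassAux ha (by simp; linarith)]
  ring

theorem summable_term (f : ℕ → ℂ) (C : ℝ) (hf : ∀ n, ‖f n‖ ≤ C * vonMangoldt n) (s : ℂ)
    (hs : 1 < s.re) : Summable (fun n : ℕ => f n * (n : ℂ) ^ (-s)) := by
  refine Summable.of_norm_bounded ((summable_vM s.re hs).mul_left C) ?_
  intro n
  rcases Nat.eq_zero_or_pos n with rfl | hn
  · have := hf 0
    simp only [ArithmeticFunction.map_zero, mul_zero, norm_le_zero_iff] at this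
    rw [this]; simp
  · rw [norm_mul, Complex.norm_natCast_cpow_of_pos hn, Complex.neg_re, ← mul_assoc]
    exact mul_le_mul_of_nonneg_right (hf n) (by positivity)

theorem LSeries_eq_tsum (f : ℕ → ℂ) (hf : f 0 = 0) (s : ℂ) :
    LSeries f s = ∑' n : ℕ, f n * (n : ℂ) ^ (-s) := by
  unfold LSeries
  refine tsum_congr fun n => ?_
  rcases Nat.eq_zero_or_pos n with rfl | hn
  · simp [hf]
  · rw [LSeries.term_of_ne_zero hn.ne', Complex.cpow_neg, div_eq_mul_inv]

/-- the residue classes modulo `4 q` above `1` mod `4` -/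
theorem limS3 (q : ℕ) [NeZero q] (χ : DirichletCharacter ℂ q) (u : ℝ) (hu : u ≠ 0) :
    Tendsto (fun σ : ℝ => (σ : ℂ) *
      ∑' n : ℕ, ((residueClass (1 : ZMod 4) n : ℂ) * χ (n : ZMod q) ^ 2) *
        (n : ℂ) ^ (-(1 + u * I + σ : ℂ))) (𝓝[>] 0) (𝓝 0) := by
  classical
  have : NeZero (4 * q) := ⟨mul_ne_zero (by norm_num) (NeZero.ne q)⟩
  let S : Finset (ZMod (4 * q)) := univ.filter (fun a => IsUnit a ∧ (a.val : ZMod 4) = 1)
  have hkey : ∀ n : ℕ, (residueClass (1 : ZMod 4) n : ℂ) * χ (n : ZMod q) ^ 2 =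
      ∑ a ∈ S, χ (a.val : ZMod q) ^ 2 * (residueClass a n : ℂ) := by
    intro n
    have hval4 : (((n : ZMod (4 * q)).val : ℕ) : ZMod 4) = (n : ZMod 4) := by
      rw [ZMod.val_natCast, ZMod.natCast_eq_natCast_iff]
      exact (Nat.mod_modEq n (4 * q)).of_mul_right q
    have hvalq : (((n : ZMod (4 * q)).val : ℕ) : ZMod q) = (n : ZMod q) := by
      rw [ZMod.val_natCast, ZMod.natCast_eq_natCast_iff]
      exact (Nat.mod_modEq n (4 * q)).of_mul_left 4
    by_cases hn : (n : ZMod 4) = 1 ∧ IsUnit (n : ZMod q)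
    · obtain ⟨h4, hq⟩ := hn
      have hun : IsUnit (n : ZMod (4 * q)) := by
        rw [ZMod.isUnit_iff_coprime] at hq ⊢
        refine Nat.Coprime.mul_right ?_ hq
        rw [← ZMod.isUnit_iff_coprime, h4]; exact isUnit_one
      have hmem : (n : ZMod (4 * q)) ∈ S := by
        simp only [S, mem_filter, mem_univ, true_and]
        exact ⟨hun, hval4.trans h4⟩
      rw [Finset.sum_eq_single (n : ZMod (4 * q))]
      · rw [hvalq, mul_comm]
        congr 2
        unfold residueClass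
        simp [Set.indicator_apply, h4]
      · intro b _ hb
        unfold residueClass
        simp [Set.indicator_apply, hb.symm]
      · intro h; exact absurd hmem h
    · have hl : (residueClass (1 : ZMod 4) n : ℂ) * χ (n : ZMod q) ^ 2 = 0 := by
        rw [not_and_or] at hn
        rcases hn with hn | hn
        · have : residueClass (1 : ZMod 4) n = 0 := by
            unfold residueClass
            simp [Set.indicator_apply, hn]
          rw [this]; simp
        · rw [χ.map_nonunit hn]; simp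
      rw [hl]
      symm
      refine Finset.sum_eq_zero fun a ha => ?_
      simp only [S, mem_filter, mem_univ, true_and] at ha
      by_cases hna : (n : ZMod (4 * q)) = a
      · exfalso
        apply hn
        subst hna
        refine ⟨hval4 ▸ ha.2, ?_⟩
        have := ha.1
        rw [ZMod.isUnit_iff_coprime] at this ⊢
        exact this.coprime_mul_left_right
      · have : residueClass a n = 0 := by
          unfold residueClass
          simp [Set.indicator_apply, hna]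
        rw [this]; simp
  have hlim : Tendsto (fun σ : ℝ => ∑ a ∈ S, χ (a.val : ZMod q) ^ 2 * ((σ : ℂ) *
      LSeries (fun n => (residueClass a n : ℂ)) (1 + u * I + σ))) (𝓝[>] 0)
      (𝓝 (∑ a ∈ S, χ (a.val : ZMod q) ^ 2 * 0)) := by
    refine tendsto_finsetSum _ fun a ha => ?_
    simp only [S, mem_filter, mem_univ, true_and] at ha
    exact (limRes (4 * q) a ha.1 u hu).const_mul _
  simp only [mul_zero, Finset.sum_const_zero] at hlim
  refine hlim.congr' ?_
  filter_upwards [self_mem_nhdsWithin] with σ hσ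
  have hσ0 : (0 : ℝ) < σ := hσ
  have e1 : ∀ n : ℕ, ((residueClass (1 : ZMod 4) n : ℂ) * χ (n : ZMod q) ^ 2) *
        (n : ℂ) ^ (-(1 + u * I + σ : ℂ)) =
      ∑ a ∈ S, χ (a.val : ZMod q) ^ 2 * ((residueClass a n : ℂ) * (n : ℂ) ^ (-(1 + u * I + σ : ℂ))) := by
    intro n
    rw [hkey n, Finset.sum_mul]
    exact Finset.sum_congr rfl fun a _ => by ring
  simp_rw [e1]
  rw [Summable.tsum_finsetSum]
  · rw [Finset.mul_sum]
    refine Finset.sum_congr rfl fun a _ => ?_
    rw [tsum_mul_left, LSeries_eq_tsum _ (by simp)]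
    ring
  · intro a _
    refine Summable.mul_left _ ?_
    refine summable_term _ 1 ?_ _ (by simp; linarith)
    intro n
    rw [Complex.norm_real, Real.norm_of_nonneg (residueClass_nonneg a n), one_mul]
    exact residueClass_le a n

theorem FF_line (q : ℕ) [NeZero q] (hq : Odd q) (χ : DirichletCharacter ℂ q) (hχ : χ.IsPrimitive)
    (t : ℝ) (ht : t ≠ 0) : FF q χ (⟨1, t⟩ : ℂ) ≠ 0 := by
  intro h0
  set z0 : ℂ := ⟨1, t⟩ with hz0
  have hz0' : z0 = 1 + t * I := by
    rw [hz0]; apply Complex.ext <;> simp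
  have hF : Differentiable ℂ (FF q χ) := FF_entire q hq χ hχ
  -- order of the zero
  have hord_top : analyticOrderAt (FF q χ) z0 ≠ ⊤ := by
    intro htop
    rw [analyticOrderAt_eq_top] at htop
    -- identically zero
    have han : AnalyticOnNhd ℂ (FF q χ) Set.univ := fun z _ => hF.analyticAt z
    have h1 := han.eq_of_eventuallyEq (g := fun _ => 0) (fun z _ => analyticAt_const) htop
    exact FF_ne_zero q χ 2 (by norm_num) (congrFun h1 2)
  obtain ⟨m, hm⟩ := ENat.ne_top_iff_exists.1 hord_top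
  have hm1 : 1 ≤ m := by
    by_contra hc
    have : m = 0 := by omega
    rw [this] at hm
    have h2 := (hF.analyticAt z0).analyticOrderAt_eq_zero.1 (by rw [← hm]; rfl)
    exact h2 h0
  have hL := tendsto_logDeriv (FF q χ) hF z0 m hm.symm
  have h1 := limS1
  have h3 := limS3 q χ (2 * t) (by simpa using ht)
  -- combine
  have hcomb := ((h1.const_mul 3).sub (hL.const_mul 2)).add h3
  have hre : Tendsto (fun σ : ℝ => ((3 * ((σ : ℂ) *
      LSeries (fun n => (residueClass (1 : ZMod 4) n : ℂ)) (1 + σ)) -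
      2 * (((σ : ℂ)) * (deriv (FF q χ) (z0 + σ) / FF q χ (z0 + σ)))) + ((σ : ℂ) *
      ∑' n : ℕ, ((residueClass (1 : ZMod 4) n : ℂ) * χ (n : ZMod q) ^ 2) *
        (n : ℂ) ^ (-(1 + (2 * t : ℝ) * I + σ : ℂ)))).re) (𝓝[>] 0)
      (𝓝 ((3 * (1 / 2) - 2 * (m : ℂ) + 0 : ℂ).re)) :=
    (Complex.continuous_re.tendsto _).comp hcomb
  have hpos : ∀ᶠ σ : ℝ in 𝓝[>] 0, 0 ≤ ((3 * ((σ : ℂ) *
      LSeries (fun n => (residueClass (1 : ZMod 4) n : ℂ)) (1 + σ)) -
      2 * (((σ : ℂ)) * (deriv (FF q χ) (z0 + σ) / FF q χ (z0 + σ)))) + ((σ : ℂ) *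
      ∑' n : ℕ, ((residueClass (1 : ZMod 4) n : ℂ) * χ (n : ZMod q) ^ 2) *
        (n : ℂ) ^ (-(1 + (2 * t : ℝ) * I + σ : ℂ)))).re := by
    filter_upwards [self_mem_nhdsWithin] with σ hσ
    have hσ0 : (0 : ℝ) < σ := hσ
    have hs1 : 1 < (z0 + σ).re := by
      rw [hz0']; simp; linarith
    rw [FF_ld q χ (z0 + σ) hs1, LSeries_eq_tsum _ (by simp)]
    have sum1 : Summable (fun n : ℕ => (residueClass (1 : ZMod 4) n : ℂ) * (n : ℂ) ^ (-(1 + σ : ℂ))) := by
      refine summable_term _ 1 ?_ _ (by simp; linarith)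
      intro n
      rw [Complex.norm_real, Real.norm_of_nonneg (residueClass_nonneg _ n), one_mul]
      exact residueClass_le _ n
    have sum2 : Summable (fun n : ℕ => (χ (n : ZMod q) * (cc n : ℂ) *
        (ArithmeticFunction.vonMangoldt n : ℂ)) * (n : ℂ) ^ (-(z0 + σ))) := by
      refine summable_term _ 2 ?_ _ hs1
      intro n
      rw [norm_mul, norm_mul, Complex.norm_real, Complex.norm_real,
        Real.norm_of_nonneg (ArithmeticFunction.vonMangoldt_nonneg)]
      refine mul_le_mul_of_nonneg_right ?_ ArithmeticFunction.vonMangoldt_nonneg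
      have h1 := χ.norm_le_one (n : ZMod q)
      have h2 : ‖cc n‖ ≤ 2 := cc_le n
      nlinarith [norm_nonneg (χ (n : ZMod q)), norm_nonneg (cc n)]
    have sum3 : Summable (fun n : ℕ => ((residueClass (1 : ZMod 4) n : ℂ) * χ (n : ZMod q) ^ 2) *
        (n : ℂ) ^ (-(1 + (2 * t : ℝ) * I + σ : ℂ))) := by
      refine summable_term _ 1 ?_ _ (by simp; linarith)
      intro n
      rw [norm_mul, Complex.norm_real, Real.norm_of_nonneg (residueClass_nonneg _ n), one_mul,
        norm_pow]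
      have h1 : ‖χ (n : ZMod q)‖ ^ 2 ≤ 1 := pow_le_one₀ (norm_nonneg _) (χ.norm_le_one _)
      calc residueClass (1 : ZMod 4) n * ‖χ (n : ZMod q)‖ ^ 2 ≤ residueClass (1 : ZMod 4) n * 1 :=
            mul_le_mul_of_nonneg_left h1 (residueClass_nonneg _ n)
        _ ≤ _ := by rw [mul_one]; exact residueClass_le _ n
    have htot : (3 * ((σ : ℂ) *
        ∑' n : ℕ, (residueClass (1 : ZMod 4) n : ℂ) * (n : ℂ) ^ (-(1 + σ : ℂ))) -
      2 * ((σ : ℂ) * -∑' n : ℕ, (χ (n : ZMod q) * (cc n : ℂ) *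
        (ArithmeticFunction.vonMangoldt n : ℂ)) * (n : ℂ) ^ (-(z0 + σ)))) + ((σ : ℂ) *
      ∑' n : ℕ, ((residueClass (1 : ZMod 4) n : ℂ) * χ (n : ZMod q) ^ 2) *
        (n : ℂ) ^ (-(1 + (2 * t : ℝ) * I + σ : ℂ))) =
      (σ : ℂ) * ∑' n : ℕ, (3 * ((residueClass (1 : ZMod 4) n : ℂ) * (n : ℂ) ^ (-(1 + σ : ℂ))) +
        2 * ((χ (n : ZMod q) * (cc n : ℂ) *
        (ArithmeticFunction.vonMangoldt n : ℂ)) * (n : ℂ) ^ (-(z0 + σ))) +
        ((residueClass (1 : ZMod 4) n : ℂ) * χ (n : ZMod q) ^ 2) *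
        (n : ℂ) ^ (-(1 + (2 * t : ℝ) * I + σ : ℂ))) := by
      rw [Summable.tsum_add ((sum1.mul_left 3).add (sum2.mul_left 2)) sum3,
        Summable.tsum_add (sum1.mul_left 3) (sum2.mul_left 2), tsum_mul_left, tsum_mul_left]
      ring
    rw [htot, Complex.re_ofReal_mul]
    refine mul_nonneg hσ0.le ?_
    rw [Complex.re_tsum (((sum1.mul_left 3).add (sum2.mul_left 2)).add sum3)]
    refine tsum_nonneg fun n => ?_
    rcases Nat.eq_zero_or_pos n with rfl | hn
    · simp
    have hn0 : (n : ℂ) ≠ 0 := by exact_mod_cast hn.ne'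
    by_cases h4 : (n : ZMod 4) = 1
    · have hg : residueClass (1 : ZMod 4) n = vonMangoldt n := by
        unfold residueClass
        simp [Set.indicator_apply, h4]
      set y : ℂ := χ (n : ZMod q) * (n : ℂ) ^ (-(t * I)) with hy
      have e0 : (n : ℂ) ^ (-(1 + σ : ℂ)) = (((n : ℝ) ^ (-(1 + σ)) : ℝ) : ℂ) := by
        rw [Complex.ofReal_cpow (by positivity)]; push_cast; rfl
      have e2 : (n : ℂ) ^ (-(z0 + σ)) = (((n : ℝ) ^ (-(1 + σ)) : ℝ) : ℂ) * (n : ℂ) ^ (-(t * I)) := by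
        rw [← e0, ← Complex.cpow_add _ _ hn0, hz0']; congr 1; ring
      have e3 : (n : ℂ) ^ (-(1 + (2 * t : ℝ) * I + σ : ℂ)) =
          (((n : ℝ) ^ (-(1 + σ)) : ℝ) : ℂ) * ((n : ℂ) ^ (-(t * I))) ^ 2 := by
        rw [← e0, pow_two, ← Complex.cpow_add _ _ hn0, ← Complex.cpow_add _ _ hn0]
        congr 1; push_cast; ring
      have e4 : 3 * ((residueClass (1 : ZMod 4) n : ℂ) * (n : ℂ) ^ (-(1 + σ : ℂ))) +
        2 * ((χ (n : ZMod q) * (cc n : ℂ) *
        (ArithmeticFunction.vonMangoldt n : ℂ)) * (n : ℂ) ^ (-(z0 + σ))) +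
        ((residueClass (1 : ZMod 4) n : ℂ) * χ (n : ZMod q) ^ 2) *
        (n : ℂ) ^ (-(1 + (2 * t : ℝ) * I + σ : ℂ)) =
        ((vonMangoldt n * (n : ℝ) ^ (-(1 + σ)) : ℝ) : ℂ) * (3 + 2 * (cc n : ℂ) * y + y ^ 2) := by
        rw [hg, e0, e2, e3, hy]; push_cast; ring
      rw [e4, Complex.re_ofReal_mul]
      refine mul_nonneg (mul_nonneg ArithmeticFunction.vonMangoldt_nonneg (by positivity)) ?_
      refine ineq_aux _ (cc_le n) y ?_
      by_cases hun : IsUnit (n : ZMod q)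
      · left
        rw [hy, norm_mul, Complex.norm_natCast_cpow_of_pos hn]
        have : ‖χ (n : ZMod q)‖ = 1 := χ.unit_norm_eq_one hun.unit
        rw [this]; simp
      · right
        rw [hy, χ.map_nonunit hun]; simp
    · have hg : residueClass (1 : ZMod 4) n = 0 := by
        unfold residueClass
        simp [Set.indicator_apply, h4]
      have hc : cc n = 0 := by
        apply cc_three
        intro hh
        apply h4
        have : ((n : ℕ) : ZMod 4) = ((1 : ℕ) : ZMod 4) := by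
          rw [ZMod.natCast_eq_natCast_iff]; exact hh
        simpa using this
      rw [hg, hc]; simp
  have hfin := ge_of_tendsto hre hpos
  have : (3 * (1 / 2) - 2 * (m : ℂ) + 0 : ℂ).re = 3 / 2 - 2 * (m : ℝ) := by
    simp; norm_num
  rw [this] at hfin
  have : (1 : ℝ) ≤ m := by exact_mod_cast hm1
  linarith

end Pool.Agent.H304R2.EC
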