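import Pool.Agent.H304R2.EC.Defs
import Pool.Agent.H304R2.EC.Coef
import Pool.Agent.H304R2.EC.MertAbs
import Pool.Agent.H304R2.EC.GnSum
import Pool.Agent.H304R2.EC.GnPos
import Pool.Agent.H385R2.Mert

set_option autoImplicit false

/-! TEAM Q2, task A3d: the Rankin-Selberg sum (helper356). -/

open Finset Filter Topology

namespace Pool.Agent.H304R2.EC


/-- `χ₄` as a real function -/
noncomputable def psr (n : ℕ) : ℝ := ((ZMod.χ₄ (n : ZMod 4) : ℤ) : ℝ)

lemma psr_odd (m : ℕ) : psr (2 * m + 1) = (-1) ^ m := by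
  unfold psr
  rw [ZMod.χ₄_eq_neg_one_pow (by omega), show (2 * m + 1) / 2 = m by omega]
  push_cast
  rfl

lemma psr_even (m : ℕ) : psr (2 * m) = 0 := by
  unfold psr
  rw [ZMod.χ₄_nat_eq_if_mod_four, if_pos (by omega)]
  simp

lemma psr_mul (m n : ℕ) : psr (m * n) = psr m * psr n := by
  unfold psr
  rw [Nat.cast_mul, map_mul]
  push_cast
  ring

lemma psr_abs (n : ℕ) : |psr n| ≤ 1 := by
  rcases Nat.even_or_odd' n with ⟨m, rfl | rfl⟩
  · rw [psr_even]; simp
  · rw [psr_odd]; simp

lemma psr_sum (N : ℕ) : ∑ n ∈ Icc 1 N, psr n = if N % 4 = 1 ∨ N % 4 = 2 then 1 else 0 := by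
  induction N with
  | zero => simp
  | succ N ih =>
    rw [Finset.sum_Icc_succ_top (by omega), ih]
    unfold psr
    rw [ZMod.χ₄_nat_eq_if_mod_four]
    have h4 : N % 4 = 0 ∨ N % 4 = 1 ∨ N % 4 = 2 ∨ N % 4 = 3 := by omega
    rcases h4 with h | h | h | h
    · have h1 : (N + 1) % 4 = 1 := by omega
      have h2 : (N + 1) % 2 = 1 := by omega
      simp [h, h1, h2]
    · have h1 : (N + 1) % 4 = 2 := by omega
      have h2 : (N + 1) % 2 = 0 := by omega
      simp [h, h1, h2]
    · have h1 : (N + 1) % 4 = 3 := by omega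
      have h2 : (N + 1) % 2 = 1 := by omega
      simp [h, h1, h2]
    · have h1 : (N + 1) % 4 = 0 := by omega
      have h2 : (N + 1) % 2 = 0 := by omega
      simp [h, h1, h2]

lemma psr_div_sum (N : ℕ) : ∑ n ∈ Icc 1 N, psr n / n =
    ∑ i ∈ range ((N + 1) / 2), (-1 : ℝ) ^ i / (2 * i + 1) := by
  induction N with
  | zero => simp
  | succ N ih =>
    rw [Finset.sum_Icc_succ_top (by omega), ih]
    rcases Nat.even_or_odd' N with ⟨m, rfl | rfl⟩
    · rw [show (2 * m + 1 + 1) / 2 = m + 1 by omega, show (2 * m + 1) / 2 = m by omega,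
        Finset.sum_range_succ, psr_odd]
      push_cast
      rfl
    · rw [show (2 * m + 1 + 1 + 1) / 2 = m + 1 by omega, show (2 * m + 1 + 1) / 2 = m + 1 by omega,
        show 2 * m + 1 + 1 = 2 * (m + 1) by ring, psr_even]
      simp

lemma psr_tendsto : Tendsto (fun N : ℕ => ∑ n ∈ Icc 1 N, psr n / n) atTop (𝓝 (Real.pi / 4)) := by
  simp only [psr_div_sum]
  have h := Real.tendsto_sum_pi_div_four
  have h2 : Tendsto (fun N : ℕ => (N + 1) / 2) atTop atTop := by
    refine tendsto_atTop.mpr fun b => ?_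
    filter_upwards [eventually_ge_atTop (2 * b)] with N hN
    omega
  exact h.comp h2

/-- Mertens for `χ₄` -/
lemma mert_psr : ∃ C' : ℝ, ∀ N : ℕ,
    |∑ d ∈ Icc 1 N, ArithmeticFunction.vonMangoldt d * psr d / d| ≤ C' := by
  apply mert_abs psr psr 1 (Real.pi / 4)
  · intro n
    exact (psr_abs n).trans (by norm_num)
  · intro n hn
    have h1 : ∀ d ∈ n.divisors, ArithmeticFunction.vonMangoldt d * psr d * psr (n / d) =
        ArithmeticFunction.vonMangoldt d * psr n := by
      intro d hd
      rw [mul_assoc, ← psr_mul, Nat.mul_div_cancel' (Nat.dvd_of_mem_divisors hd)]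
    rw [Finset.sum_congr rfl h1, ← Finset.sum_mul, ArithmeticFunction.vonMangoldt_sum]
    ring
  · intro N
    rw [psr_sum, one_mul]
    rcases Nat.eq_zero_or_pos N with rfl | hN
    · simp
    · have h1 : (1 : ℝ) ≤ Real.sqrt N := by
        rw [Real.one_le_sqrt]
        exact_mod_cast hN
      split_ifs
      · simpa using h1
      · simp
  · exact psr_tendsto
  · positivity

/-- non-prime prime powers -/
noncomputable def npr (n : ℕ) : ℝ := (if n.Prime then 0 else ArithmeticFunction.vonMangoldt n) / n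

lemma npr_nonneg (n : ℕ) : 0 ≤ npr n := by
  unfold npr
  apply div_nonneg _ (Nat.cast_nonneg n)
  split_ifs
  · exact le_rfl
  · exact ArithmeticFunction.vonMangoldt_nonneg

lemma npr_summable : Summable npr := by
  have h := ArithmeticFunction.vonMangoldt.summable_residueClass_non_primes_div (q := 1) 0
  refine h.congr fun n => ?_
  unfold npr
  congr 2
  rw [ArithmeticFunction.vonMangoldt.residueClass, Set.indicator_of_mem]
  exact Subsingleton.elim _ _

lemma cc_sq_le (n : ℕ) : (cc n) ^ 2 ≤ 4 := by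
  have h := cc_le n
  have := sq_abs (cc n)
  nlinarith [abs_nonneg (cc n)]

/-- first form: `∑ Λ(n) c(n)²/n = log N + O(1)` -/
lemma rs_one : ∃ C : ℝ, 0 ≤ C ∧ ∀ N : ℕ, 1 ≤ N →
    |∑ n ∈ Icc 1 N, ArithmeticFunction.vonMangoldt n * (cc n) ^ 2 / n - Real.log N| ≤ C := by
  obtain ⟨C1, h1⟩ := mert_psr
  obtain ⟨c₂, hc2, hc2p, hconv⟩ := gn_log
  obtain ⟨Cs, hs⟩ := gn_sum
  obtain ⟨L, hL0, hL⟩ := gn_lim
  obtain ⟨C2, h2⟩ := mert_abs (fun n => (gn n : ℝ) / n) c₂ Cs L hc2 hconv hs hL hL0
  set S : ℝ := ∑' n, npr n with hS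
  have hS0 : 0 ≤ S := tsum_nonneg npr_nonneg
  have hC10 : 0 ≤ C1 := (abs_nonneg _).trans (h1 0)
  have hC20 : 0 ≤ C2 := (abs_nonneg _).trans (h2 0)
  refine ⟨C1 + C2 + 8 * (S + 1) + 6, by positivity, ?_⟩
  intro N hN
  have hdiff : |∑ n ∈ Icc 1 N, (ArithmeticFunction.vonMangoldt n * (cc n) ^ 2 / n -
      (ArithmeticFunction.vonMangoldt n / n + ArithmeticFunction.vonMangoldt n * psr n / n +
        ArithmeticFunction.vonMangoldt n * c₂ n / n))| ≤ 8 * (S + 1) := by
    have hb : ∀ n ∈ Icc 1 N, |ArithmeticFunction.vonMangoldt n * (cc n) ^ 2 / n -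
      (ArithmeticFunction.vonMangoldt n / n + ArithmeticFunction.vonMangoldt n * psr n / n +
        ArithmeticFunction.vonMangoldt n * c₂ n / n)| ≤
        8 * (npr n + if n = 2 then 1 else 0) := by
      intro n hn
      have hn1 : 1 ≤ n := (Finset.mem_Icc.mp hn).1
      have hn0 : (0 : ℝ) < n := by exact_mod_cast hn1
      have hrew : ArithmeticFunction.vonMangoldt n * (cc n) ^ 2 / n -
          (ArithmeticFunction.vonMangoldt n / n + ArithmeticFunction.vonMangoldt n * psr n / n +
          ArithmeticFunction.vonMangoldt n * c₂ n / n) =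
          ArithmeticFunction.vonMangoldt n / n * ((cc n) ^ 2 - 1 - psr n - c₂ n) := by ring
      rw [hrew]
      have hΛ : 0 ≤ ArithmeticFunction.vonMangoldt n := ArithmeticFunction.vonMangoldt_nonneg
      have hgen : |ArithmeticFunction.vonMangoldt n / n * ((cc n) ^ 2 - 1 - psr n - c₂ n)| ≤
          8 * (ArithmeticFunction.vonMangoldt n / n) := by
        rw [abs_mul, abs_of_nonneg (div_nonneg hΛ hn0.le), mul_comm]
        apply mul_le_mul_of_nonneg_right _ (div_nonneg hΛ hn0.le)
        have e1 := cc_sq_le n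
        have e2 := abs_le.mp (psr_abs n)
        have e3 := abs_le.mp (hc2 n)
        have e4 := sq_nonneg (cc n)
        rw [abs_le]
        constructor <;> linarith [e2.1, e2.2, e3.1, e3.2]
      by_cases hp : n.Prime
      · by_cases h2n : n = 2
        · subst h2n
          refine hgen.trans ?_
          have h3 : ArithmeticFunction.vonMangoldt 2 / (2 : ℕ) ≤ 1 := by
            rw [ArithmeticFunction.vonMangoldt_apply_prime Nat.prime_two]
            have := Real.log_two_lt_d9
            push_cast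
            linarith
          rw [if_pos rfl]
          have := npr_nonneg 2
          linarith
        · have h4 : (cc n) ^ 2 - 1 - psr n - c₂ n = 0 := by
            rw [cc_prime n hp h2n, hc2p n hp h2n, div_pow, Real.sq_sqrt hn0.le]
            have h5 := an_sq n hp h2n
            have h6 : ((an n : ℤ) : ℝ) ^ 2 = (1 + psr n) * n + gn n := by
              unfold psr
              exact_mod_cast h5
            rw [h6]
            field_simp
            ring
          rw [h4, mul_zero, abs_zero]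
          have := npr_nonneg n
          split_ifs <;> linarith
      · refine hgen.trans ?_
        have h3 : npr n = ArithmeticFunction.vonMangoldt n / n := by
          unfold npr; rw [if_neg hp]
        rw [h3]
        have : (0 : ℝ) ≤ if n = 2 then 1 else 0 := by split_ifs <;> norm_num
        linarith
    calc _ ≤ ∑ n ∈ Icc 1 N, |ArithmeticFunction.vonMangoldt n * (cc n) ^ 2 / n -
      (ArithmeticFunction.vonMangoldt n / n + ArithmeticFunction.vonMangoldt n * psr n / n +
        ArithmeticFunction.vonMangoldt n * c₂ n / n)| := Finset.abs_sum_le_sum_abs _ _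
      _ ≤ ∑ n ∈ Icc 1 N, 8 * (npr n + if n = 2 then 1 else 0) := Finset.sum_le_sum hb
      _ = 8 * (∑ n ∈ Icc 1 N, npr n + ∑ n ∈ Icc 1 N, if n = 2 then (1 : ℝ) else 0) := by
          rw [← Finset.mul_sum, Finset.sum_add_distrib]
      _ ≤ 8 * (S + 1) := by
          have e1 : ∑ n ∈ Icc 1 N, npr n ≤ S :=
            npr_summable.sum_le_tsum _ (fun n _ => npr_nonneg n)
          have e2 : (∑ n ∈ Icc 1 N, if n = 2 then (1 : ℝ) else 0) ≤ 1 := by
            rw [Finset.sum_ite_eq']
            split_ifs <;> norm_num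
          linarith
  rw [Finset.sum_sub_distrib, Finset.sum_add_distrib, Finset.sum_add_distrib] at hdiff
  have hM1 := H370.nt_mertens_lower N hN
  have hM2 := H370.nt_mertens_upper N hN
  have h1N := h1 N
  have h2N := h2 N
  rw [abs_le] at hdiff h1N h2N ⊢
  constructor <;> linarith [hdiff.1, hdiff.2, h1N.1, h1N.2, h2N.1, h2N.2]

/-- the Rankin-Selberg sum for integers -/
lemma rs_nat : ∃ C : ℝ, 0 ≤ C ∧ ∀ N : ℕ, 1 ≤ N →
    |∑ n ∈ Icc 1 N, (ArithmeticFunction.vonMangoldt n) ^ 2 * (cc n) ^ 2 / n -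
      (Real.log N) ^ 2 / 2| ≤ C * Real.log N := by
  obtain ⟨C, hC, h⟩ := rs_one
  set S : ℝ := ∑' n, npr n with hS
  have hS0 : 0 ≤ S := tsum_nonneg npr_nonneg
  refine ⟨(1 + C) + C + 4 * S, by positivity, ?_⟩
  intro N hN
  have hlog : 0 ≤ Real.log N := Real.log_natCast_nonneg N
  have h1 := H385.mert_abel (fun n => ArithmeticFunction.vonMangoldt n * (cc n) ^ 2 / n) C 1 hC
    zero_le_one h (fun s => s) continuous_id (fun x y _ _ => by rw [one_mul]) N hN
  rw [integral_id] at h1
  have h2 : |(∑ n ∈ Icc 1 N, ArithmeticFunction.vonMangoldt n * (cc n) ^ 2 / n - Real.log N) *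
      Real.log N| ≤ C * Real.log N := by
    rw [abs_mul, abs_of_nonneg hlog]
    exact mul_le_mul_of_nonneg_right (h N hN) hlog
  have h3 : |∑ n ∈ Icc 1 N, (ArithmeticFunction.vonMangoldt n) ^ 2 * (cc n) ^ 2 / n -
      ∑ n ∈ Icc 1 N, ArithmeticFunction.vonMangoldt n * (cc n) ^ 2 / n * Real.log n| ≤
      4 * S * Real.log N := by
    rw [← Finset.sum_sub_distrib]
    calc _ ≤ ∑ n ∈ Icc 1 N, |(ArithmeticFunction.vonMangoldt n) ^ 2 * (cc n) ^ 2 / n -
          ArithmeticFunction.vonMangoldt n * (cc n) ^ 2 / n * Real.log n| :=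
          Finset.abs_sum_le_sum_abs _ _
      _ ≤ ∑ n ∈ Icc 1 N, 4 * Real.log N * npr n := by
          apply Finset.sum_le_sum
          intro n hn
          have hn1 : 1 ≤ n := (Finset.mem_Icc.mp hn).1
          have hnN : n ≤ N := (Finset.mem_Icc.mp hn).2
          have hn0 : (0 : ℝ) < n := by exact_mod_cast hn1
          have hΛ : 0 ≤ ArithmeticFunction.vonMangoldt n := ArithmeticFunction.vonMangoldt_nonneg
          have hΛ2 : ArithmeticFunction.vonMangoldt n ≤ Real.log n :=
            ArithmeticFunction.vonMangoldt_le_log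
          have hlN : Real.log n ≤ Real.log N := Real.log_le_log hn0 (by exact_mod_cast hnN)
          have hrew : (ArithmeticFunction.vonMangoldt n) ^ 2 * (cc n) ^ 2 / n -
              ArithmeticFunction.vonMangoldt n * (cc n) ^ 2 / n * Real.log n =
              -(ArithmeticFunction.vonMangoldt n / n * ((cc n) ^ 2 *
                (Real.log n - ArithmeticFunction.vonMangoldt n))) := by ring
          rw [hrew, abs_neg]
          by_cases hp : n.Prime
          · rw [ArithmeticFunction.vonMangoldt_apply_prime hp, sub_self, mul_zero, mul_zero,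
              abs_zero]
            have := npr_nonneg n
            positivity
          · have e3 : npr n = ArithmeticFunction.vonMangoldt n / n := by
              unfold npr; rw [if_neg hp]
            rw [e3, abs_of_nonneg (mul_nonneg (div_nonneg hΛ hn0.le)
              (mul_nonneg (sq_nonneg _) (by linarith))), mul_comm]
            apply mul_le_mul_of_nonneg_right _ (div_nonneg hΛ hn0.le)
            apply mul_le_mul (cc_sq_le n) (by linarith) (by linarith) (by norm_num)
      _ = 4 * Real.log N * ∑ n ∈ Icc 1 N, npr n := by rw [Finset.mul_sum]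
      _ ≤ 4 * Real.log N * S := by
          apply mul_le_mul_of_nonneg_left _ (by positivity)
          exact npr_summable.sum_le_tsum _ (fun n _ => npr_nonneg n)
      _ = 4 * S * Real.log N := by ring
  rw [abs_le] at h1 h2 h3 ⊢
  constructor <;> nlinarith [h1.1, h1.2, h2.1, h2.2, h3.1, h3.2]

theorem rs : ∃ C : ℝ, ∀ x : ℝ, 1 ≤ x →
    |∑ n ∈ Icc 1 ⌊x⌋₊, (ArithmeticFunction.vonMangoldt n) ^ 2 * (cc n) ^ 2 / n - (Real.log x) ^ 2 / 2|
      ≤ C * (1 + Real.log x) := by
  obtain ⟨C, hC, h⟩ := rs_nat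
  refine ⟨C + 1, fun x hx => ?_⟩
  have hN : 1 ≤ ⌊x⌋₊ := (Nat.one_le_floor_iff x).2 hx
  have h1 := h ⌊x⌋₊ hN
  set N := ⌊x⌋₊ with hNdef
  have hN0 : (0 : ℝ) < N := by exact_mod_cast hN
  have hNx : (N : ℝ) ≤ x := Nat.floor_le (by linarith)
  have hxN : x < N + 1 := Nat.lt_floor_add_one x
  have hlogN : 0 ≤ Real.log N := Real.log_natCast_nonneg N
  have hl1 : Real.log N ≤ Real.log x := Real.log_le_log hN0 hNx
  have hl2 : Real.log x - Real.log N ≤ 1 := by
    have h2 := (H385.mert_log_diff N hN).2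
    have h3 : Real.log x ≤ Real.log ((N + 1 : ℕ) : ℝ) := by
      apply Real.log_le_log (by linarith)
      push_cast
      exact hxN.le
    linarith
  have h4 : |(Real.log N) ^ 2 / 2 - (Real.log x) ^ 2 / 2| ≤ Real.log x := by
    rw [abs_sub_comm, abs_of_nonneg (by nlinarith)]
    nlinarith
  have h5 : C * Real.log N ≤ C * (1 + Real.log x) := mul_le_mul_of_nonneg_left (by linarith) hC
  calc _ = |(∑ n ∈ Icc 1 N, (ArithmeticFunction.vonMangoldt n) ^ 2 * (cc n) ^ 2 / n -
        (Real.log N) ^ 2 / 2) + ((Real.log N) ^ 2 / 2 - (Real.log x) ^ 2 / 2)| := by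
        congr 1; ring
    _ ≤ _ := abs_add_le _ _
    _ ≤ (C + 1) * (1 + Real.log x) := by linarith

end Pool.Agent.H304R2.EC
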