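import Pool.Agent.H304R2.EC.Defs

/-!
TEAM Q2 (helper304), task G3: sums over pairs of integers in terms of primary Gaussian integers.
-/

set_option autoImplicit false

open Finset Filter Topology

namespace Pool.Agent.H304R2.EC

/-! ### summability -/

theorem s4_summable_exp {δ : ℝ} (hδ : 0 < δ) (k : ℕ) :
    Summable (fun m : ℤ => |(m : ℝ)| ^ k * Real.exp (-δ * (m : ℝ) ^ 2)) := by
  have hn : Summable (fun n : ℕ => (n : ℝ) ^ k * Real.exp (-δ * (n : ℝ) ^ 2)) := by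
    refine Summable.of_nonneg_of_le (fun n => by positivity) (fun n => ?_)
      (Real.summable_pow_mul_exp_neg_nat_mul k hδ)
    refine mul_le_mul_of_nonneg_left (Real.exp_le_exp.2 ?_) (by positivity)
    have h1 : (n : ℝ) ≤ (n : ℝ) ^ 2 := by
      rcases Nat.eq_zero_or_pos n with h | h
      · subst h; norm_num
      · have : (1 : ℝ) ≤ n := by exact_mod_cast h
        nlinarith
    nlinarith
  refine Summable.of_nat_of_neg ?_ ?_
  · refine hn.congr fun n => ?_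
    simp
  · refine hn.congr fun n => ?_
    simp

theorem s4_summable_pair {δ : ℝ} (hδ : 0 < δ) (j k : ℕ) :
    Summable (fun p : ℤ × ℤ => |(p.1 : ℝ)| ^ j * |(p.2 : ℝ)| ^ k *
      Real.exp (-δ * ((p.1 : ℝ) ^ 2 + (p.2 : ℝ) ^ 2))) := by
  have h := (s4_summable_exp hδ j).mul_of_nonneg (s4_summable_exp hδ k)
    (fun m => by positivity) (fun m => by positivity)
  refine h.congr fun p => ?_
  have : Real.exp (-δ * ((p.1 : ℝ) ^ 2 + (p.2 : ℝ) ^ 2)) =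
      Real.exp (-δ * (p.1 : ℝ) ^ 2) * Real.exp (-δ * (p.2 : ℝ) ^ 2) := by
    rw [← Real.exp_add]
    congr 1
    ring
  rw [this]
  ring

theorem s4_natAbs (p : ℤ × ℤ) : (((p.1 ^ 2 + p.2 ^ 2).natAbs : ℕ) : ℝ) = (p.1 : ℝ) ^ 2 + (p.2 : ℝ) ^ 2 := by
  have h : (0 : ℤ) ≤ p.1 ^ 2 + p.2 ^ 2 := by positivity
  rw [Nat.cast_natAbs, abs_of_nonneg h]
  push_cast
  ring

/-- the summand over primary pairs -/
noncomputable def s4g (Φ : ℕ → ℂ) (w : ℤ × ℤ → ℂ) (p : ℤ × ℤ) : ℂ :=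
  if p.2 % 2 = 0 ∧ (p.1 + p.2) % 4 = 1 then w p * Φ (p.1 ^ 2 + p.2 ^ 2).natAbs else 0

theorem s4g_summable (Φ : ℕ → ℂ) (C δ : ℝ) (hδ : 0 < δ)
    (hΦ : ∀ k : ℕ, ‖Φ k‖ ≤ C * Real.exp (-δ * k)) (w : ℤ × ℤ → ℂ) (j k : ℕ)
    (hw : ∀ p : ℤ × ℤ, ‖w p‖ ≤ |(p.1 : ℝ)| ^ j * |(p.2 : ℝ)| ^ k) :
    Summable (s4g Φ w) := by
  have hC : 0 ≤ C := by
    have h := hΦ 0
    have h0 := norm_nonneg (Φ 0)
    simp only [Nat.cast_zero, mul_zero, Real.exp_zero, mul_one] at h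
    linarith
  refine Summable.of_norm_bounded ((s4_summable_pair hδ j k).mul_left C) fun p => ?_
  unfold s4g
  split_ifs
  · rw [norm_mul]
    have h1 := hΦ (p.1 ^ 2 + p.2 ^ 2).natAbs
    rw [s4_natAbs] at h1
    calc ‖w p‖ * ‖Φ (p.1 ^ 2 + p.2 ^ 2).natAbs‖
        ≤ (|(p.1 : ℝ)| ^ j * |(p.2 : ℝ)| ^ k) *
          (C * Real.exp (-δ * ((p.1 : ℝ) ^ 2 + (p.2 : ℝ) ^ 2))) :=
          mul_le_mul (hw p) h1 (norm_nonneg _) (by positivity)
      _ = _ := by ring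
  · rw [norm_zero]
    positivity

theorem s4_mem_PS (n : ℕ) (p : ℤ × ℤ) :
    p ∈ PS n ↔ p.2 % 2 = 0 ∧ (p.1 + p.2) % 4 = 1 ∧ p.1 ^ 2 + p.2 ^ 2 = n := by
  unfold PS
  simp only [mem_filter, mem_product, mem_Icc]
  constructor
  · rintro ⟨-, h⟩
    exact h
  · intro h
    refine ⟨?_, h⟩
    obtain ⟨-, -, h⟩ := h
    have h1 : ∀ x : ℤ, |x| ≤ x ^ 2 := by
      intro x
      rcases eq_or_ne x 0 with h | h
      · subst h; simp
      · have : 1 ≤ |x| := Int.one_le_abs h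
        rw [← sq_abs]
        nlinarith
    have h2 := h1 p.1
    have h3 := h1 p.2
    have h4 := sq_nonneg p.1
    have h5 := sq_nonneg p.2
    refine ⟨⟨?_, ?_⟩, ?_, ?_⟩
    · have := neg_abs_le p.1; linarith
    · have := le_abs_self p.1; linarith
    · have := neg_abs_le p.2; linarith
    · have := le_abs_self p.2; linarith

/-- the sum over primary pairs, arranged by the norm -/
theorem s4g_hasSum (Φ : ℕ → ℂ) (C δ : ℝ) (hδ : 0 < δ)
    (hΦ : ∀ k : ℕ, ‖Φ k‖ ≤ C * Real.exp (-δ * k)) :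
    HasSum (s4g Φ (fun p => (p.1 : ℂ))) (∑' k : ℕ, (an k : ℂ) * Φ k) := by
  have hs : Summable (s4g Φ (fun p => (p.1 : ℂ))) := by
    refine s4g_summable Φ C δ hδ hΦ _ 1 0 fun p => ?_
    simp
  have hf := hs.hasSum.tsum_fiberwise (fun p : ℤ × ℤ => (p.1 ^ 2 + p.2 ^ 2).natAbs)
  have hfib : ∀ k : ℕ, ∑' b : ((fun p : ℤ × ℤ => (p.1 ^ 2 + p.2 ^ 2).natAbs) ⁻¹' {k}),
      s4g Φ (fun p => (p.1 : ℂ)) b = (an k : ℂ) * Φ k := by
    intro k
    rw [tsum_subtype ((fun p : ℤ × ℤ => (p.1 ^ 2 + p.2 ^ 2).natAbs) ⁻¹' {k})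
      (s4g Φ (fun p => (p.1 : ℂ)))]
    rw [tsum_eq_sum (s := PS k)]
    · unfold an
      push_cast
      rw [sum_mul]
      refine sum_congr rfl fun p hp => ?_
      rw [s4_mem_PS] at hp
      have h1 : (p.1 ^ 2 + p.2 ^ 2).natAbs = k := by
        rw [hp.2.2]
        simp
      rw [Set.indicator_of_mem]
      · unfold s4g
        rw [if_pos ⟨hp.1, hp.2.1⟩, h1]
      · exact h1
    · intro p hp
      by_cases h : p ∈ (fun p : ℤ × ℤ => (p.1 ^ 2 + p.2 ^ 2).natAbs) ⁻¹' {k}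
      · rw [Set.indicator_of_mem h]
        unfold s4g
        rw [if_neg]
        rintro ⟨h1, h2⟩
        refine hp ?_
        rw [s4_mem_PS]
        refine ⟨h1, h2, ?_⟩
        have h3 : (p.1 ^ 2 + p.2 ^ 2).natAbs = k := h
        have h4 : (0 : ℤ) ≤ p.1 ^ 2 + p.2 ^ 2 := by positivity
        rw [← h3]
        omega
      · rw [Set.indicator_of_notMem h]
  simp_rw [hfib] at hf
  rw [hf.tsum_eq]
  exact hs.hasSum

/-! ### the first sum -/

theorem s4_neg_one_pow (t : ℤ) : ((-1 : ℤ) ^ t.natAbs) = if t % 2 = 0 then 1 else -1 := by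
  split_ifs with h
  · rw [Even.neg_one_pow]
    rw [Int.natAbs_even]
    exact Int.even_iff.2 h
  · rw [Odd.neg_one_pow]
    rw [Int.natAbs_odd]
    exact Int.odd_iff.2 (by omega)

/-- the map `(m, t) ↦ ((-1)^t m, 2 t)` -/
def s4i (p : ℤ × ℤ) : ℤ × ℤ := ((-1) ^ p.2.natAbs * p.1, 2 * p.2)

theorem s4i_inj : Function.Injective s4i := by
  rintro ⟨a, b⟩ ⟨c, d⟩ h
  simp only [s4i, Prod.mk.injEq] at h
  obtain ⟨h1, h2⟩ := h
  have hbd : b = d := by omega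
  subst hbd
  rw [s4_neg_one_pow] at h1
  split_ifs at h1
  · simp_all
  · simp_all

theorem sum_primary (Φ : ℕ → ℂ) (C δ : ℝ) (hδ : 0 < δ) (hΦ : ∀ k : ℕ, ‖Φ k‖ ≤ C * Real.exp (-δ * k)) :
    HasSum (fun p : ℤ × ℤ => if p.1 % 4 = 1 then
        (-1 : ℂ) ^ p.2.natAbs * p.1 * Φ (p.1 ^ 2 + 4 * p.2 ^ 2).natAbs else 0)
      (∑' k : ℕ, (an k : ℂ) * Φ k) := by
  have h := s4g_hasSum Φ C δ hδ hΦ
  rw [← s4i_inj.hasSum_iff] at h
  · have he : (s4g Φ (fun p => (p.1 : ℂ))) ∘ s4i = (fun p : ℤ × ℤ => if p.1 % 4 = 1 then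
        (-1 : ℂ) ^ p.2.natAbs * p.1 * Φ (p.1 ^ 2 + 4 * p.2 ^ 2).natAbs else 0) := by
      funext p
      obtain ⟨m, t⟩ := p
      simp only [Function.comp_apply, s4g, s4i]
      have h1 : (((-1) ^ t.natAbs * m) ^ 2 + (2 * t) ^ 2).natAbs = (m ^ 2 + 4 * t ^ 2).natAbs := by
        congr 1
        rw [mul_pow, ← pow_mul, mul_comm t.natAbs 2, pow_mul]
        norm_num
        ring
      rw [h1]
      have h2 : (2 * t % 2 = 0 ∧ ((-1) ^ t.natAbs * m + 2 * t) % 4 = 1) ↔ m % 4 = 1 := by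
        rw [s4_neg_one_pow]
        split_ifs with ht <;> constructor <;> intro h <;> omega
      simp only [h2]
      split_ifs
      · push_cast
        ring
      · rfl
    rwa [he] at h
  · rintro ⟨m, b⟩ hp
    simp only [s4g]
    rw [if_neg]
    rintro ⟨h1, h2⟩
    refine hp ⟨((-1) ^ (b / 2).natAbs * m, b / 2), ?_⟩
    simp only [s4i, Prod.mk.injEq]
    refine ⟨?_, by omega⟩
    rw [← mul_assoc, ← pow_add, ← two_mul, pow_mul]
    norm_num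

/-! ### the second sum -/

/-- multiplication by `i` -/
def s4R : (ℤ × ℤ) ≃ (ℤ × ℤ) where
  toFun p := (-p.2, p.1)
  invFun p := (p.2, -p.1)
  left_inv p := by simp
  right_inv p := by simp

/-- the map `(x, y) ↦ (x - y, x + y)` -/
def s4j (p : ℤ × ℤ) : ℤ × ℤ := (p.1 - p.2, p.1 + p.2)

theorem s4j_inj : Function.Injective s4j := by
  rintro ⟨a, b⟩ ⟨c, d⟩ h
  simp only [s4j, Prod.mk.injEq] at h
  obtain ⟨h1, h2⟩ := h
  ext <;> simp <;> omega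

theorem s4_chi (n : ℤ) (hn : n % 2 = 1) :
    (n : ℂ) * ((ZMod.χ₄ (n : ZMod 4) : ℤ) : ℂ) = if n % 4 = 1 then (n : ℂ) else -(n : ℂ) := by
  split_ifs with h
  · rw [ZMod.χ₄_int_one_mod_four h]
    simp
  · have h3 : n % 4 = 3 := by omega
    rw [ZMod.χ₄_int_three_mod_four h3]
    simp

theorem sum_odd (Φ : ℕ → ℂ) (C δ : ℝ) (hδ : 0 < δ) (hΦ : ∀ k : ℕ, ‖Φ k‖ ≤ C * Real.exp (-δ * k)) :
    HasSum (fun p : ℤ × ℤ => if p.1 % 2 = 1 ∧ p.2 % 2 = 1 then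
        (p.1 : ℂ) * ((ZMod.χ₄ (p.1 : ZMod 4) : ℤ) : ℂ) * Φ (p.1 ^ 2 + p.2 ^ 2).natAbs else 0)
      (4 * ∑' k : ℕ, (an k : ℂ) * Φ (2 * k)) := by
  set Ψ : ℕ → ℂ := fun k => Φ (2 * k) with hΨ
  have hΨb : ∀ k : ℕ, ‖Ψ k‖ ≤ C * Real.exp (-(2 * δ) * k) := by
    intro k
    have h := hΦ (2 * k)
    simp only [hΨ]
    refine h.trans (le_of_eq ?_)
    push_cast
    congr 2
    ring
  have hA := s4g_hasSum Ψ C (2 * δ) (by linarith) hΨb
  have hB : HasSum (s4g Ψ (fun p => (p.2 : ℂ))) (∑' p, s4g Ψ (fun p => (p.2 : ℂ)) p) := by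
    refine (s4g_summable Ψ C (2 * δ) (by linarith) hΨb _ 0 1 fun p => ?_).hasSum
    simp
  set S : ℂ := ∑' k : ℕ, (an k : ℂ) * Ψ k with hS
  set B : ℂ := ∑' p, s4g Ψ (fun p => (p.2 : ℂ)) p with hBdef
  have hm := hA.sub hB
  have hp := hA.add hB
  have h1 := hm
  have h2 := (s4R.symm.hasSum_iff).2 ((s4R.symm.hasSum_iff).2 hm)
  have h3 := (s4R.symm.hasSum_iff).2 hp
  have h4 := (s4R.hasSum_iff).2 hp
  have htot := ((h1.add h2).add h3).add h4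
  have hval : S - B + (S - B) + (S + B) + (S + B) = 4 * S := by ring
  rw [hval] at htot
  rw [← s4j_inj.hasSum_iff]
  · refine HasSum.congr_fun htot ?_
    intro p
    obtain ⟨x, y⟩ := p
    have hN : ((x - y) ^ 2 + (x + y) ^ 2).natAbs = 2 * (x ^ 2 + y ^ 2).natAbs := by
      have h5 : (x - y) ^ 2 + (x + y) ^ 2 = 2 * (x ^ 2 + y ^ 2) := by ring
      rw [h5, Int.natAbs_mul]
      rfl
    have hN2 : ((-x) ^ 2 + (-y) ^ 2).natAbs = (x ^ 2 + y ^ 2).natAbs := by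
      congr 1
      ring
    have hN3 : (y ^ 2 + (-x) ^ 2).natAbs = (x ^ 2 + y ^ 2).natAbs := by
      congr 1
      ring
    have hN4 : ((-y) ^ 2 + x ^ 2).natAbs = (x ^ 2 + y ^ 2).natAbs := by
      congr 1
      ring
    have hR1 : s4R.symm (x, y) = (y, -x) := rfl
    have hR2 : s4R.symm (y, -x) = (-x, -y) := rfl
    have hR3 : s4R (x, y) = (-y, x) := rfl
    simp only [Function.comp_apply, s4j, hR1, hR2, hR3, s4g, hN, hN2, hN3, hN4]
    have hΨN : Φ (2 * (x ^ 2 + y ^ 2).natAbs) = Ψ (x ^ 2 + y ^ 2).natAbs := rfl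
    rw [hΨN]
    by_cases c1 : y % 2 = 0 ∧ (x + y) % 4 = 1
    · have d2 : ¬ (-y % 2 = 0 ∧ (-x + -y) % 4 = 1) := by omega
      have d3 : ¬ (-x % 2 = 0 ∧ (y + -x) % 4 = 1) := by omega
      have d4 : ¬ (x % 2 = 0 ∧ (-y + x) % 4 = 1) := by omega
      have d0 : (x - y) % 2 = 1 ∧ (x + y) % 2 = 1 := by omega
      have d5 : (x - y) % 4 = 1 := by omega
      simp only [if_pos c1, if_neg d2, if_neg d3, if_neg d4, if_pos d0, s4_chi _ d0.1, if_pos d5]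
      push_cast
      ring
    by_cases c2 : -y % 2 = 0 ∧ (-x + -y) % 4 = 1
    · have d3 : ¬ (-x % 2 = 0 ∧ (y + -x) % 4 = 1) := by omega
      have d4 : ¬ (x % 2 = 0 ∧ (-y + x) % 4 = 1) := by omega
      have d0 : (x - y) % 2 = 1 ∧ (x + y) % 2 = 1 := by omega
      have d5 : ¬ (x - y) % 4 = 1 := by omega
      simp only [if_neg c1, if_pos c2, if_neg d3, if_neg d4, if_pos d0, s4_chi _ d0.1, if_neg d5]
      push_cast
      ring
    by_cases c3 : -x % 2 = 0 ∧ (y + -x) % 4 = 1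
    · have d4 : ¬ (x % 2 = 0 ∧ (-y + x) % 4 = 1) := by omega
      have d0 : (x - y) % 2 = 1 ∧ (x + y) % 2 = 1 := by omega
      have d5 : ¬ (x - y) % 4 = 1 := by omega
      simp only [if_neg c1, if_neg c2, if_pos c3, if_neg d4, if_pos d0, s4_chi _ d0.1, if_neg d5]
      push_cast
      ring
    by_cases c4 : x % 2 = 0 ∧ (-y + x) % 4 = 1
    · have d0 : (x - y) % 2 = 1 ∧ (x + y) % 2 = 1 := by omega
      have d5 : (x - y) % 4 = 1 := by omega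
      simp only [if_neg c1, if_neg c2, if_neg c3, if_pos c4, if_pos d0, s4_chi _ d0.1, if_pos d5]
      push_cast
      ring
    have d0 : ¬ ((x - y) % 2 = 1 ∧ (x + y) % 2 = 1) := by omega
    simp only [if_neg c1, if_neg c2, if_neg c3, if_neg c4, if_neg d0]
    ring
  · rintro ⟨n, n'⟩ hx
    rw [if_neg]
    rintro ⟨h5, h6⟩
    refine hx ⟨((n + n') / 2, (n' - n) / 2), ?_⟩
    simp only [s4j, Prod.mk.injEq]
    constructor <;> omega

end Pool.Agent.H304R2.EC
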