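import Pool.Agent.H304R2.EC.Defs
import Pool.Agent.H304R2.EC.Pair
import Pool.Agent.H304R2.EC.LogDer
import Pool.Agent.H304R2.EC.NZR
import Pool.Agent.H370R2.DirGood

set_option autoImplicit false

/-! TEAM Q2, task L6: symmetry of the zeros (helper356). -/

open Complex Filter Topology

namespace Pool.Agent.H304R2.EC

open H370.DL (order_refl analyticAt_refl im_osc re_osc eventually_im_ne)

/-- the factor of the asymmetric functional equation, without the root number -/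
noncomputable def SX (q : ℕ) (s : ℂ) : ℂ :=
  (Gamma (s + 1 / 2))⁻¹ * Gamma (3 / 2 - s) *
    (((Real.sqrt 8 * q / Real.pi : ℝ) : ℂ) ^ (-(s + 1 / 2)) *
      ((Real.sqrt 8 * q / Real.pi : ℝ) : ℂ) ^ (3 / 2 - s))

lemma Gamma_ne_zero_of_im {s : ℂ} (hs : s.im ≠ 0) : Gamma s ≠ 0 := by
  apply Gamma_ne_zero
  intro m h
  apply hs
  rw [h]
  simp

lemma base_ne (q : ℕ) [NeZero q] : ((Real.sqrt 8 * q / Real.pi : ℝ) : ℂ) ≠ 0 := by
  have hq : (0 : ℝ) < q := by exact_mod_cast Nat.pos_of_ne_zero (NeZero.ne q)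
  have h : (0 : ℝ) < Real.sqrt 8 * q / Real.pi := by positivity
  exact_mod_cast h.ne'

lemma SX_ne_zero (q : ℕ) [NeZero q] {s : ℂ} (hs : s.im ≠ 0) : SX q s ≠ 0 := by
  unfold SX
  have h1 : Gamma (s + 1 / 2) ≠ 0 := Gamma_ne_zero_of_im (by simpa using hs)
  have h2 : Gamma (3 / 2 - s) ≠ 0 := Gamma_ne_zero_of_im (by simpa using hs)
  have hb := base_ne q
  refine mul_ne_zero (mul_ne_zero (inv_ne_zero h1) h2) (mul_ne_zero ?_ ?_)
  · rw [Ne, cpow_eq_zero_iff]; exact fun h => hb h.1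
  · rw [Ne, cpow_eq_zero_iff]; exact fun h => hb h.1

lemma analyticAt_SX (q : ℕ) [NeZero q] {s : ℂ} (hs : s.im ≠ 0) : AnalyticAt ℂ (SX q) s := by
  have hb := base_ne q
  have h0 : ∀ w : ℂ, w.im ≠ 0 → AnalyticAt ℂ Gamma w := by
    intro w hw
    rw [analyticAt_iff_eventually_differentiableAt]
    filter_upwards [eventually_im_ne hw] with z hz
    apply differentiableAt_Gamma
    intro m h
    apply hz
    rw [h]
    simp
  have h1 : AnalyticAt ℂ (fun z : ℂ => (Gamma (z + 1 / 2))⁻¹) s := by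
    rw [analyticAt_iff_eventually_differentiableAt]
    refine Filter.Eventually.of_forall fun z => ?_
    exact DifferentiableAt.comp (g := fun s : ℂ => (Gamma s)⁻¹) (f := fun z : ℂ => z + 1 / 2) z
      (differentiable_one_div_Gamma (z + 1 / 2)) (by fun_prop)
  have h2 : AnalyticAt ℂ (fun z : ℂ => Gamma (3 / 2 - z)) s :=
    AnalyticAt.fun_comp (f := fun z : ℂ => 3 / 2 - z) (g := Gamma)
      (h0 _ (by simpa using hs)) (by fun_prop)
  have h3 : AnalyticAt ℂ (fun z : ℂ => ((Real.sqrt 8 * q / Real.pi : ℝ) : ℂ) ^ (-(z + 1 / 2))) s := by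
    rw [analyticAt_iff_eventually_differentiableAt]
    refine Filter.Eventually.of_forall fun z => ?_
    exact DifferentiableAt.const_cpow (by fun_prop) (Or.inl hb)
  have h4 : AnalyticAt ℂ (fun z : ℂ => ((Real.sqrt 8 * q / Real.pi : ℝ) : ℂ) ^ (3 / 2 - z)) s := by
    rw [analyticAt_iff_eventually_differentiableAt]
    refine Filter.Eventually.of_forall fun z => ?_
    exact DifferentiableAt.const_cpow (by fun_prop) (Or.inl hb)
  exact (h1.mul h2).mul (h3.mul h4)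

/-- asymmetric functional equation off the real axis -/
lemma FF_func (q : ℕ) [NeZero q] (hq : Odd q) (χ : DirichletCharacter ℂ q) (hχ : χ.IsPrimitive) :
    ∃ w : ℂ, w ≠ 0 ∧ ∀ s : ℂ, s.im ≠ 0 → FF q χ s = w * SX q s * H370.DL.refl (FF q χ) s := by
  obtain ⟨w, hw, hfe⟩ := LL_fe q hq χ hχ
  refine ⟨w, by
    intro h
    rw [h] at hw
    simp at hw, ?_⟩
  intro s hs
  have hb := base_ne q
  have e1 : FF q χ s = (Gamma (s + 1 / 2))⁻¹ *
      ((Real.sqrt 8 * q / Real.pi : ℝ) : ℂ) ^ (-(s + 1 / 2)) * LL q χ s := FF_eq q χ s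
  have e2 : LL q χ s = w * LL q χ⁻¹ (1 - s) := by
    have := hfe (1 - s)
    rw [sub_sub_cancel] at this
    exact this
  have e3 : H370.DL.refl (FF q χ) s = FF q χ⁻¹ (1 - s) := by
    have := FF_conj q χ (1 - (starRingEnd ℂ) s)
    rw [H370.DL.refl, ← this]
    congr 1
    simp
  have e4 : FF q χ⁻¹ (1 - s) = (Gamma (3 / 2 - s))⁻¹ *
      ((Real.sqrt 8 * q / Real.pi : ℝ) : ℂ) ^ (-(3 / 2 - s)) * LL q χ⁻¹ (1 - s) := by
    rw [FF_eq q χ⁻¹ (1 - s)]
    have : (1 : ℂ) - s + 1 / 2 = 3 / 2 - s := by ring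
    rw [this]
  have h2 : Gamma (3 / 2 - s) ≠ 0 := Gamma_ne_zero_of_im (by simpa using hs)
  have h5 : ((Real.sqrt 8 * q / Real.pi : ℝ) : ℂ) ^ (3 / 2 - s) *
      ((Real.sqrt 8 * q / Real.pi : ℝ) : ℂ) ^ (-(3 / 2 - s)) = 1 := by
    rw [← cpow_add _ _ hb, add_neg_cancel, cpow_zero]
  rw [e3, e4, e1, e2]
  unfold SX
  calc (Gamma (s + 1 / 2))⁻¹ * ((Real.sqrt 8 * q / Real.pi : ℝ) : ℂ) ^ (-(s + 1 / 2)) *
        (w * LL q χ⁻¹ (1 - s))
      = w * ((Gamma (s + 1 / 2))⁻¹ * 1 *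
          (((Real.sqrt 8 * q / Real.pi : ℝ) : ℂ) ^ (-(s + 1 / 2)) * 1)) * LL q χ⁻¹ (1 - s) := by
        ring
    _ = w * ((Gamma (s + 1 / 2))⁻¹ * (Gamma (3 / 2 - s) * (Gamma (3 / 2 - s))⁻¹) *
          (((Real.sqrt 8 * q / Real.pi : ℝ) : ℂ) ^ (-(s + 1 / 2)) *
            (((Real.sqrt 8 * q / Real.pi : ℝ) : ℂ) ^ (3 / 2 - s) *
              ((Real.sqrt 8 * q / Real.pi : ℝ) : ℂ) ^ (-(3 / 2 - s))))) * LL q χ⁻¹ (1 - s) := by
        rw [h5, mul_inv_cancel₀ h2]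
    _ = _ := by ring

theorem FF_nzl (q : ℕ) [NeZero q] (hq : Odd q) (χ : DirichletCharacter ℂ q) (hχ : χ.IsPrimitive)
    (s : ℂ) (h1 : s.re ≤ 0) (h2 : 1 ≤ s.im) : FF q χ s ≠ 0 := by
  obtain ⟨w, hw, h⟩ := FF_func q hq χ hχ
  have hs : s.im ≠ 0 := by linarith
  rw [h s hs]
  refine mul_ne_zero (mul_ne_zero hw (SX_ne_zero q hs)) ?_
  unfold H370.DL.refl
  rw [map_ne_zero]
  rcases lt_or_eq_of_le (show (1 : ℝ) ≤ (1 - (starRingEnd ℂ) s).re by rw [re_osc]; linarith)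
    with h3 | h3
  · exact FF_ne_zero q χ _ h3
  · have h4 : 1 - (starRingEnd ℂ) s = ⟨1, s.im⟩ := by
      apply Complex.ext
      · exact h3.symm
      · rw [im_osc]
    rw [h4]
    exact FF_line q hq χ hχ s.im hs

theorem FF_symm (q : ℕ) [NeZero q] (hq : Odd q) (χ : DirichletCharacter ℂ q) (hχ : χ.IsPrimitive)
    (s : ℂ) (h2 : 1 ≤ s.im) :
    analyticOrderAt (FF q χ) (1 - (starRingEnd ℂ) s) = analyticOrderAt (FF q χ) s := by
  obtain ⟨w, hw, h⟩ := FF_func q hq χ hχ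
  have hs : s.im ≠ 0 := by linarith
  have ha : AnalyticAt ℂ (FF q χ) (1 - (starRingEnd ℂ) s) :=
    (FF_entire q hq χ hχ).analyticAt _
  have h1 : FF q χ =ᶠ[𝓝 s] (fun z => w * SX q z) * H370.DL.refl (FF q χ) := by
    filter_upwards [eventually_im_ne hs] with z hz
    exact h z hz
  have hX : AnalyticAt ℂ (fun z => w * SX q z) s := analyticAt_const.mul (analyticAt_SX q hs)
  rw [analyticOrderAt_congr h1, analyticOrderAt_mul hX (analyticAt_refl ha),
    hX.analyticOrderAt_eq_zero.mpr (mul_ne_zero hw (SX_ne_zero q hs)), zero_add, order_refl ha]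

end Pool.Agent.H304R2.EC
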