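import Pool.Agent.H304R2.EC.Defs
import Pool.Agent.H304R2.EC.Dft
import Pool.Agent.H304R2.EC.Sum4

set_option autoImplicit false

/-!
Functional equation of the twisted theta series.
-/

open Finset Filter Topology HurwitzZeta

namespace Pool.Agent.H304R2.EC

/-- residue classes in `ℤ`: sums over a class -/
theorem hasSum_class {E : Type*} [AddCommMonoid E] [TopologicalSpace E] (M : ℕ) (hM : 0 < M)
    (r : ℕ) (hr : r < M) (A : ℤ → E) (a : E)
    (h : HasSum (fun j : ℤ => A (M * j + r)) a) :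
    HasSum (fun m : ℤ => if m % M = r then A m else 0) a := by
  have hinj : Function.Injective (fun j : ℤ => (M : ℤ) * j + r) := by
    intro x y hxy
    simp only at hxy
    have hM' : (M : ℤ) ≠ 0 := by exact_mod_cast hM.ne'
    have : (M : ℤ) * x = M * y := by linarith
    exact mul_left_cancel₀ hM' this
  rw [← hinj.hasSum_iff]
  · refine h.congr_fun ?_
    intro j
    simp only [Function.comp]
    rw [if_pos]
    rw [Int.add_comm, Int.add_mul_emod_self_left]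
    exact Int.emod_eq_of_lt (by positivity) (by exact_mod_cast hr)
  · intro x hx
    rw [if_neg]
    intro hxr
    apply hx
    refine ⟨x / M, ?_⟩
    simp only
    have := Int.mul_ediv_add_emod x M
    rw [hxr] at this
    exact this

theorem hs_odd (q : ℕ) (hq : 0 < q) (y : ℝ) (hy : 0 < y) (r : ℕ) (hr : r < 4 * q) :
    HasSum (fun m : ℤ => if m % ((4 * q : ℕ) : ℤ) = r then (m : ℝ) * Real.exp (-Real.pi * m ^ 2 * y)
      else 0)
      (4 * q * oddKernel (((r : ℝ) / (4 * q) : ℝ) : UnitAddCircle) (16 * q ^ 2 * y)) := by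
  have hq0 : (0 : ℝ) < q := by exact_mod_cast hq
  apply hasSum_class (4 * q) (by omega) r hr (fun m : ℤ => (m : ℝ) * Real.exp (-Real.pi * m ^ 2 * y))
  have h := (hasSum_int_oddKernel ((r : ℝ) / (4 * q)) (x := 16 * q ^ 2 * y) (by positivity)).mul_left
    (4 * (q : ℝ))
  refine h.congr_fun ?_
  intro j
  push_cast
  have e1 : -Real.pi * ((4 : ℝ) * q * j + r) ^ 2 * y =
      -Real.pi * ((j : ℝ) + (r : ℝ) / (4 * q)) ^ 2 * (16 * q ^ 2 * y) := by
    field_simp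
    ring
  rw [e1]
  have e2 : ((4 : ℝ) * q * j + r) = 4 * q * ((j : ℝ) + (r : ℝ) / (4 * q)) := by
    field_simp
  rw [e2]
  ring

theorem hs_even (q : ℕ) (hq : 0 < q) (y : ℝ) (hy : 0 < y) (s : ℕ) (hs : s < 2 * q) :
    HasSum (fun t : ℤ => if t % ((2 * q : ℕ) : ℤ) = s then Real.exp (-Real.pi * (4 * t ^ 2) * y)
      else 0)
      (evenKernel (((s : ℝ) / (2 * q) : ℝ) : UnitAddCircle) (16 * q ^ 2 * y)) := by
  have hq0 : (0 : ℝ) < q := by exact_mod_cast hq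
  apply hasSum_class (2 * q) (by omega) s hs (fun t : ℤ => Real.exp (-Real.pi * (4 * t ^ 2) * y))
  have h := hasSum_int_evenKernel ((s : ℝ) / (2 * q)) (t := 16 * q ^ 2 * y) (by positivity)
  refine h.congr_fun ?_
  intro j
  push_cast
  congr 1
  field_simp
  ring

/-- the coefficient in a pair of residue classes -/
theorem pt_one (q : ℕ) (hq : 0 < q) (χ : DirichletCharacter ℂ q) (y : ℝ) (m t : ℤ) :
    (if m % 4 = 1 then (-1 : ℂ) ^ t.natAbs * m *
      (χ ((m ^ 2 + 4 * t ^ 2).natAbs : ZMod q) *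
        (Real.exp (-Real.pi * ((m ^ 2 + 4 * t ^ 2).natAbs : ℕ) * y) : ℂ)) else 0) =
    ∑ r ∈ (range (4 * q)).filter (fun r => r % 4 = 1), ∑ s ∈ range (2 * q),
      (-1 : ℂ) ^ s * χ ((r ^ 2 + 4 * s ^ 2 : ℕ) : ZMod q) *
        (((if m % ((4 * q : ℕ) : ℤ) = r then (m : ℝ) * Real.exp (-Real.pi * m ^ 2 * y) else 0) *
          (if t % ((2 * q : ℕ) : ℤ) = s then Real.exp (-Real.pi * (4 * t ^ 2) * y) else 0) : ℝ) : ℂ)
      := by
  have hM : (0 : ℤ) < ((4 * q : ℕ) : ℤ) := by exact_mod_cast (by omega : 0 < 4 * q)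
  have hN : (0 : ℤ) < ((2 * q : ℕ) : ℤ) := by exact_mod_cast (by omega : 0 < 2 * q)
  obtain ⟨r0, hr0⟩ := Int.eq_ofNat_of_zero_le (Int.emod_nonneg m hM.ne')
  obtain ⟨s0, hs0⟩ := Int.eq_ofNat_of_zero_le (Int.emod_nonneg t hN.ne')
  have hr1 : r0 < 4 * q := by
    have := Int.emod_lt_of_pos m hM
    rw [hr0] at this
    exact_mod_cast this
  have hs1 : s0 < 2 * q := by
    have := Int.emod_lt_of_pos t hN
    rw [hs0] at this
    exact_mod_cast this
  have hmr : m = ((4 * q : ℕ) : ℤ) * (m / ((4 * q : ℕ) : ℤ)) + r0 := by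
    have := Int.mul_ediv_add_emod m ((4 * q : ℕ) : ℤ)
    rw [hr0] at this
    exact this.symm
  have hts : t = ((2 * q : ℕ) : ℤ) * (t / ((2 * q : ℕ) : ℤ)) + s0 := by
    have := Int.mul_ediv_add_emod t ((2 * q : ℕ) : ℤ)
    rw [hs0] at this
    exact this.symm
  set j := m / ((4 * q : ℕ) : ℤ) with hj
  set l := t / ((2 * q : ℕ) : ℤ) with hl
  have hinner : ∀ r ∈ (range (4 * q)).filter (fun r => r % 4 = 1), r ≠ r0 →
      ∑ s ∈ range (2 * q),
      (-1 : ℂ) ^ s * χ ((r ^ 2 + 4 * s ^ 2 : ℕ) : ZMod q) *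
        (((if m % ((4 * q : ℕ) : ℤ) = r then (m : ℝ) * Real.exp (-Real.pi * m ^ 2 * y) else 0) *
          (if t % ((2 * q : ℕ) : ℤ) = s then Real.exp (-Real.pi * (4 * t ^ 2) * y) else 0) : ℝ) : ℂ)
      = 0 := by
    intro r _ hr
    apply sum_eq_zero
    intro s _
    have : ¬ (m % ((4 * q : ℕ) : ℤ) = r) := by
      rw [hr0]
      intro h
      exact hr (by exact_mod_cast h.symm)
    rw [if_neg this]
    simp
  have hm4 : m % 4 = (r0 : ℤ) % 4 := by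
    rw [hmr]
    push_cast
    rw [mul_assoc, Int.add_comm, Int.add_mul_emod_self_left]
  by_cases h4 : m % 4 = 1
  · rw [if_pos h4]
    have hr4 : r0 % 4 = 1 := by
      have : (r0 : ℤ) % 4 = 1 := by rw [← hm4]; exact h4
      exact_mod_cast this
    rw [sum_eq_single_of_mem r0 (by rw [mem_filter, mem_range]; exact ⟨hr1, hr4⟩) hinner]
    rw [sum_eq_single_of_mem s0 (by rw [mem_range]; exact hs1)]
    · rw [if_pos (by rw [hr0]), if_pos (by rw [hs0])]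
      have e1 : ((m ^ 2 + 4 * t ^ 2).natAbs : ZMod q) = ((r0 ^ 2 + 4 * s0 ^ 2 : ℕ) : ZMod q) := by
        have h1 : ((m ^ 2 + 4 * t ^ 2).natAbs : ZMod q) = ((m ^ 2 + 4 * t ^ 2 : ℤ) : ZMod q) := by
          have : (((m ^ 2 + 4 * t ^ 2).natAbs : ℕ) : ℤ) = m ^ 2 + 4 * t ^ 2 := by
            rw [Int.natCast_natAbs, abs_of_nonneg (by positivity)]
          rw [← this]
          simp
        rw [h1, hmr, hts]
        push_cast
        simp
      have e2 : (-1 : ℂ) ^ t.natAbs = (-1) ^ s0 := by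
        have h1 : Even t.natAbs ↔ Even s0 := by
          rw [Int.natAbs_even, hts]
          push_cast
          rw [mul_assoc, Int.even_add, Int.even_coe_nat]
          constructor
          · intro h
            exact h.mp (even_two_mul _)
          · intro h
            exact ⟨fun _ => h, fun _ => even_two_mul _⟩
        rcases Nat.even_or_odd s0 with h | h
        · rw [h.neg_one_pow, (h1.mpr h).neg_one_pow]
        · have : Odd t.natAbs := by
            rw [← Nat.not_even_iff_odd, h1, Nat.not_even_iff_odd]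
            exact h
          rw [h.neg_one_pow, this.neg_one_pow]
      have e3 : (((m ^ 2 + 4 * t ^ 2).natAbs : ℕ) : ℝ) = (m : ℝ) ^ 2 + 4 * t ^ 2 := by
        have : (((m ^ 2 + 4 * t ^ 2).natAbs : ℕ) : ℤ) = m ^ 2 + 4 * t ^ 2 := by
          rw [Int.natCast_natAbs, abs_of_nonneg (by positivity)]
        calc (((m ^ 2 + 4 * t ^ 2).natAbs : ℕ) : ℝ)
            = ((((m ^ 2 + 4 * t ^ 2).natAbs : ℕ) : ℤ) : ℝ) := (Int.cast_natCast _).symm
          _ = ((m ^ 2 + 4 * t ^ 2 : ℤ) : ℝ) := by rw [this]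
          _ = _ := by push_cast; ring
      rw [e1, e2, e3]
      have e4 : Real.exp (-Real.pi * ((m : ℝ) ^ 2 + 4 * t ^ 2) * y) =
          Real.exp (-Real.pi * m ^ 2 * y) * Real.exp (-Real.pi * (4 * t ^ 2) * y) := by
        rw [← Real.exp_add]
        congr 1
        ring
      rw [e4]
      push_cast
      ring
    · intro s _ hs
      have : ¬ (t % ((2 * q : ℕ) : ℤ) = s) := by
        rw [hs0]
        intro h
        exact hs (by exact_mod_cast h.symm)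
      rw [if_neg this]
      simp
  · rw [if_neg h4]
    symm
    apply sum_eq_zero
    intro r hr
    rw [mem_filter] at hr
    apply hinner r (by rw [mem_filter]; exact hr)
    rintro rfl
    apply h4
    rw [hm4]
    exact_mod_cast hr.2

/-- the coefficients used in the theta series are bounded by an exponential -/
theorem phi_bound (q : ℕ) (χ : DirichletCharacter ℂ q) (y : ℝ) (k : ℕ) :
    ‖χ (k : ZMod q) * (Real.exp (-Real.pi * k * y) : ℂ)‖ ≤ 1 * Real.exp (-(Real.pi * y) * k) := by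
  rw [norm_mul]
  apply mul_le_mul (DirichletCharacter.norm_le_one χ _) _ (norm_nonneg _) zero_le_one
  rw [Complex.norm_real, Real.norm_eq_abs, abs_of_pos (Real.exp_pos _)]
  apply le_of_eq
  congr 1
  ring

theorem hasSum_mul_pairR (f g : ℤ → ℝ) (a b : ℝ) (hf : HasSum f a) (hg : HasSum g b) :
    HasSum (fun p : ℤ × ℤ => f p.1 * g p.2) (a * b) := by
  have hf' : Summable fun n => ‖f n‖ := hf.summable.norm
  have hg' : Summable fun n => ‖g n‖ := hg.summable.norm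
  exact hf.mul hg (summable_mul_of_summable_norm hf' hg')

theorem hs_pair (q : ℕ) (hq : 0 < q) (y : ℝ) (hy : 0 < y) (r s : ℕ) (hr : r < 4 * q)
    (hs : s < 2 * q) :
    HasSum (fun p : ℤ × ℤ =>
      ((if p.1 % ((4 * q : ℕ) : ℤ) = r then (p.1 : ℝ) * Real.exp (-Real.pi * p.1 ^ 2 * y) else 0) *
        (if p.2 % ((2 * q : ℕ) : ℤ) = s then Real.exp (-Real.pi * (4 * p.2 ^ 2) * y) else 0) : ℝ))
      ((4 * q * oddKernel (((r : ℝ) / (4 * q) : ℝ) : UnitAddCircle) (16 * q ^ 2 * y)) *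
        evenKernel (((s : ℝ) / (2 * q) : ℝ) : UnitAddCircle) (16 * q ^ 2 * y)) := by
  have h1 := hs_odd q hq y hy r hr
  have h2 := hs_even q hq y hy s hs
  exact hasSum_mul_pairR (fun m : ℤ => if m % ((4 * q : ℕ) : ℤ) = r then
      (m : ℝ) * Real.exp (-Real.pi * m ^ 2 * y) else 0) (fun t : ℤ => if t % ((2 * q : ℕ) : ℤ) = s then
      Real.exp (-Real.pi * (4 * t ^ 2) * y) else 0) _ _ h1 h2

theorem TH_eq (q : ℕ) [NeZero q] (χ : DirichletCharacter ℂ q) (y : ℝ) (hy : 0 < y) :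
    TH q χ y = ∑ r ∈ (range (4 * q)).filter (fun r => r % 4 = 1), ∑ s ∈ range (2 * q),
      (-1 : ℂ) ^ s * χ ((r ^ 2 + 4 * s ^ 2 : ℕ) : ZMod q) *
        (((4 * q * oddKernel (((r : ℝ) / (4 * q) : ℝ) : UnitAddCircle) (16 * q ^ 2 * y)) *
        evenKernel (((s : ℝ) / (2 * q) : ℝ) : UnitAddCircle) (16 * q ^ 2 * y) : ℝ) : ℂ) := by
  have hq : 0 < q := NeZero.pos q
  have h1 := sum_primary (fun k => χ (k : ZMod q) * (Real.exp (-Real.pi * k * y) : ℂ)) 1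
    (Real.pi * y) (by positivity) (phi_bound q χ y)
  have h2 : HasSum (fun p : ℤ × ℤ => ∑ r ∈ (range (4 * q)).filter (fun r => r % 4 = 1),
      ∑ s ∈ range (2 * q), (-1 : ℂ) ^ s * χ ((r ^ 2 + 4 * s ^ 2 : ℕ) : ZMod q) *
        (((if p.1 % ((4 * q : ℕ) : ℤ) = r then (p.1 : ℝ) * Real.exp (-Real.pi * p.1 ^ 2 * y) else 0) *
          (if p.2 % ((2 * q : ℕ) : ℤ) = s then Real.exp (-Real.pi * (4 * p.2 ^ 2) * y) else 0) : ℝ) : ℂ))
      (∑ r ∈ (range (4 * q)).filter (fun r => r % 4 = 1), ∑ s ∈ range (2 * q),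
      (-1 : ℂ) ^ s * χ ((r ^ 2 + 4 * s ^ 2 : ℕ) : ZMod q) *
        (((4 * q * oddKernel (((r : ℝ) / (4 * q) : ℝ) : UnitAddCircle) (16 * q ^ 2 * y)) *
        evenKernel (((s : ℝ) / (2 * q) : ℝ) : UnitAddCircle) (16 * q ^ 2 * y) : ℝ) : ℂ)) := by
    apply hasSum_sum
    intro r hr
    apply hasSum_sum
    intro s hs
    rw [mem_filter, mem_range] at hr
    rw [mem_range] at hs
    have h := (Complex.hasSum_ofReal.mpr (hs_pair q hq y hy r s hr.1 hs)).mul_left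
      ((-1 : ℂ) ^ s * χ ((r ^ 2 + 4 * s ^ 2 : ℕ) : ZMod q))
    exact h
  have h3 := h1.unique (h2.congr_fun (fun p => (pt_one q hq χ y p.1 p.2)))
  rw [← h3]
  unfold TH
  apply tsum_congr
  intro n
  ring

theorem hasSum_mul_pair (f g : ℤ → ℂ) (a b : ℂ) (hf : HasSum f a) (hg : HasSum g b) :
    HasSum (fun p : ℤ × ℤ => f p.1 * g p.2) (a * b) := by
  have hf' : Summable fun n => ‖f n‖ := hf.summable.norm
  have hg' : Summable fun n => ‖g n‖ := hg.summable.norm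
  exact hf.mul hg (summable_mul_of_summable_norm hf' hg')

theorem dual_pair (a b Y : ℝ) (hY : 0 < Y) :
    HasSum (fun p : ℤ × ℤ =>
      (-Complex.I * p.1 * Complex.exp (2 * Real.pi * Complex.I * a * p.1) *
        (Real.exp (-Real.pi * p.1 ^ 2 * (1 / Y)) : ℂ)) *
      (Complex.exp (2 * Real.pi * Complex.I * b * p.2) *
        (Real.exp (-Real.pi * p.2 ^ 2 * (1 / Y)) : ℂ)))
      ((sinKernel (a : UnitAddCircle) (1 / Y) : ℂ) * (cosKernel (b : UnitAddCircle) (1 / Y) : ℂ)) := by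
  have hY' : 0 < 1 / Y := by positivity
  have h1 := hasSum_int_sinKernel a hY'
  have h2 := hasSum_int_cosKernel b hY'
  exact hasSum_mul_pair (fun n : ℤ => -Complex.I * n * Complex.exp (2 * Real.pi * Complex.I * a * n) *
        (Real.exp (-Real.pi * n ^ 2 * (1 / Y)) : ℂ)) (fun n : ℤ =>
      Complex.exp (2 * Real.pi * Complex.I * b * n) *
        (Real.exp (-Real.pi * n ^ 2 * (1 / Y)) : ℂ)) _ _ h1 h2

theorem kernel_fe (a b : UnitAddCircle) (Y : ℝ) (hY : 0 < Y) :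
    oddKernel a Y * evenKernel b Y = 1 / Y ^ 2 * (sinKernel a (1 / Y) * cosKernel b (1 / Y)) := by
  rw [oddKernel_functional_equation, evenKernel_functional_equation]
  have e : Y ^ 2 = Y ^ (3 / 2 : ℝ) * Y ^ (1 / 2 : ℝ) := by
    rw [← Real.rpow_add hY, ← Real.rpow_natCast]
    norm_num
  rw [e]
  have h1 : Y ^ (3 / 2 : ℝ) ≠ 0 := (Real.rpow_pos_of_pos hY _).ne'
  have h2 : Y ^ (1 / 2 : ℝ) ≠ 0 := (Real.rpow_pos_of_pos hY _).ne'
  field_simp

theorem TH_dual (q : ℕ) [NeZero q] (χ : DirichletCharacter ℂ q) (y : ℝ) (hy : 0 < y) :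
    HasSum (fun p : ℤ × ℤ => (4 * q / (16 * q ^ 2 * y) ^ 2 : ℂ) * (-Complex.I * p.1) *
      (∑ r ∈ (range (4 * q)).filter (fun r => r % 4 = 1), ∑ s ∈ range (2 * q),
        (-1 : ℂ) ^ s * χ ((r ^ 2 + 4 * s ^ 2 : ℕ) : ZMod q) *
          Complex.exp (2 * Real.pi * Complex.I * ((r : ℂ) / (4 * q)) * p.1) *
          Complex.exp (2 * Real.pi * Complex.I * ((s : ℂ) / (2 * q)) * p.2)) *
      (Real.exp (-Real.pi * (p.1 ^ 2 + p.2 ^ 2) / (16 * q ^ 2 * y)) : ℂ)) (TH q χ y) := by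
  have hq : 0 < q := NeZero.pos q
  have hq0 : (0 : ℝ) < q := by exact_mod_cast hq
  have hY : 0 < 16 * (q : ℝ) ^ 2 * y := by positivity
  rw [TH_eq q χ y hy]
  have h2 : HasSum (fun p : ℤ × ℤ => ∑ r ∈ (range (4 * q)).filter (fun r => r % 4 = 1),
      ∑ s ∈ range (2 * q), ((-1 : ℂ) ^ s * χ ((r ^ 2 + 4 * s ^ 2 : ℕ) : ZMod q) *
        (4 * q / (16 * q ^ 2 * y) ^ 2)) *
        ((-Complex.I * p.1 * Complex.exp (2 * Real.pi * Complex.I * (((r : ℝ) / (4 * q) : ℝ) : ℂ) * p.1) *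
        (Real.exp (-Real.pi * p.1 ^ 2 * (1 / (16 * (q : ℝ) ^ 2 * y))) : ℂ)) *
      (Complex.exp (2 * Real.pi * Complex.I * (((s : ℝ) / (2 * q) : ℝ) : ℂ) * p.2) *
        (Real.exp (-Real.pi * p.2 ^ 2 * (1 / (16 * (q : ℝ) ^ 2 * y))) : ℂ))))
      (∑ r ∈ (range (4 * q)).filter (fun r => r % 4 = 1), ∑ s ∈ range (2 * q),
      (-1 : ℂ) ^ s * χ ((r ^ 2 + 4 * s ^ 2 : ℕ) : ZMod q) *
        (((4 * q * oddKernel (((r : ℝ) / (4 * q) : ℝ) : UnitAddCircle) (16 * q ^ 2 * y)) *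
        evenKernel (((s : ℝ) / (2 * q) : ℝ) : UnitAddCircle) (16 * q ^ 2 * y) : ℝ) : ℂ)) := by
    apply hasSum_sum
    intro r _
    apply hasSum_sum
    intro s _
    have h := (dual_pair ((r : ℝ) / (4 * q)) ((s : ℝ) / (2 * q)) _ hY).mul_left
      ((-1 : ℂ) ^ s * χ ((r ^ 2 + 4 * s ^ 2 : ℕ) : ZMod q) * (4 * q / (16 * q ^ 2 * y) ^ 2))
    have e : (-1 : ℂ) ^ s * χ ((r ^ 2 + 4 * s ^ 2 : ℕ) : ZMod q) *
        (((4 * q * oddKernel (((r : ℝ) / (4 * q) : ℝ) : UnitAddCircle) (16 * q ^ 2 * y)) *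
        evenKernel (((s : ℝ) / (2 * q) : ℝ) : UnitAddCircle) (16 * q ^ 2 * y) : ℝ) : ℂ) =
        ((-1 : ℂ) ^ s * χ ((r ^ 2 + 4 * s ^ 2 : ℕ) : ZMod q) * (4 * q / (16 * q ^ 2 * y) ^ 2)) *
        ((sinKernel (((r : ℝ) / (4 * q) : ℝ) : UnitAddCircle) (1 / (16 * (q : ℝ) ^ 2 * y)) : ℂ) *
          (cosKernel (((s : ℝ) / (2 * q) : ℝ) : UnitAddCircle) (1 / (16 * (q : ℝ) ^ 2 * y)) : ℂ)) := by
      rw [mul_assoc (4 * (q : ℝ)), kernel_fe _ _ _ hY]
      push_cast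
      ring
    rw [e]
    exact h
  refine h2.congr_fun ?_
  intro p
  have e : (Real.exp (-Real.pi * ((p.1 : ℝ) ^ 2 + (p.2 : ℝ) ^ 2) / (16 * q ^ 2 * y)) : ℂ) =
      (Real.exp (-Real.pi * p.1 ^ 2 * (1 / (16 * (q : ℝ) ^ 2 * y))) : ℂ) *
      (Real.exp (-Real.pi * p.2 ^ 2 * (1 / (16 * (q : ℝ) ^ 2 * y))) : ℂ) := by
    rw [← Complex.ofReal_mul, ← Real.exp_add]
    congr 2
    ring
  rw [e, mul_sum, sum_mul]
  apply sum_congr rfl
  intro r _
  rw [mul_sum, sum_mul]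
  apply sum_congr rfl
  intro s _
  push_cast
  ring

theorem I_zpow_four (k : ℤ) : Complex.I ^ (4 * k) = 1 := by
  rw [zpow_mul]
  have : Complex.I ^ (4 : ℤ) = 1 := by
    have : Complex.I ^ (4 : ℤ) = Complex.I ^ 4 := by norm_cast
    rw [this, Complex.I_pow_four]
  rw [this, one_zpow]

theorem I_zpow_odd (z : ℤ) (hz : z % 2 = 1) :
    Complex.I ^ z = Complex.I * ((ZMod.χ₄ (z : ZMod 4) : ℤ) : ℂ) := by
  have h4 : z % 4 = 1 ∨ z % 4 = 3 := by omega
  have hz4 : z = 4 * (z / 4) + z % 4 := (Int.mul_ediv_add_emod z 4).symm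
  rcases h4 with h | h
  · rw [ZMod.χ₄_int_one_mod_four h]
    rw [hz4, h, zpow_add₀ Complex.I_ne_zero, I_zpow_four]
    simp
  · rw [ZMod.χ₄_int_three_mod_four h]
    rw [hz4, h, zpow_add₀ Complex.I_ne_zero, I_zpow_four]
    have : Complex.I ^ (3 : ℤ) = Complex.I ^ 3 := by norm_cast
    rw [this, Complex.I_pow_three]
    simp

theorem I_zpow_neg_even (z : ℤ) (hz : z % 2 = 0) : Complex.I ^ (-z) = Complex.I ^ z := by
  have h : -z = z + 4 * (-(z / 2)) := by omega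
  rw [h, zpow_add₀ Complex.I_ne_zero, I_zpow_four, mul_one]

theorem I_zpow_neg_odd (z : ℤ) (hz : z % 2 = 1) : Complex.I ^ (-z) = -Complex.I ^ z := by
  rw [I_zpow_odd z hz, I_zpow_odd (-z) (by omega)]
  have : ZMod.χ₄ ((-z : ℤ) : ZMod 4) = - ZMod.χ₄ (z : ZMod 4) := by
    have h4 : z % 4 = 1 ∨ z % 4 = 3 := by omega
    rcases h4 with h | h
    · rw [ZMod.χ₄_int_one_mod_four h, ZMod.χ₄_int_three_mod_four (by omega)]
    · rw [ZMod.χ₄_int_three_mod_four h, ZMod.χ₄_int_one_mod_four (by omega), neg_neg]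
  rw [this]
  push_cast
  ring

theorem TH_level (q : ℕ) [NeZero q] (hq : Odd q) (χ : DirichletCharacter ℂ q)
    (hχ : χ.IsPrimitive) : ∃ K : ℂ, ‖K‖ = q ∧ ∀ y : ℝ, 0 < y →
      TH q χ y = (32 * q / (16 * q ^ 2 * y) ^ 2 : ℂ) * K * TH q χ⁻¹ (2 / (16 * q ^ 2 * y)) := by
  obtain ⟨K, hK, hD⟩ := dft q hq χ hχ
  have hq2 : (q : ℤ) % 2 = 1 := by
    obtain ⟨k, hk⟩ := hq
    omega
  have hqpos : 0 < q := NeZero.pos q
  have hq0 : (0 : ℝ) < q := by exact_mod_cast hqpos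
  set x4 : ℂ := ((ZMod.χ₄ ((q : ℤ) : ZMod 4) : ℤ) : ℂ) with hx4
  have hx4n : ‖x4‖ = 1 := by
    have h4 : (q : ℤ) % 4 = 1 ∨ (q : ℤ) % 4 = 3 := by omega
    rcases h4 with h | h
    · rw [hx4, ZMod.χ₄_int_one_mod_four h]; simp
    · rw [hx4, ZMod.χ₄_int_three_mod_four h]; simp
  have hu2 : IsUnit ((2 : ℕ) : ZMod q) := by
    rw [ZMod.isUnit_iff_coprime]
    exact (Nat.coprime_two_left.mpr hq)
  have hx2 : ‖χ⁻¹ ((2 : ℕ) : ZMod q)‖ = 1 := by
    obtain ⟨u, hu⟩ := hu2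
    rw [← hu]
    exact DirichletCharacter.unit_norm_eq_one _ u
  refine ⟨x4 * K * χ⁻¹ ((2 : ℕ) : ZMod q), by rw [norm_mul, norm_mul, hx4n, hK, hx2]; simp, ?_⟩
  intro y hy
  set Y : ℝ := 16 * (q : ℝ) ^ 2 * y with hYdef
  have hY : 0 < Y := by positivity
  have hYc : (16 * (q : ℂ) ^ 2 * y) = (Y : ℂ) := by rw [hYdef]; push_cast; ring
  rw [hYc]
  have h1 := TH_dual q χ y hy
  rw [hYc] at h1
  simp_rw [hD, ← hYdef] at h1
  -- involution
  have h2 := ((Equiv.neg ℤ).prodCongr (Equiv.refl ℤ)).hasSum_iff.mpr h1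
  have h3 := h1.add h2
  have h4 := (sum_odd (fun k => χ⁻¹ (k : ZMod q) * (Real.exp (-Real.pi * k * (1 / Y)) : ℂ)) 1
    (Real.pi * (1 / Y)) (by positivity) (phi_bound q χ⁻¹ (1 / Y))).mul_left
    ((16 * q / (Y : ℂ) ^ 2) * (K * x4))
  have h5 := h3.unique (h4.congr_fun ?_)
  · have e1 : (∑' k : ℕ, (an k : ℂ) * (χ⁻¹ ((2 * k : ℕ) : ZMod q) *
        (Real.exp (-Real.pi * ((2 * k : ℕ) : ℝ) * (1 / Y)) : ℂ))) =
        χ⁻¹ ((2 : ℕ) : ZMod q) * TH q χ⁻¹ (2 / Y) := by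
      unfold TH
      rw [← tsum_mul_left]
      apply tsum_congr
      intro k
      rw [Nat.cast_mul, map_mul]
      have e2 : -Real.pi * ((2 * k : ℕ) : ℝ) * (1 / Y) = -Real.pi * k * (2 / Y) := by
        push_cast; ring
      rw [e2]
      ring
    rw [e1] at h5
    have h6 : (2 : ℂ) * TH q χ y = 2 * ((32 * q / (Y : ℂ) ^ 2) * (x4 * K * χ⁻¹ ((2 : ℕ) : ZMod q)) *
        TH q χ⁻¹ (2 / Y)) := by
      rw [two_mul, h5]
      ring
    exact mul_left_cancel₀ two_ne_zero h6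
  · rintro ⟨n, n'⟩
    simp only [Function.comp, Equiv.prodCongr_apply, Prod.map, Equiv.neg_apply, Equiv.refl_apply]
    have hexp : (Real.exp (-Real.pi * (((-n : ℤ) : ℝ) ^ 2 + (n' : ℝ) ^ 2) / Y) : ℂ) =
        (Real.exp (-Real.pi * ((n : ℝ) ^ 2 + (n' : ℝ) ^ 2) / Y) : ℂ) := by
      push_cast
      rw [neg_sq]
    have hsq : (((-n) ^ 2 + n' ^ 2 : ℤ) : ZMod q) = ((n ^ 2 + n' ^ 2 : ℤ) : ZMod q) := by
      rw [neg_sq]
    by_cases hn' : Odd n'
    · have hn'2 : n' % 2 = 1 := Int.odd_iff.mp hn'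
      simp only [if_pos hn']
      rw [hexp, hsq]
      have hnat : (((n ^ 2 + n' ^ 2).natAbs : ℕ) : ℤ) = n ^ 2 + n' ^ 2 := by
        rw [Int.natCast_natAbs, abs_of_nonneg (by positivity)]
      have e1 : (((n ^ 2 + n' ^ 2).natAbs : ℕ) : ZMod q) = ((n ^ 2 + n' ^ 2 : ℤ) : ZMod q) := by
        rw [← hnat]
        simp
      have e3 : (((n ^ 2 + n' ^ 2).natAbs : ℕ) : ℝ) = (n : ℝ) ^ 2 + n' ^ 2 := by
        calc (((n ^ 2 + n' ^ 2).natAbs : ℕ) : ℝ)
            = ((((n ^ 2 + n' ^ 2).natAbs : ℕ) : ℤ) : ℝ) := (Int.cast_natCast _).symm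
          _ = ((n ^ 2 + n' ^ 2 : ℤ) : ℝ) := by rw [hnat]
          _ = _ := by push_cast; ring
      rcases Int.emod_two_eq_zero_or_one n with hn | hn
      · have hnot : ¬ (n % 2 = 1 ∧ n' % 2 = 1) := fun h => by
          have := h.1
          omega
        simp only [if_neg hnot]
        have hqn : ((q : ℤ) * n) % 2 = 0 := by
          rw [Int.mul_emod, hn]; simp
        have : (q : ℤ) * (-n) = -((q : ℤ) * n) := by ring
        rw [this, I_zpow_neg_even _ hqn]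
        push_cast
        ring
      · have hboth : n % 2 = 1 ∧ n' % 2 = 1 := ⟨hn, hn'2⟩
        simp only [if_pos hboth]
        have hqn : ((q : ℤ) * n) % 2 = 1 := by
          rw [Int.mul_emod, hn, hq2]; norm_num
        have : (q : ℤ) * (-n) = -((q : ℤ) * n) := by ring
        rw [this, I_zpow_neg_odd _ hqn, I_zpow_odd _ hqn]
        have h7 : ((ZMod.χ₄ (((q : ℤ) * n : ℤ) : ZMod 4) : ℤ) : ℂ) =
            x4 * ((ZMod.χ₄ (n : ZMod 4) : ℤ) : ℂ) := by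
          rw [Int.cast_mul, map_mul, hx4]
          push_cast
          ring
        rw [h7, e1, e3]
        have h8 : -Real.pi * ((n : ℝ) ^ 2 + (n' : ℝ) ^ 2) * (1 / Y) =
            -Real.pi * ((n : ℝ) ^ 2 + (n' : ℝ) ^ 2) / Y := by ring
        rw [h8]
        push_cast
        linear_combination (-(16 : ℂ) * q / Y ^ 2 * n * K * x4 *
          ((ZMod.χ₄ (n : ZMod 4) : ℤ) : ℂ) * χ⁻¹ ((n : ZMod q) ^ 2 + (n' : ZMod q) ^ 2) *
          Complex.exp (-Real.pi * ((n : ℂ) ^ 2 + (n' : ℂ) ^ 2) / Y)) * Complex.I_sq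
    · have hnot : ¬ (n % 2 = 1 ∧ n' % 2 = 1) := fun h => hn' (Int.odd_iff.mpr h.2)
      simp only [if_neg hn', if_neg hnot]
      ring

theorem theta_fe (q : ℕ) [NeZero q] (hq : Odd q) (χ : DirichletCharacter ℂ q) (hχ : χ.IsPrimitive) :
    ∃ w : ℂ, ‖w‖ = 1 ∧ ∀ x : ℝ, 0 < x →
      TH q χ (1 / (Real.sqrt 8 * q * x)) = w * (x : ℂ) ^ 2 * TH q χ⁻¹ (x / (Real.sqrt 8 * q)) := by
  obtain ⟨K, hK, h⟩ := TH_level q hq χ hχ
  have hqpos : 0 < q := NeZero.pos q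
  have hq0 : (0 : ℝ) < q := by exact_mod_cast hqpos
  have hqc : (q : ℂ) ≠ 0 := by exact_mod_cast hqpos.ne'
  refine ⟨K / q, by rw [norm_div, hK]; simp [hqpos.ne'], ?_⟩
  intro x hx
  have h8 : 0 < Real.sqrt 8 := Real.sqrt_pos.mpr (by norm_num)
  have h8s : Real.sqrt 8 ^ 2 = 8 := Real.sq_sqrt (by norm_num)
  have hy : 0 < 1 / (Real.sqrt 8 * q * x) := by positivity
  rw [h _ hy]
  have e1 : (2 : ℝ) / (16 * q ^ 2 * (1 / (Real.sqrt 8 * q * x))) = x / (Real.sqrt 8 * q) := by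
    field_simp
    nlinarith [h8s]
  rw [e1]
  have hxc : (x : ℂ) ≠ 0 := by exact_mod_cast hx.ne'
  have e2 : (32 * (q : ℝ) / (16 * q ^ 2 * (1 / (Real.sqrt 8 * q * x))) ^ 2) = x ^ 2 / q := by
    field_simp
    nlinarith [h8s]
  have e3 : (32 * (q : ℂ) / (16 * q ^ 2 * ((1 / (Real.sqrt 8 * q * x) : ℝ) : ℂ)) ^ 2) =
      (x : ℂ) ^ 2 / q := by
    have := congrArg (fun z : ℝ => (z : ℂ)) e2
    push_cast at this ⊢
    exact this
  rw [e3]
  field_simp

end Pool.Agent.H304R2.EC
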